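import Pool.Agent.H.MP_e98f69_an.E.AccA

/-! A radial limit point belongs to exactly one impression or to all of them. -/

set_option autoImplicit false

open Set Filter Topology Metric

namespace Pool.Agent.H.MP_e98f69_an

theorem acc_sq {a b : ℂ} (ha : ‖a‖ = 1) (hb : ‖b‖ = 1) :
    ‖a - b‖ ^ 2 = 2 - 2 * (a.re * b.re + a.im * b.im) := by
  have h1 : a.re * a.re + a.im * a.im = 1 := by
    rw [← Complex.normSq_apply, ← Complex.sq_norm, ha, one_pow]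
  have h2 : b.re * b.re + b.im * b.im = 1 := by
    rw [← Complex.normSq_apply, ← Complex.sq_norm, hb, one_pow]
  rw [Complex.sq_norm, Complex.normSq_apply]
  simp only [Complex.sub_re, Complex.sub_im]
  linear_combination h1 + h2

theorem acc_real {p r m : ℝ} (e5 : p ^ 2 + r ^ 2 = 1) (m0 : 0 < m) (hm : m ^ 2 = 2 - 2 * p)
    (hp : 0 < 2 + 2 * p) :
    ∃ x y : ℝ, x * x + y * y = 1 ∧ 2 - 2 * x < m ^ 2 ∧ x * p - y * r < p := by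
  have m2 : 0 < 2 - 2 * p := by
    rw [← hm]
    positivity
  have r0 : 0 < r ^ 2 := by nlinarith
  have r1 : r ^ 2 ≤ 1 := by nlinarith [sq_nonneg p]
  obtain ⟨s, s0, s1, s2⟩ : ∃ s : ℝ, 0 < s ∧ s ≤ 1 / 2 ∧ s ≤ m / 2 :=
    ⟨min (1 / 2) (m / 2), lt_min (by norm_num) (by linarith), min_le_left _ _, min_le_right _ _⟩
  have y1 : (s * r) ^ 2 ≤ s ^ 2 := by
    rw [mul_pow]
    exact mul_le_of_le_one_right (sq_nonneg s) r1
  have y2 : s ^ 2 ≤ 1 / 4 := by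
    have := pow_le_pow_left₀ s0.le s1 2
    linarith
  have y3 : s ^ 2 ≤ m ^ 2 / 4 := by
    have := pow_le_pow_left₀ s0.le s2 2
    linarith
  have y4 : 0 ≤ (s * r) ^ 2 := sq_nonneg _
  have x0 : 0 ≤ 1 - (s * r) ^ 2 := by linarith
  obtain ⟨x, x2, x1⟩ : ∃ x : ℝ, 0 ≤ x ∧ x ^ 2 = 1 - (s * r) ^ 2 :=
    ⟨Real.sqrt (1 - (s * r) ^ 2), Real.sqrt_nonneg _, Real.sq_sqrt x0⟩
  have x3 : x ≤ 1 := by
    refine (sq_le_sq₀ x2 zero_le_one).1 ?_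
    rw [x1]
    linarith
  have x5 : x ^ 2 ≤ x := by nlinarith
  have x4 : 1 - x ≤ (s * r) ^ 2 := by linarith
  have h5 : -1 ≤ p := by linarith
  have h6 : (1 - x) * (-p) ≤ (s * r) ^ 2 := by
    have h7 : (1 - x) * (-p) ≤ (1 - x) * 1 :=
      mul_le_mul_of_nonneg_left (by linarith) (by linarith)
    linarith
  have h8 : (s * r) ^ 2 < s * r ^ 2 := by
    have h9 : (s * r) ^ 2 = s * (s * r ^ 2) := by ring
    have h10 : 0 < s * r ^ 2 := mul_pos s0 r0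
    rw [h9]
    exact mul_lt_of_lt_one_left h10 (by linarith)
  refine ⟨x, s * r, ?_, ?_, ?_⟩
  · have : (s * r) * (s * r) = (s * r) ^ 2 := by ring
    rw [this, ← sq, x1]
    ring
  · have : 0 < m ^ 2 := by positivity
    linarith
  · have e : s * r * r = s * r ^ 2 := by ring
    rw [e]
    linarith

theorem acc_far {ζ q : ℂ} (hζ : ‖ζ‖ = 1) (hq : ‖q‖ = 1) (h1 : q ≠ ζ) (h2 : q ≠ -ζ) :
    ∃ ξ : ℂ, ‖ξ‖ = 1 ∧ ‖ξ - q‖ < ‖q - ζ‖ ∧ ‖q - ζ‖ < ‖ξ - ζ‖ := by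
  have e1 : ζ.re * ζ.re + ζ.im * ζ.im = 1 := by
    rw [← Complex.normSq_apply, ← Complex.sq_norm, hζ, one_pow]
  have e2 : q.re * q.re + q.im * q.im = 1 := by
    rw [← Complex.normSq_apply, ← Complex.sq_norm, hq, one_pow]
  have e3 := acc_sq hq hζ
  have e4 : ‖q - -ζ‖ ^ 2 = 2 + 2 * (q.re * ζ.re + q.im * ζ.im) := by
    have := acc_sq hq (b := -ζ) (by rw [norm_neg, hζ])
    rw [this]
    simp only [Complex.neg_re, Complex.neg_im]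
    ring
  have m0 : 0 < ‖q - ζ‖ := norm_pos_iff.2 (sub_ne_zero.2 h1)
  have m1 : 0 < ‖q - -ζ‖ := norm_pos_iff.2 (sub_ne_zero.2 h2)
  have e5 : (q.re * ζ.re + q.im * ζ.im) ^ 2 + (q.im * ζ.re - q.re * ζ.im) ^ 2 = 1 := by
    have : (q.re * ζ.re + q.im * ζ.im) ^ 2 + (q.im * ζ.re - q.re * ζ.im) ^ 2 =
      (q.re * q.re + q.im * q.im) * (ζ.re * ζ.re + ζ.im * ζ.im) := by ring
    rw [this, e1, e2, one_mul]
  obtain ⟨x, y, hxy, hx1, hx2⟩ := acc_real e5 m0 e3 (by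
    rw [← e4]
    positivity)
  have hl : ‖(⟨x, y⟩ : ℂ)‖ = 1 := by
    have h3 : ‖(⟨x, y⟩ : ℂ)‖ ^ 2 = 1 := by
      rw [Complex.sq_norm, Complex.normSq_mk]
      linarith
    exact (pow_eq_one_iff_of_nonneg (norm_nonneg _) two_ne_zero).1 h3
  have hξ : ‖(⟨x, y⟩ : ℂ) * q‖ = 1 := by rw [norm_mul, hl, hq, one_mul]
  have d1 := acc_sq hξ hq
  have d2 := acc_sq hξ hζ
  simp only [Complex.mul_re, Complex.mul_im] at d1 d2
  have d3 : ‖(⟨x, y⟩ : ℂ) * q - q‖ ^ 2 = 2 - 2 * x := by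
    rw [d1]
    linear_combination (-2 * x) * e2
  have d4 : ‖(⟨x, y⟩ : ℂ) * q - ζ‖ ^ 2 = 2 - 2 * (x * (q.re * ζ.re + q.im * ζ.im) -
      y * (q.im * ζ.re - q.re * ζ.im)) := by
    rw [d2]
    ring
  refine ⟨(⟨x, y⟩ : ℂ) * q, hξ, ?_, ?_⟩
  · refine lt_of_pow_lt_pow_left₀ 2 m0.le ?_
    rw [d3]
    exact hx1
  · refine lt_of_pow_lt_pow_left₀ 2 (norm_nonneg _) ?_
    rw [d4, e3]
    linarith

namespace Siegel

variable {P Q : Polynomial ℂ} {S : Set ℂ} {θ : ℝ} {φ : ℂ → ℂ} (X : Siegel P Q S θ φ)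

include X

/-- `Z_x` contains all points of the circle closer to `q` than `ζ`, for `q ∈ Z_x`, `q ≠ ζ`.
Proof: let `ξ = u q`, `‖u‖ = 1`, `‖u - 1‖ < ‖q - ζ‖`. If `u = 1` nothing to do. By `dense_orbit` there are `k ≥ 1` with `rot θ ^ k → u`; finally
`rot θ ^ k ≠ 1` and `‖rot θ ^ k - 1‖ < ‖q - ζ‖`, so `interlace` and `acc_step` give `rel S φ (rot θ ^ k * q) x`; the relation is closed
(`isClosed_Zs`). -/
theorem acc_ball {ζ q x : ℂ} (hζ : ‖ζ‖ = 1) (hq : ‖q‖ = 1)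
    (hx : Tendsto (fun r : ℝ => X.psi ((r : ℂ) * ζ)) (𝓝[<] 1) (𝓝 x)) (hqx : rel S φ q x)
    (hne : q ≠ ζ) {ξ : ℂ} (hξ : ‖ξ‖ = 1) (hlt : ‖ξ - q‖ < ‖q - ζ‖) : rel S φ ξ x := by
  by_cases hqξ : ξ = q
  · rw [hqξ]
    exact hqx
  have hmem : ξ ∈ Zs S φ x := by
    rw [← (isClosed_Zs S φ x).closure_eq, Metric.mem_closure_iff]
    intro ε hε
    have hmin : 0 < min ε (‖q - ζ‖ - ‖ξ - q‖) := lt_min hε (sub_pos.2 hlt)
    obtain ⟨k, hk, hk2⟩ := dense_orbit X.irr hq hξ hmin 1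
    have h1 : ‖rot θ ^ k * q - ξ‖ < ε := lt_of_lt_of_le hk2 (min_le_left _ _)
    have h2 : ‖rot θ ^ k * q - ξ‖ < ‖q - ζ‖ - ‖ξ - q‖ := lt_of_lt_of_le hk2 (min_le_right _ _)
    have h3 : ‖rot θ ^ k - 1‖ < ‖q - ζ‖ := by
      have h4 : ‖rot θ ^ k * q - q‖ = ‖rot θ ^ k - 1‖ := by
        rw [show rot θ ^ k * q - q = (rot θ ^ k - 1) * q by ring, norm_mul, hq, mul_one]
      rw [← h4]
      calc ‖rot θ ^ k * q - q‖ = ‖(rot θ ^ k * q - ξ) + (ξ - q)‖ := by ring_nf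
        _ ≤ ‖rot θ ^ k * q - ξ‖ + ‖ξ - q‖ := norm_add_le _ _
        _ < ‖q - ζ‖ := by linarith
    have hl : ‖rot θ ^ k‖ = 1 := by rw [norm_pow, norm_rot, one_pow]
    have h5 := X.acc_step hζ hq hx hqx hk
      (interlace hζ hq hl (conna_rot_ne X.irr hk) h3)
    exact ⟨rot θ ^ k * q, ⟨by rw [norm_mul, hl, hq, one_mul], h5⟩, by
      rwa [dist_comm, dist_eq_norm]⟩
  exact hmem.2

/-- **Dichotomy for radial limits.** A radial limit point `x` at `ζ` belongs only to the impression of `ζ`, or to all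
impressions.
Proof: suppose `q0 ∈ Z_x`, `q0 ≠ ζ`. Choose `q ∈ Z_x` with `‖q - ζ‖` maximal (compact), positive. If `q ≠ -ζ`, then there are points
`ξ` of the circle arbitrarily close to `q` with `‖ξ - ζ‖ > ‖q - ζ‖` (write `q = ζ e^{i a}`, `0 < |a| < π`, `ξ = ζ e^{i a (1 + s)}` for small `s > 0`), which
contradicts maximality by `acc_ball`. So `q = -ζ`, and `acc_ball` gives all `ξ` with `‖ξ + ζ‖ < 2`, i.e. all `ξ ≠ ζ`; `ζ ∈ Z_x` by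
`radial_rel`. -/
theorem acc_dichotomy {ζ x : ℂ} (hζ : ‖ζ‖ = 1)
    (hx : Tendsto (fun r : ℝ => X.psi ((r : ℂ) * ζ)) (𝓝[<] 1) (𝓝 x)) :
    x ∈ Pc S φ ∨ ∀ ξ : ℂ, ‖ξ‖ = 1 → rel S φ ξ x → ξ = ζ := by
  by_cases hall : ∀ ξ : ℂ, ‖ξ‖ = 1 → rel S φ ξ x → ξ = ζ
  · exact Or.inr hall
  left
  push Not at hall
  obtain ⟨q0, hq0, hq0x, hq0ne⟩ := hall
  have hcomp : IsCompact (Zs S φ x) := by
    refine (isCompact_sphere (0 : ℂ) 1).of_isClosed_subset (isClosed_Zs S φ x) fun z hz => ?_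
    rw [mem_sphere_zero_iff_norm]
    exact hz.1
  obtain ⟨q, hqZ, hmax⟩ := hcomp.exists_isMaxOn (f := fun z : ℂ => ‖z - ζ‖) ⟨q0, hq0, hq0x⟩
    (by fun_prop)
  have hq : ‖q‖ = 1 := hqZ.1
  have hqx : rel S φ q x := hqZ.2
  have hne : q ≠ ζ := by
    intro h
    have h1 : ‖q0 - ζ‖ ≤ ‖q - ζ‖ := hmax ⟨hq0, hq0x⟩
    rw [h, sub_self, norm_zero] at h1
    exact hq0ne (sub_eq_zero.1 (norm_le_zero_iff.1 h1))
  have hneg : q = -ζ := by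
    by_contra hn
    obtain ⟨ξ, hξ, h1, h2⟩ := acc_far hζ hq hne hn
    have h3 := X.acc_ball hζ hq hx hqx hne hξ h1
    have h4 : ‖ξ - ζ‖ ≤ ‖q - ζ‖ := hmax ⟨hξ, h3⟩
    exact absurd h2 (not_lt.2 h4)
  intro ξ hξ
  by_cases hξζ : ξ = ζ
  · rw [hξζ]
    exact X.radial_rel hζ hx
  refine X.acc_ball hζ hq hx hqx hne hξ ?_
  have h1 := acc_sq hξ hq
  have h2 := acc_sq hq hζ
  have h3 := acc_sq hξ hζ
  have h4 : 0 < ‖ξ - ζ‖ := norm_pos_iff.2 (sub_ne_zero.2 hξζ)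
  have h5 : 0 < ‖ξ - ζ‖ ^ 2 := by positivity
  have e1 : ζ.re * ζ.re + ζ.im * ζ.im = 1 := by
    rw [← Complex.normSq_apply, ← Complex.sq_norm, hζ, one_pow]
  refine lt_of_pow_lt_pow_left₀ 2 (norm_nonneg _) ?_
  rw [h1, h2, hneg]
  rw [h3] at h5
  simp only [Complex.neg_re, Complex.neg_im]
  nlinarith

end Siegel

end Pool.Agent.H.MP_e98f69_an
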