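import Pool.Agent.H.MP_e98f69_an.E.Cross

/-! Interlaced pairs of prime ends. -/

set_option autoImplicit false

open Set Filter Topology Metric

namespace Pool.Agent.H.MP_e98f69_an

namespace Siegel

variable {P Q : Polynomial ℂ} {S : Set ℂ} {θ : ℝ} {φ : ℂ → ℂ} (X : Siegel P Q S θ φ)

include X

/-- The crossing lemma for a union of two connected pieces with a common limit point `x'`: `B1`, `B2` are
preconnected subsets of the disc whose closures are strictly on different sides of the chord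
`[ζ1, ζ2]`, `x'` is in the closure of `ψ '' B1` and of `ψ '' B2`. Then `x` is in the closure of `ψ '' B1` or of
`ψ '' B2`.
Proof: otherwise use `crossing` with `C = closure (ψ '' B1) ∪ closure (ψ '' B2)`, preconnected
(`IsPreconnected.closure`, common point `x'`), closed, not containing `x`; `w1 n = φ (u n)` from `rel_seq`.
Disjointness for large `n`: a point of `C ∩ ψ '' segment` is `ψ p` with `p` in the segment (in the disc), and
`p = φ (ψ p) ∈ closure B1 ∪ closure B2` by continuity of `φ` at `ψ p ∈ S`; use `eventually_disjoint` for the compact set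
`closure B1 ∪ closure B2` (bounded). Pick `a ∈ B1`, `a' ∈ B2` (nonempty because the closures of the images are
nonempty). -/
theorem cross_pieces {ζ1 ζ2 x x' : ℂ} (h1 : ‖ζ1‖ = 1) (h2 : ‖ζ2‖ = 1) (hr1 : rel S φ ζ1 x)
    (hr2 : rel S φ ζ2 x) {B1 B2 : Set ℂ} (hB1 : IsPreconnected B1) (hB2 : IsPreconnected B2)
    (hb1 : B1 ⊆ ball (0 : ℂ) 1) (hb2 : B2 ⊆ ball (0 : ℂ) 1)
    (hs1 : ∀ b ∈ closure B1, 0 < side ζ1 ζ2 b) (hs2 : ∀ b ∈ closure B2, side ζ1 ζ2 b < 0)
    (hx1 : x' ∈ closure (X.psi '' B1)) (hx2 : x' ∈ closure (X.psi '' B2)) :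
    x ∈ closure (X.psi '' B1) ∨ x ∈ closure (X.psi '' B2) := by
  by_contra hcon
  push Not at hcon
  obtain ⟨hc1, hc2⟩ := hcon
  have hcont : ∀ B : Set ℂ, B ⊆ ball (0 : ℂ) 1 → ContinuousOn X.psi B := fun B hB w hw =>
    (X.psi_cont (hB hw)).continuousWithinAt
  have hC : IsPreconnected (closure (X.psi '' B1) ∪ closure (X.psi '' B2)) :=
    IsPreconnected.union x' hx1 hx2 (hB1.image _ (hcont B1 hb1)).closure
      (hB2.image _ (hcont B2 hb2)).closure
  have hne : ∀ B : Set ℂ, x' ∈ closure (X.psi '' B) → B.Nonempty := by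
    intro B hB
    have h := closure_nonempty_iff.1 ⟨x', hB⟩
    exact h.of_image
  obtain ⟨a, ha⟩ := hne B1 hx1
  obtain ⟨a', ha'⟩ := hne B2 hx2
  obtain ⟨u, hu, hu1, hu2⟩ := rel_seq hr1
  obtain ⟨v, hv, hv1, hv2⟩ := rel_seq hr2
  have hcomp : IsCompact (closure B1 ∪ closure B2) := by
    have e1 : ∀ B : Set ℂ, B ⊆ ball (0 : ℂ) 1 → IsCompact (closure B) := fun B hB =>
      (isBounded_ball.subset hB).isCompact_closure
    exact (e1 B1 hb1).union (e1 B2 hb2)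
  have hev := eventually_disjoint (ζ1 := ζ1) (ζ2 := ζ2) hcomp (by
    rintro b (hb | hb)
    · exact (hs1 b hb).ne'
    · exact (hs2 b hb).ne) hu1 hv1
  have hback : ∀ B : Set ℂ, B ⊆ ball (0 : ℂ) 1 → ∀ p ∈ ball (0 : ℂ) 1,
      X.psi p ∈ closure (X.psi '' B) → p ∈ closure B := by
    intro B hB p hp hmem
    have h1 : ContinuousWithinAt φ (X.psi '' B) (X.psi p) :=
      (X.phi_an (X.psi_mem hp)).continuousAt.continuousWithinAt
    have h2 := h1.mem_closure_image hmem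
    rw [X.phi_psi hp] at h2
    refine closure_mono ?_ h2
    rintro _ ⟨_, ⟨b, hb, rfl⟩, rfl⟩
    rwa [X.phi_psi (hB hb)]
  refine X.crossing h1 h2 (w1 := fun n => φ (u n)) (w2 := fun n => φ (v n))
    (fun n => X.phi_mem (hu n)) (fun n => X.phi_mem (hv n)) hu1 hv1
    (hu2.congr fun n => (X.psi_phi (hu n)).symm) (hv2.congr fun n => (X.psi_phi (hv n)).symm)
    (hb1 ha) (hb2 ha') (hs1 a (subset_closure ha)) (hs2 a' (subset_closure ha')) hC
    (Or.inl (subset_closure ⟨a, ha, rfl⟩)) (Or.inr (subset_closure ⟨a', ha', rfl⟩)) ?_ ?_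
  · rw [(isClosed_closure.union isClosed_closure).closure_eq]
    rintro (h | h)
    · exact hc1 h
    · exact hc2 h
  · filter_upwards [hev] with n hn
    rw [disjoint_left]
    rintro _ hz ⟨p, hp, rfl⟩
    have hpb : p ∈ ball (0 : ℂ) 1 :=
      (convex_ball _ _).segment_subset (X.phi_mem (hu n)) (X.phi_mem (hv n)) hp
    refine disjoint_left.1 hn ?_ hp
    rcases hz with h | h
    · exact Or.inl (hback B1 hb1 p hpb h)
    · exact Or.inr (hback B2 hb2 p hpb h)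

/-- **T2.** If `x ∈ I(ζ1) ∩ I(ζ2)`, `x' ∈ I(ζ1') ∩ I(ζ2')` and `ζ1'`, `ζ2'` are on different sides of the chord
`[ζ1, ζ2]`, then `x ∈ I(ζ1')` or `x ∈ I(ζ2')`.
Proof: suppose not; then there is `ε > 0` such that no `z ∈ S` satisfies `‖φ z - ζ'‖ < ε`, `‖z - x‖ < ε` (`ζ' = ζ1', ζ2'`).
Choose `η < ε` such that `side > 0` on `closedBall ζ1' η` and `< 0` on `closedBall ζ2' η`; `cross_pieces` with
`B1 = ball 0 1 ∩ ball ζ1' η`, `B2 = ball 0 1 ∩ ball ζ2' η` (convex); `x' ∈ closure (ψ '' Bi)` by `rel_seq`. -/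
theorem rel_cross {ζ1 ζ2 ζ1' ζ2' x x' : ℂ} (h1 : ‖ζ1‖ = 1) (h2 : ‖ζ2‖ = 1)
    (hr1 : rel S φ ζ1 x) (hr2 : rel S φ ζ2 x) (hr1' : rel S φ ζ1' x') (hr2' : rel S φ ζ2' x')
    (hs : 0 < side ζ1 ζ2 ζ1') (hs' : side ζ1 ζ2 ζ2' < 0) :
    rel S φ ζ1' x ∨ rel S φ ζ2' x := by
  by_contra hcon
  push Not at hcon
  obtain ⟨hc1, hc2⟩ := hcon
  have hneg : ∀ ζ : ℂ, ¬ rel S φ ζ x → ∃ ε > 0, ∀ z ∈ S, ‖φ z - ζ‖ < ε → ε ≤ ‖z - x‖ := by
    intro ζ h
    unfold rel at h
    push Not at h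
    exact h
  obtain ⟨ε1, hε1, hn1⟩ := hneg _ hc1
  obtain ⟨ε2, hε2, hn2⟩ := hneg _ hc2
  have hcs := continuous_side ζ1 ζ2
  obtain ⟨r1, hp1, hb1⟩ := Metric.isOpen_iff.1 (isOpen_lt continuous_const hcs) ζ1' hs
  obtain ⟨r2, hp2, hb2⟩ := Metric.isOpen_iff.1 (isOpen_lt hcs continuous_const) ζ2' hs'
  set η : ℝ := min (min ε1 ε2) (min r1 r2) / 2 with hη
  have hmin : 0 < min (min ε1 ε2) (min r1 r2) := lt_min (lt_min hε1 hε2) (lt_min hp1 hp2)
  have hηpos : 0 < η := by positivity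
  have l1 : min (min ε1 ε2) (min r1 r2) ≤ ε1 := (min_le_left _ _).trans (min_le_left _ _)
  have l2 : min (min ε1 ε2) (min r1 r2) ≤ ε2 := (min_le_left _ _).trans (min_le_right _ _)
  have l3 : min (min ε1 ε2) (min r1 r2) ≤ r1 := (min_le_right _ _).trans (min_le_left _ _)
  have l4 : min (min ε1 ε2) (min r1 r2) ≤ r2 := (min_le_right _ _).trans (min_le_right _ _)
  have hclos : ∀ ζ : ℂ, closure (ball (0 : ℂ) 1 ∩ ball ζ η) ⊆ closedBall ζ η := fun ζ =>
    closure_minimal (inter_subset_right.trans ball_subset_closedBall) isClosed_closedBall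
  have hmem : ∀ ζ : ℂ, rel S φ ζ x' → x' ∈ closure (X.psi '' (ball (0 : ℂ) 1 ∩ ball ζ η)) := by
    intro ζ h
    obtain ⟨u, hu, hu1, hu2⟩ := rel_seq h
    have e1 : ∀ᶠ n in atTop, φ (u n) ∈ ball ζ η := hu1.eventually (ball_mem_nhds _ hηpos)
    refine mem_closure_of_tendsto hu2 ?_
    filter_upwards [e1] with n hn
    exact ⟨φ (u n), ⟨X.phi_mem (hu n), hn⟩, X.psi_phi (hu n)⟩
  have hfin : ∀ ζ : ℂ, ∀ ε > 0, η < ε → (∀ z ∈ S, ‖φ z - ζ‖ < ε → ε ≤ ‖z - x‖) →
      x ∉ closure (X.psi '' (ball (0 : ℂ) 1 ∩ ball ζ η)) := by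
    intro ζ ε hε hlt hn h
    obtain ⟨_, ⟨w, ⟨hw1, hw2⟩, rfl⟩, hd⟩ := Metric.mem_closure_iff.1 h ε hε
    have h3 := hn (X.psi w) (X.psi_mem hw1) (by
      rw [X.phi_psi hw1]
      exact (mem_ball_iff_norm.1 hw2).trans hlt)
    rw [dist_comm, dist_eq_norm] at hd
    linarith
  have hconv : ∀ ζ : ℂ, IsPreconnected (ball (0 : ℂ) 1 ∩ ball ζ η) := fun ζ =>
    ((convex_ball _ _).inter (convex_ball _ _)).isPreconnected
  rcases X.cross_pieces h1 h2 hr1 hr2 (hconv ζ1') (hconv ζ2') inter_subset_left inter_subset_left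
    (fun b hb => hb1 (by
      have := hclos _ hb
      rw [mem_closedBall] at this
      rw [mem_ball]
      linarith))
    (fun b hb => hb2 (by
      have := hclos _ hb
      rw [mem_closedBall] at this
      rw [mem_ball]
      linarith)) (hmem _ hr1') (hmem _ hr2') with h | h
  · exact hfin ζ1' ε1 hε1 (by linarith) hn1 h
  · exact hfin ζ2' ε2 hε2 (by linarith) hn2 h

end Siegel

end Pool.Agent.H.MP_e98f69_an
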