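import Pool.Agent.H.MP_e98f69_an.E.ConnA
import Pool.Agent.H.MP_e98f69_an.E.CrossB

/-! A radial limit point in another impression. -/

set_option autoImplicit false

open Set Filter Topology Metric

namespace Pool.Agent.H.MP_e98f69_an

namespace Siegel

variable {P Q : Polynomial ℂ} {S : Set ℂ} {θ : ℝ} {φ : ℂ → ℂ} (X : Siegel P Q S θ φ)

include X

/-- a radial limit belongs to the impression -/
theorem radial_rel {ζ x : ℂ} (hζ : ‖ζ‖ = 1)
    (hx : Tendsto (fun r : ℝ => X.psi ((r : ℂ) * ζ)) (𝓝[<] 1) (𝓝 x)) : rel S φ ζ x := by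
  intro ε hε
  have e1 : ∀ᶠ r : ℝ in 𝓝[<] 1, r ∈ Ioo (0 : ℝ) 1 := Ioo_mem_nhdsLT zero_lt_one
  have e2 : ∀ᶠ r : ℝ in 𝓝[<] 1, X.psi ((r : ℂ) * ζ) ∈ ball x ε := hx.eventually (ball_mem_nhds _ hε)
  have e3 : ∀ᶠ r : ℝ in 𝓝[<] 1, (r : ℂ) * ζ ∈ ball ζ ε := by
    have h1 : Tendsto (fun r : ℝ => (r : ℂ) * ζ) (𝓝[<] 1) (𝓝 ((1 : ℝ) * ζ)) :=
      (((Complex.continuous_ofReal.tendsto 1).mul_const ζ)).mono_left nhdsWithin_le_nhds
    have h2 : ((1 : ℝ) : ℂ) * ζ = ζ := by simp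
    rw [h2] at h1
    exact h1.eventually (ball_mem_nhds _ hε)
  obtain ⟨r, h1, h2, h3⟩ := (e1.and (e2.and e3)).exists
  have hmem : (r : ℂ) * ζ ∈ ball (0 : ℂ) 1 := by
    rw [mem_ball_zero_iff, norm_mul, hζ, mul_one, Complex.norm_real, Real.norm_eq_abs,
      abs_of_pos h1.1]
    exact h1.2
  refine ⟨X.psi ((r : ℂ) * ζ), X.psi_mem hmem, ?_, mem_ball_iff_norm.1 h2⟩
  rw [X.phi_psi hmem]
  exact mem_ball_iff_norm.1 h3

/-- the image of a radial limit is a radial limit (`rat_psi_iter`, continuity of the iterate at `x`, `iter_an`) -/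
theorem radial_iter {ζ x : ℂ} (hζ : ‖ζ‖ = 1)
    (hx : Tendsto (fun r : ℝ => X.psi ((r : ℂ) * ζ)) (𝓝[<] 1) (𝓝 x)) (k : ℕ) :
    Tendsto (fun r : ℝ => X.psi ((r : ℂ) * (rot θ ^ k * ζ))) (𝓝[<] 1) (𝓝 ((rat P Q)^[k] x)) := by
  have hcl : x ∈ closure S := rel_closure (X.radial_rel hζ hx)
  have h1 := ((X.iter_an k hcl).continuousAt.tendsto).comp hx
  refine h1.congr' ?_
  have e1 : ∀ᶠ r : ℝ in 𝓝[<] 1, r ∈ Ioo (0 : ℝ) 1 := Ioo_mem_nhdsLT zero_lt_one
  filter_upwards [e1] with r hr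
  have hmem : (r : ℂ) * ζ ∈ ball (0 : ℂ) 1 := by
    rw [mem_ball_zero_iff, norm_mul, hζ, mul_one, Complex.norm_real, Real.norm_eq_abs,
      abs_of_pos hr.1]
    exact hr.2
  show (rat P Q)^[k] (X.psi ((r : ℂ) * ζ)) = _
  rw [(X.rat_psi_iter k hmem).1]
  congr 1
  ring

/-- the closure of the image of the end of a radius with a limit -/
theorem acca_closure {ξ x' : ℂ} (hξ : ‖ξ‖ = 1)
    (hx : Tendsto (fun r : ℝ => X.psi ((r : ℂ) * ξ)) (𝓝[<] 1) (𝓝 x')) {s : ℝ} (hs0 : 0 < s)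
    (hs1 : s < 1) : closure (X.psi '' ((fun r : ℝ => (r : ℂ) * ξ) '' Ico s 1)) ⊆
      X.psi '' ((fun r : ℝ => (r : ℂ) * ξ) '' Ico s 1) ∪ {x'} := by
  classical
  set g : ℝ → ℂ := fun r => if r < 1 then X.psi ((r : ℂ) * ξ) else x' with hg
  have hmem : ∀ r ∈ Ico s 1, (r : ℂ) * ξ ∈ ball (0 : ℂ) 1 := by
    intro r hr
    rw [mem_ball_zero_iff, norm_mul, hξ, mul_one, Complex.norm_real, Real.norm_eq_abs,
      abs_of_pos (hs0.trans_le hr.1)]
    exact hr.2
  have hgc : ContinuousOn g (Icc s 1) := by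
    intro r hr
    rcases lt_or_eq_of_le hr.2 with h | h
    · have h1 : ContinuousAt (fun r : ℝ => X.psi ((r : ℂ) * ξ)) r := by
        have h2 : ContinuousAt X.psi ((r : ℂ) * ξ) := X.psi_cont (hmem r ⟨hr.1, h⟩)
        exact ContinuousAt.comp (f := fun r : ℝ => (r : ℂ) * ξ) h2
          (Complex.continuous_ofReal.mul continuous_const).continuousAt
      refine (h1.congr ?_).continuousWithinAt
      filter_upwards [Iio_mem_nhds h] with r' hr'
      simp only [hg, if_pos (show r' < 1 from hr')]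
    · subst h
      have h3 : g 1 = x' := by simp [hg]
      rw [ContinuousWithinAt, h3]
      have h4 : Tendsto g (𝓝[<] 1) (𝓝 x') := by
        refine hx.congr' ?_
        filter_upwards [self_mem_nhdsWithin] with r' hr'
        simp only [hg, if_pos (show r' < 1 from hr')]
      have h5 : Tendsto g (pure 1) (𝓝 x') := by
        rw [tendsto_pure_left]
        intro U hU
        rw [h3]
        exact mem_of_mem_nhds hU
      have h6 : 𝓝[Icc s 1] (1 : ℝ) ≤ 𝓝[<] 1 ⊔ pure 1 := by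
        have h7 : Icc s (1 : ℝ) ⊆ Iio 1 ∪ {1} := by
          intro r hr
          rcases lt_or_eq_of_le hr.2 with h | h
          · exact Or.inl h
          · exact Or.inr h
        refine (nhdsWithin_mono _ h7).trans ?_
        rw [nhdsWithin_union, nhdsWithin_singleton]
      exact (h4.sup h5).mono_left h6
  have hK : IsClosed (g '' Icc s 1) := (isCompact_Icc.image_of_continuousOn hgc).isClosed
  have hsub : X.psi '' ((fun r : ℝ => (r : ℂ) * ξ) '' Ico s 1) ⊆ g '' Icc s 1 := by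
    rintro _ ⟨_, ⟨r, hr, rfl⟩, rfl⟩
    exact ⟨r, ⟨hr.1, hr.2.le⟩, by simp only [hg, if_pos hr.2]⟩
  intro z hz
  obtain ⟨r, hr, rfl⟩ := closure_minimal hsub hK hz
  rcases lt_or_eq_of_le hr.2 with h | h
  · left
    exact ⟨_, ⟨r, ⟨hr.1, h⟩, rfl⟩, by simp only [hg, if_pos h]⟩
  · right
    simp [hg, h]

/-- One step: `x` is the radial limit at `ζ`, `x ∈ I(q)`, and the pairs `(ζ, q)`, `(l ζ, l q)`, `l = rot θ ^ k`, are interlaced;
then `x ∈ I(l q)`.
Proof: `x' = (rat P Q)^[k] x` is the radial limit at `l ζ` (`radial_iter`) and in `I(l q)` (`rel_iter`). If `x' = x` then `x ∈ Pc`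
(`periodic_Pc`; `x` is in the frontier by `radial_rel`, `rel_frontier`). Otherwise suppose `¬ rel S φ (l q) x`, so there is `ε > 0` with
no `z ∈ S`, `‖φ z - l q‖ < ε`, `‖z - x‖ < ε`. `cross_pieces` with `ζ1 = ζ`, `ζ2 = q` and the pieces
`B = {r l ζ : s ≤ r < 1}` (`s < 1` close to `1`, so that `side` has the sign of `side ζ q (l ζ)` on the closed segment `[s l ζ, l ζ]`) and
`B' = ball 0 1 ∩ ball (l q) η`, in the order given by the signs. `x' ∈ closure (ψ '' B)` and `x' ∈ closure (ψ '' B')`. So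
`x ∈ closure (ψ '' B) ⊆ ψ '' B ∪ {x'}` (impossible: `x ∉ S`, `x ≠ x'`; the set `ψ '' B ∪ {x'}` is the image of the compact interval `[s, 1]` under the
continuous function equal to `ψ (r l ζ)` for `r < 1` and to `x'` for `r = 1`) or `x ∈ closure (ψ '' B')`, impossible for `η ≤ ε`. -/
theorem acc_step {ζ q x : ℂ} (hζ : ‖ζ‖ = 1) (hq : ‖q‖ = 1)
    (hx : Tendsto (fun r : ℝ => X.psi ((r : ℂ) * ζ)) (𝓝[<] 1) (𝓝 x)) (hqx : rel S φ q x) {k : ℕ}
    (hk : 1 ≤ k) (hs : side ζ q (rot θ ^ k * ζ) * side ζ q (rot θ ^ k * q) < 0) :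
    rel S φ (rot θ ^ k * q) x := by
  set l := rot θ ^ k with hl
  have hln : ‖l‖ = 1 := by rw [hl, norm_pow, norm_rot, one_pow]
  have hlζ : ‖l * ζ‖ = 1 := by rw [norm_mul, hln, one_mul, hζ]
  have hlq : ‖l * q‖ = 1 := by rw [norm_mul, hln, one_mul, hq]
  have hrx : rel S φ ζ x := X.radial_rel hζ hx
  have hxf : x ∈ frontier S := X.rel_frontier hrx hζ
  have hxS : x ∉ S := X.rel_notMem hrx hζ
  set x' := (rat P Q)^[k] x with hx'
  have hx'r : Tendsto (fun r : ℝ => X.psi ((r : ℂ) * (l * ζ))) (𝓝[<] 1) (𝓝 x') :=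
    X.radial_iter hζ hx k
  have hx'q : rel S φ (l * q) x' := X.rel_iter k hqx
  by_cases hxx : x' = x
  · exact X.periodic_Pc hxf hk hxx _ hlq
  by_contra hcon
  unfold rel at hcon
  push Not at hcon
  obtain ⟨ε, hε, hn⟩ := hcon
  -- the sign
  obtain ⟨σ, hσ, hσ1, hσ2⟩ : ∃ σ : ℝ, (σ = 1 ∨ σ = -1) ∧ 0 < σ * side ζ q (l * ζ) ∧
      σ * side ζ q (l * q) < 0 := by
    rcases mul_neg_iff.1 hs with ⟨h3, h4⟩ | ⟨h3, h4⟩
    · exact ⟨1, Or.inl rfl, by linarith, by linarith⟩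
    · exact ⟨-1, Or.inr rfl, by linarith, by linarith⟩
  have hcs : Continuous fun b => σ * side ζ q b := continuous_const.mul (continuous_side ζ q)
  obtain ⟨r1, hp1, hb1⟩ := Metric.isOpen_iff.1 (isOpen_lt continuous_const hcs) _ hσ1
  obtain ⟨r2, hp2, hb2⟩ := Metric.isOpen_iff.1 (isOpen_lt hcs continuous_const) _ hσ2
  -- the radius
  set s : ℝ := max (1 / 2) (1 - r1 / 2) with hsdef
  have hs0 : 0 < s := lt_of_lt_of_le (by norm_num) (le_max_left _ _)
  have hs1 : s < 1 := max_lt (by norm_num) (by linarith)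
  have hs2 : 1 - r1 / 2 ≤ s := le_max_right _ _
  set B1 : Set ℂ := (fun r : ℝ => (r : ℂ) * (l * ζ)) '' Ico s 1 with hB1
  set η : ℝ := min ε r2 / 2 with hη
  have hηpos : 0 < η := by
    have := lt_min hε hp2
    positivity
  have hη1 : η < ε := by
    have h3 : min ε r2 ≤ ε := min_le_left _ _
    have h4 := lt_min hε hp2
    linarith
  have hη2 : η < r2 := by
    have h3 : min ε r2 ≤ r2 := min_le_right _ _
    have h4 := lt_min hε hp2
    linarith
  set B2 : Set ℂ := ball (0 : ℂ) 1 ∩ ball (l * q) η with hB2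
  have hB1p : IsPreconnected B1 := isPreconnected_Ico.image _
    (Complex.continuous_ofReal.mul continuous_const).continuousOn
  have hB2p : IsPreconnected B2 := ((convex_ball _ _).inter (convex_ball _ _)).isPreconnected
  have hB1b : B1 ⊆ ball (0 : ℂ) 1 := by
    rintro _ ⟨r, hr, rfl⟩
    rw [mem_ball_zero_iff, norm_mul, hlζ, mul_one, Complex.norm_real, Real.norm_eq_abs,
      abs_of_pos (hs0.trans_le hr.1)]
    exact hr.2
  have hB2b : B2 ⊆ ball (0 : ℂ) 1 := inter_subset_left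
  have hc1 : closure B1 ⊆ closedBall (l * ζ) (r1 / 2) := by
    refine closure_minimal ?_ isClosed_closedBall
    rintro _ ⟨r, hr, rfl⟩
    rw [mem_closedBall, dist_eq_norm]
    have e : (r : ℂ) * (l * ζ) - l * ζ = ((r - 1 : ℝ) : ℂ) * (l * ζ) := by push_cast; ring
    rw [e, norm_mul, hlζ, mul_one, Complex.norm_real, Real.norm_eq_abs, abs_le]
    constructor <;> linarith [hr.1, hr.2]
  have hc2 : closure B2 ⊆ closedBall (l * q) η :=
    closure_minimal (inter_subset_right.trans ball_subset_closedBall) isClosed_closedBall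
  have hS1 : ∀ b ∈ closure B1, 0 < σ * side ζ q b := fun b hb => hb1 (by
    have h3 := mem_closedBall.1 (hc1 hb)
    rw [mem_ball]
    linarith)
  have hS2 : ∀ b ∈ closure B2, σ * side ζ q b < 0 := fun b hb => hb2 (by
    have h3 := mem_closedBall.1 (hc2 hb)
    rw [mem_ball]
    linarith)
  have hm1 : x' ∈ closure (X.psi '' B1) := by
    refine mem_closure_of_tendsto hx'r ?_
    filter_upwards [Ioo_mem_nhdsLT hs1] with r hr
    exact ⟨_, ⟨r, ⟨hr.1.le, hr.2⟩, rfl⟩, rfl⟩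
  have hm2 : x' ∈ closure (X.psi '' B2) := by
    obtain ⟨u, hu, hu1, hu2⟩ := rel_seq hx'q
    refine mem_closure_of_tendsto hu2 ?_
    filter_upwards [hu1.eventually (ball_mem_nhds _ hηpos)] with n hn
    exact ⟨φ (u n), ⟨X.phi_mem (hu n), hn⟩, X.psi_phi (hu n)⟩
  have hfin : x ∈ closure (X.psi '' B1) ∨ x ∈ closure (X.psi '' B2) := by
    rcases hσ with h | h
    · subst h
      exact X.cross_pieces hζ hq hrx hqx hB1p hB2p hB1b hB2b
        (fun b hb => by have := hS1 b hb; linarith) (fun b hb => by have := hS2 b hb; linarith)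
        hm1 hm2
    · subst h
      exact (X.cross_pieces hζ hq hrx hqx hB2p hB1p hB2b hB1b
        (fun b hb => by have := hS2 b hb; linarith) (fun b hb => by have := hS1 b hb; linarith)
        hm2 hm1).symm
  rcases hfin with h | h
  · rcases X.acca_closure hlζ hx'r hs0 hs1 h with ⟨b, hb, hb'⟩ | h'
    · exact hxS (hb' ▸ X.psi_mem (hB1b hb))
    · exact hxx (mem_singleton_iff.1 h').symm
  · obtain ⟨_, ⟨w, ⟨hw1, hw2⟩, rfl⟩, hd⟩ := Metric.mem_closure_iff.1 h ε hε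
    have h3 := hn (X.psi w) (X.psi_mem hw1) (by
      rw [X.phi_psi hw1]
      exact (mem_ball_iff_norm.1 hw2).trans hη1)
    rw [dist_comm, dist_eq_norm] at hd
    linarith

end Siegel

end Pool.Agent.H.MP_e98f69_an
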