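import Pool.Agent.H.MP_e98f69_an.E.BasA

/-! The basin of infinity is connected. -/

set_option autoImplicit false

open Set Filter Topology Metric

namespace Pool.Agent.H.MP_e98f69_an

theorem bas_outer {R : ℝ} (hR : 0 < R) : IsPreconnected {z : ℂ | R < ‖z‖} := by
  have h1 : IsPreconnected {w : ℂ | Real.log R < w.re} :=
    (convex_halfSpace_re_gt (Real.log R)).isPreconnected
  have h2 := h1.image Complex.exp Complex.continuous_exp.continuousOn
  have h3 : Complex.exp '' {w : ℂ | Real.log R < w.re} = {z : ℂ | R < ‖z‖} := by
    ext z
    constructor
    · rintro ⟨w, hw, rfl⟩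
      change Real.log R < w.re at hw
      change R < ‖Complex.exp w‖
      rw [Complex.norm_exp]
      exact (Real.log_lt_iff_lt_exp hR).1 hw
    · intro hz
      change R < ‖z‖ at hz
      have hz0 : z ≠ 0 := by
        rintro rfl
        rw [norm_zero] at hz
        linarith
      refine ⟨Complex.log z, ?_, Complex.exp_log hz0⟩
      change Real.log R < (Complex.log z).re
      rw [Complex.log_re]
      exact Real.log_lt_log hR hz
  rwa [h3] at h2

/-- The basin is preconnected.
Proof: `{R < ‖z‖}` is preconnected and contained in the basin. Let `W` be the connected component (`connectedComponentIn`) of a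
point `z` of the basin in the basin. If `W` is bounded: `W` is open, its frontier is disjoint from the basin (a frontier point in the
basin would have a ball in the basin meeting `W`), so on the frontier all iterates have norm `≤ R`; by the maximum principle
(`Complex.norm_le_of_forall_mem_frontier_norm_le`) all iterates have norm `≤ R` on `W ∋ z`, contradiction. So `W` is unbounded,
meets `{R < ‖z‖}`, hence contains it. All components contain `{R < ‖z‖}`, so there is only one. -/
theorem isPreconnected_Bas {P : Polynomial ℂ} (hP : 2 ≤ P.natDegree) :
    IsPreconnected (Bas fun z => P.eval z) := by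
  obtain ⟨R, hR1, hR⟩ := escape hP
  have hopen := isOpen_Bas hP
  set B : Set ℂ := Bas fun z => P.eval z with hB
  have hout : {z : ℂ | R < ‖z‖} ⊆ B := fun z hz => (hR z).2 ⟨0, hz⟩
  -- every component contains the outer region
  have key : ∀ z ∈ B, {z : ℂ | R < ‖z‖} ⊆ connectedComponentIn B z := by
    intro z hz
    set W := connectedComponentIn B z with hW
    have hWo : IsOpen W := hopen.connectedComponentIn
    have hzW : z ∈ W := mem_connectedComponentIn hz
    have hWB : W ⊆ B := connectedComponentIn_subset B z
    have hnb : ¬ Bornology.IsBounded W := by
      intro hbd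
      obtain ⟨n, hn⟩ := (hR z).1 hz
      have hfr : ∀ w ∈ frontier W, ‖(fun z : ℂ => P.eval z)^[n] w‖ ≤ R := by
        intro w hw
        by_contra hcon
        have hwB : w ∈ B := (hR w).2 ⟨n, not_le.mp hcon⟩
        have hwW : w ∉ W := by
          rw [hWo.frontier_eq] at hw
          exact hw.2
        have hcl : w ∈ closure W := frontier_subset_closure hw
        -- the component of w is open and meets W
        have hVo : IsOpen (connectedComponentIn B w) := hopen.connectedComponentIn
        have hwV : w ∈ connectedComponentIn B w := mem_connectedComponentIn hwB
        obtain ⟨x, hxV, hxW⟩ := mem_closure_iff.mp hcl _ hVo hwV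
        have e1 : connectedComponentIn B w = connectedComponentIn B x :=
          connectedComponentIn_eq hxV
        have e2 : connectedComponentIn B z = connectedComponentIn B x :=
          connectedComponentIn_eq hxW
        apply hwW
        rw [hW, e2, ← e1]
        exact hwV
      have hc : Differentiable ℂ (fun z : ℂ => P.eval z) := P.differentiable
      have hd : Differentiable ℂ ((fun z : ℂ => P.eval z)^[n]) := by
        clear hn hfr
        induction n with
        | zero => exact differentiable_id
        | succ k ih =>
          rw [Function.iterate_succ']
          exact hc.comp ih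
      have := Complex.norm_le_of_forall_mem_frontier_norm_le hbd hd.diffContOnCl hfr
        (subset_closure hzW)
      linarith
    have hmeet : ∃ w ∈ W, R < ‖w‖ := by
      by_contra hcon
      push Not at hcon
      apply hnb
      rw [isBounded_iff_forall_norm_le]
      exact ⟨R, hcon⟩
    obtain ⟨w, hwW, hw⟩ := hmeet
    have h1 : {z : ℂ | R < ‖z‖} ⊆ connectedComponentIn B w :=
      (bas_outer (by linarith : (0 : ℝ) < R)).subset_connectedComponentIn hw hout
    rwa [← connectedComponentIn_eq hwW] at h1
  rcases B.eq_empty_or_nonempty with hemp | ⟨z, hz⟩
  · rw [hemp]; exact isPreconnected_empty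
  have hall : B ⊆ connectedComponentIn B z := by
    intro y hy
    have hx : ((R + 1 : ℝ) : ℂ) ∈ {z : ℂ | R < ‖z‖} := by
      change R < ‖((R + 1 : ℝ) : ℂ)‖
      rw [Complex.norm_real, Real.norm_eq_abs]
      rw [abs_of_pos (by linarith)]
      linarith
    have h1 := key z hz hx
    have h2 := key y hy hx
    have e1 := connectedComponentIn_eq h1
    have e2 := connectedComponentIn_eq h2
    rw [e1, ← e2]
    exact mem_connectedComponentIn hy
  have : B = connectedComponentIn B z := Subset.antisymm hall (connectedComponentIn_subset B z)
  rw [this]
  exact isPreconnected_connectedComponentIn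

end Pool.Agent.H.MP_e98f69_an
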