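import Mathlib

/-! The basin of infinity of a polynomial: escape radius, openness. -/

set_option autoImplicit false

open Set Filter Topology Metric

namespace Pool.Agent.H.MP_e98f69_an

/-- the points with unbounded orbit -/
def Bas (f : ℂ → ℂ) : Set ℂ := {z | ¬ Bornology.IsBounded (range fun n : ℕ => f^[n] z)}

theorem basA_double {P : Polynomial ℂ} (hP : 2 ≤ P.natDegree) : ∃ R : ℝ, 1 ≤ R ∧
    ∀ z : ℂ, R ≤ ‖z‖ → 2 * ‖z‖ ≤ ‖P.eval z‖ := by
  have hd : 0 < P.divX.degree := by
    rw [← Polynomial.natDegree_pos_iff_degree_pos, Polynomial.natDegree_divX_eq_natDegree_tsub_one]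
    omega
  have h1 : Tendsto (fun z : ℂ => ‖P.divX.eval z‖) (cocompact ℂ) atTop :=
    Polynomial.tendsto_norm_atTop P.divX hd (tendsto_norm_cocompact_atTop (E := ℂ))
  have h2 := h1.eventually_ge_atTop (2 + ‖P.coeff 0‖)
  rw [← Metric.cobounded_eq_cocompact] at h2
  obtain ⟨R, hR⟩ := (Metric.hasBasis_cobounded_compl_closedBall (0 : ℂ)).eventually_iff.mp h2
  refine ⟨max 1 (R + 1), le_max_left _ _, fun z hz => ?_⟩
  have hz1 : 1 ≤ ‖z‖ := (le_max_left _ _).trans hz
  have hzR : R < ‖z‖ := by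
    have := (le_max_right 1 (R + 1)).trans hz
    linarith
  have h3 : 2 + ‖P.coeff 0‖ ≤ ‖P.divX.eval z‖ := by
    apply hR.2
    simp only [mem_compl_iff, mem_closedBall, dist_zero_right, not_le]
    exact hzR
  have h4 : P.eval z = P.divX.eval z * z + P.coeff 0 := by
    conv_lhs => rw [← Polynomial.divX_mul_X_add P]
    simp
  rw [h4]
  have h5 : ‖P.divX.eval z * z‖ - ‖P.coeff 0‖ ≤ ‖P.divX.eval z * z + P.coeff 0‖ := by
    have := norm_sub_norm_le (P.divX.eval z * z) (-(P.coeff 0))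
    rw [norm_neg, sub_neg_eq_add] at this
    exact this
  rw [norm_mul] at h5
  have h6 : 0 ≤ ‖P.coeff 0‖ := norm_nonneg _
  nlinarith [mul_le_mul_of_nonneg_right h3 (norm_nonneg z)]

/-- Escape radius of a polynomial of degree at least two: there is `R` such that `2 ‖z‖ ≤ ‖P z‖` for `‖z‖ ≥ R`; so an orbit
is unbounded if and only if it enters `{R < ‖z‖}`.
Proof: `‖P z‖ / ‖z‖ → ∞` (`Polynomial.tendsto_norm_atTop` for `P` divided by `X`, or `Polynomial.isBigO`/leading term
comparison). -/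
theorem escape {P : Polynomial ℂ} (hP : 2 ≤ P.natDegree) : ∃ R : ℝ, 1 ≤ R ∧
    ∀ z : ℂ, z ∈ Bas (fun z => P.eval z) ↔ ∃ n : ℕ, R < ‖(fun z : ℂ => P.eval z)^[n] z‖ := by
  obtain ⟨R, hR1, hR⟩ := basA_double hP
  refine ⟨R, hR1, fun z => ⟨fun hz => ?_, ?_⟩⟩
  · by_contra hcon
    push Not at hcon
    apply hz
    rw [isBounded_iff_forall_norm_le]
    refine ⟨R, ?_⟩
    rintro _ ⟨n, rfl⟩
    exact hcon n
  · rintro ⟨n, hn⟩ hb
    rw [isBounded_iff_forall_norm_le] at hb
    obtain ⟨C, hC⟩ := hb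
    have key : ∀ k : ℕ, (2 : ℝ) ^ k * R ≤ ‖(fun z : ℂ => P.eval z)^[k + n] z‖ ∧
        R ≤ ‖(fun z : ℂ => P.eval z)^[k + n] z‖ := by
      intro k
      induction k with
      | zero => simpa using hn.le
      | succ k ih =>
        obtain ⟨ih1, ih2⟩ := ih
        have h1 : (fun z : ℂ => P.eval z)^[k + 1 + n] z =
            P.eval ((fun z : ℂ => P.eval z)^[k + n] z) := by
          rw [show k + 1 + n = (k + n) + 1 from by ring, Function.iterate_succ_apply']
        rw [h1]
        have h2 := hR _ ih2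
        constructor
        · rw [pow_succ]
          linarith
        · have := norm_nonneg ((fun z : ℂ => P.eval z)^[k + n] z)
          linarith
    obtain ⟨k, hk⟩ := pow_unbounded_of_one_lt C (one_lt_two (α := ℝ))
    have h1 := (key k).1
    have h2 := hC _ ⟨k + n, rfl⟩
    have h3 : (2 : ℝ) ^ k ≤ 2 ^ k * R := le_mul_of_one_le_right (by positivity) hR1
    simp only at h2
    linarith

/-- The basin is open (iterates are continuous). -/
theorem isOpen_Bas {P : Polynomial ℂ} (hP : 2 ≤ P.natDegree) : IsOpen (Bas fun z => P.eval z) := by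
  obtain ⟨R, -, hR⟩ := escape hP
  have h1 : (Bas fun z => P.eval z) = ⋃ n : ℕ, {z : ℂ | R < ‖(fun z : ℂ => P.eval z)^[n] z‖} := by
    ext z
    rw [hR z]
    simp
  rw [h1]
  refine isOpen_iUnion fun n => isOpen_lt continuous_const ?_
  have hc : Continuous (fun z : ℂ => P.eval z) := P.continuous
  exact (hc.iterate n).norm

end Pool.Agent.H.MP_e98f69_an
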