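import Pool.Agent.H.MP_e98f69_an.E.ConnA
import Pool.Agent.H.MP_e98f69_an.E.CrossB

/-! The set of the prime ends whose impression contains a given point is connected. -/

set_option autoImplicit false

open Set Filter Topology Metric

namespace Pool.Agent.H.MP_e98f69_an

namespace Siegel

variable {P Q : Polynomial ℂ} {S : Set ℂ} {θ : ℝ} {φ : ℂ → ℂ} (X : Siegel P Q S θ φ)

include X

/-- `Z_x` is preconnected for every boundary point `x`.
Proof: `isPreconnected_closed_iff`: let `t`, `t'` be closed, `Z ⊆ t ∪ t'`, `A = Z ∩ t`, `B = Z ∩ t'` nonempty and suppose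
`Z ∩ (t ∩ t')` is empty. `A`, `B` are disjoint compact sets, so there is `η > 0` with `3 η ≤ ‖a - b‖` for `a ∈ A`,
`b ∈ B` (`Metric`: `IsCompact.exists_thickening...` or `infDist`). Take `k` from `exists_small_rot` for `η`, `l = rot θ ^ k`,
`x' = (rat P Q)^[k] x`; `l ζ ∈ Z_{x'}` for `ζ ∈ Z_x` (`Zs_iter`). For `ζ1 ∈ A`, `ζ2 ∈ B`: by `interlace` and `rel_cross` (with
`ζ1' , ζ2' = l ζ1, l ζ2` in the order given by the signs) `l ζ1 ∈ Z_x` or `l ζ2 ∈ Z_x`. In the first case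
`l ζ1 ∈ A` because `‖l ζ1 - ζ1‖ < η` (it cannot be in `B`), in the second case `l ζ2 ∈ B`. Hence either
`l ζ ∈ A` for all `ζ ∈ A` or `l ζ ∈ B` for all `ζ ∈ B`; by `closed_inv` one of `A`, `B` is the whole circle,
contradicting that the other one is nonempty and disjoint from it. -/
theorem Zs_preconnected {x : ℂ} (hx : x ∈ frontier S) : IsPreconnected (Zs S φ x) := by
  rw [isPreconnected_closed_iff]
  intro t t' ht ht' hsub hne hne'
  by_contra hcon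
  rw [not_nonempty_iff_eq_empty] at hcon
  have hZc : IsCompact (Zs S φ x) := by
    refine (isCompact_sphere (0 : ℂ) 1).of_isClosed_subset (isClosed_Zs S φ x) ?_
    rintro ζ ⟨h1, -⟩
    rwa [mem_sphere_zero_iff_norm]
  have hA : IsCompact (Zs S φ x ∩ t) := hZc.inter_right ht
  have hB : IsCompact (Zs S φ x ∩ t') := hZc.inter_right ht'
  have hdis : ∀ a ∈ Zs S φ x ∩ t, a ∉ Zs S φ x ∩ t' := by
    rintro a ⟨h1, h2⟩ ⟨-, h3⟩
    have : a ∈ Zs S φ x ∩ (t ∩ t') := ⟨h1, h2, h3⟩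
    rw [hcon] at this
    exact this
  obtain ⟨⟨a0, b0⟩, ⟨ha0, hb0⟩, hmin⟩ := (hA.prod hB).exists_isMinOn (hne.prod hne')
    (f := fun p : ℂ × ℂ => dist p.1 p.2) (by fun_prop)
  set δ := dist a0 b0 with hδ
  have hδpos : 0 < δ := dist_pos.2 fun h => hdis a0 ha0 (h ▸ hb0)
  have hdist : ∀ a ∈ Zs S φ x ∩ t, ∀ b ∈ Zs S φ x ∩ t', δ ≤ dist a b := fun a ha b hb =>
    hmin (a := (a, b)) ⟨ha, hb⟩
  obtain ⟨k, hk, hk1, hk2⟩ := exists_small_rot X.irr (η := δ / 3) (by positivity)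
  set l := rot θ ^ k with hl
  have hlnorm : ‖l‖ = 1 := by rw [hl, norm_pow, norm_rot, one_pow]
  have hmove : ∀ ζ : ℂ, ‖ζ‖ = 1 → dist ζ (l * ζ) < δ / 3 := by
    intro ζ hζ
    rw [dist_comm, dist_eq_norm]
    have e : l * ζ - ζ = (l - 1) * ζ := by ring
    rw [e, norm_mul, hζ, mul_one]
    exact hk1
  have hor : ∀ ζ1 ∈ Zs S φ x ∩ t, ∀ ζ2 ∈ Zs S φ x ∩ t',
      l * ζ1 ∈ Zs S φ x ∩ t ∨ l * ζ2 ∈ Zs S φ x ∩ t' := by
    intro ζ1 h1 ζ2 h2
    have hlt : ‖l - 1‖ < ‖ζ2 - ζ1‖ := by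
      have h3 := hdist ζ1 h1 ζ2 h2
      rw [dist_comm, dist_eq_norm] at h3
      linarith
    have hint := interlace h1.1.1 h2.1.1 hlnorm hk2 hlt
    have hr1' : rel S φ (l * ζ1) ((rat P Q)^[k] x) := X.rel_iter k h1.1.2
    have hr2' : rel S φ (l * ζ2) ((rat P Q)^[k] x) := X.rel_iter k h2.1.2
    have hrel : rel S φ (l * ζ1) x ∨ rel S φ (l * ζ2) x := by
      rcases mul_neg_iff.1 hint with ⟨h3, h4⟩ | ⟨h3, h4⟩
      · exact X.rel_cross h1.1.1 h2.1.1 h1.1.2 h2.1.2 hr1' hr2' h3 h4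
      · exact (X.rel_cross h1.1.1 h2.1.1 h1.1.2 h2.1.2 hr2' hr1' h4 h3).symm
    have hn1 : ‖l * ζ1‖ = 1 := by rw [norm_mul, hlnorm, one_mul, h1.1.1]
    have hn2 : ‖l * ζ2‖ = 1 := by rw [norm_mul, hlnorm, one_mul, h2.1.1]
    rcases hrel with h3 | h3
    · left
      have h4 : l * ζ1 ∈ Zs S φ x := ⟨hn1, h3⟩
      rcases hsub h4 with h5 | h5
      · exact ⟨h4, h5⟩
      · exfalso
        have h6 := hdist ζ1 h1 _ ⟨h4, h5⟩
        have h7 := hmove ζ1 h1.1.1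
        linarith
    · right
      have h4 : l * ζ2 ∈ Zs S φ x := ⟨hn2, h3⟩
      rcases hsub h4 with h5 | h5
      · exfalso
        have h6 := hdist _ ⟨h4, h5⟩ ζ2 h2
        have h7 := hmove ζ2 h2.1.1
        rw [dist_comm] at h7
        linarith
      · exact ⟨h4, h5⟩
  by_cases hall : ∀ ζ ∈ Zs S φ x ∩ t, l * ζ ∈ Zs S φ x ∩ t
  · have h1 := closed_inv X.irr hA.isClosed (fun ζ hζ => hζ.1.1) hne hk hall hb0.1.1
    exact hdis b0 h1 hb0
  · push Not at hall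
    obtain ⟨ζ1, h1, h2⟩ := hall
    have h3 := closed_inv X.irr hB.isClosed (fun ζ hζ => hζ.1.1) hne' hk
      (fun ζ hζ => (hor ζ1 h1 ζ hζ).resolve_left h2) ha0.1.1
    exact hdis a0 ha0 h3

end Siegel

end Pool.Agent.H.MP_e98f69_an
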