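import Pool.Agent.H.MP_e98f69_an.E.Def

/-! Interlacing of a pair and its small rotation. -/

set_option autoImplicit false

open Set Filter Topology Metric

namespace Pool.Agent.H.MP_e98f69_an

/-- Interlacing of `(ζ1, ζ2)` and `(l ζ1, l ζ2)` for a rotation `l` by a small angle.
Proof: put `u = ζ2 * conj ζ1 = p + i q`, `l = x + i y` (`p^2+q^2 = x^2+y^2 = 1`). Then
`side ζ1 ζ2 (l ζ1) = Im ((u - l) (1 - conj l))` and `side ζ1 ζ2 (l ζ2) = Im ((1 - l) (u - conj l))`, and the product of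
these two numbers is `-2 (1 - x) (1 - p) (x - p)`. Finally `‖l - 1‖^2 = 2 - 2x`, `‖ζ2 - ζ1‖^2 = 2 - 2p`, so
`x < 1`, `p < 1`, `p < x`. -/
theorem interlace {ζ1 ζ2 l : ℂ} (h1 : ‖ζ1‖ = 1) (h2 : ‖ζ2‖ = 1) (hl : ‖l‖ = 1) (hl1 : l ≠ 1)
    (hlt : ‖l - 1‖ < ‖ζ2 - ζ1‖) : side ζ1 ζ2 (l * ζ1) * side ζ1 ζ2 (l * ζ2) < 0 := by
  obtain ⟨a, b⟩ := ζ1
  obtain ⟨c, d⟩ := ζ2
  obtain ⟨x, y⟩ := l
  have e1 : a * a + b * b = 1 := by
    have h := Complex.sq_norm (⟨a, b⟩ : ℂ)
    rw [h1, Complex.normSq_mk] at h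
    linarith
  have e2 : c * c + d * d = 1 := by
    have h := Complex.sq_norm (⟨c, d⟩ : ℂ)
    rw [h2, Complex.normSq_mk] at h
    linarith
  have e3 : x * x + y * y = 1 := by
    have h := Complex.sq_norm (⟨x, y⟩ : ℂ)
    rw [hl, Complex.normSq_mk] at h
    linarith
  have e4 : ‖(⟨x, y⟩ : ℂ) - 1‖ ^ 2 = 2 - 2 * x := by
    rw [Complex.sq_norm, Complex.normSq_apply]
    simp only [Complex.sub_re, Complex.one_re, Complex.sub_im, Complex.one_im, sub_zero]
    linear_combination e3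
  have e5 : ‖(⟨c, d⟩ : ℂ) - ⟨a, b⟩‖ ^ 2 = 2 - 2 * (a * c + b * d) := by
    rw [Complex.sq_norm, Complex.normSq_apply]
    simp only [Complex.sub_re, Complex.sub_im]
    linear_combination e1 + e2
  have e6 : 2 - 2 * x < 2 - 2 * (a * c + b * d) := by
    rw [← e4, ← e5]
    exact pow_lt_pow_left₀ hlt (norm_nonneg _) two_ne_zero
  have hx1 : x < 1 := by
    rcases lt_or_ge x 1 with h | h
    · exact h
    · exfalso
      have hy : y = 0 := by nlinarith [mul_self_nonneg y]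
      subst hy
      have hx : x = 1 := by nlinarith
      subst hx
      exact hl1 rfl
  have s1 : side ⟨a, b⟩ ⟨c, d⟩ ((⟨x, y⟩ : ℂ) * ⟨a, b⟩) =
      (a * d - b * c) * (1 - x) - y * (1 - (a * c + b * d)) := by
    rw [side_eq]
    simp only [Complex.mul_im, Complex.mul_re]
    linear_combination (-y) * e1
  have s2 : side ⟨a, b⟩ ⟨c, d⟩ ((⟨x, y⟩ : ℂ) * ⟨c, d⟩) =
      (a * d - b * c) * (1 - x) + y * (1 - (a * c + b * d)) := by
    rw [side_eq]
    simp only [Complex.mul_im, Complex.mul_re]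
    linear_combination y * e2
  have e7 : (a * d - b * c) ^ 2 + (a * c + b * d) ^ 2 = 1 := by
    have : (a * d - b * c) ^ 2 + (a * c + b * d) ^ 2 = (a * a + b * b) * (c * c + d * d) := by ring
    rw [this, e1, e2, one_mul]
  rw [s1, s2]
  set p := a * c + b * d with hp
  set q := a * d - b * c with hq
  have e8 : (q * (1 - x) - y * (1 - p)) * (q * (1 - x) + y * (1 - p)) =
      -(2 * ((1 - x) * (1 - p) * (x - p))) := by
    linear_combination (1 - x) ^ 2 * e7 - (1 - p) ^ 2 * e3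
  rw [e8]
  have h3 : 0 < (1 - x) * (1 - p) * (x - p) := by
    have h4 : 0 < 1 - x := by linarith
    have h5 : 0 < x - p := by linarith
    have h6 : 0 < 1 - p := by linarith
    positivity
  linarith

theorem conna_rot_ne {θ : ℝ} (hθ : Irrational θ) {k : ℕ} (hk : 1 ≤ k) : rot θ ^ k ≠ 1 := by
  intro h
  unfold rot at h
  rw [← Complex.exp_nat_mul, Complex.exp_eq_one_iff] at h
  obtain ⟨m, hm⟩ := h
  have h1 : (k : ℂ) * (θ : ℂ) = m := by
    have : (2 * Real.pi * Complex.I : ℂ) * ((k : ℂ) * (θ : ℂ)) = (2 * Real.pi * Complex.I) * m := by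
      linear_combination hm
    exact mul_left_cancel₀ Complex.two_pi_I_ne_zero this
  have h2 : (k : ℝ) * θ = m := by exact_mod_cast h1
  have h3 : Irrational ((k : ℝ) * θ) := hθ.natCast_mul (by omega)
  exact h3.ne_int m h2

/-- powers of the rotation close to one: for every `η > 0` there is `k ≥ 1` with `‖rot θ ^ k - 1‖ < η`
(`dense_orbit` with `ζ = ζ' = 1`, `N = 1`), and `rot θ ^ k ≠ 1` for `k ≥ 1` (irrationality, compare `fourier_rot`
or `closed_inv` with `A = {1}`). -/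
theorem exists_small_rot {θ : ℝ} (hθ : Irrational θ) {η : ℝ} (hη : 0 < η) :
    ∃ k : ℕ, 1 ≤ k ∧ ‖rot θ ^ k - 1‖ < η ∧ rot θ ^ k ≠ 1 := by
  obtain ⟨k, hk, h⟩ := dense_orbit hθ (ζ := 1) (ζ' := 1) norm_one norm_one hη 1
  rw [mul_one] at h
  exact ⟨k, hk, h, conna_rot_ne hθ hk⟩

end Pool.Agent.H.MP_e98f69_an
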