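import Pool.Agent.H.MP_e98f69_an.E.CountA

/-! Points of one type. -/

set_option autoImplicit false

open Set Filter Topology Metric

namespace Pool.Agent.H.MP_e98f69_an

/-- a finite cover bound -/
lemma countc_ncard_le {α ι : Type*} (s : Finset ι) (W : ι → Set α) (hW : ∀ i ∈ s, (W i).Finite)
    {B : Set α} (hB : ∀ b ∈ B, ∃ i ∈ s, b ∈ W i) : B.ncard ≤ ∑ i ∈ s, (W i).ncard := by
  classical
  have h1 : B ⊆ ⋃ i ∈ s, W i := fun b hb => by
    obtain ⟨i, hi, h⟩ := hB b hb
    exact mem_biUnion hi h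
  have h2 : (⋃ i ∈ s, W i).Finite := s.finite_toSet.biUnion hW
  refine (ncard_le_ncard h1 h2).trans ?_
  clear h1 h2 hB hW
  induction s using Finset.induction_on with
  | empty => simp
  | insert a s ha ih =>
    rw [Finset.sum_insert ha, Finset.set_biUnion_insert]
    exact (ncard_union_le _ _).trans (Nat.add_le_add_left ih _)

/-- the final numerical estimate -/
lemma countc_num {d N C' e' k x : ℕ} (h : x ≤ 1 + d * ∑ l ∈ Finset.range k, N * (C' * (l + 1) ^ e')) :
    x ≤ (1 + d * N * C') * (k + 1) ^ (e' + 1) := by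
  have h1 : ∑ l ∈ Finset.range k, N * (C' * (l + 1) ^ e') ≤ k * (N * (C' * (k + 1) ^ e')) := by
    calc _ ≤ ∑ _l ∈ Finset.range k, N * (C' * (k + 1) ^ e') := by
          refine Finset.sum_le_sum fun l hl => ?_
          have : l < k := Finset.mem_range.1 hl
          gcongr
      _ = k * (N * (C' * (k + 1) ^ e')) := by simp
  have h2 : 1 ≤ (k + 1) ^ (e' + 1) := Nat.one_le_pow _ _ (by omega)
  calc x ≤ 1 + d * (k * (N * (C' * (k + 1) ^ e'))) := h.trans (by gcongr)
    _ ≤ (k + 1) ^ (e' + 1) + d * ((k + 1) * (N * (C' * (k + 1) ^ e'))) := by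
        gcongr
        omega
    _ = (1 + d * N * C') * (k + 1) ^ (e' + 1) := by ring

namespace CData

variable {α : Type*} {f : α → α} {X : Set α} {θ : ℝ} {Z : α → Set ℂ} {F : Finset ℂ} {T : ℂ → Set ℂ}

/-- Points of one admissible type are polynomially many, uniformly in `y` with `Z y ≠ circle`.
Proof: well-founded induction on the finite set of admissible subsets of `F` with the strict order `TLt` reversed
(`Finite.wellFounded_of_trans_of_irrefl`, `TLt.trans`, `irrefl`), i.e. we may assume the claim for all admissible `A' ⊆ F` with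
`TLt θ T A A'`; choose common constants `C'`, `e'` (finitely many `A'`). Let `U` be the set in the claim. By
`tree_count`, `#U ≤ 1 + d ∑_{l<k} #(Br f X k l y U)`. A point `w` of `Br f X k l y U` has `TLt θ T A (QQ Z F T w)` by `branch`
(`i = k - l`), and `QQ Z F T w` is admissible (`tau_sub`, `notfull`, nonempty because `tau T A` is); so
`#(Br f X k l y U) ≤ ∑_{A'} C' (l+1)^e' ≤ 2^#F C' (k+1)^e'` and `#U ≤ (1 + d 2^#F C') (k+1)^(e'+1)`. -/
theorem type_count (D : CData f X θ Z F T) {d : ℕ} (hd : ∀ y ∈ X, (VV f X 1 y).ncard ≤ d)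
    (A : Finset ℂ) (hAF : A ⊆ F) (hA : TGood T A) : ∃ C e : ℕ, ∀ k : ℕ, ∀ y ∈ X,
      (∃ ζ : ℂ, ‖ζ‖ = 1 ∧ ζ ∉ Z y) → {u | u ∈ VV f X k y ∧ QQ Z F T u = A}.ncard ≤ C * (k + 1) ^ e := by
  classical
  let G : Type := {A : Finset ℂ // A ⊆ F ∧ TGood T A}
  have hfinG : Finite G := by
    have h1 : {A : Finset ℂ | A ⊆ F ∧ TGood T A}.Finite := by
      refine (F.powerset.finite_toSet).subset ?_
      rintro B ⟨hB, -⟩
      simpa using hB
    exact h1.to_subtype
  have hG : Fintype G := Fintype.ofFinite G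
  let r : G → G → Prop := fun a b => TLt θ T b.1 a.1
  have hwf : WellFounded r := by
    have i1 : IsTrans G r := ⟨fun a b c h1 h2 => h2.trans h1⟩
    have i2 : Std.Irrefl r := ⟨fun a h => D.irrefl a.2.2 h⟩
    exact Finite.wellFounded_of_trans_of_irrefl r
  suffices H : ∀ a : G, ∃ C e : ℕ, ∀ k : ℕ, ∀ y ∈ X, (∃ ζ : ℂ, ‖ζ‖ = 1 ∧ ζ ∉ Z y) →
      {u | u ∈ VV f X k y ∧ QQ Z F T u = a.1}.ncard ≤ C * (k + 1) ^ e from H ⟨A, hAF, hA⟩
  intro a
  induction a using hwf.induction with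
  | _ a ih =>
  have ih' : ∀ b : G, ∃ C e : ℕ, r b a → ∀ k : ℕ, ∀ y ∈ X, (∃ ζ : ℂ, ‖ζ‖ = 1 ∧ ζ ∉ Z y) →
      {u | u ∈ VV f X k y ∧ QQ Z F T u = b.1}.ncard ≤ C * (k + 1) ^ e := by
    intro b
    by_cases hb : r b a
    · obtain ⟨C, e, h⟩ := ih b hb
      exact ⟨C, e, fun _ => h⟩
    · exact ⟨0, 0, fun h => absurd h hb⟩
  choose c e hce using ih'
  set C' := ∑ b, c b with hC'
  set e' := ∑ b, e b with he'
  have hcom : ∀ b : G, r b a → ∀ k : ℕ, ∀ y ∈ X, (∃ ζ : ℂ, ‖ζ‖ = 1 ∧ ζ ∉ Z y) →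
      {u | u ∈ VV f X k y ∧ QQ Z F T u = b.1}.ncard ≤ C' * (k + 1) ^ e' := by
    intro b hb k y hy hζ
    refine (hce b hb k y hy hζ).trans ?_
    have h1 : c b ≤ C' := Finset.single_le_sum (f := c) (fun _ _ => Nat.zero_le _) (Finset.mem_univ b)
    have h2 : e b ≤ e' := Finset.single_le_sum (f := e) (fun _ _ => Nat.zero_le _) (Finset.mem_univ b)
    exact Nat.mul_le_mul h1 (Nat.pow_le_pow_right (by omega) h2)
  refine ⟨1 + d * Fintype.card G * C', e' + 1, fun k y hy hζ => ?_⟩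
  apply countc_num
  refine (tree_count D.maps D.fin hd k hy _ (fun u hu => hu.1)).trans ?_
  gcongr with l hl
  have hlk : l < k := Finset.mem_range.1 hl
  refine (countc_ncard_le (Finset.univ.filter fun b : G => r b a)
    (fun b => {w | w ∈ VV f X l y ∧ QQ Z F T w = b.1})
    (fun b _ => (VV_finite D.maps D.fin l hy).subset fun w hw => hw.1) ?_).trans ?_
  · rintro w ⟨hw, u1, hu1, u2, hu2, h1, h2, h3⟩
    have hb := D.branch hu1.1.1 hu2.1.1 (hu1.2.trans hu2.2.symm) (i := k - l) (by omega) h1 h2 h3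
    rw [hu1.2] at hb
    have hgood : TGood T (QQ Z F T w) := by
      constructor
      · obtain ⟨ζ, hζ'⟩ := a.2.2.1
        obtain ⟨i, -, hi⟩ := hb
        exact ⟨_, hi ζ hζ'⟩
      · obtain ⟨ζ, hζ1, hζ2⟩ := D.notfull hw hζ
        exact ⟨ζ, hζ1, fun h => hζ2 (tau_sub w h)⟩
    have hsub : QQ Z F T w ⊆ F := by
      unfold QQ
      exact Finset.filter_subset _ _
    exact ⟨⟨QQ Z F T w, hsub, hgood⟩, by simpa [r] using hb, hw, rfl⟩
  · calc ∑ b ∈ Finset.univ.filter (fun b : G => r b a),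
          {w | w ∈ VV f X l y ∧ QQ Z F T w = b.1}.ncard
        ≤ ∑ _b ∈ Finset.univ.filter (fun b : G => r b a), C' * (l + 1) ^ e' := by
          refine Finset.sum_le_sum fun b hb => ?_
          exact hcom b (Finset.mem_filter.1 hb).2 l y hy hζ
      _ ≤ Fintype.card G * (C' * (l + 1) ^ e') := by
          rw [Finset.sum_const, smul_eq_mul]
          gcongr
          exact Finset.card_le_univ _

end CData

end Pool.Agent.H.MP_e98f69_an
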