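import Pool.Agent.H.MP_e98f69_an.E.CountB
import Pool.Agent.H.MP_e98f69_an.E.CountC

/-! Polynomial count. -/

set_option autoImplicit false

open Set Filter Topology Metric

namespace Pool.Agent.H.MP_e98f69_an

namespace CData

variable {α : Type*} {f : α → α} {X : Set α} {θ : ℝ} {Z : α → Set ℂ} {F : Finset ℂ} {T : ℂ → Set ℂ}

/-- **Polynomial count.**
Proof: `tree_count` with `U = VV f X m y`: a branch point `w` at level `l` has two different preimages in `X`, so
`tau T (QQ Z F T w)` is nonempty (`split`) and not the circle (`tau_sub`, `notfull`); so the branch points at level `l`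
are at most `∑_A C_A (l+1)^e_A` over the admissible `A ⊆ F` (`type_count`). -/
theorem poly_count (D : CData f X θ Z F T) {d : ℕ} (hd : ∀ y ∈ X, (VV f X 1 y).ncard ≤ d) :
    ∃ C e : ℕ, ∀ m : ℕ, ∀ y ∈ X, (∃ ζ : ℂ, ‖ζ‖ = 1 ∧ ζ ∉ Z y) →
      (VV f X m y).ncard ≤ C * (m + 1) ^ e := by
  classical
  let G : Type := {A : Finset ℂ // A ⊆ F ∧ TGood T A}
  have hfinG : Finite G := by
    have h1 : {A : Finset ℂ | A ⊆ F ∧ TGood T A}.Finite := by
      refine (F.powerset.finite_toSet).subset ?_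
      rintro B ⟨hB, -⟩
      simpa using hB
    exact h1.to_subtype
  have hG : Fintype G := Fintype.ofFinite G
  have ih' : ∀ b : G, ∃ C e : ℕ, ∀ k : ℕ, ∀ y ∈ X, (∃ ζ : ℂ, ‖ζ‖ = 1 ∧ ζ ∉ Z y) →
      {u | u ∈ VV f X k y ∧ QQ Z F T u = b.1}.ncard ≤ C * (k + 1) ^ e := fun b =>
    D.type_count hd b.1 b.2.1 b.2.2
  choose c e hce using ih'
  set C' := ∑ b, c b with hC'
  set e' := ∑ b, e b with he'
  have hcom : ∀ b : G, ∀ k : ℕ, ∀ y ∈ X, (∃ ζ : ℂ, ‖ζ‖ = 1 ∧ ζ ∉ Z y) →
      {u | u ∈ VV f X k y ∧ QQ Z F T u = b.1}.ncard ≤ C' * (k + 1) ^ e' := by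
    intro b k y hy hζ
    refine (hce b k y hy hζ).trans ?_
    have h1 : c b ≤ C' := Finset.single_le_sum (f := c) (fun _ _ => Nat.zero_le _) (Finset.mem_univ b)
    have h2 : e b ≤ e' := Finset.single_le_sum (f := e) (fun _ _ => Nat.zero_le _) (Finset.mem_univ b)
    exact Nat.mul_le_mul h1 (Nat.pow_le_pow_right (by omega) h2)
  refine ⟨1 + d * Fintype.card G * C', e' + 1, fun k y hy hζ => ?_⟩
  apply countc_num
  refine (tree_count D.maps D.fin hd k hy _ (fun u hu => hu)).trans ?_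
  gcongr with l hl
  have hlk : l < k := Finset.mem_range.1 hl
  refine (countc_ncard_le (Finset.univ : Finset G)
    (fun b => {w | w ∈ VV f X l y ∧ QQ Z F T w = b.1})
    (fun b _ => (VV_finite D.maps D.fin l hy).subset fun w hw => hw.1) ?_).trans ?_
  · rintro w ⟨hw, u1, hu1, u2, hu2, h1, h2, h3⟩
    have hmem : ∀ u ∈ VV f X k y, f^[k - l] u = w → f^[k - l - 1] u ∈ VV f X 1 w := by
      intro u hu hw'
      refine ⟨D.maps.iterate _ hu.1, ?_⟩
      have e1 : k - l = (k - l - 1) + 1 := by omega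
      rw [e1, Function.iterate_succ_apply'] at hw'
      rwa [Function.iterate_one]
    have hgood : TGood T (QQ Z F T w) := by
      constructor
      · exact D.split hw.1 (hmem u1 hu1 h1) (hmem u2 hu2 h2) h3
      · obtain ⟨ζ, hζ1, hζ2⟩ := D.notfull hw hζ
        exact ⟨ζ, hζ1, fun h => hζ2 (tau_sub w h)⟩
    have hsub : QQ Z F T w ⊆ F := by
      unfold QQ
      exact Finset.filter_subset _ _
    exact ⟨⟨QQ Z F T w, hsub, hgood⟩, Finset.mem_univ _, hw, rfl⟩
  · calc ∑ b : G, {w | w ∈ VV f X l y ∧ QQ Z F T w = b.1}.ncard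
        ≤ ∑ _b : G, C' * (l + 1) ^ e' := Finset.sum_le_sum fun b _ => hcom b l y hy hζ
      _ = Fintype.card G * (C' * (l + 1) ^ e') := by
          rw [Finset.sum_const, smul_eq_mul, Finset.card_univ]

end CData

end Pool.Agent.H.MP_e98f69_an
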