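import Mathlib

/-! Counting iterated preimages along the tree of preimages. -/

set_option autoImplicit false

open Set Filter Topology Metric

namespace Pool.Agent.H.MP_e98f69_an

/-- iterated preimages of `y` in the invariant set `X` -/
def VV {α : Type*} (f : α → α) (X : Set α) (k : ℕ) (y : α) : Set α := {u | u ∈ X ∧ f^[k] u = y}

/-- Iterated preimages are finite in number.
Proof: induction on `k`: `VV f X (k+1) y = ⋃ w ∈ VV f X k y, VV f X 1 w` (for `w` in `X`), a finite union of finite
sets. -/
theorem VV_finite {α : Type*} {f : α → α} {X : Set α} (hf : MapsTo f X X)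
    (hfin : ∀ y ∈ X, (VV f X 1 y).Finite) (k : ℕ) {y : α} (hy : y ∈ X) : (VV f X k y).Finite := by
  induction k with
  | zero => exact (finite_singleton y).subset fun u hu => hu.2
  | succ k ih =>
    refine (ih.biUnion (t := fun w => VV f X 1 w) fun w hw => hfin w hw.1).subset fun u hu => ?_
    refine mem_biUnion (x := f u) ⟨hf hu.1, ?_⟩ ⟨hu.1, rfl⟩
    rw [← Function.iterate_succ_apply]
    exact hu.2

/-- One step of the count: `U` finite, fibres of `f` over `f '' U` have at most `d` elements in `U`; then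
`#U ≤ #(f '' U) + d * #{w : w has two different preimages in U}`.
Proof: `U.ncard = ∑ over w in f '' U of #(fibre)` (`Finset.card_eq_sum_card_image` or
`Finset.card_eq_sum_card_fiberwise`); a fibre has one element unless `w` is in the second set, and then at
most `d`. -/
theorem one_step {α : Type*} {f : α → α} {U : Set α} (hU : U.Finite) {d : ℕ}
    (hd : ∀ w, {u | u ∈ U ∧ f u = w}.ncard ≤ d) :
    U.ncard ≤ (f '' U).ncard + d * {w | ∃ u1 ∈ U, ∃ u2 ∈ U, f u1 = w ∧ f u2 = w ∧ u1 ≠ u2}.ncard := by
  classical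
  set B : Set α := {w | ∃ u1 ∈ U, ∃ u2 ∈ U, f u1 = w ∧ f u2 = w ∧ u1 ≠ u2} with hB
  set s := hU.toFinset with hs
  have hmem : ∀ u, u ∈ s ↔ u ∈ U := fun u => hU.mem_toFinset
  have h1 : U.ncard = s.card := Set.ncard_eq_toFinset_card U hU
  have h2 : (f '' U).ncard = (s.image f).card := by
    rw [← Set.ncard_coe_finset, Finset.coe_image, hs, hU.coe_toFinset]
  have h3 : B.ncard = ((s.image f).filter (· ∈ B)).card := by
    rw [← Set.ncard_coe_finset]
    congr 1
    ext w
    rw [Finset.mem_coe, Finset.mem_filter, Finset.mem_image]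
    refine ⟨fun hw => ⟨?_, hw⟩, fun hw => hw.2⟩
    obtain ⟨u1, hu1, _, _, h, _⟩ := hw
    exact ⟨u1, (hmem u1).2 hu1, h⟩
  rw [h1, h2, h3, Finset.card_eq_sum_card_image f s]
  have h4 : ∀ w ∈ s.image f, (s.filter fun u => f u = w).card ≤ 1 + if w ∈ B then d else 0 := by
    intro w _
    by_cases hw : w ∈ B
    · rw [if_pos hw]
      have h5 : (s.filter fun u => f u = w).card = {u | u ∈ U ∧ f u = w}.ncard := by
        rw [← Set.ncard_coe_finset]
        congr 1
        ext u
        rw [Finset.mem_coe, Finset.mem_filter, hmem]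
        rfl
      have h6 := hd w
      omega
    · rw [if_neg hw]
      refine Finset.card_le_one.2 fun a ha b hb => ?_
      by_contra hab
      rw [Finset.mem_filter, hmem] at ha hb
      exact hw ⟨a, ha.1, b, hb.1, ha.2, hb.2, hab⟩
  refine (Finset.sum_le_sum h4).trans ?_
  rw [Finset.sum_add_distrib, Finset.sum_const, smul_eq_mul, mul_one, ← Finset.sum_filter,
    Finset.sum_const, smul_eq_mul, mul_comm d]

/-- branch points at level `l` of the tree spanned by `U` (a set of points at level `k`) -/
def Br {α : Type*} (f : α → α) (X : Set α) (k l : ℕ) (y : α) (U : Set α) : Set α :=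
  {w | w ∈ VV f X l y ∧ ∃ u1 ∈ U, ∃ u2 ∈ U, f^[k - l] u1 = w ∧ f^[k - l] u2 = w ∧
    f^[k - l - 1] u1 ≠ f^[k - l - 1] u2}

/-- **Tree count.** A set `U` of `k`-th preimages of `y` in `X` has at most
`1 + d * (number of branch points of the tree spanned by U)` elements.
Proof: induction on `k`, for all `U`. `k = 0`: `U ⊆ {y}`. Step: `U' = f '' U` is a set of `k`-th preimages;
`Br f X k l y U' ⊆ Br f X (k+1) l y U` for `l < k` (`f^[k-l] (f u) = f^[k+1-l] u`), and the last set in `one_step` is contained in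
`Br f X (k+1) k y U` (finite by `VV_finite`, `Set.ncard_le_ncard`). -/
theorem tree_count {α : Type*} {f : α → α} {X : Set α} (hf : MapsTo f X X)
    (hfin : ∀ y ∈ X, (VV f X 1 y).Finite) {d : ℕ} (hd : ∀ y ∈ X, (VV f X 1 y).ncard ≤ d) (k : ℕ)
    {y : α} (hy : y ∈ X) (U : Set α) (hU : U ⊆ VV f X k y) :
    U.ncard ≤ 1 + d * ∑ l ∈ Finset.range k, (Br f X k l y U).ncard := by
  induction k generalizing U with
  | zero =>
    have h1 : U ⊆ {y} := fun u hu => (hU hu).2
    have h2 := Set.ncard_le_ncard h1 (finite_singleton y)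
    rw [Set.ncard_singleton] at h2
    omega
  | succ k ih =>
    have hfinU : U.Finite := (VV_finite hf hfin (k + 1) hy).subset hU
    have hU' : f '' U ⊆ VV f X k y := by
      rintro _ ⟨u, hu, rfl⟩
      refine ⟨hf (hU hu).1, ?_⟩
      rw [← Function.iterate_succ_apply]
      exact (hU hu).2
    have h1 := ih (f '' U) hU'
    have hd' : ∀ w, {u | u ∈ U ∧ f u = w}.ncard ≤ d := by
      intro w
      by_cases hw : w ∈ X
      · refine (Set.ncard_le_ncard (fun u hu => ?_) (hfin w hw)).trans (hd w hw)
        exact ⟨(hU hu.1).1, hu.2⟩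
      · have h2 : {u | u ∈ U ∧ f u = w} = ∅ := by
          refine Set.eq_empty_of_forall_notMem fun u hu => hw ?_
          rw [← hu.2]
          exact hf (hU hu.1).1
        rw [h2, Set.ncard_empty]
        exact Nat.zero_le d
    have h2 := one_step hfinU hd'
    have hfinB : ∀ l, (Br f X (k + 1) l y U).Finite := fun l =>
      (VV_finite hf hfin l hy).subset fun w hw => hw.1
    have h3 : {w | ∃ u1 ∈ U, ∃ u2 ∈ U, f u1 = w ∧ f u2 = w ∧ u1 ≠ u2}.ncard ≤
        (Br f X (k + 1) k y U).ncard := by
      refine Set.ncard_le_ncard (fun w hw => ?_) (hfinB k)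
      obtain ⟨u1, hu1, u2, hu2, e1, e2, hne⟩ := hw
      have hk : k + 1 - k = 1 := by omega
      refine ⟨?_, u1, hu1, u2, hu2, ?_, ?_, ?_⟩
      · rw [← e1]
        exact hU' ⟨u1, hu1, rfl⟩
      · rw [hk]
        exact e1
      · rw [hk]
        exact e2
      · rw [hk]
        exact hne
    have h4 : ∀ l ∈ Finset.range k, (Br f X k l y (f '' U)).ncard ≤
        (Br f X (k + 1) l y U).ncard := by
      intro l hl
      rw [Finset.mem_range] at hl
      refine Set.ncard_le_ncard (fun w hw => ?_) (hfinB l)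
      obtain ⟨hw1, _, ⟨u1, hu1, rfl⟩, _, ⟨u2, hu2, rfl⟩, e1, e2, hne⟩ := hw
      have hk : k + 1 - l = (k - l) + 1 := by omega
      have hk' : k + 1 - l - 1 = (k - l - 1) + 1 := by omega
      refine ⟨hw1, u1, hu1, u2, hu2, ?_, ?_, ?_⟩
      · rw [hk, Function.iterate_succ_apply]
        exact e1
      · rw [hk, Function.iterate_succ_apply]
        exact e2
      · rw [hk', Function.iterate_succ_apply, Function.iterate_succ_apply]
        exact hne
    have h5 := Finset.sum_le_sum h4
    rw [Finset.sum_range_succ, mul_add]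
    have h6 := Nat.mul_le_mul_left d h5
    have h7 := Nat.mul_le_mul_left d h3
    omega

end Pool.Agent.H.MP_e98f69_an
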