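import Pool.Agent.H.MP_e98f69_an.E.Def
import Pool.Agent.H.MP_e98f69_an.E.Tree

/-! Polynomial growth of the number of preimages: definitions, branching. -/

set_option autoImplicit false

open Set Filter Topology Metric

namespace Pool.Agent.H.MP_e98f69_an

/-- the data used in the count: `Z x` = set of prime ends of `x`, `T v` = sets of Lemma N -/
structure CData {α : Type*} (f : α → α) (X : Set α) (θ : ℝ) (Z : α → Set ℂ) (F : Finset ℂ)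
    (T : ℂ → Set ℂ) : Prop where
  irr : Irrational θ
  maps : MapsTo f X X
  fin : ∀ y ∈ X, (VV f X 1 y).Finite
  Zc : ∀ x ∈ X, IsClosed (Z x)
  Zn : ∀ x ∈ X, (Z x).Nonempty
  Zs : ∀ x ∈ X, ∀ ζ ∈ Z x, ‖ζ‖ = 1
  Zp : ∀ x ∈ X, IsPreconnected (Z x)
  ZR : ∀ x ∈ X, ∀ ζ ∈ Z x, rot θ * ζ ∈ Z (f x)
  surj : ∀ y ∈ X, ∀ ζ ∈ Z y, ∃ x ∈ X, f x = y ∧ (rot θ)⁻¹ * ζ ∈ Z x
  Tc : ∀ v, IsClosed (T v)
  Ts : ∀ v, ∀ α ∈ T v, ‖α‖ = 1
  N : ∀ x1 ∈ X, ∀ x2 ∈ X, x1 ≠ x2 → f x1 = f x2 → ∀ ζ ∈ Z x1, ζ ∈ Z x2 →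
    ∃ v ∈ F, rot θ * ζ ∈ T v ∧ T v ⊆ Z (f x1)

/-- the type of a point `w` -/
noncomputable def QQ {α : Type*} (Z : α → Set ℂ) (F : Finset ℂ) (T : ℂ → Set ℂ) (w : α) : Finset ℂ := by
  classical
  exact F.filter fun v => (T v).Nonempty ∧ T v ⊆ Z w

/-- union of the sets `T v`, `v ∈ A` -/
def tau (T : ℂ → Set ℂ) (A : Finset ℂ) : Set ℂ := ⋃ v ∈ A, T v

/-- `A < A'`: a positive iterate of the rotation maps `tau A` into `tau A'` -/
def TLt (θ : ℝ) (T : ℂ → Set ℂ) (A A' : Finset ℂ) : Prop :=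
  ∃ i : ℕ, 1 ≤ i ∧ ∀ ζ ∈ tau T A, rot θ ^ i * ζ ∈ tau T A'

/-- admissible types: `tau A` is nonempty and not the whole circle -/
def TGood (T : ℂ → Set ℂ) (A : Finset ℂ) : Prop :=
  (tau T A).Nonempty ∧ ∃ ζ : ℂ, ‖ζ‖ = 1 ∧ ζ ∉ tau T A

lemma TLt.trans {θ : ℝ} {T : ℂ → Set ℂ} {A B C : Finset ℂ} (h1 : TLt θ T A B) (h2 : TLt θ T B C) :
    TLt θ T A C := by
  obtain ⟨i, hi, h1⟩ := h1
  obtain ⟨j, hj, h2⟩ := h2
  refine ⟨j + i, by omega, fun ζ hζ => ?_⟩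
  rw [pow_add, mul_assoc]
  exact h2 _ (h1 _ hζ)

namespace CData

variable {α : Type*} {f : α → α} {X : Set α} {θ : ℝ} {Z : α → Set ℂ} {F : Finset ℂ} {T : ℂ → Set ℂ}

/-- `tau` of the type of `w` is contained in `Z w`. -/
theorem tau_sub (w : α) : tau T (QQ Z F T w) ⊆ Z w := by
  intro ζ hζ
  simp only [tau, QQ, mem_iUnion, Finset.mem_filter] at hζ
  obtain ⟨v, hv, h⟩ := hζ
  exact hv.2.2 h

/-- An admissible type is not below itself.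
Proof: `closed_inv` for the closed set `tau T A` (finite union of closed sets). -/
theorem irrefl (D : CData f X θ Z F T) {A : Finset ℂ} (hA : TGood T A) : ¬ TLt θ T A A := by
  rintro ⟨i, hi, hinv⟩
  obtain ⟨hne, ζ, hζ, hn⟩ := hA
  have hcl : IsClosed (tau T A) := A.finite_toSet.isClosed_biUnion fun v _ => D.Tc v
  have hsub : ∀ α ∈ tau T A, ‖α‖ = 1 := by
    intro α hα
    simp only [tau, mem_iUnion] at hα
    obtain ⟨v, _, h⟩ := hα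
    exact D.Ts v α h
  exact hn (closed_inv D.irr hcl hsub hne hi hinv hζ)

/-- `Z` along orbits -/
theorem ZR_iter (D : CData f X θ Z F T) (n : ℕ) {x : α} (hx : x ∈ X) {ζ : ℂ} (hζ : ζ ∈ Z x) :
    rot θ ^ n * ζ ∈ Z (f^[n] x) := by
  induction n with
  | zero => simpa using hζ
  | succ n ih =>
    have h1 := D.ZR _ (D.maps.iterate n hx) _ ih
    rw [Function.iterate_succ_apply', pow_succ', mul_assoc]
    exact h1

/-- The property `Z ≠ circle` passes to preimages. -/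
theorem notfull (D : CData f X θ Z F T) {l : ℕ} {w y : α} (hw : w ∈ VV f X l y)
    (hy : ∃ ζ : ℂ, ‖ζ‖ = 1 ∧ ζ ∉ Z y) : ∃ ζ : ℂ, ‖ζ‖ = 1 ∧ ζ ∉ Z w := by
  obtain ⟨ζ, hζ, hn⟩ := hy
  refine ⟨(rot θ ^ l)⁻¹ * ζ, ?_, fun h => hn ?_⟩
  · rw [norm_mul, norm_inv, norm_pow, norm_rot, one_pow, inv_one, one_mul, hζ]
  · have h1 := D.ZR_iter l hw.1 h
    rw [mul_inv_cancel_left₀ (pow_ne_zero _ (rot_ne θ)), hw.2] at h1
    exact h1

/-- **Branching.** Two points of the same type whose orbits meet first at time `i`, at the point `w`: the type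
increases strictly.
Proof: let `ζ ∈ tau T (type)`, so `ζ ∈ Z u1 ∩ Z u2` (`tau_sub`); `x_j = f^[i-1] u_j` are different and
`rot θ ^ (i-1) * ζ ∈ Z x1 ∩ Z x2` (`ZR_iter`); by `N` there is `v ∈ F` with `rot θ ^ i * ζ ∈ T v ⊆ Z w`, so `v` belongs to the type
of `w`. -/
theorem branch (D : CData f X θ Z F T) {u1 u2 w : α} (h1 : u1 ∈ X) (h2 : u2 ∈ X)
    (hq : QQ Z F T u1 = QQ Z F T u2) {i : ℕ} (hi : 1 ≤ i) (hw1 : f^[i] u1 = w) (hw2 : f^[i] u2 = w)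
    (hne : f^[i - 1] u1 ≠ f^[i - 1] u2) : TLt θ T (QQ Z F T u1) (QQ Z F T w) := by
  refine ⟨i, hi, fun ζ hζ => ?_⟩
  have hZ1 : ζ ∈ Z u1 := tau_sub u1 hζ
  have hZ2 : ζ ∈ Z u2 := tau_sub u2 (by rwa [hq] at hζ)
  obtain ⟨j, rfl⟩ : ∃ j, i = j + 1 := ⟨i - 1, by omega⟩
  rw [Nat.add_sub_cancel] at hne
  have e1 : f (f^[j] u1) = w := by rw [← hw1, Function.iterate_succ_apply']
  have e2 : f (f^[j] u2) = w := by rw [← hw2, Function.iterate_succ_apply']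
  obtain ⟨v, hv, h3, h4⟩ := D.N _ (D.maps.iterate j h1) _ (D.maps.iterate j h2) hne
    (e1.trans e2.symm) _ (D.ZR_iter j h1 hZ1) (D.ZR_iter j h2 hZ2)
  rw [e1] at h4
  rw [← mul_assoc, ← pow_succ'] at h3
  simp only [tau, QQ, mem_iUnion, Finset.mem_filter]
  exact ⟨v, ⟨hv, ⟨_, h3⟩, h4⟩, h3⟩

end CData

end Pool.Agent.H.MP_e98f69_an
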