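import Pool.Agent.H.MP_e98f69_an.E.CountA

/-! Splitting. -/

set_option autoImplicit false

open Set Filter Topology Metric

namespace Pool.Agent.H.MP_e98f69_an

namespace CData

variable {α : Type*} {f : α → α} {X : Set α} {θ : ℝ} {Z : α → Set ℂ} {F : Finset ℂ} {T : ℂ → Set ℂ}

/-- **Splitting.** A point with two different preimages in `X` has a nonempty `tau`.
Proof: suppose that for all `x ≠ x'` in the finite set `VV f X 1 w` the sets `Z x`, `Z x'` are disjoint. Then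
`Z w = ⋃ x, rot θ • Z x` (`surj`, `ZR`) is the disjoint union of the nonempty closed sets `A = rot θ • Z x1` and
`B = ⋃ x ≠ x1, rot θ • Z x` (finite union of closed sets; images under multiplication by `rot θ ≠ 0` are closed), which
contradicts `Zp` (`isPreconnected_closed_iff`). So there are `x ≠ x'` and `ζ ∈ Z x ∩ Z x'`, and `N` gives `v` with
`rot θ * ζ ∈ T v ⊆ Z w`, `v ∈ QQ Z F T w`. -/
theorem split (D : CData f X θ Z F T) {w x1 x2 : α} (hw : w ∈ X) (h1 : x1 ∈ VV f X 1 w)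
    (h2 : x2 ∈ VV f X 1 w) (hne : x1 ≠ x2) : (tau T (QQ Z F T w)).Nonempty := by
  by_contra hemp
  have hf1 : ∀ x, x ∈ VV f X 1 w → x ∈ X ∧ f x = w := fun x hx => ⟨hx.1, hx.2⟩
  have hdis : ∀ x ∈ VV f X 1 w, ∀ x' ∈ VV f X 1 w, x ≠ x' → ∀ ζ ∈ Z x, ζ ∈ Z x' → False := by
    intro x hx x' hx' hxx ζ hζ hζ'
    obtain ⟨v, hvF, hv1, hv2⟩ := D.N x (hf1 x hx).1 x' (hf1 x' hx').1 hxx
      ((hf1 x hx).2.trans (hf1 x' hx').2.symm) ζ hζ hζ'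
    rw [(hf1 x hx).2] at hv2
    refine hemp ⟨rot θ * ζ, ?_⟩
    simp only [tau, QQ, mem_iUnion, Finset.mem_filter]
    exact ⟨v, ⟨hvF, ⟨_, hv1⟩, hv2⟩, hv1⟩
  have hcl : ∀ x ∈ VV f X 1 w, IsClosed ((fun ζ : ℂ => rot θ * ζ) '' Z x) := by
    intro x hx
    have := (Homeomorph.mulLeft₀ (rot θ) (rot_ne θ)).isClosedMap _ (D.Zc x (hf1 x hx).1)
    exact this
  have hfin : (VV f X 1 w \ {x1}).Finite := (D.fin w hw).subset diff_subset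
  have key := isPreconnected_closed_iff.1 (D.Zp w hw)
    ((fun ζ : ℂ => rot θ * ζ) '' Z x1)
    (⋃ x ∈ VV f X 1 w \ {x1}, (fun ζ : ℂ => rot θ * ζ) '' Z x) (hcl x1 h1)
    (hfin.isClosed_biUnion fun x hx => hcl x hx.1)
  have key2 : (Z w ∩ ((fun ζ : ℂ => rot θ * ζ) '' Z x1 ∩
      ⋃ x ∈ VV f X 1 w \ {x1}, (fun ζ : ℂ => rot θ * ζ) '' Z x)).Nonempty → False := by
    rintro ⟨z, -, ⟨ζ, hζ, hz1⟩, hz2⟩
    rw [mem_iUnion₂] at hz2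
    obtain ⟨x, hx, ζ', hζ', hz3⟩ := hz2
    have hz4 : rot θ * ζ = rot θ * ζ' := hz1.trans hz3.symm
    have hz5 := mul_left_cancel₀ (rot_ne θ) hz4
    subst hz5
    exact hdis x1 h1 x hx.1 (fun h => hx.2 h.symm) ζ hζ hζ'
  refine key2 (key ?_ ?_ ?_)
  · intro ζ hζ
    obtain ⟨x, hxX, hxw, hx⟩ := D.surj w hw ζ hζ
    by_cases h : x = x1
    · subst h
      exact Or.inl ⟨_, hx, mul_inv_cancel_left₀ (rot_ne θ) ζ⟩
    · refine Or.inr (mem_iUnion₂.2 ⟨x, ⟨⟨hxX, hxw⟩, h⟩, _, hx, mul_inv_cancel_left₀ (rot_ne θ) ζ⟩)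
  · obtain ⟨ζ, hζ⟩ := D.Zn x1 (hf1 x1 h1).1
    refine ⟨rot θ * ζ, ?_, ζ, hζ, rfl⟩
    have := D.ZR x1 (hf1 x1 h1).1 ζ hζ
    rwa [(hf1 x1 h1).2] at this
  · obtain ⟨ζ, hζ⟩ := D.Zn x2 (hf1 x2 h2).1
    refine ⟨rot θ * ζ, ?_, mem_iUnion₂.2 ⟨x2, ⟨h2, fun h => hne h.symm⟩, ζ, hζ, rfl⟩⟩
    have := D.ZR x2 (hf1 x2 h2).1 ζ hζ
    rwa [(hf1 x2 h2).2] at this

end CData

end Pool.Agent.H.MP_e98f69_an
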