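import Mathlib

/-! Local moves of the plane. -/

set_option autoImplicit false

open Set Filter Topology Metric

namespace Pool.Agent.H.MP_e98f69_an

/-- Local move: for `b ∈ ball a r` there is a homeomorphism of the plane equal to the identity off
`ball a r` that maps `a` to `b`.
Proof: `h z = z + (max 0 (1 - ‖z - a‖ / r)) • (b - a)`; the second summand is Lipschitz with constant
`‖b - a‖ / r < 1`, so `h` approximates the identity linearly on `univ` with this constant
(`ApproximatesLinearOn`), and `ApproximatesLinearOn.toHomeomorph` applies. -/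
theorem exists_homeo_local {a b : ℂ} {r : ℝ} (hr : 0 < r) (hb : b ∈ ball a r) :
    ∃ h : ℂ ≃ₜ ℂ, (∀ z, z ∉ ball a r → h z = z) ∧ h a = b := by
  have hab : ‖b - a‖ < r := by simpa [dist_eq_norm] using hb
  set f : ℂ → ℂ := fun z => z + (max 0 (1 - ‖z - a‖ / r) : ℝ) • (b - a) with hf
  set c : NNReal := ⟨‖b - a‖ / r, by positivity⟩ with hc
  have hap : ApproximatesLinearOn f ((ContinuousLinearEquiv.refl ℝ ℂ : ℂ ≃L[ℝ] ℂ) : ℂ →L[ℝ] ℂ)
      univ c := by
    intro x _ y _
    have h1 : f x - f y - ((ContinuousLinearEquiv.refl ℝ ℂ : ℂ ≃L[ℝ] ℂ) : ℂ →L[ℝ] ℂ) (x - y)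
        = ((max 0 (1 - ‖x - a‖ / r) - max 0 (1 - ‖y - a‖ / r) : ℝ)) • (b - a) := by
      simp only [hf, ContinuousLinearEquiv.coe_coe, ContinuousLinearEquiv.refl_apply, sub_smul]
      abel
    rw [h1, norm_smul, Real.norm_eq_abs]
    have h2 : |max 0 (1 - ‖x - a‖ / r) - max 0 (1 - ‖y - a‖ / r)| ≤ ‖x - y‖ / r := by
      calc |max 0 (1 - ‖x - a‖ / r) - max 0 (1 - ‖y - a‖ / r)|
          ≤ |(1 - ‖x - a‖ / r) - (1 - ‖y - a‖ / r)| := by
            have := abs_max_sub_max_le_abs (1 - ‖x - a‖ / r) (1 - ‖y - a‖ / r) 0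
            rw [max_comm 0, max_comm 0]
            exact this
        _ = |‖x - a‖ - ‖y - a‖| / r := by
            rw [show (1 - ‖x - a‖ / r) - (1 - ‖y - a‖ / r) = -((‖x - a‖ - ‖y - a‖) / r) by ring,
              abs_neg, abs_div, abs_of_pos hr]
        _ ≤ ‖x - y‖ / r := by
            gcongr
            have := abs_norm_sub_norm_le (x - a) (y - a)
            simpa using this
    have h3 : (c : ℝ) = ‖b - a‖ / r := rfl
    rw [h3]
    calc |max 0 (1 - ‖x - a‖ / r) - max 0 (1 - ‖y - a‖ / r)| * ‖b - a‖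
        ≤ ‖x - y‖ / r * ‖b - a‖ := by gcongr
      _ = ‖b - a‖ / r * ‖x - y‖ := by ring
  have hlt : c < ‖((ContinuousLinearEquiv.refl ℝ ℂ).symm : ℂ →L[ℝ] ℂ)‖₊⁻¹ := by
    have : ‖((ContinuousLinearEquiv.refl ℝ ℂ).symm : ℂ →L[ℝ] ℂ)‖₊ = 1 := by
      have h : ‖((ContinuousLinearEquiv.refl ℝ ℂ).symm : ℂ →L[ℝ] ℂ)‖ = 1 := by
        have : ((ContinuousLinearEquiv.refl ℝ ℂ).symm : ℂ →L[ℝ] ℂ) = ContinuousLinearMap.id ℝ ℂ := by
          ext <;> simp
        rw [this]
        exact ContinuousLinearMap.norm_id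
      exact NNReal.eq h
    rw [this, inv_one]
    have h3 : (c : ℝ) = ‖b - a‖ / r := rfl
    have : (c : ℝ) < 1 := by
      rw [h3, div_lt_one hr]
      exact hab
    exact_mod_cast this
  refine ⟨hap.toHomeomorph f (Or.inr hlt), ?_, ?_⟩
  · intro z hz
    have hz' : r ≤ ‖z - a‖ := by
      by_contra hcon
      push Not at hcon
      exact hz (by simpa [dist_eq_norm] using hcon)
    change f z = z
    have : max 0 (1 - ‖z - a‖ / r) = 0 := by
      apply max_eq_left
      rw [sub_nonpos, one_le_div hr]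
      exact hz'
    simp [hf, this]
  · change f a = b
    simp [hf]

end Pool.Agent.H.MP_e98f69_an
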