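import Pool.Agent.H.MP_e98f69_an.E.HomeA
import Pool.Agent.H.MP_e98f69_an.E.HomeB

/-! Homeomorphisms of the plane supported in a connected open set. -/

set_option autoImplicit false

open Set Filter Topology Metric

namespace Pool.Agent.H.MP_e98f69_an

/-- A homeomorphism equal to the identity off `O` maps `O` to `O`. -/
theorem home_mapsTo {O : Set ℂ} {h : ℂ ≃ₜ ℂ} (hh : ∀ z, z ∉ O → h z = z) {z : ℂ} (hz : z ∈ O) :
    h z ∈ O := by
  by_contra hcon
  have h1 := hh _ hcon
  have h2 : h z = z := h.injective h1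
  rw [h2] at hcon
  exact hcon hz

/-- Any point of a connected open set `O` can be moved to any other point by a homeomorphism of the plane
equal to the identity off `O`.
Proof: the set of `b ∈ O` reachable from `a` is open in `O` (`exists_homeo_local`, composition; note that such
homeomorphisms map `O` onto `O`), and its complement in `O` is open too (if `b` is not reachable then no point of a
ball around `b` in `O` is: otherwise compose with a local move, for `b' ∈ ball b (r/2)`, `b ∈ ball b' (r/2) ⊆ O`).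
Connectedness (`IsPreconnected.subset_left_of_subset_union` or `isPreconnected_iff_subset_of_disjoint`). -/
theorem exists_homeo_move {O : Set ℂ} (hO : IsOpen O) (hc : IsPreconnected O) {a b : ℂ}
    (ha : a ∈ O) (hb : b ∈ O) : ∃ h : ℂ ≃ₜ ℂ, (∀ z, z ∉ O → h z = z) ∧ h a = b := by
  set R : Set ℂ := {c | c ∈ O ∧ ∃ h : ℂ ≃ₜ ℂ, (∀ z, z ∉ O → h z = z) ∧ h a = c} with hR
  set S : Set ℂ := {c | c ∈ O ∧ ¬ ∃ h : ℂ ≃ₜ ℂ, (∀ z, z ∉ O → h z = z) ∧ h a = c} with hS
  -- a local step
  have step : ∀ c d : ℂ, ∀ r : ℝ, 0 < r → ball c r ⊆ O → d ∈ ball c r →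
      (∃ h : ℂ ≃ₜ ℂ, (∀ z, z ∉ O → h z = z) ∧ h a = c) →
      ∃ h : ℂ ≃ₜ ℂ, (∀ z, z ∉ O → h z = z) ∧ h a = d := by
    intro c d r hr hsub hd ⟨h, h1, h2⟩
    obtain ⟨g, g1, g2⟩ := exists_homeo_local hr hd
    refine ⟨h.trans g, ?_, ?_⟩
    · intro z hz
      simp only [Homeomorph.trans_apply]
      rw [h1 z hz]
      exact g1 z (fun hcon => hz (hsub hcon))
    · simp only [Homeomorph.trans_apply]
      rw [h2, g2]
  have hRo : IsOpen R := by
    rw [Metric.isOpen_iff]
    intro c hcR
    obtain ⟨r, hr, hsub⟩ := Metric.isOpen_iff.1 hO c hcR.1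
    exact ⟨r, hr, fun d hd => ⟨hsub hd, step c d r hr hsub hd hcR.2⟩⟩
  have hSo : IsOpen S := by
    rw [Metric.isOpen_iff]
    intro c hcS
    obtain ⟨r, hr, hsub⟩ := Metric.isOpen_iff.1 hO c hcS.1
    refine ⟨r / 2, by positivity, fun d hd => ?_⟩
    have hd' : dist d c < r / 2 := hd
    have hdO : d ∈ O := hsub (by
      rw [mem_ball]
      linarith)
    refine ⟨hdO, fun hcon => hcS.2 ?_⟩
    refine step d c (r / 2) (by positivity) ?_ ?_ hcon
    · intro x hx
      have hx' : dist x d < r / 2 := hx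
      apply hsub
      rw [mem_ball]
      have := dist_triangle x d c
      linarith
    · rw [mem_ball, dist_comm]
      exact hd'
  have hcov : O ⊆ R ∪ S := by
    intro c hcO
    by_cases hcon : ∃ h : ℂ ≃ₜ ℂ, (∀ z, z ∉ O → h z = z) ∧ h a = c
    · exact Or.inl ⟨hcO, hcon⟩
    · exact Or.inr ⟨hcO, hcon⟩
  have haR : a ∈ R := ⟨ha, Homeomorph.refl ℂ, fun z _ => rfl, rfl⟩
  by_contra hcon
  have hbS : b ∈ S := ⟨hb, hcon⟩
  obtain ⟨x, hxO, hxR, hxS⟩ := hc R S hRo hSo hcov ⟨a, ha, haR⟩ ⟨b, hb, hbS⟩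
  exact hxS.2 hxR.2

/-- A finite subset of a connected open set `O` can be moved into any nonempty open subset `G` of `O` by a
homeomorphism equal to the identity off `O`.
Proof: induction on `F`. For `insert v F'` let `h'` be the homeomorphism for `F'`. `h' v ∈ O` (a homeomorphism equal to
the identity off `O` maps `O` to `O`), `h' v ∉ h' '' F'`. Choose `g ∈ G \ h' '' F'` (`G` is infinite, e.g. it contains a ball).
Apply `exists_homeo_move` to `O \ h' '' F'` (open, preconnected by `isPreconnected_diff_finset`), `a = h' v`, `b = g`, and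
compose: `h'' ∘ h'` maps `v` to `g` and is equal to `h'` on `F'`. -/
theorem exists_homeo_finset {O G : Set ℂ} (hO : IsOpen O) (hc : IsPreconnected O) (hG : IsOpen G)
    (hne : G.Nonempty) (hGO : G ⊆ O) (F : Finset ℂ) (hF : (F : Set ℂ) ⊆ O) :
    ∃ h : ℂ ≃ₜ ℂ, (∀ z, z ∉ O → h z = z) ∧ ∀ v ∈ F, h v ∈ G := by
  classical
  induction F using Finset.induction_on with
  | empty => exact ⟨Homeomorph.refl ℂ, fun z _ => rfl, by simp⟩
  | insert v F' hv ih =>
    have hvO : v ∈ O := hF (by simp)
    obtain ⟨h', h1, h2⟩ := ih (fun x hx => hF (by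
      have : x ∈ F' := hx
      simp [this]))
    set K : Finset ℂ := F'.image h' with hK
    have hvK : h' v ∉ (K : Set ℂ) := by
      intro hcon
      have : h' v ∈ K := hcon
      rw [hK, Finset.mem_image] at this
      obtain ⟨u, hu, hu'⟩ := this
      have := h'.injective hu'
      rw [this] at hu
      exact hv hu
    -- choose `g`
    have hGinf : G.Infinite := by
      obtain ⟨g0, hg0⟩ := hne
      exact infinite_of_mem_nhds g0 (hG.mem_nhds hg0)
    obtain ⟨g, hgG, hgK⟩ := hGinf.exists_notMem_finset K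
    have hOK : IsOpen (O \ (K : Set ℂ)) := hO.sdiff K.finite_toSet.isClosed
    obtain ⟨h'', k1, k2⟩ := exists_homeo_move hOK (isPreconnected_diff_finset hO hc K)
      (a := h' v) (b := g) ⟨home_mapsTo h1 hvO, hvK⟩ ⟨hGO hgG, hgK⟩
    refine ⟨h'.trans h'', ?_, ?_⟩
    · intro z hz
      simp only [Homeomorph.trans_apply]
      rw [h1 z hz]
      exact k1 z (fun hcon => hz hcon.1)
    · intro u hu
      simp only [Homeomorph.trans_apply]
      rw [Finset.mem_insert] at hu
      rcases hu with rfl | hu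
      · rw [k2]
        exact hgG
      · rw [k1]
        · exact h2 u hu
        · intro hcon
          apply hcon.2
          change h' u ∈ K
          rw [hK]
          exact Finset.mem_image_of_mem _ hu

end Pool.Agent.H.MP_e98f69_an
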