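import Pool.Agent.H.MP_e98f69_an.E.OutA
import Pool.Agent.H.MP_e98f69_an.E.Home

/-! Separating a compact set from points connected to infinity by a disc. -/

set_option autoImplicit false

open Set Filter Topology Metric

namespace Pool.Agent.H.MP_e98f69_an

/-- A compact set `Γ` and a finite set `F` of points connected to infinity off `Γ` are separated by a topological
disc: there are a homeomorphism `h` of the plane and `R` such that `h⁻¹ (ball 0 R)` contains `Γ` and no point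
of `F`.
Proof: `O` from `out_component`; take `R > 0` with `Γ ⊆ ball 0 R` and `{R - 1 ≤ ‖z‖} ⊆ O`, `G = {z | R < ‖z‖}`;
`exists_homeo_finset` gives `h` with `h = id` off `O`, in particular on `Γ` (so `h z = z ∈ ball 0 R`), and `h v ∈ G`. -/
theorem exists_disc {Γ : Set ℂ} (hΓ : IsCompact Γ) (F : Finset ℂ) (hF : ∀ v ∈ F, Out Γ v) :
    ∃ (h : ℂ ≃ₜ ℂ) (R : ℝ), 0 < R ∧ (∀ z ∈ Γ, h z ∈ ball (0 : ℂ) R) ∧ ∀ v ∈ F, h v ∉ ball (0 : ℂ) R := by
  obtain ⟨O, hO, hOp, hOΓ, ⟨R₀, hR₀⟩, hOut⟩ := out_component hΓ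
  obtain ⟨R₁, hR₁⟩ := hΓ.isBounded.subset_ball (0 : ℂ)
  set R : ℝ := max 1 (max R₀ R₁) with hR
  have hRpos : 0 < R := lt_of_lt_of_le one_pos (le_max_left _ _)
  have hR0 : R₀ ≤ R := (le_max_left _ _).trans (le_max_right _ _)
  have hR1 : R₁ ≤ R := (le_max_right _ _).trans (le_max_right _ _)
  set G : Set ℂ := {z | R < ‖z‖} with hG
  have hGo : IsOpen G := isOpen_lt continuous_const continuous_norm
  have hGne : G.Nonempty := ⟨((R + 1 : ℝ) : ℂ), by
    change R < ‖((R + 1 : ℝ) : ℂ)‖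
    rw [Complex.norm_real, Real.norm_eq_abs, abs_of_pos (by linarith)]
    linarith⟩
  have hGO : G ⊆ O := fun z hz => hR₀ z (hR0.trans (le_of_lt hz))
  obtain ⟨h, h1, h2⟩ := exists_homeo_finset hO hOp hGo hGne hGO F (fun v hv => hOut v (hF v hv))
  refine ⟨h, R, hRpos, ?_, ?_⟩
  · intro z hz
    rw [h1 z (fun hcon => disjoint_left.1 hOΓ hcon hz)]
    exact ball_subset_ball hR1 (hR₁ hz)
  · intro v hv hcon
    have h3 : R < ‖h v‖ := h2 v hv
    rw [mem_ball_zero_iff] at hcon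
    exact absurd h3 (not_lt.2 hcon.le)

end Pool.Agent.H.MP_e98f69_an
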