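import Pool.Agent.H.MP_e98f69_an.E.CovC
import Pool.Agent.H.MP_e98f69_an.E.Out

/-! The monodromy lemma. -/

set_option autoImplicit false

open Set Filter Topology Metric

namespace Pool.Agent.H.MP_e98f69_an

/-- **Monodromy lemma.** If all finite critical values of `A / B` are connected to infinity off the closed path
`A / B ∘ γ`, then `γ` is closed.
Proof: the set `F` of finite critical values is finite (`wr_ne`: image of the roots of `wr A B`); `exists_disc` for
`Γ` = image of `Icc 0 1` under `A / B ∘ γ` (compact) and `lift_closed`. -/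
theorem monodromy {A B : Polynomial ℂ} (hB : B ≠ 0) (hdeg : B.natDegree < A.natDegree)
    (hco : ∀ z : ℂ, ¬ (A.eval z = 0 ∧ B.eval z = 0)) {γ : ℝ → ℂ} (hγ : ContinuousOn γ (Icc 0 1))
    (hγB : ∀ t ∈ Icc (0 : ℝ) 1, B.eval (γ t) ≠ 0)
    (hcl : A.eval (γ 0) / B.eval (γ 0) = A.eval (γ 1) / B.eval (γ 1))
    (hout : ∀ z : ℂ, B.eval z ≠ 0 → (wr A B).eval z = 0 →
      Out ((fun t : ℝ => A.eval (γ t) / B.eval (γ t)) '' Icc 0 1) (A.eval z / B.eval z)) :
    γ 0 = γ 1 := by
  classical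
  have hwr := wr_ne hB hdeg
  have hcont : ContinuousOn (fun t : ℝ => A.eval (γ t) / B.eval (γ t)) (Icc 0 1) :=
    (A.continuous.comp_continuousOn hγ).div (B.continuous.comp_continuousOn hγ) hγB
  have hΓ : IsCompact ((fun t : ℝ => A.eval (γ t) / B.eval (γ t)) '' Icc 0 1) :=
    isCompact_Icc.image_of_continuousOn hcont
  let F : Finset ℂ := ((wr A B).roots.toFinset.filter fun z => B.eval z ≠ 0).image
    fun z => A.eval z / B.eval z
  obtain ⟨h, R, hR, hh1, hh2⟩ := exists_disc hΓ F (by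
    intro v hv
    obtain ⟨z, hz, rfl⟩ := Finset.mem_image.1 hv
    obtain ⟨hz1, hz2⟩ := Finset.mem_filter.1 hz
    exact hout z hz2 ((Polynomial.mem_roots hwr).1 (Multiset.mem_toFinset.1 hz1)))
  refine lift_closed hB hdeg hco hR (fun z hz1 hz2 => hh2 _ ?_) hγ hγB
    (fun t ht => hh1 _ (mem_image_of_mem _ ht)) hcl
  exact Finset.mem_image.2 ⟨z, Finset.mem_filter.2
    ⟨Multiset.mem_toFinset.2 ((Polynomial.mem_roots hwr).2 hz2), hz1⟩, rfl⟩

end Pool.Agent.H.MP_e98f69_an
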