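import Mathlib

/-! Rational functions with a pole at infinity: closed maps. -/

set_option autoImplicit false

open Set Filter Topology Metric

namespace Pool.Agent.H.MP_e98f69_an

/-- the map `A / B` on the complement of the zeros of `B` -/
noncomputable def ratE (A B : Polynomial ℂ) : {z : ℂ // B.eval z ≠ 0} → ℂ :=
  fun z => A.eval (z : ℂ) / B.eval (z : ℂ)

/-- the critical polynomial -/
noncomputable def wr (A B : Polynomial ℂ) : Polynomial ℂ :=
  Polynomial.derivative A * B - A * Polynomial.derivative B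

/-- The critical polynomial is not zero if `deg B < deg A` (and `B ≠ 0`).
Proof: with `a = natDegree A > b = natDegree B` the coefficient of `X^(a + b - 1)` is
`(a - b) * leadingCoeff A * leadingCoeff B ≠ 0`. -/
theorem wr_ne {A B : Polynomial ℂ} (hB : B ≠ 0) (hdeg : B.natDegree < A.natDegree) : wr A B ≠ 0 := by
  intro h0
  have hA : A ≠ 0 := by
    rintro rfl
    simp at hdeg
  obtain ⟨a, ha⟩ : ∃ a, A.natDegree = a + 1 := ⟨A.natDegree - 1, by omega⟩
  have hlA : A.leadingCoeff ≠ 0 := Polynomial.leadingCoeff_ne_zero.2 hA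
  have hlB : B.leadingCoeff ≠ 0 := Polynomial.leadingCoeff_ne_zero.2 hB
  have hAc : A.coeff (a + 1) = A.leadingCoeff := by rw [← ha]; rfl
  have h1 : (Polynomial.derivative A * B).coeff (a + B.natDegree)
      = (A.leadingCoeff * (a + 1)) * B.leadingCoeff := by
    rw [Polynomial.coeff_mul_add_eq_of_natDegree_le (df := a) (dg := B.natDegree)]
    · rw [Polynomial.coeff_derivative, hAc]; rfl
    · have := Polynomial.natDegree_derivative_le A
      omega
    · exact le_rfl
  have h2 : (A * Polynomial.derivative B).coeff (a + B.natDegree)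
      = A.leadingCoeff * (B.natDegree * B.leadingCoeff) := by
    rcases Nat.eq_zero_or_pos B.natDegree with hb | hb
    · have hd : Polynomial.derivative B = 0 := Polynomial.derivative_of_natDegree_zero hb
      rw [hd, hb]
      simp
    · obtain ⟨b, hb'⟩ : ∃ b, B.natDegree = b + 1 := ⟨B.natDegree - 1, by omega⟩
      have hBc : B.coeff (b + 1) = B.leadingCoeff := by rw [← hb']; rfl
      rw [hb', show a + (b + 1) = (a + 1) + b by ring,
        Polynomial.coeff_mul_add_eq_of_natDegree_le (df := a + 1) (dg := b)]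
      · rw [Polynomial.coeff_derivative, hAc, hBc]
        push_cast
        ring
      · omega
      · have := Polynomial.natDegree_derivative_le B
        omega
  have h3 := congrArg (fun p => Polynomial.coeff p (a + B.natDegree)) h0
  simp only [wr, Polynomial.coeff_sub, Polynomial.coeff_zero] at h3
  rw [h1, h2] at h3
  have h4 : A.leadingCoeff * B.leadingCoeff * (((a : ℂ) + 1) - B.natDegree) = 0 := by
    linear_combination h3
  rcases mul_eq_zero.1 h4 with h5 | h5
  · rcases mul_eq_zero.1 h5 with h6 | h6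
    · exact hlA h6
    · exact hlB h6
  · have h6 : ((a + 1 : ℕ) : ℂ) = ((B.natDegree : ℕ) : ℂ) := by
      push_cast
      linear_combination h5
    have h7 : a + 1 = B.natDegree := by exact_mod_cast h6
    omega

lemma covA_upper (P : Polynomial ℂ) {n : ℕ} (hn : P.natDegree ≤ n) :
    ∃ C : ℝ, 0 ≤ C ∧ ∀ z : ℂ, 1 ≤ ‖z‖ → ‖P.eval z‖ ≤ C * ‖z‖ ^ n := by
  refine ⟨∑ i ∈ Finset.range (P.natDegree + 1), ‖P.coeff i‖,
    Finset.sum_nonneg fun i _ => norm_nonneg _, fun z hz => ?_⟩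
  rw [Polynomial.eval_eq_sum_range, Finset.sum_mul]
  refine (norm_sum_le _ _).trans (Finset.sum_le_sum fun i hi => ?_)
  rw [norm_mul, norm_pow]
  refine mul_le_mul_of_nonneg_left ?_ (norm_nonneg _)
  refine pow_le_pow_right₀ hz ?_
  have := Finset.mem_range.1 hi
  omega

/-- `|A / B| → ∞` at infinity: for every `M` there is `R` such that `‖A z / B z‖ > M` whenever `‖z‖ > R` and
`B z ≠ 0`. (`Polynomial.tendsto_norm_atTop`, `Polynomial.div_tendsto_...` for complex polynomials compare orders: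
e.g. `Polynomial.isBigO_of_degree_le` / or write `A = B * C + D` with `deg D < deg B`, `natDegree C ≥ 1`.) -/
theorem ratE_large {A B : Polynomial ℂ} (hB : B ≠ 0) (hdeg : B.natDegree < A.natDegree) (M : ℝ) :
    ∃ R : ℝ, ∀ z : ℂ, R < ‖z‖ → B.eval z ≠ 0 → M < ‖A.eval z / B.eval z‖ := by
  have hA : A ≠ 0 := by
    rintro rfl
    simp at hdeg
  obtain ⟨a, ha⟩ : ∃ a, A.natDegree = a + 1 := ⟨A.natDegree - 1, by omega⟩
  have hlA : 0 < ‖A.leadingCoeff‖ := norm_pos_iff.2 (Polynomial.leadingCoeff_ne_zero.2 hA)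
  obtain ⟨C₁, hC₁, h₁⟩ := covA_upper A.eraseLead (n := a) (by
    have := Polynomial.eraseLead_natDegree_le A
    omega)
  obtain ⟨C₂, hC₂, h₂⟩ := covA_upper B (n := a) (by omega)
  refine ⟨max 1 ((C₁ + |M| * C₂ + 1) / ‖A.leadingCoeff‖), fun z hz hBz => ?_⟩
  have hz1 : 1 ≤ ‖z‖ := ((le_max_left _ _).trans_lt hz).le
  have hz2 : (C₁ + |M| * C₂ + 1) / ‖A.leadingCoeff‖ < ‖z‖ := (le_max_right _ _).trans_lt hz
  rw [div_lt_iff₀ hlA] at hz2
  have hBz' : 0 < ‖B.eval z‖ := norm_pos_iff.2 hBz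
  rw [norm_div, lt_div_iff₀ hBz']
  have hAz : A.eval z = A.eraseLead.eval z + A.leadingCoeff * z ^ (a + 1) := by
    conv_lhs => rw [← Polynomial.eraseLead_add_C_mul_X_pow A]
    simp [ha]
  have h3 : ‖A.leadingCoeff‖ * ‖z‖ ^ (a + 1) - C₁ * ‖z‖ ^ a ≤ ‖A.eval z‖ := by
    have h4 : ‖A.leadingCoeff * z ^ (a + 1)‖ ≤ ‖A.eval z‖ + ‖A.eraseLead.eval z‖ := by
      have : A.leadingCoeff * z ^ (a + 1) = A.eval z - A.eraseLead.eval z := by
        rw [hAz]; ring
      rw [this]
      exact norm_sub_le _ _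
    rw [norm_mul, norm_pow] at h4
    have := h₁ z hz1
    linarith
  have hpow : 0 < ‖z‖ ^ a := pow_pos (by linarith) _
  have h5 : M * ‖B.eval z‖ ≤ |M| * (C₂ * ‖z‖ ^ a) := by
    calc M * ‖B.eval z‖ ≤ |M| * ‖B.eval z‖ :=
          mul_le_mul_of_nonneg_right (le_abs_self M) (norm_nonneg _)
      _ ≤ |M| * (C₂ * ‖z‖ ^ a) := mul_le_mul_of_nonneg_left (h₂ z hz1) (abs_nonneg _)
  have h6 : (C₁ + |M| * C₂ + 1) * ‖z‖ ^ a < ‖z‖ * ‖A.leadingCoeff‖ * ‖z‖ ^ a :=
    mul_lt_mul_of_pos_right hz2 hpow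
  have h7 : ‖A.leadingCoeff‖ * ‖z‖ ^ (a + 1) = ‖z‖ * ‖A.leadingCoeff‖ * ‖z‖ ^ a := by ring
  nlinarith

/-- `A / B` is a closed map on the complement of the poles.
Proof: let `K` be closed in the subtype and `A z_n / B z_n → w`, `z_n ∈ K`. `z_n` is bounded by `ratE_large`; a subsequence
tends to `z`. If `B z = 0` then `A z ≠ 0` (no common zeros) and `‖A z_n / B z_n‖ → ∞`, a contradiction. So
`B z ≠ 0`, `z ∈ K`, `A z / B z = w`. -/
theorem ratE_isClosedMap {A B : Polynomial ℂ} (hB : B ≠ 0) (hdeg : B.natDegree < A.natDegree)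
    (hco : ∀ z : ℂ, ¬ (A.eval z = 0 ∧ B.eval z = 0)) : IsClosedMap (ratE A B) := by
  intro K hK
  refine IsSeqClosed.isClosed fun w w₀ hw hlim => ?_
  choose x hxK hxw using hw
  obtain ⟨M, hM⟩ : ∃ M, ∀ n, ‖w n‖ ≤ M := by
    obtain ⟨M, hM⟩ := (Metric.isBounded_range_of_tendsto w hlim).exists_norm_le
    exact ⟨M, fun n => hM _ (mem_range_self n)⟩
  obtain ⟨R, hR⟩ := ratE_large hB hdeg M
  have hbd : ∀ n, (x n : ℂ) ∈ closedBall (0 : ℂ) R := by
    intro n
    rw [mem_closedBall_zero_iff]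
    by_contra hlt
    have h1 := hR (x n) (not_le.1 hlt) (x n).2
    have h2 : ‖A.eval (x n : ℂ) / B.eval (x n : ℂ)‖ = ‖w n‖ := by
      rw [← hxw n]; rfl
    rw [h2] at h1
    exact absurd (hM n) (not_le.2 h1)
  obtain ⟨z, -, φ, hφ, hz⟩ := (isCompact_closedBall (0 : ℂ) R).tendsto_subseq hbd
  have hAn : ∀ n, A.eval (x n : ℂ) = w n * B.eval (x n : ℂ) := by
    intro n
    rw [← hxw n]
    exact (div_mul_cancel₀ _ (x n).2).symm
  have hA1 : Tendsto (fun n => A.eval ((x (φ n) : ℂ))) atTop (𝓝 (A.eval z)) :=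
    (A.continuous.tendsto z).comp hz
  have hB1 : Tendsto (fun n => B.eval ((x (φ n) : ℂ))) atTop (𝓝 (B.eval z)) :=
    (B.continuous.tendsto z).comp hz
  have hw1 : Tendsto (fun n => w (φ n)) atTop (𝓝 w₀) := hlim.comp hφ.tendsto_atTop
  have hAB : A.eval z = w₀ * B.eval z := by
    refine tendsto_nhds_unique hA1 ?_
    have h2 := hw1.mul hB1
    refine h2.congr fun n => ?_
    exact (hAn (φ n)).symm
  have hBz : B.eval z ≠ 0 := by
    intro h0
    refine hco z ⟨?_, h0⟩
    rw [hAB, h0, mul_zero]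
  refine ⟨⟨z, hBz⟩, ?_, ?_⟩
  · have hsub : Tendsto (fun n => x (φ n)) atTop (𝓝 (⟨z, hBz⟩ : {z : ℂ // B.eval z ≠ 0})) := by
      rw [tendsto_subtype_rng]
      exact hz
    exact hK.mem_of_tendsto hsub (Eventually.of_forall fun n => hxK (φ n))
  · change A.eval z / B.eval z = w₀
    rw [hAB, mul_div_assoc, div_self hBz, mul_one]

end Pool.Agent.H.MP_e98f69_an
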