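import Pool.Agent.H.MP_e98f69_an.E.CovA

/-! Rational functions with a pole at infinity are coverings over noncritical values. -/

set_option autoImplicit false

open Set Filter Topology Metric

namespace Pool.Agent.H.MP_e98f69_an

/-- `A / B` is a covering map over the complement of the critical values.
Proof: `IsClosedMap.isCoveringMapOn_of_isLocalHomeomorphOn` as in `Polynomial.isCoveringMapOn_eval`
(Mathlib/Analysis/Complex/CoveringMap.lean). Finite fibres: the fibre of `w` is contained in the set of roots of
`A - C w * B ≠ 0` (degree). Local homeomorphism: if `w = A z / B z ∈ s` then `wr A B` does not vanish at `z`, so the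
derivative of `A / B` at `z` is not zero; `HasStrictDerivAt.hasStrictFDerivAt_equiv`, `toOpenPartialHomeomorph` and the
restriction to the open subtype `{B ≠ 0}` (`IsOpen.isOpenEmbedding_subtypeVal`, `OpenPartialHomeomorph.subtypeRestr`
or `IsOpenEmbedding.toOpenPartialHomeomorph`). -/
theorem ratE_cover {A B : Polynomial ℂ} (hB : B ≠ 0) (hdeg : B.natDegree < A.natDegree)
    (hco : ∀ z : ℂ, ¬ (A.eval z = 0 ∧ B.eval z = 0)) {s : Set ℂ}
    (hs : ∀ z : ℂ, B.eval z ≠ 0 → (wr A B).eval z = 0 → A.eval z / B.eval z ∉ s) :
    IsCoveringMapOn (ratE A B) s := by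
  refine (ratE_isClosedMap hB hdeg hco).isCoveringMapOn_of_isLocalHomeomorphOn
    (fun w _ => ?_) ?_
  · have hne : A - Polynomial.C w * B ≠ 0 := by
      intro h0
      have hA : A = Polynomial.C w * B := sub_eq_zero.1 h0
      have h1 : A.natDegree ≤ B.natDegree := by
        rw [hA]
        exact Polynomial.natDegree_C_mul_le _ _
      omega
    have hfin : {z : ℂ | (A - Polynomial.C w * B).IsRoot z}.Finite :=
      Polynomial.finite_setOfPred_isRoot hne
    refine Set.Finite.of_finite_image (f := Subtype.val) (hfin.subset ?_)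
      Subtype.val_injective.injOn
    rintro _ ⟨z, hz, rfl⟩
    have hz' : A.eval (z : ℂ) / B.eval (z : ℂ) = w := hz
    have hz2 : A.eval (z : ℂ) = w * B.eval (z : ℂ) := (div_eq_iff z.2).1 hz'
    change (A - Polynomial.C w * B).eval (z : ℂ) = 0
    simp [hz2]
  · have hopen : IsOpen {z : ℂ | B.eval z ≠ 0} :=
      isOpen_ne_fun B.continuous continuous_const
    have hval : IsLocalHomeomorph (Subtype.val : {z : ℂ // B.eval z ≠ 0} → ℂ) :=
      hopen.isOpenEmbedding_subtypeVal.isLocalHomeomorph
    have hg : IsLocalHomeomorphOn (fun z : ℂ => A.eval z / B.eval z)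
        {z : ℂ | B.eval z ≠ 0 ∧ (wr A B).eval z ≠ 0} := by
      rintro z ⟨hz1, hz2⟩
      have hd : HasStrictDerivAt (fun y : ℂ => A.eval y / B.eval y)
          (((Polynomial.derivative A).eval z * B.eval z - A.eval z * (Polynomial.derivative B).eval z)
            / B.eval z ^ 2) z :=
        (A.hasStrictDerivAt z).fun_div (B.hasStrictDerivAt z) hz1
      have hd0 : ((Polynomial.derivative A).eval z * B.eval z
          - A.eval z * (Polynomial.derivative B).eval z) / B.eval z ^ 2 ≠ 0 := by
        refine div_ne_zero ?_ (pow_ne_zero 2 hz1)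
        simpa [wr] using hz2
      exact ⟨_, (hd.hasStrictFDerivAt_equiv hd0).mem_toOpenPartialHomeomorph_source, by simp⟩
    exact hg.comp hval.isLocalHomeomorphOn fun z hz => ⟨z.2, fun h0 => hs z z.2 h0 hz⟩

end Pool.Agent.H.MP_e98f69_an
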