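import Pool.Agent.H.MP_e98f69_an.E.CovB

/-! Lifts of closed paths in a topological disc. -/

set_option autoImplicit false

open Set Filter Topology Metric

namespace Pool.Agent.H.MP_e98f69_an

lemma covC_unique {E X : Type*} [TopologicalSpace E] [TopologicalSpace X] {p : E → X} {s : Set X}
    (cov : IsCoveringMapOn p s) {A : Type*} [TopologicalSpace A] [PreconnectedSpace A]
    {g₁ g₂ : A → E} (h₁ : Continuous g₁) (h₂ : Continuous g₂) (he : ∀ a, p (g₁ a) = p (g₂ a))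
    (hs : ∀ a, p (g₁ a) ∈ s) (a : A) (ha : g₁ a = g₂ a) : g₁ = g₂ := by
  have hs₂ : ∀ a, p (g₂ a) ∈ s := fun a => he a ▸ hs a
  have key := cov.isCoveringMap_restrictPreimage.eq_of_comp_eq
    (g₁ := fun a => (⟨g₁ a, hs a⟩ : p ⁻¹' s)) (g₂ := fun a => (⟨g₂ a, hs₂ a⟩ : p ⁻¹' s))
    (h₁.subtype_mk _) (h₂.subtype_mk _) (by
      funext a
      exact Subtype.ext (he a)) a (Subtype.ext ha)
  funext b
  exact congrArg Subtype.val (congrFun key b)

/-- Paths whose image under `A / B` is a closed path in a topological disc without critical values are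
closed.
Proof: let `D = h ⁻¹' ball 0 R` (open, contractible: homeomorphic to `ball 0 R`, so `SimplyConnectedSpace D`,
`LocallyPathConnectedSpace D`). `IsCoveringMapOn.existsUnique_continuousMap_lifts` (Mathlib/Topology/Homotopy/Lifting.lean)
for the inclusion `D → ℂ` gives a continuous `g : D → {B ≠ 0}` with `ratE A B ∘ g = Subtype.val` and
`g (f (γ 0)) = γ 0`, where `f = A / B`. The continuous maps `t ↦ g (f (γ t))` and `t ↦ γ t` from `Icc 0 1` to `{B ≠ 0}` have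
the same composition with `ratE A B` and agree at `0`; by uniqueness of lifts (`IsCoveringMapOn`: compare
`IsCoveringMap.eq_of_comp_eq`, `IsSeparatedMap`/`IsLocallyInjective.eq_of_comp_eq`; or use the local homeomorphism property
over `s = D`) they agree. So `γ 1 = g (f (γ 1)) = g (f (γ 0)) = γ 0`. -/
theorem lift_closed {A B : Polynomial ℂ} (hB : B ≠ 0) (hdeg : B.natDegree < A.natDegree)
    (hco : ∀ z : ℂ, ¬ (A.eval z = 0 ∧ B.eval z = 0)) {h : ℂ ≃ₜ ℂ} {R : ℝ} (hR : 0 < R)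
    (hs : ∀ z : ℂ, B.eval z ≠ 0 → (wr A B).eval z = 0 → h (A.eval z / B.eval z) ∉ ball (0 : ℂ) R)
    {γ : ℝ → ℂ} (hγ : ContinuousOn γ (Icc 0 1)) (hγB : ∀ t ∈ Icc (0 : ℝ) 1, B.eval (γ t) ≠ 0)
    (hγD : ∀ t ∈ Icc (0 : ℝ) 1, h (A.eval (γ t) / B.eval (γ t)) ∈ ball (0 : ℂ) R)
    (hcl : A.eval (γ 0) / B.eval (γ 0) = A.eval (γ 1) / B.eval (γ 1)) : γ 0 = γ 1 := by
  have cov : IsCoveringMapOn (ratE A B) (h ⁻¹' ball (0 : ℂ) R) :=
    ratE_cover hB hdeg hco fun z hz hw => hs z hz hw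
  haveI : ContractibleSpace (ball (0 : ℂ) R) :=
    (convex_ball (0 : ℂ) R).contractibleSpace (nonempty_ball.2 hR)
  haveI : LocallyPathConnectedSpace (ball (0 : ℂ) R) := isOpen_ball.locallyPathConnectedSpace
  have h0 : (0 : ℝ) ∈ Icc (0 : ℝ) 1 := ⟨le_rfl, zero_le_one⟩
  have h1 : (1 : ℝ) ∈ Icc (0 : ℝ) 1 := ⟨zero_le_one, le_rfl⟩
  let f : C(ball (0 : ℂ) R, ℂ) := ⟨fun x => h.symm x, h.symm.continuous.comp continuous_subtype_val⟩
  let a₀ : ball (0 : ℂ) R := ⟨h (A.eval (γ 0) / B.eval (γ 0)), hγD 0 h0⟩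
  let e₀ : {z : ℂ // B.eval z ≠ 0} := ⟨γ 0, hγB 0 h0⟩
  obtain ⟨F, ⟨hF0, hF⟩, -⟩ := cov.existsUnique_continuousMap_lifts f (a₀ := a₀) (e₀ := e₀)
    (by
      change A.eval (γ 0) / B.eval (γ 0) = h.symm (h (A.eval (γ 0) / B.eval (γ 0)))
      rw [h.symm_apply_apply])
    (by
      intro a
      change h (h.symm a) ∈ ball (0 : ℂ) R
      rw [h.apply_symm_apply]
      exact a.2)
  have hFa : ∀ a, ratE A B (F a) = h.symm a := fun a => congrFun hF a
  have hγc : Continuous fun t : Icc (0 : ℝ) 1 => γ t := continuousOn_iff_continuous_restrict.1 hγ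
  let g₂ : Icc (0 : ℝ) 1 → {z : ℂ // B.eval z ≠ 0} := fun t => ⟨γ t, hγB t t.2⟩
  have hg₂ : Continuous g₂ := hγc.subtype_mk _
  have hcf : Continuous fun t : Icc (0 : ℝ) 1 => h (A.eval (γ t) / B.eval (γ t)) :=
    h.continuous.comp ((A.continuous.comp hγc).div (B.continuous.comp hγc)
      fun t => hγB t t.2)
  let g₁ : Icc (0 : ℝ) 1 → {z : ℂ // B.eval z ≠ 0} :=
    fun t => F ⟨h (A.eval (γ t) / B.eval (γ t)), hγD t t.2⟩
  have hg₁ : Continuous g₁ := F.continuous.comp (hcf.subtype_mk _)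
  have hpg : ∀ t, ratE A B (g₁ t) = ratE A B (g₂ t) := by
    intro t
    change ratE A B (F ⟨h (A.eval (γ t) / B.eval (γ t)), hγD t t.2⟩)
      = A.eval (γ t) / B.eval (γ t)
    rw [hFa]
    exact h.symm_apply_apply _
  have hsg : ∀ t, ratE A B (g₁ t) ∈ h ⁻¹' ball (0 : ℂ) R := by
    intro t
    rw [hpg t]
    exact hγD t t.2
  haveI : PreconnectedSpace (Icc (0 : ℝ) 1) :=
    isPreconnected_iff_preconnectedSpace.1 isPreconnected_Icc
  have key := covC_unique cov hg₁ hg₂ hpg hsg ⟨0, h0⟩ hF0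
  have hend : g₁ ⟨1, h1⟩ = g₁ ⟨0, h0⟩ := by
    change F ⟨h (A.eval (γ 1) / B.eval (γ 1)), hγD 1 h1⟩
      = F ⟨h (A.eval (γ 0) / B.eval (γ 0)), hγD 0 h0⟩
    have hc : h (A.eval (γ 1) / B.eval (γ 1)) = h (A.eval (γ 0) / B.eval (γ 0)) :=
      congrArg h hcl.symm
    exact congrArg F (Subtype.ext hc)
  have e1 := congrFun key ⟨1, h1⟩
  have e0 := congrFun key ⟨0, h0⟩
  have : g₂ ⟨0, h0⟩ = g₂ ⟨1, h1⟩ := by rw [← e1, ← e0, hend]
  exact congrArg Subtype.val this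

end Pool.Agent.H.MP_e98f69_an
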