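import Pool.Agent.H.MP_e98f69_an.Main

/-! Impressions, the sets `Z_x`, the common part of the impressions. -/

set_option autoImplicit false

open Set Filter Topology Metric

namespace Pool.Agent.H.MP_e98f69_an

/-- the impression of the prime end `ζ` -/
def Imp (S : Set ℂ) (φ : ℂ → ℂ) (ζ : ℂ) : Set ℂ := {x | rel S φ ζ x}

/-- the set of the prime ends whose impression contains `x` -/
def Zs (S : Set ℂ) (φ : ℂ → ℂ) (x : ℂ) : Set ℂ := {ζ | ‖ζ‖ = 1 ∧ rel S φ ζ x}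

/-- the common part of all impressions -/
def Pc (S : Set ℂ) (φ : ℂ → ℂ) : Set ℂ := {x | ∀ ζ : ℂ, ‖ζ‖ = 1 → rel S φ ζ x}

/-- position of `b` with respect to the line through `ζ1`, `ζ2` -/
noncomputable def side (ζ1 ζ2 b : ℂ) : ℝ := ((ζ2 - b) * (starRingEnd ℂ) (ζ1 - b)).im

lemma side_eq (ζ1 ζ2 b : ℂ) : side ζ1 ζ2 b =
    (ζ2.im - b.im) * (ζ1.re - b.re) - (ζ2.re - b.re) * (ζ1.im - b.im) := by
  unfold side
  simp [Complex.mul_im]
  ring

lemma continuous_side (ζ1 ζ2 : ℂ) : Continuous (side ζ1 ζ2) := by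
  have : side ζ1 ζ2 = fun b : ℂ =>
    (ζ2.im - b.im) * (ζ1.re - b.re) - (ζ2.re - b.re) * (ζ1.im - b.im) := by
    funext b; exact side_eq ζ1 ζ2 b
  rw [this]
  have h1 := Complex.continuous_re
  have h2 := Complex.continuous_im
  fun_prop

lemma isClosed_Imp (S : Set ℂ) (φ : ℂ → ℂ) (ζ : ℂ) : IsClosed (Imp S φ ζ) := by
  have h := (rel_isClosed (S := S) (φ := φ)).preimage
    (by fun_prop : Continuous fun y : ℂ => ((ζ, y) : ℂ × ℂ))
  exact h

lemma isClosed_Zs (S : Set ℂ) (φ : ℂ → ℂ) (x : ℂ) : IsClosed (Zs S φ x) := by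
  have h := (rel_isClosed (S := S) (φ := φ)).preimage
    (by fun_prop : Continuous fun ζ : ℂ => ((ζ, x) : ℂ × ℂ))
  exact (isClosed_eq continuous_norm continuous_const).inter h

lemma isClosed_Pc (S : Set ℂ) (φ : ℂ → ℂ) : IsClosed (Pc S φ) := by
  have : Pc S φ = ⋂ ζ : {ζ : ℂ // ‖ζ‖ = 1}, Imp S φ ζ := by
    ext x
    simp [Pc, Imp]
  rw [this]
  exact isClosed_iInter fun ζ => isClosed_Imp S φ ζ

/-- A nonempty closed subset of the unit circle that is mapped into itself by a nontrivial power of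
an irrational rotation is the whole circle.
Proof: for `ζ0 ∈ A` all `rot θ ^ (k * n) * ζ0` are in `A`; they are dense in the circle by `dense_orbit` applied
to the irrational number `k * θ` (see the proof of `Siegel.periodic_rel` for
`rot (k * θ) ^ n = rot θ ^ (k * n)`); `A` is closed. -/
theorem closed_inv {θ : ℝ} (hθ : Irrational θ) {A : Set ℂ} (hA : IsClosed A)
    (hsub : ∀ ζ ∈ A, ‖ζ‖ = 1) (hne : A.Nonempty) {k : ℕ} (hk : 1 ≤ k)
    (hinv : ∀ ζ ∈ A, rot θ ^ k * ζ ∈ A) {ζ : ℂ} (hζ : ‖ζ‖ = 1) : ζ ∈ A := by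
  obtain ⟨ζ0, h0⟩ := hne
  have hζ0 := hsub ζ0 h0
  have hiter : ∀ n : ℕ, rot θ ^ (k * n) * ζ0 ∈ A := by
    intro n
    induction n with
    | zero => simpa using h0
    | succ n ih =>
      have h1 := hinv _ ih
      rw [← mul_assoc, ← pow_add] at h1
      have e : k + k * n = k * (n + 1) := by ring
      rwa [e] at h1
  have hirr : Irrational ((k : ℝ) * θ) := hθ.natCast_mul (by omega)
  have hrotp : ∀ n : ℕ, rot ((k : ℝ) * θ) ^ n = rot θ ^ (k * n) := by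
    intro n
    rw [pow_mul]
    congr 1
    unfold rot
    rw [← Complex.exp_nat_mul]
    congr 1
    push_cast; ring
  rw [← hA.closure_eq, Metric.mem_closure_iff]
  intro ε hε
  obtain ⟨n, -, hn⟩ := dense_orbit hirr hζ0 hζ hε 0
  rw [hrotp] at hn
  exact ⟨_, hiter n, by rwa [dist_comm, dist_eq_norm]⟩

namespace Siegel

variable {P Q : Polynomial ℂ} {S : Set ℂ} {θ : ℝ} {φ : ℂ → ℂ} (X : Siegel P Q S θ φ)

include X

/-- `Z_x` is nonempty for boundary points -/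
theorem Zs_nonempty {x : ℂ} (hx : x ∈ frontier S) : (Zs S φ x).Nonempty := by
  obtain ⟨ζ, h1, h2⟩ := X.exists_rel_frontier hx
  exact ⟨ζ, h1, h2⟩

/-- `R Z_x ⊆ Z_{f(x)}` -/
theorem Zs_rat {x ζ : ℂ} (h : ζ ∈ Zs S φ x) : rot θ * ζ ∈ Zs S φ (rat P Q x) :=
  ⟨by rw [norm_mul, norm_rot, one_mul, h.1], X.rel_rat h.2⟩

theorem Zs_iter (n : ℕ) {x ζ : ℂ} (h : ζ ∈ Zs S φ x) :
    rot θ ^ n * ζ ∈ Zs S φ ((rat P Q)^[n] x) :=
  ⟨by rw [norm_rot_pow_mul, h.1], X.rel_iter n h.2⟩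

theorem Pc_sub : Pc S φ ⊆ frontier S := fun _ hx => X.rel_frontier (hx 1 (by simp)) (by simp)

theorem Pc_rat {x : ℂ} (hx : x ∈ Pc S φ) : rat P Q x ∈ Pc S φ := by
  intro ζ hζ
  have h1 : ‖(rot θ)⁻¹ * ζ‖ = 1 := by rw [norm_mul, norm_inv, norm_rot, inv_one, one_mul, hζ]
  have h2 := X.rel_rat (hx _ h1)
  rwa [mul_inv_cancel_left₀ (rot_ne θ)] at h2

/-- periodic points belong to all impressions -/
theorem periodic_Pc {x : ℂ} (hx : x ∈ frontier S) {n : ℕ} (hn : 1 ≤ n)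
    (hper : (rat P Q)^[n] x = x) : x ∈ Pc S φ := fun _ hζ => X.periodic_rel hx hn hper hζ

/-- Every point of `I(ζ)` has a preimage in `I(R⁻¹ ζ)`.
Proof: `rel_seq` gives `u n ∈ S`, `φ (u n) → ζ`, `u n → y`. Let `v n = psi ((rot θ)⁻¹ * φ (u n)) ∈ S`; then
`rat P Q (v n) = u n` (`rat_psi`, `psi_phi`), `φ (v n) = (rot θ)⁻¹ * φ (u n)`. A subsequence of `v` converges
to some `x ∈ closure S` (compact); `rel_of_seq` and continuity of `rat P Q` on the closure. -/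
theorem rel_lift {ζ y : ℂ} (h : rel S φ ζ y) :
    ∃ x, rel S φ ((rot θ)⁻¹ * ζ) x ∧ rat P Q x = y := by
  obtain ⟨u, hu, h1, h2⟩ := rel_seq h
  have hmem : ∀ n, (rot θ)⁻¹ * φ (u n) ∈ ball (0 : ℂ) 1 := by
    intro n
    rw [mem_ball_zero_iff, norm_mul, norm_inv, norm_rot, inv_one, one_mul]
    exact mem_ball_zero_iff.1 (X.phi_mem (hu n))
  have hcomp : IsCompact (closure S) := X.bdd.isCompact_closure
  obtain ⟨x, hx, s, hs, hs2⟩ := hcomp.tendsto_subseq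
    (fun n => subset_closure (X.psi_mem (hmem n)))
  refine ⟨x, ?_, ?_⟩
  · refine rel_of_seq (fun n => X.psi ((rot θ)⁻¹ * φ (u (s n)))) (fun n => X.psi_mem (hmem _)) ?_ hs2
    refine ((h1.comp hs.tendsto_atTop).const_mul ((rot θ)⁻¹)).congr fun n => ?_
    exact (X.phi_psi (hmem _)).symm
  · have h3 := (X.rat_cont hx).tendsto.comp hs2
    refine tendsto_nhds_unique h3 ((h2.comp hs.tendsto_atTop).congr fun n => ?_)
    show u (s n) = rat P Q (X.psi ((rot θ)⁻¹ * φ (u (s n))))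
    rw [X.rat_psi (hmem _), mul_inv_cancel_left₀ (rot_ne θ), X.psi_phi (hu _)]

end Siegel

end Pool.Agent.H.MP_e98f69_an
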