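import Pool.Agent.H.MP_e98f69_an.OneDeg
import Pool.Agent.H.MP_e98f69_an.E.Def

/-! Periodic points in the boundary are not attracting. -/

set_option autoImplicit false

open Set Filter Topology Metric

namespace Pool.Agent.H.MP_e98f69_an

namespace Siegel

variable {P Q : Polynomial ℂ} {S : Set ℂ} {θ : ℝ} {φ : ℂ → ℂ} (X : Siegel P Q S θ φ)

include X

theorem crit_iter {z : ℂ} (hz : z ∈ S) (m : ℕ) :
    (rat P Q)^[m] z ∈ S ∧ ‖φ ((rat P Q)^[m] z)‖ = ‖φ z‖ := by
  induction m with
  | zero => exact ⟨hz, rfl⟩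
  | succ m ih =>
    obtain ⟨h1, h2⟩ := ih
    rw [Function.iterate_succ_apply']
    refine ⟨(X.dyn _ h1).1, ?_⟩
    rw [(X.dyn _ h1).2, norm_mul, norm_rot, one_mul, h2]

theorem crit_psi (m : ℕ) : (rat P Q)^[m] (X.psi 0) = X.psi 0 := by
  induction m with
  | zero => rfl
  | succ m ih => rw [Function.iterate_succ_apply, X.rat_fix, ih]

/-- Fixed points of iterates in the boundary are not attracting (the proof of
`Siegel.not_attracting` in OneDeg.lean with `(rat P Q)^[n]` in place of `rat P Q`). -/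
theorem not_attracting_iter {x : ℂ} (hx : x ∈ frontier S) {n : ℕ} (hn : 1 ≤ n)
    (hfix : (rat P Q)^[n] x = x) : 1 ≤ ‖deriv ((rat P Q)^[n]) x‖ := by
  by_contra hcon
  push Not at hcon
  have hcl : x ∈ closure S := frontier_subset_closure hx
  have hxS : x ∉ S := by
    rw [frontier, X.op.interior_eq] at hx
    exact hx.2
  set F : ℂ → ℂ := (rat P Q)^[n] with hF
  set b : ℝ := (‖deriv F x‖ + 1) / 2 with hb
  have hb0 : 0 ≤ b := by positivity
  have hb1 : b < 1 := by rw [hb]; linarith
  have hab : ‖deriv F x‖ < b := by rw [hb]; linarith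
  obtain ⟨r, hr, hlip⟩ := local_lip (isCompact_singleton (x := x))
    (T := F) (by rintro y rfl; exact X.iter_an n hcl) (norm_nonneg _) hab
    (by rintro y rfl; exact le_rfl)
  obtain ⟨z, hz, hzr⟩ := Metric.mem_closure_iff.1 hcl r hr
  have hiter : ∀ k, F^[k] z ∈ S ∧ ‖φ (F^[k] z)‖ = ‖φ z‖ ∧
      dist x (F^[k] z) ≤ b ^ k * dist x z := by
    intro k
    have hk : F^[k] z = (rat P Q)^[n * k] z := by rw [hF, Function.iterate_mul]
    refine ⟨?_, ?_, ?_⟩
    · rw [hk]; exact (X.crit_iter hz _).1
    · rw [hk]; exact (X.crit_iter hz _).2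
    · clear hk
      induction k with
      | zero => simp
      | succ k ih =>
        rw [Function.iterate_succ_apply']
        have h4 : b ^ k * dist x z ≤ dist x z :=
          mul_le_of_le_one_left dist_nonneg (pow_le_one₀ hb0 hb1.le)
        have h5 := hlip x rfl _ ((ih.trans h4).trans_lt hzr)
        rw [hfix] at h5
        calc _ ≤ b * dist x (F^[k] z) := h5
          _ ≤ b * (b ^ k * dist x z) := by gcongr
          _ = b ^ (k + 1) * dist x z := by ring
  have hne : φ z ≠ 0 := by
    intro h0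
    have h1 : z = X.psi 0 := by rw [← h0, X.psi_phi hz]
    have h2 := (hiter 1).2.2
    rw [Function.iterate_one, h1, hF, X.crit_psi, pow_one] at h2
    have h3 : dist x (X.psi 0) ≤ 0 := by
      have := dist_nonneg (x := x) (y := X.psi 0)
      nlinarith
    have h4 : x = X.psi 0 := dist_le_zero.1 h3
    exact hxS (h4 ▸ X.psi_mem zero_mem)
  have hlog : -Real.log ‖φ z‖ ≤ 0 := by
    apply le_of_forall_pos_le_add
    intro ε hε
    rw [zero_add]
    obtain ⟨ρ0, hρ0, h1⟩ := X.exists_rad hxS hε
    have h2 : Tendsto (fun n : ℕ => b ^ n * dist x z) atTop (𝓝 0) := by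
      have := (tendsto_pow_atTop_nhds_zero_of_lt_one hb0 hb1).mul_const (dist x z)
      simpa using this
    obtain ⟨k, hk⟩ := (h2.eventually (gt_mem_nhds hρ0)).exists
    obtain ⟨h3, h4, h5⟩ := hiter k
    have h6 := h1 _ h3 (by
      rw [← dist_eq_norm, dist_comm]
      exact h5.trans_lt hk)
    rwa [h4] at h6
  have hpos : 0 < ‖φ z‖ := norm_pos_iff.2 hne
  have hlt : ‖φ z‖ < 1 := mem_ball_zero_iff.1 (X.phi_mem hz)
  have := Real.log_neg hpos hlt
  linarith

/-- a critical point in the boundary is not periodic.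
Proof: `not_attracting_iter` and the chain rule: the derivative of `(rat P Q)^[n]` at `x` is the product of
derivatives at the orbit, with the factor `deriv (rat P Q) x = 0`. -/
theorem crit_not_periodic {x : ℂ} (hx : x ∈ frontier S) (hd : deriv (rat P Q) x = 0) {n : ℕ}
    (hn : 1 ≤ n) : (rat P Q)^[n] x ≠ x := by
  intro hfix
  have h1 := X.not_attracting_iter hx hn hfix
  have hcl : x ∈ closure S := frontier_subset_closure hx
  obtain ⟨m, rfl⟩ : ∃ m, n = m + 1 := ⟨n - 1, by omega⟩
  have hm : (rat P Q)^[m] (rat P Q x) = x := by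
    rw [← Function.iterate_succ_apply]; exact hfix
  have hfr := X.rat_frontier hx
  have h2 : DifferentiableAt ℂ ((rat P Q)^[m]) (rat P Q x) :=
    (X.iter_an m (frontier_subset_closure hfr)).differentiableAt
  have h3 : DifferentiableAt ℂ (rat P Q) x := (X.rat_an hcl).differentiableAt
  have h4 : deriv ((rat P Q)^[m + 1]) x = 0 := by
    rw [Function.iterate_succ, deriv_comp x h2 h3, hd, mul_zero]
  rw [h4, norm_zero] at h1
  linarith

end Siegel

end Pool.Agent.H.MP_e98f69_an
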