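import Mathlib

/-! The difference quotient as a function of two variables. -/

set_option autoImplicit false

open Set Filter Topology Metric

namespace Pool.Agent.H.MP_e98f69_an

/-- The difference quotient of a holomorphic function is jointly continuous.
Proof: at `(w, b)` with `w ≠ b` it is the quotient `(ψ w - ψ b) / (w - b)` near the point (`dslope_of_ne`,
`slope_def_field`). At `(b, b)`: `ψ` is analytic at `b`, so it is strictly differentiable
(`AnalyticAt.hasStrictDerivAt`), i.e. `ψ w - ψ b' - ψ'(b) (w - b') = o(w - b')` as `(w, b') → (b, b)`; this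
gives the limit for `w ≠ b'`, and for `w = b'` the value is `deriv ψ b'`, continuous in `b'`. -/
theorem continuousOn_dq {ψ : ℂ → ℂ} (hψ : DifferentiableOn ℂ ψ (ball 0 1)) :
    ContinuousOn (fun p : ℂ × ℂ => dslope ψ p.2 p.1) (ball (0 : ℂ) 1 ×ˢ ball (0 : ℂ) 1) := by
  have hopen : IsOpen (ball (0 : ℂ) 1) := isOpen_ball
  rintro ⟨w, b⟩ ⟨hw, hb⟩
  have hw' : w ∈ ball (0 : ℂ) 1 := hw
  have hb' : b ∈ ball (0 : ℂ) 1 := hb
  refine ContinuousAt.continuousWithinAt ?_
  by_cases hwb : w = b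
  · subst hwb
    have han : AnalyticAt ℂ ψ w := hψ.analyticAt (hopen.mem_nhds hw')
    have hstrict : HasStrictDerivAt ψ (deriv ψ w) w := han.hasStrictDerivAt
    have hcd : ContinuousAt (deriv ψ) w := han.deriv.continuousAt
    rw [Metric.continuousAt_iff']
    intro ε hε
    have h1 := (hasStrictFDerivAt_iff_isLittleO.1 hstrict.hasStrictFDerivAt)
    have h2 := h1.def (half_pos hε)
    have h3 : ∀ᶠ p : ℂ × ℂ in 𝓝 (w, w), dist (deriv ψ p.2) (deriv ψ w) < ε := by
      have h4 : ContinuousAt (fun p : ℂ × ℂ => deriv ψ p.2) (w, w) :=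
        ContinuousAt.comp (f := fun p : ℂ × ℂ => p.2) (g := deriv ψ) (x := (w, w)) hcd continuousAt_snd
      exact (Metric.continuousAt_iff'.1 h4) ε hε
    filter_upwards [h2, h3] with p hp1 hp2
    show dist (dslope ψ p.2 p.1) (dslope ψ w w) < ε
    rw [dslope_same]
    by_cases hpp : p.1 = p.2
    · rw [hpp, dslope_same]
      exact hp2
    · rw [dslope_of_ne _ hpp, slope_def_field, dist_eq_norm]
      have hne : p.1 - p.2 ≠ 0 := sub_ne_zero.2 hpp
      have h5 : (ψ p.1 - ψ p.2) / (p.1 - p.2) - deriv ψ w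
          = (ψ p.1 - ψ p.2 - (p.1 - p.2) * deriv ψ w) / (p.1 - p.2) := by
        field_simp
      rw [h5, norm_div]
      have h6 : ‖ψ p.1 - ψ p.2 - (p.1 - p.2) * deriv ψ w‖ ≤ ε / 2 * ‖p.1 - p.2‖ := by
        simpa using hp1
      have h7 : 0 < ‖p.1 - p.2‖ := norm_pos_iff.2 hne
      rw [div_lt_iff₀ h7]
      nlinarith
  · have hcw : ContinuousAt ψ w := (hψ.differentiableAt (hopen.mem_nhds hw')).continuousAt
    have hcb : ContinuousAt ψ b := (hψ.differentiableAt (hopen.mem_nhds hb')).continuousAt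
    have h1 : ContinuousAt (fun p : ℂ × ℂ => (ψ p.1 - ψ p.2) / (p.1 - p.2)) (w, b) := by
      have e1 : ContinuousAt (fun p : ℂ × ℂ => ψ p.1) (w, b) :=
        ContinuousAt.comp (f := fun p : ℂ × ℂ => p.1) (g := ψ) (x := (w, b)) hcw continuousAt_fst
      have e2 : ContinuousAt (fun p : ℂ × ℂ => ψ p.2) (w, b) :=
        ContinuousAt.comp (f := fun p : ℂ × ℂ => p.2) (g := ψ) (x := (w, b)) hcb continuousAt_snd
      exact (e1.sub e2).div (continuousAt_fst.sub continuousAt_snd) (sub_ne_zero.2 hwb)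
    refine h1.congr ?_
    have hne : ∀ᶠ p : ℂ × ℂ in 𝓝 (w, b), p.1 ≠ p.2 :=
      (isOpen_ne_fun continuous_fst continuous_snd).mem_nhds hwb
    filter_upwards [hne] with p hp
    show (ψ p.1 - ψ p.2) / (p.1 - p.2) = dslope ψ p.2 p.1
    rw [dslope_of_ne _ hp, slope_def_field]

/-- The difference quotient has no zeros (for `ψ` injective with nonzero derivative). -/
theorem dq_ne {ψ : ℂ → ℂ} (hinj : InjOn ψ (ball 0 1))
    (hder : ∀ w ∈ ball (0 : ℂ) 1, deriv ψ w ≠ 0) {w b : ℂ} (hw : w ∈ ball (0 : ℂ) 1)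
    (hb : b ∈ ball (0 : ℂ) 1) : dslope ψ b w ≠ 0 := by
  by_cases hwb : w = b
  · rw [hwb, dslope_same]
    exact hder b hb
  · rw [dslope_of_ne _ hwb, slope_def_field]
    exact div_ne_zero (sub_ne_zero.2 fun h => hwb (hinj hw hb h)) (sub_ne_zero.2 hwb)

end Pool.Agent.H.MP_e98f69_an
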