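import Pool.Agent.H.MP_e98f69_an.E.Log

/-! The auxiliary function of the jump lemma. -/

set_option autoImplicit false

open Set Filter Topology Metric

namespace Pool.Agent.H.MP_e98f69_an

/-- The continuous function `T'` of the proof of the jump lemma is constant; it computes the change of
`log m`. Here `κ = seg a a'`, `p = seg w1 w2`, `N` is a logarithm of the difference quotient
`(t, s) ↦ dslope ψ (κ s) (p t)` on the plane, `M` a logarithm of `(t, s) ↦ σ t - ψ (κ s)`.
Proof: `T' s = log (-(w2 - κ s) / (w1 - κ s)) + N (1, s) - N (0, s) + M (1, s) - M (0, s)` is continuous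
(the argument of the logarithm stays in the slit plane by `hslit` and `seg_mem`), and
`exp (T' s) = -1`: indeed `exp (N (1, s)) = (ψ w2 - ψ (κ s)) / (w2 - κ s)`,
`exp (N (0, s)) = (ψ w1 - ψ (κ s)) / (w1 - κ s)` (`κ s ≠ w1, w2` because the quotient is in the slit
plane; `dslope_of_ne`, `slope_def_field`), `exp (M (1, s)) = σ 1 - ψ (κ s) = ψ w1 - ψ (κ s)` and
`exp (M (0, s)) = ψ w2 - ψ (κ s)`. So `T' 0 = T' 1` by `eq_of_exp_const`. -/
theorem tprime_const {ψ : ℂ → ℂ} {w1 w2 a a' : ℂ}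
    (hslit : ∀ b ∈ segment ℝ a a', -((w2 - b) / (w1 - b)) ∈ Complex.slitPlane)
    {σ : ℝ → ℂ} (hσ0 : σ 0 = ψ w2) (hσ1 : σ 1 = ψ w1) {N M : ℝ × ℝ → ℂ} (hN : Continuous N)
    (hM : Continuous M)
    (eN : ∀ t s, Complex.exp (N (t, s)) = dslope ψ (seg a a' s) (seg w1 w2 t))
    (eM : ∀ t s, Complex.exp (M (t, s)) = σ t - ψ (seg a a' s)) :
    Complex.log (-((w2 - a) / (w1 - a))) + (N (1, 0) - N (0, 0)) + (M (1, 0) - M (0, 0)) =
      Complex.log (-((w2 - a') / (w1 - a'))) + (N (1, 1) - N (0, 1)) + (M (1, 1) - M (0, 1)) := by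
  have hq : ∀ s : ℝ, -((w2 - seg a a' s) / (w1 - seg a a' s)) ∈ Complex.slitPlane :=
    fun s => hslit _ (seg_mem a a' s)
  have hne1 : ∀ s : ℝ, w1 - seg a a' s ≠ 0 := by
    intro s h
    have h1 := hq s
    rw [h, div_zero, neg_zero] at h1
    exact Complex.slitPlane_ne_zero h1 rfl
  have hne2 : ∀ s : ℝ, w2 - seg a a' s ≠ 0 := by
    intro s h
    have h1 := hq s
    rw [h, zero_div, neg_zero] at h1
    exact Complex.slitPlane_ne_zero h1 rfl
  have hκ := continuous_seg a a'
  have hqc : Continuous fun s : ℝ => -((w2 - seg a a' s) / (w1 - seg a a' s)) :=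
    ((continuous_const.sub hκ).div (continuous_const.sub hκ) hne1).neg
  obtain ⟨T, hT⟩ : ∃ T : ℝ → ℂ, T = fun s =>
      Complex.log (-((w2 - seg a a' s) / (w1 - seg a a' s))) + (N (1, s) - N (0, s)) +
        (M (1, s) - M (0, s)) := ⟨_, rfl⟩
  have hTc : Continuous T := by
    have c1 : Continuous fun s : ℝ => ((1 : ℝ), s) := by fun_prop
    have c0 : Continuous fun s : ℝ => ((0 : ℝ), s) := by fun_prop
    rw [hT]
    exact ((hqc.clog hq).add ((hN.comp c1).sub (hN.comp c0))).add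
      ((hM.comp c1).sub (hM.comp c0))
  have hexp : ∀ s, Complex.exp (T s) = -1 := by
    intro s
    have n1 : Complex.exp (N (1, s)) =
        (ψ w2 - ψ (seg a a' s)) / (w2 - seg a a' s) := by
      rw [eN, seg_one, dslope_of_ne _ (fun h => hne2 s (sub_eq_zero.2 h)), slope_def_field]
    have n0 : Complex.exp (N (0, s)) =
        (ψ w1 - ψ (seg a a' s)) / (w1 - seg a a' s) := by
      rw [eN, seg_zero, dslope_of_ne _ (fun h => hne1 s (sub_eq_zero.2 h)), slope_def_field]
    have m1 : Complex.exp (M (1, s)) = ψ w1 - ψ (seg a a' s) := by rw [eM, hσ1]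
    have m0 : Complex.exp (M (0, s)) = ψ w2 - ψ (seg a a' s) := by rw [eM, hσ0]
    have z1 : ψ w1 - ψ (seg a a' s) ≠ 0 := by
      rw [← m1]
      exact Complex.exp_ne_zero _
    have z0 : ψ w2 - ψ (seg a a' s) ≠ 0 := by
      rw [← m0]
      exact Complex.exp_ne_zero _
    have k1 := hne1 s
    have k2 := hne2 s
    rw [hT]
    simp only
    rw [Complex.exp_add, Complex.exp_add, Complex.exp_sub, Complex.exp_sub,
      Complex.exp_log (Complex.slitPlane_ne_zero (hq s)), n1, n0, m1, m0]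
    field_simp
  have h01 := eq_of_exp_const hTc hexp 0 1
  rw [hT] at h01
  simp only [seg_zero, seg_one] at h01
  exact h01

end Pool.Agent.H.MP_e98f69_an
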