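import Pool.Agent.H.MP_e98f69_an.E.JumpA
import Pool.Agent.H.MP_e98f69_an.E.JumpB
import Pool.Agent.H.MP_e98f69_an.E.JumpC

/-! The jump of the winding number across an analytic arc. -/

set_option autoImplicit false

open Set Filter Topology Metric

namespace Pool.Agent.H.MP_e98f69_an

/-- **Jump lemma.** `ψ` injective holomorphic on the unit disc; the segments `[w1, w2]` and `[a, a']` of the
disc cross (this is what `hslit`, `him`, `him'` say), `ψ w1, ψ w2 ∈ B(x, ρ)`, `ψ [a, a']` is disjoint from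
`B(x, ρ)`. Then no preconnected set `C` contains `ψ a` and `ψ a'` and avoids `ψ [w1, w2]` and `B(x, ρ)`.

Proof. Let `p = seg w1 w2`, `κ = seg a a'`, `σ = seg (ψ w2) (ψ w1)` (in the ball by convexity), and let
`Λ = ψ '' segment w1 w2 ∪ segment (ψ w2) (ψ w1)`, a compact set. `exists_path_avoiding` gives `c` from
`ψ a` to `ψ a'`. Logarithms (`exists_log_plane`): `N` of `(t, s) ↦ dslope ψ (κ s) (p t)` (`continuousOn_dq`,
`dq_ne`), `M` of `(t, s) ↦ σ t - ψ (κ s)` (nonzero by `hκ`), `L0`, `L1` of `t ↦ ψ (p t) - ψ a`,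
`t ↦ ψ (p t) - ψ a'` (nonzero because `c 0, c 1 ∉ Λ`); `M0 t = M (t, 0)`, `M1 t = M (t, 1)`.
`var_const` (with the path `ψ ∘ p`, `σ`, `c`): `(L0 1 - L0 0) + (M0 1 - M0 0) = (L1 1 - L1 0) + (M1 1 - M1 0)`.
Next, `t ↦ L0 t - N (t, 0)` is a continuous logarithm of `p t - a` (because
`ψ (p t) - ψ a = (p t - a) * dslope ψ a (p t)`, `p t ≠ a`), so by `log_var_seg`
`L0 1 - L0 0 = log ((w2 - a) / (w1 - a)) + N (1, 0) - N (0, 0)`, similarly for `a'`. Subtract
`tprime_const`: `log m - log (-m) = log m' - log (-m')` for `m = (w2 - a) / (w1 - a)`,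
`m' = (w2 - a') / (w1 - a')`, which contradicts `log_sub_log_neg_pos`, `log_sub_log_neg_neg`
(`2 π i ≠ 0`). -/
theorem jump {ψ : ℂ → ℂ} (hψ : DifferentiableOn ℂ ψ (ball 0 1)) (hinj : InjOn ψ (ball 0 1))
    (hder : ∀ w ∈ ball (0 : ℂ) 1, deriv ψ w ≠ 0) {w1 w2 a a' x : ℂ} {ρ : ℝ}
    (h1 : w1 ∈ ball (0 : ℂ) 1) (h2 : w2 ∈ ball (0 : ℂ) 1) (ha : a ∈ ball (0 : ℂ) 1)
    (ha' : a' ∈ ball (0 : ℂ) 1)
    (hslit : ∀ b ∈ segment ℝ a a', -((w2 - b) / (w1 - b)) ∈ Complex.slitPlane)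
    (him : 0 < ((w2 - a) / (w1 - a)).im) (him' : ((w2 - a') / (w1 - a')).im < 0)
    (hx1 : ψ w1 ∈ ball x ρ) (hx2 : ψ w2 ∈ ball x ρ)
    (hκ : ∀ b ∈ segment ℝ a a', ψ b ∉ ball x ρ)
    {C : Set ℂ} (hC : IsPreconnected C) (haC : ψ a ∈ C) (haC' : ψ a' ∈ C)
    (hCx : Disjoint C (ball x ρ)) (hCp : Disjoint C (ψ '' segment ℝ w1 w2)) : False := by
  have hconv := convex_ball (0 : ℂ) 1
  have hψc : ∀ w ∈ ball (0 : ℂ) 1, ContinuousAt ψ w := fun w hw =>
    (hψ.differentiableAt (isOpen_ball.mem_nhds hw)).continuousAt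
  have hp : ∀ t, seg w1 w2 t ∈ ball (0 : ℂ) 1 := seg_mem_of_convex hconv h1 h2
  have hk : ∀ t, seg a a' t ∈ ball (0 : ℂ) 1 := seg_mem_of_convex hconv ha ha'
  have hσ : ∀ t, seg (ψ w2) (ψ w1) t ∈ ball x ρ := seg_mem_of_convex (convex_ball _ _) hx2 hx1
  -- the closed set
  have hcomp : IsCompact (ψ '' segment ℝ w1 w2 ∪ segment ℝ (ψ w2) (ψ w1)) := by
    have e1 : ∀ u v : ℂ, IsCompact (segment ℝ u v) := fun u v => by
      rw [segment_eq_image']
      exact isCompact_Icc.image (by fun_prop)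
    refine ((e1 w1 w2).image_of_continuousOn fun w hw => ?_).union (e1 _ _)
    exact (hψc w (hconv.segment_subset h1 h2 hw)).continuousWithinAt
  have hdis : Disjoint C (ψ '' segment ℝ w1 w2 ∪ segment ℝ (ψ w2) (ψ w1)) := by
    rw [disjoint_union_right]
    exact ⟨hCp, hCx.mono_right ((convex_ball _ _).segment_subset hx2 hx1)⟩
  obtain ⟨c, hc, hc0, hc1, hcΛ⟩ := exists_path_avoiding hcomp.isClosed hC hdis haC haC'
  have hpc : ∀ s t, ψ (seg w1 w2 t) ≠ c s := fun s t h =>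
    hcΛ s (Or.inl ⟨_, seg_mem _ _ t, h⟩)
  have hσc : ∀ s t, seg (ψ w2) (ψ w1) t ≠ c s := fun s t h =>
    hcΛ s (Or.inr (h ▸ seg_mem _ _ t))
  have hψp : Continuous fun t => ψ (seg w1 w2 t) := by
    rw [continuous_iff_continuousAt]
    intro t
    exact (hψc _ (hp t)).comp (continuous_seg w1 w2).continuousAt
  have hψk : Continuous fun t => ψ (seg a a' t) := by
    rw [continuous_iff_continuousAt]
    intro t
    exact (hψc _ (hk t)).comp (continuous_seg a a').continuousAt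
  -- logarithms
  obtain ⟨N, hN, eN⟩ := exists_log_plane
    (g := fun q : ℝ × ℝ => dslope ψ (seg a a' q.2) (seg w1 w2 q.1))
    (by
      refine (continuousOn_dq hψ).comp_continuous
        (f := fun q : ℝ × ℝ => (seg w1 w2 q.1, seg a a' q.2)) ?_ fun q => ⟨hp _, hk _⟩
      exact ((continuous_seg w1 w2).comp continuous_fst).prodMk
        ((continuous_seg a a').comp continuous_snd))
    (fun q => dq_ne hinj hder (hp _) (hk _))
  obtain ⟨M, hM, eM⟩ := exists_log_plane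
    (g := fun q : ℝ × ℝ => seg (ψ w2) (ψ w1) q.1 - ψ (seg a a' q.2))
    (((continuous_seg _ _).comp continuous_fst).sub (hψk.comp continuous_snd))
    (fun q h => hκ _ (seg_mem a a' q.2) (by rw [← sub_eq_zero.1 h]; exact hσ _))
  obtain ⟨L0, hL0, eL0⟩ := exists_log_plane
    (g := fun q : ℝ × ℝ => ψ (seg w1 w2 q.1) - ψ a)
    ((hψp.comp continuous_fst).sub continuous_const)
    (fun q h => hpc 0 q.1 (by rw [hc0]; exact sub_eq_zero.1 h))
  obtain ⟨L1, hL1, eL1⟩ := exists_log_plane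
    (g := fun q : ℝ × ℝ => ψ (seg w1 w2 q.1) - ψ a')
    ((hψp.comp continuous_fst).sub continuous_const)
    (fun q h => hpc 1 q.1 (by rw [hc1]; exact sub_eq_zero.1 h))
  have hk0 : seg a a' 0 = a := seg_zero _ _
  have hk1 : seg a a' 1 = a' := seg_one _ _
  have cN : ∀ s : ℝ, Continuous fun t : ℝ => N (t, s) := fun s => hN.comp (by fun_prop)
  have cM : ∀ s : ℝ, Continuous fun t : ℝ => M (t, s) := fun s => hM.comp (by fun_prop)
  have cL0 : Continuous fun t : ℝ => L0 (t, 0) := hL0.comp (by fun_prop)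
  have cL1 : Continuous fun t : ℝ => L1 (t, 0) := hL1.comp (by fun_prop)
  have hvar := var_const (p := fun t => ψ (seg w1 w2 t)) (σ := seg (ψ w2) (ψ w1)) (c := c)
    (L0 := fun t => L0 (t, 0)) (M0 := fun t => M (t, 0)) (L1 := fun t => L1 (t, 0))
    (M1 := fun t => M (t, 1)) hψp (continuous_seg _ _) hc
    (by simp only [seg_one, seg_zero]) (by simp only [seg_one, seg_zero]) hpc hσc
    cL0 (fun t => by rw [eL0, hc0]) (cM 0) (fun t => by rw [eM, hc0, hk0])
    cL1 (fun t => by rw [eL1, hc1]) (cM 1) (fun t => by rw [eM, hc1, hk1])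
  have hprime := tprime_const (ψ := ψ) hslit (σ := seg (ψ w2) (ψ w1)) (seg_zero _ _) (seg_one _ _)
    hN hM (fun t s => eN (t, s)) (fun t s => eM (t, s))
  -- the increments along `p`
  have hfac : ∀ b : ℂ, (∀ t, ψ (seg w1 w2 t) ≠ ψ b) → ∀ t, Complex.exp 0 *
      (ψ (seg w1 w2 t) - ψ b) / dslope ψ b (seg w1 w2 t) = seg w1 w2 t - b := by
    intro b hb t
    have hne : seg w1 w2 t ≠ b := fun h => hb t (by rw [h])
    rw [dslope_of_ne _ hne, slope_def_field, Complex.exp_zero, one_mul]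
    have h3 : ψ (seg w1 w2 t) - ψ b ≠ 0 := sub_ne_zero.2 (hb t)
    have h4 : seg w1 w2 t - b ≠ 0 := sub_ne_zero.2 hne
    field_simp
  have hinc0 : (L0 (1, 0) - N (1, 0)) - (L0 (0, 0) - N (0, 0)) =
      Complex.log ((w2 - a) / (w1 - a)) := by
    refine log_var_seg him.ne' (L := fun t => L0 (t, 0) - N (t, 0)) (cL0.sub (cN 0)) fun t => ?_
    have h3 := hfac a (fun t => by
      have := hpc 0 t
      rwa [hc0] at this) t
    rw [Complex.exp_sub, eL0, eN, hk0, ← h3, Complex.exp_zero, one_mul]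
  have hinc1 : (L1 (1, 0) - N (1, 1)) - (L1 (0, 0) - N (0, 1)) =
      Complex.log ((w2 - a') / (w1 - a')) := by
    refine log_var_seg him'.ne (L := fun t => L1 (t, 0) - N (t, 1)) (cL1.sub (cN 1)) fun t => ?_
    have h3 := hfac a' (fun t => by
      have := hpc 1 t
      rwa [hc1] at this) t
    rw [Complex.exp_sub, eL1, eN, hk1, ← h3, Complex.exp_zero, one_mul]
  have e1 := log_sub_log_neg_pos him
  have e2 := log_sub_log_neg_neg him'
  have h3 : (2 * Real.pi * Complex.I : ℂ) = 0 := by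
    linear_combination hvar - hprime - hinc0 + hinc1 - e1 + e2
  exact Complex.two_pi_I_ne_zero h3

end Pool.Agent.H.MP_e98f69_an
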