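import Pool.Agent.H.MP_e98f69_an.E.CrossA
import Pool.Agent.H.MP_e98f69_an.E.Jump

/-! The crossing lemma for boundary points of a Siegel disc. -/

set_option autoImplicit false

open Set Filter Topology Metric

namespace Pool.Agent.H.MP_e98f69_an

namespace Siegel

variable {P Q : Polynomial ℂ} {S : Set ℂ} {θ : ℝ} {φ : ℂ → ℂ} (X : Siegel P Q S θ φ)

include X

/-- **Crossing lemma.** `ζ1 ≠ ζ2` on the circle, `w1 n → ζ1`, `w2 n → ζ2` with `ψ (w1 n) → x`, `ψ (w2 n) → x`;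
`a`, `a'` in the disc strictly on different sides of the chord. Then there is no preconnected set `C`
containing `ψ a` and `ψ a'`, with `x ∉ closure C`, disjoint from `ψ [w1 n, w2 n]` for large `n`.
Proof: `rel S φ ζ1 x` (`rel_of_seq`), so `x ∉ S` (`rel_notMem`); `ψ '' segment a a'` is a compact subset of `S`
(`psi_cont`), so some ball `B(x, ρ)` is disjoint from it and from `C`. For large `n` all hypotheses of `jump`
hold (`eventually_slit`); use `X.psi_diff`, `X.psi_inj`, `X.deriv_psi_ne` (Potential.lean). -/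
theorem crossing {ζ1 ζ2 x a a' : ℂ} (h1 : ‖ζ1‖ = 1) (h2 : ‖ζ2‖ = 1) {w1 w2 : ℕ → ℂ}
    (hw1 : ∀ n, w1 n ∈ ball (0 : ℂ) 1) (hw2 : ∀ n, w2 n ∈ ball (0 : ℂ) 1)
    (ht1 : Tendsto w1 atTop (𝓝 ζ1)) (ht2 : Tendsto w2 atTop (𝓝 ζ2))
    (hx1 : Tendsto (fun n => X.psi (w1 n)) atTop (𝓝 x))
    (hx2 : Tendsto (fun n => X.psi (w2 n)) atTop (𝓝 x))
    (ha : a ∈ ball (0 : ℂ) 1) (ha' : a' ∈ ball (0 : ℂ) 1)
    (hs : 0 < side ζ1 ζ2 a) (hs' : side ζ1 ζ2 a' < 0) {C : Set ℂ} (hC : IsPreconnected C)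
    (haC : X.psi a ∈ C) (haC' : X.psi a' ∈ C) (hxC : x ∉ closure C)
    (hd : ∀ᶠ n in atTop, Disjoint C (X.psi '' segment ℝ (w1 n) (w2 n))) : False := by
  have hne : ζ1 ≠ ζ2 := by
    rintro rfl
    rw [side_eq] at hs
    have : (ζ1.im - a.im) * (ζ1.re - a.re) - (ζ1.re - a.re) * (ζ1.im - a.im) = 0 := by ring
    linarith
  have hrel : rel S φ ζ1 x := by
    refine rel_of_seq (fun n => X.psi (w1 n)) (fun n => X.psi_mem (hw1 n)) ?_ hx1
    exact ht1.congr fun n => (X.phi_psi (hw1 n)).symm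
  have hxS : x ∉ S := X.rel_notMem hrel h1
  -- a ball around `x`
  have hK : IsCompact (X.psi '' segment ℝ a a') := by
    have e1 : IsCompact (segment ℝ a a') := by
      rw [segment_eq_image']
      exact isCompact_Icc.image (by fun_prop)
    refine e1.image_of_continuousOn fun w hw => ?_
    exact (X.psi_cont ((convex_ball _ _).segment_subset ha ha' hw)).continuousWithinAt
  have hxK : x ∉ X.psi '' segment ℝ a a' := by
    rintro ⟨w, hw, rfl⟩
    exact hxS (X.psi_mem ((convex_ball _ _).segment_subset ha ha' hw))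
  have hopen : IsOpen ((X.psi '' segment ℝ a a')ᶜ ∩ (closure C)ᶜ) :=
    hK.isClosed.isOpen_compl.inter isClosed_closure.isOpen_compl
  obtain ⟨ρ, hρ, hball⟩ := Metric.isOpen_iff.1 hopen x ⟨hxK, hxC⟩
  have b1 : ∀ᶠ n in atTop, X.psi (w1 n) ∈ ball x ρ := hx1.eventually (ball_mem_nhds _ hρ)
  have b2 : ∀ᶠ n in atTop, X.psi (w2 n) ∈ ball x ρ := hx2.eventually (ball_mem_nhds _ hρ)
  obtain ⟨n, ⟨c1, c2, c3⟩, c4, c5, c6⟩ :=
    ((eventually_slit h1 h2 hne ha ha' hs hs' ht1 ht2).and (b1.and (b2.and hd))).exists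
  refine jump X.psi_diff (fun u hu v hv h => X.psi_inj hu hv h)
    (fun w hw => X.deriv_psi_ne hw) (hw1 n) (hw2 n) ha ha' c1 c2 c3 c4 c5 ?_ hC haC haC' ?_ c6
  · intro b hb h
    exact (hball h).1 ⟨b, hb, rfl⟩
  · rw [disjoint_left]
    intro z hz hz'
    exact (hball hz').2 (subset_closure hz)

end Siegel

end Pool.Agent.H.MP_e98f69_an
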