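import Pool.Agent.H.MP_e98f69_an.E.Def

/-! Elementary geometry of chords. -/

set_option autoImplicit false

open Set Filter Topology Metric

namespace Pool.Agent.H.MP_e98f69_an

theorem crossA_ne {ζ1 b : ℂ} (h1 : ‖ζ1‖ = 1) (hb : b ∈ ball (0 : ℂ) 1) : ζ1 - b ≠ 0 := by
  intro h
  rw [sub_eq_zero] at h
  rw [mem_ball_zero_iff, ← h, h1] at hb
  exact lt_irrefl _ hb

/-- For `b` in the open disc the quotient `(ζ2 - b) / (ζ1 - b)` of vectors to two different points of the circle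
is never a nonnegative real number.
Proof: if `ζ2 - b = t (ζ1 - b)` with `t ≥ 0` then (`t = 1` gives `ζ1 = ζ2`; `t ≠ 1`) `b = (ζ2 - t ζ1) / (1 - t)`, so
`‖b‖ ≥ |1 - t| / |1 - t| = 1`, a contradiction. (Also `ζ1 - b ≠ 0`.) Use `Complex.mem_slitPlane_iff_not_le_zero` or
the definition of `slitPlane`: if `-(q) ∉ slitPlane` then `q.im = 0` and `0 ≤ q.re`. -/
theorem quot_slit {ζ1 ζ2 b : ℂ} (h1 : ‖ζ1‖ = 1) (h2 : ‖ζ2‖ = 1) (hne : ζ1 ≠ ζ2)
    (hb : b ∈ ball (0 : ℂ) 1) : -((ζ2 - b) / (ζ1 - b)) ∈ Complex.slitPlane := by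
  have h0 := crossA_ne h1 hb
  by_contra hcon
  rw [Complex.mem_slitPlane_iff, not_or, not_lt, not_not, Complex.neg_re, Complex.neg_im,
    neg_eq_zero, neg_nonpos] at hcon
  obtain ⟨hre, him⟩ := hcon
  obtain ⟨t, ht⟩ : ∃ t : ℝ, t = ((ζ2 - b) / (ζ1 - b)).re := ⟨_, rfl⟩
  rw [← ht] at hre
  have h3 : (ζ2 - b) / (ζ1 - b) = (t : ℂ) := by
    apply Complex.ext
    · rw [Complex.ofReal_re, ht]
    · rw [Complex.ofReal_im, him]
  rw [div_eq_iff h0] at h3
  by_cases ht1 : t = 1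
  · rw [ht1, Complex.ofReal_one, one_mul] at h3
    exact hne (sub_left_injective h3).symm
  · have h4 : ((1 : ℂ) - t) * b = ζ2 - t * ζ1 := by
      linear_combination -h3
    have h5 : |1 - t| * ‖b‖ = ‖ζ2 - t * ζ1‖ := by
      rw [← h4, norm_mul]
      congr 1
      rw [← Complex.ofReal_one, ← Complex.ofReal_sub, Complex.norm_real, Real.norm_eq_abs]
    have h6 : |1 - t| ≤ ‖ζ2 - t * ζ1‖ := by
      have h7 := abs_norm_sub_norm_le ζ2 (t * ζ1)
      rwa [norm_mul, h1, h2, mul_one, Complex.norm_real, Real.norm_eq_abs, abs_of_nonneg hre] at h7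
    have h8 : 0 < |1 - t| := abs_pos.2 (sub_ne_zero.2 (Ne.symm ht1))
    rw [mem_ball_zero_iff] at hb
    rw [← h5] at h6
    nlinarith

/-- sign of the imaginary part of the quotient -/
theorem im_quot (w1 w2 b : ℂ) : ((w2 - b) / (w1 - b)).im = side w1 w2 b / Complex.normSq (w1 - b) := by
  rw [Complex.div_im, side_eq, Complex.sub_im, Complex.sub_re, Complex.sub_im, Complex.sub_re]
  ring

/-- The conditions of the jump lemma hold for chords close to the chord `[ζ1, ζ2]`.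
Proof: `IsCompact.eventually_forall_of_forall_eventually` for the compact set `segment ℝ a a'` (contained in the
open disc) and the point `(ζ1, ζ2)`: the map `((w1, w2), b) ↦ -((w2 - b) / (w1 - b))` is continuous at
`((ζ1, ζ2), b)` and its value there is in the open set `slitPlane` (`quot_slit`). The two sign conditions by
continuity of `side` in all variables and `im_quot`. -/
theorem eventually_slit {ζ1 ζ2 a a' : ℂ} (h1 : ‖ζ1‖ = 1) (h2 : ‖ζ2‖ = 1) (hne : ζ1 ≠ ζ2)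
    (ha : a ∈ ball (0 : ℂ) 1) (ha' : a' ∈ ball (0 : ℂ) 1)
    (hs : 0 < side ζ1 ζ2 a) (hs' : side ζ1 ζ2 a' < 0) {w1 w2 : ℕ → ℂ}
    (ht1 : Tendsto w1 atTop (𝓝 ζ1)) (ht2 : Tendsto w2 atTop (𝓝 ζ2)) :
    ∀ᶠ n in atTop, (∀ b ∈ segment ℝ a a', -((w2 n - b) / (w1 n - b)) ∈ Complex.slitPlane) ∧
      0 < ((w2 n - a) / (w1 n - a)).im ∧ ((w2 n - a') / (w1 n - a')).im < 0 := by
  have hseg : ∀ b ∈ segment ℝ a a', b ∈ ball (0 : ℂ) 1 := fun b hb =>
    (convex_ball (0 : ℂ) 1).segment_subset ha ha' hb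
  have hK : IsCompact (segment ℝ a a') := by
    rw [← Path.range_segment]
    exact isCompact_range (Path.segment a a').continuous
  have h3 : ∀ᶠ w in 𝓝 ((ζ1, ζ2) : ℂ × ℂ), ∀ b ∈ segment ℝ a a',
      -((w.2 - b) / (w.1 - b)) ∈ Complex.slitPlane := by
    refine hK.eventually_forall_of_forall_eventually fun b hb => ?_
    have hb0 := crossA_ne h1 (hseg b hb)
    have hc : ContinuousAt (fun z : (ℂ × ℂ) × ℂ => -((z.1.2 - z.2) / (z.1.1 - z.2)))
        ((ζ1, ζ2), b) := by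
      refine ContinuousAt.neg (ContinuousAt.div ?_ ?_ hb0)
      · fun_prop
      · fun_prop
    exact hc.eventually_mem (Complex.isOpen_slitPlane.mem_nhds (quot_slit h1 h2 hne (hseg b hb)))
  have h4 := (ht1.prodMk_nhds ht2).eventually h3
  have h5 : ∀ c ∈ ball (0 : ℂ) 1, Tendsto (fun n => ((w2 n - c) / (w1 n - c)).im) atTop
      (𝓝 (side ζ1 ζ2 c / Complex.normSq (ζ1 - c))) := by
    intro c hc
    rw [← im_quot]
    exact (Complex.continuous_im.tendsto _).comp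
      ((ht2.sub_const c).div (ht1.sub_const c) (crossA_ne h1 hc))
  have hn : ∀ c ∈ ball (0 : ℂ) 1, 0 < Complex.normSq (ζ1 - c) := fun c hc =>
    Complex.normSq_pos.2 (crossA_ne h1 hc)
  have h6 := (h5 a ha).eventually (lt_mem_nhds (div_pos hs (hn a ha)))
  have h7 := (h5 a' ha').eventually (gt_mem_nhds (div_neg_of_neg_of_pos hs' (hn a' ha')))
  filter_upwards [h4, h6, h7] with n h8 h9 h10
  exact ⟨h8, h9, h10⟩

/-- The chord `[w1 n, w2 n]` is finally disjoint from a compact subset `B` of the plane that is disjoint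
from the line through `ζ1`, `ζ2` (`side ≠ 0` on `B`).
Proof: points of the segment `[w1 n, w2 n]` are `(1-t) w1 n + t w2 n`, at distance `≤ max ‖w1 n - ζ1‖ ‖w2 n - ζ2‖`
from `(1-t) ζ1 + t ζ2`, where `side = 0`; `B` has a positive distance to the compact segment `[ζ1, ζ2]`. -/
theorem eventually_disjoint {ζ1 ζ2 : ℂ} {B : Set ℂ} (hB : IsCompact B)
    (hBs : ∀ b ∈ B, side ζ1 ζ2 b ≠ 0) {w1 w2 : ℕ → ℂ}
    (ht1 : Tendsto w1 atTop (𝓝 ζ1)) (ht2 : Tendsto w2 atTop (𝓝 ζ2)) :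
    ∀ᶠ n in atTop, Disjoint B (segment ℝ (w1 n) (w2 n)) := by
  have h3 : ∀ᶠ w in 𝓝 ((ζ1, ζ2) : ℂ × ℂ), ∀ z ∈ B ×ˢ (Icc (0 : ℝ) 1),
      z.1 ≠ (1 - (z.2 : ℂ)) * w.1 + z.2 * w.2 := by
    refine (hB.prod isCompact_Icc).eventually_forall_of_forall_eventually fun z hz => ?_
    have hc : ContinuousAt (fun y : (ℂ × ℂ) × (ℂ × ℝ) =>
        y.2.1 - ((1 - (y.2.2 : ℂ)) * y.1.1 + y.2.2 * y.1.2)) ((ζ1, ζ2), z) := by
      fun_prop
    have hne : z.1 - ((1 - (z.2 : ℂ)) * ζ1 + z.2 * ζ2) ≠ 0 := by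
      intro h
      rw [sub_eq_zero] at h
      apply hBs z.1 hz.1
      rw [h, side_eq]
      simp only [Complex.add_re, Complex.add_im, Complex.mul_re, Complex.mul_im, Complex.sub_re,
        Complex.sub_im, Complex.one_re, Complex.one_im, Complex.ofReal_re, Complex.ofReal_im]
      ring
    have h4 := hc.eventually_ne hne
    filter_upwards [h4] with y hy h5
    exact hy (sub_eq_zero.2 h5)
  have h4 := (ht1.prodMk_nhds ht2).eventually h3
  filter_upwards [h4] with n hn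
  rw [Set.disjoint_left]
  rintro b hb ⟨s, t, hs, ht, hst, rfl⟩
  refine hn (s • w1 n + t • w2 n, t) ⟨hb, ht, by linarith⟩ ?_
  have h5 : (s : ℂ) = 1 - t := by
    rw [← Complex.ofReal_one, ← Complex.ofReal_sub]
    congr 1
    linarith
  simp only [Complex.real_smul]
  rw [h5]

end Pool.Agent.H.MP_e98f69_an
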