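import Mathlib

/-! Connected open sets minus finite sets. -/

set_option autoImplicit false

open Set Filter Topology Metric Complex

namespace Pool.Agent.H.MP_e98f69_an

private theorem homeA_punct_isOpen (u : Set ℂ) : IsOpen {t : ℂ | ∀ᶠ s in 𝓝[≠] t, s ∈ u} := by
  rw [isOpen_iff_mem_nhds]
  intro t ht
  have h1 : ∀ᶠ s in 𝓝[≠] t, ∀ᶠ r in 𝓝 s, r ∈ u := by
    have h2 := eventually_eventually_nhdsWithin.2 ht
    filter_upwards [h2, self_mem_nhdsWithin] with s hs hst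
    rwa [nhdsWithin_eq_nhds.2 (isOpen_compl_singleton.mem_nhds hst)] at hs
  have h3 : ∀ᶠ s in 𝓝 t, s ∈ ({t}ᶜ : Set ℂ) → ∀ᶠ r in 𝓝 s, r ∈ u :=
    eventually_nhdsWithin_iff.1 h1
  filter_upwards [h3] with s hs
  by_cases hst : s = t
  · rw [hst]; exact ht
  · exact (hs hst).filter_mono nhdsWithin_le_nhds

private theorem homeA_punct_ball (t : ℂ) (r : ℝ) : IsPreconnected (ball t r \ {t}) := by
  have h1 : IsPreconnected (Ioo (0 : ℝ) r ×ˢ (univ : Set ℝ)) :=
    ((convex_Ioo 0 r).prod convex_univ).isPreconnected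
  have h2 : Continuous (fun p : ℝ × ℝ => t + (p.1 : ℂ) * Complex.exp (p.2 * I)) := by fun_prop
  have h3 := h1.image _ h2.continuousOn
  convert h3 using 1
  ext z
  simp only [Set.mem_sdiff, mem_ball, mem_singleton_iff, mem_image, mem_prod, mem_Ioo, mem_univ,
    and_true, Prod.exists]
  constructor
  · rintro ⟨h4, h5⟩
    refine ⟨‖z - t‖, arg (z - t), ⟨norm_pos_iff.2 (sub_ne_zero.2 h5), ?_⟩, ?_⟩
    · rwa [dist_eq_norm] at h4
    · rw [Complex.norm_mul_exp_arg_mul_I]; ring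
  · rintro ⟨ρ, θ, ⟨h4, h5⟩, rfl⟩
    constructor
    · rw [dist_eq_norm, add_sub_cancel_left, norm_mul, Complex.norm_exp_ofReal_mul_I, mul_one,
        Complex.norm_real, Real.norm_of_nonneg h4.le]
      exact h5
    · intro h6
      rw [add_eq_left, mul_eq_zero] at h6
      rcases h6 with h6 | h6
      · exact h4.ne' (by exact_mod_cast h6)
      · exact Complex.exp_ne_zero _ h6

theorem homeA_planar {D S : Set ℂ} (hD : IsOpen D) (hD' : IsPreconnected D)
    (hS : ∀ t ∈ D, ∀ᶠ s in 𝓝[≠] t, s ∉ S) : IsPreconnected (D \ S) := by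
  intro u v hu hv huv hnu hnv
  by_contra hem
  have hcov : D ⊆ {t : ℂ | ∀ᶠ s in 𝓝[≠] t, s ∈ u} ∪ {t : ℂ | ∀ᶠ s in 𝓝[≠] t, s ∈ v} := by
    intro t ht
    have h1 : ∀ᶠ s in 𝓝 t, s ∈ ({t}ᶜ : Set ℂ) → s ∉ S := eventually_nhdsWithin_iff.1 (hS t ht)
    obtain ⟨r, hr, hb⟩ := Metric.mem_nhds_iff.1 (h1.and (hD.mem_nhds ht))
    have hsub : ball t r \ {t} ⊆ D \ S := fun s hs => ⟨(hb hs.1).2, (hb hs.1).1 hs.2⟩
    have hpb : ball t r \ {t} ∈ 𝓝[≠] t := by
      rw [sdiff_eq, inter_comm]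
      exact inter_mem_nhdsWithin _ (ball_mem_nhds t hr)
    have hP := homeA_punct_ball t r u v hu hv (hsub.trans huv)
    by_cases hPu : ((ball t r \ {t}) ∩ u).Nonempty
    · left
      by_cases hPv : ((ball t r \ {t}) ∩ v).Nonempty
      · exact absurd ((hP hPu hPv).mono (inter_subset_inter_left _ hsub)) hem
      · refine mem_of_superset hpb fun s hs => ?_
        rcases huv (hsub hs) with h | h
        · exact h
        · exact absurd ⟨s, hs, h⟩ hPv
    · right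
      refine mem_of_superset hpb fun s hs => ?_
      rcases huv (hsub hs) with h | h
      · exact absurd ⟨s, hs, h⟩ hPu
      · exact h
  obtain ⟨x, hx, hxu⟩ := hnu
  obtain ⟨y, hy, hyv⟩ := hnv
  obtain ⟨t, htD, h5, h6⟩ := hD' _ _ (homeA_punct_isOpen u) (homeA_punct_isOpen v) hcov
    ⟨x, hx.1, mem_nhdsWithin_of_mem_nhds (hu.mem_nhds hxu)⟩
    ⟨y, hy.1, mem_nhdsWithin_of_mem_nhds (hv.mem_nhds hyv)⟩
  have h7 : ∀ᶠ s in 𝓝[≠] t, s ∈ D := mem_nhdsWithin_of_mem_nhds (hD.mem_nhds htD)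
  have h5' : ∀ᶠ s in 𝓝[≠] t, s ∈ u := h5
  have h6' : ∀ᶠ s in 𝓝[≠] t, s ∈ v := h6
  obtain ⟨s, ⟨hs1, hs2⟩, hs3, hs4⟩ := ((h5'.and h6').and ((hS t htD).and h7)).exists
  exact hem ⟨s, ⟨hs4, hs3⟩, hs1, hs2⟩

/-- A connected open subset of the plane minus a finite set is connected.
Proof: (see also `Compl.lean` of MP_795b03_ag, theorem at line 102, and `connt_diff_countable` in
`Pool/Agent/H/MP_e23cd6_ag/GT/ConnT.lean`; their proofs may be copied.) Induction on `F`, so it suffices to remove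
one point `p` from an open preconnected `O`: if `O \ {p}` is covered by open `U`, `V` with
`O \ {p} ∩ (U ∩ V) = ∅`, the punctured ball `ball p r \ {p}` (preconnected: image of `Ioo 0 r ×ˢ sphere 0 1`) lies
in one of them, say `U`; then `(U ∪ ball p r) ∩ O` and `V ∩ (O \ {p})` disconnect `O`. -/
theorem isPreconnected_diff_finset {O : Set ℂ} (hO : IsOpen O) (hc : IsPreconnected O)
    (F : Finset ℂ) : IsPreconnected (O \ (F : Set ℂ)) := by
  refine homeA_planar hO hc fun t _ => ?_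
  have h1 : ∀ᶠ s in 𝓝[≠] t, s ∉ (F : Set ℂ) \ {t} := by
    have h2 : IsOpen ((F : Set ℂ) \ {t})ᶜ := ((F.finite_toSet.subset sdiff_subset).isClosed).isOpen_compl
    exact mem_nhdsWithin_of_mem_nhds (h2.mem_nhds (by simp))
  filter_upwards [h1, self_mem_nhdsWithin] with s hs hst hsF
  exact hs ⟨hsF, hst⟩

end Pool.Agent.H.MP_e98f69_an
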