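import Pool.Agent.H.MP_e98f69_an.E.Log

/-! Paths avoiding a closed set, increments of logarithms. -/

set_option autoImplicit false

open Set Filter Topology Metric

namespace Pool.Agent.H.MP_e98f69_an

/-- Two points of a preconnected set disjoint from a closed set `Λ` are joined by a path off `Λ`.
Proof: the connected component of `u` in the open set `Λᶜ` (`connectedComponentIn`) is open
(`IsOpen.connectedComponentIn`), connected and contains `C`, hence path connected
(`IsOpen.isConnected_iff_isPathConnected`); extend the path (`JoinedIn`, `Path.extend`) to `ℝ`. -/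
theorem exists_path_avoiding {Λ C : Set ℂ} (hΛ : IsClosed Λ) (hC : IsPreconnected C)
    (hd : Disjoint C Λ) {u u' : ℂ} (hu : u ∈ C) (hu' : u' ∈ C) :
    ∃ c : ℝ → ℂ, Continuous c ∧ c 0 = u ∧ c 1 = u' ∧ ∀ t, c t ∉ Λ := by
  have hCU : C ⊆ Λᶜ := fun z hz hzΛ => Set.disjoint_left.1 hd hz hzΛ
  have hsub : C ⊆ connectedComponentIn Λᶜ u := hC.subset_connectedComponentIn hu hCU
  have hopen : IsOpen (connectedComponentIn Λᶜ u) := hΛ.isOpen_compl.connectedComponentIn
  have hconn : IsConnected (connectedComponentIn Λᶜ u) :=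
    ⟨⟨u, hsub hu⟩, isPreconnected_connectedComponentIn⟩
  have hpath : IsPathConnected (connectedComponentIn Λᶜ u) :=
    hopen.isConnected_iff_isPathConnected.1 hconn
  obtain ⟨γ, hγ⟩ := hpath.joinedIn u (hsub hu) u' (hsub hu')
  refine ⟨fun t => γ ⟨cl t, cl_mem t⟩, γ.continuous.comp (continuous_cl.subtype_mk _), ?_, ?_, ?_⟩
  · have h : (⟨cl 0, cl_mem 0⟩ : unitInterval) = 0 := Subtype.ext (cl_eq ⟨le_rfl, zero_le_one⟩)
    change γ ⟨cl 0, cl_mem 0⟩ = u
    rw [h, γ.source]
  · have h : (⟨cl 1, cl_mem 1⟩ : unitInterval) = 1 := Subtype.ext (cl_eq ⟨zero_le_one, le_rfl⟩)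
    change γ ⟨cl 1, cl_mem 1⟩ = u'
    rw [h, γ.target]
  · intro t
    exact connectedComponentIn_subset _ _ (hγ ⟨cl t, cl_mem t⟩)

/-- Two continuous logarithms of the same function have the same increments.
Proof: `eq_of_exp_const` for the difference. -/
theorem incr_eq {L L' : ℝ → ℂ} (hL : Continuous L) (hL' : Continuous L')
    (h : ∀ t, Complex.exp (L t) = Complex.exp (L' t)) (s t : ℝ) : L s - L t = L' s - L' t := by
  have h1 : L s - L' s = L t - L' t := by
    refine eq_of_exp_const (g := fun t => L t - L' t) (hL.sub hL') (c := 1) (fun t => ?_) s t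
    rw [Complex.exp_sub, h, div_self (Complex.exp_ne_zero _)]
  linear_combination h1

/-- The winding number of the closed path (`p` followed by `σ`) around `c s` does not depend on `s`
(stated for `s = 0, 1`, in terms of arbitrary continuous logarithms).
Proof: `exists_log_plane` for `(s, t) ↦ p t - c s` and `(s, t) ↦ σ t - c s` gives continuous `A`, `B`;
`V s = A (s, 1) - A (s, 0) + B (s, 1) - B (s, 0)` is continuous with `exp (V s) = 1` (because
`p 1 = σ 0`, `σ 1 = p 0`), so `V 0 = V 1` by `eq_of_exp_const`. Compare with the given logarithms by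
`incr_eq`. -/
theorem var_const {p σ c L0 M0 L1 M1 : ℝ → ℂ} (hp : Continuous p) (hσ : Continuous σ)
    (hc : Continuous c) (h1 : p 1 = σ 0) (h2 : σ 1 = p 0) (hpc : ∀ s t, p t ≠ c s)
    (hσc : ∀ s t, σ t ≠ c s)
    (hL0 : Continuous L0) (eL0 : ∀ t, Complex.exp (L0 t) = p t - c 0)
    (hM0 : Continuous M0) (eM0 : ∀ t, Complex.exp (M0 t) = σ t - c 0)
    (hL1 : Continuous L1) (eL1 : ∀ t, Complex.exp (L1 t) = p t - c 1)
    (hM1 : Continuous M1) (eM1 : ∀ t, Complex.exp (M1 t) = σ t - c 1) :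
    (L0 1 - L0 0) + (M0 1 - M0 0) = (L1 1 - L1 0) + (M1 1 - M1 0) := by
  obtain ⟨A, hA, eA⟩ := exists_log_plane (g := fun q : ℝ × ℝ => p q.2 - c q.1)
    ((hp.comp continuous_snd).sub (hc.comp continuous_fst)) fun q => sub_ne_zero.2 (hpc q.1 q.2)
  obtain ⟨B, hB, eB⟩ := exists_log_plane (g := fun q : ℝ × ℝ => σ q.2 - c q.1)
    ((hσ.comp continuous_snd).sub (hc.comp continuous_fst)) fun q => sub_ne_zero.2 (hσc q.1 q.2)
  have hV : ∀ s : ℝ, Complex.exp (A (s, 1) - A (s, 0) + (B (s, 1) - B (s, 0))) = 1 := by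
    intro s
    have e1 : Complex.exp (A (s, 1)) = p 1 - c s := eA (s, 1)
    have e2 : Complex.exp (A (s, 0)) = p 0 - c s := eA (s, 0)
    have e3 : Complex.exp (B (s, 1)) = σ 1 - c s := eB (s, 1)
    have e4 : Complex.exp (B (s, 0)) = σ 0 - c s := eB (s, 0)
    rw [Complex.exp_add, Complex.exp_sub, Complex.exp_sub, e1, e2, e3, e4, h1, h2]
    have n1 : σ 0 - c s ≠ 0 := sub_ne_zero.2 (hσc s 0)
    have n2 : p 0 - c s ≠ 0 := sub_ne_zero.2 (hpc s 0)
    field_simp
  have hs : ∀ b : ℝ, Continuous fun s : ℝ => ((s, b) : ℝ × ℝ) := fun b =>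
    continuous_id.prodMk continuous_const
  have ht : ∀ s : ℝ, Continuous fun t : ℝ => ((s, t) : ℝ × ℝ) := fun s =>
    continuous_const.prodMk continuous_id
  have hVc : Continuous fun s : ℝ => A (s, 1) - A (s, 0) + (B (s, 1) - B (s, 0)) :=
    ((hA.comp (hs 1)).sub (hA.comp (hs 0))).add ((hB.comp (hs 1)).sub (hB.comp (hs 0)))
  have h01 : A (0, 1) - A (0, 0) + (B (0, 1) - B (0, 0)) =
      A (1, 1) - A (1, 0) + (B (1, 1) - B (1, 0)) :=
    eq_of_exp_const (g := fun s : ℝ => A (s, 1) - A (s, 0) + (B (s, 1) - B (s, 0))) hVc hV 0 1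
  have i1 : L0 1 - L0 0 = A (0, 1) - A (0, 0) :=
    incr_eq (L' := fun t => A (0, t)) hL0 (hA.comp (ht 0)) (fun t => (eL0 t).trans (eA (0, t)).symm)
      1 0
  have i2 : M0 1 - M0 0 = B (0, 1) - B (0, 0) :=
    incr_eq (L' := fun t => B (0, t)) hM0 (hB.comp (ht 0)) (fun t => (eM0 t).trans (eB (0, t)).symm)
      1 0
  have i3 : L1 1 - L1 0 = A (1, 1) - A (1, 0) :=
    incr_eq (L' := fun t => A (1, t)) hL1 (hA.comp (ht 1)) (fun t => (eL1 t).trans (eA (1, t)).symm)
      1 0
  have i4 : M1 1 - M1 0 = B (1, 1) - B (1, 0) :=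
    incr_eq (L' := fun t => B (1, t)) hM1 (hB.comp (ht 1)) (fun t => (eM1 t).trans (eB (1, t)).symm)
      1 0
  rw [i1, i2, i3, i4, h01]

end Pool.Agent.H.MP_e98f69_an
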