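import Mathlib

/-! Continuous logarithms on the plane of two parameters. -/

set_option autoImplicit false

open Set Filter Topology Metric

namespace Pool.Agent.H.MP_e98f69_an

/-- A continuous function without zeros of two real parameters has a continuous logarithm.
Proof: `Complex.exists_continuousOn_eqOn_exp_comp` with `X = ℝ × ℝ`, `U = univ` (simply connected
because `ℝ × ℝ` is contractible; see also `exists_log` in
`Pool/Agent/H/MP_ab3de5_co/Crossing.lean` and `log_ball` in `Pool/Agent/H/MP_02294b_ag/Logb.lean`). -/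
theorem exists_log_plane {g : ℝ × ℝ → ℂ} (hg : Continuous g) (h0 : ∀ p, g p ≠ 0) :
    ∃ L : ℝ × ℝ → ℂ, Continuous L ∧ ∀ p, Complex.exp (L p) = g p := by
  obtain ⟨G, ⟨-, hG⟩, -⟩ := Complex.isCoveringMapOn_exp.existsUnique_continuousMap_lifts
    (⟨g, hg⟩ : C(ℝ × ℝ, ℂ)) (a₀ := (0, 0)) (e₀ := Complex.log (g (0, 0)))
    (Complex.exp_log (h0 (0, 0))) (fun a => h0 a)
  exact ⟨G, G.continuous, fun p => congrFun hG p⟩

/-- A continuous function on `ℝ` whose exponential is constant is constant.
Proof: `g t - g 0 = 2 π i n(t)` with an integer `n(t)`; the function `t ↦ (g t - g 0) / (2 π i)` is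
continuous with values in the range of `ℤ → ℂ`, a discrete set, and `ℝ` is preconnected
(`IsPreconnected.constant_of_mapsTo` or an intermediate value argument for the imaginary part). -/
theorem eq_of_exp_const {g : ℝ → ℂ} (hg : Continuous g) {c : ℂ}
    (h : ∀ t, Complex.exp (g t) = c) (s t : ℝ) : g s = g t := by
  have h1 : ∀ t, ∃ n : ℤ, g t = g 0 + n * (2 * Real.pi * Complex.I) := fun t =>
    Complex.exp_eq_exp_iff_exists_int.1 ((h t).trans (h 0).symm)
  choose n hn using h1
  have hpi : (2 * Real.pi * Complex.I : ℂ) ≠ 0 := Complex.two_pi_I_ne_zero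
  have h2 : Continuous fun t => ((n t : ℝ)) := by
    have h3 : (fun t => ((n t : ℝ))) = fun t => ((g t - g 0) / (2 * Real.pi * Complex.I)).re := by
      funext t
      have h4 : (g t - g 0) / (2 * Real.pi * Complex.I) = (n t : ℂ) := by
        rw [hn t, add_sub_cancel_left, mul_div_cancel_right₀ _ hpi]
      rw [h4, Complex.intCast_re]
    rw [h3]
    exact Complex.continuous_re.comp ((hg.sub continuous_const).div_const _)
  have h3 : Continuous n := Int.isClosedEmbedding_coe_real.isInducing.continuous_iff.2 h2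
  have h4 : n s = n t := PreconnectedSpace.constant inferInstance h3
  rw [hn s, hn t, h4]

/-- clamp to the unit interval -/
noncomputable def cl (t : ℝ) : ℝ := max 0 (min 1 t)

lemma continuous_cl : Continuous cl := by
  unfold cl
  fun_prop

lemma cl_mem (t : ℝ) : cl t ∈ Icc (0 : ℝ) 1 := by
  unfold cl
  exact ⟨le_max_left _ _, max_le zero_le_one (min_le_left _ _)⟩

lemma cl_eq {t : ℝ} (h : t ∈ Icc (0 : ℝ) 1) : cl t = t := by
  unfold cl
  rw [min_eq_right h.2, max_eq_right h.1]

/-- straight path from `a` to `b` with clamped parameter -/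
noncomputable def seg (a b : ℂ) (t : ℝ) : ℂ := a + (cl t : ℂ) * (b - a)

lemma continuous_seg (a b : ℂ) : Continuous (seg a b) := by
  unfold seg
  have := continuous_cl
  fun_prop

lemma seg_zero (a b : ℂ) : seg a b 0 = a := by
  unfold seg
  rw [cl_eq ⟨le_rfl, zero_le_one⟩]
  simp

lemma seg_one (a b : ℂ) : seg a b 1 = b := by
  unfold seg
  rw [cl_eq ⟨zero_le_one, le_rfl⟩]
  simp

lemma seg_mem (a b : ℂ) (t : ℝ) : seg a b t ∈ segment ℝ a b := by
  rw [segment_eq_image']
  exact ⟨cl t, cl_mem t, by simp [seg, Complex.real_smul]⟩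

lemma seg_mem_of_convex {D : Set ℂ} (hD : Convex ℝ D) {a b : ℂ} (ha : a ∈ D) (hb : b ∈ D) (t : ℝ) :
    seg a b t ∈ D := hD.segment_subset ha hb (seg_mem a b t)

/-- Variation of the logarithm along a straight path that does not meet `u`, when the quotient of
the end vectors is not real. Here `L` is any continuous logarithm of `t ↦ seg a b t - u`.
Proof: `seg a b t - u = (a - u) * h t` with `h t = (1 - cl t) + cl t * m`, `m = (b - u) / (a - u)`,
`m.im ≠ 0`, so `h t ∈ slitPlane` (if `cl t = 0` it is `1`, otherwise the imaginary part is not `0`).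
`t ↦ L t - Complex.log (h t)` is continuous and its exponential is the constant `a - u`, so by
`eq_of_exp_const` `L 1 - L 0 = log (h 1) - log (h 0) = log m`. -/
theorem log_var_seg {a b u : ℂ} (hm : ((b - u) / (a - u)).im ≠ 0) {L : ℝ → ℂ} (hL : Continuous L)
    (he : ∀ t, Complex.exp (L t) = seg a b t - u) :
    L 1 - L 0 = Complex.log ((b - u) / (a - u)) := by
  have ha : a - u ≠ 0 := by
    intro h
    rw [h, div_zero] at hm
    exact hm rfl
  obtain ⟨m, hmdef⟩ : ∃ m, m = (b - u) / (a - u) := ⟨_, rfl⟩
  rw [← hmdef] at hm ⊢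
  have hb : b - u = (a - u) * m := by rw [hmdef, mul_div_cancel₀ _ ha]
  have hseg : ∀ t, seg a b t - u = (a - u) * ((1 - (cl t : ℂ)) + cl t * m) := by
    intro t
    unfold seg
    have h1 : b - a = (a - u) * m - (a - u) := by rw [← hb]; ring
    rw [h1]
    ring
  have hslit : ∀ t, ((1 - (cl t : ℂ)) + cl t * m) ∈ Complex.slitPlane := by
    intro t
    rw [Complex.mem_slitPlane_iff]
    have him : ((1 - (cl t : ℂ)) + cl t * m).im = cl t * m.im := by
      simp
    rw [him]
    by_cases h : cl t = 0
    · left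
      rw [h]
      simp
    · right
      exact mul_ne_zero h hm
  have hcont : Continuous fun t : ℝ => Complex.log ((1 - (cl t : ℂ)) + cl t * m) := by
    refine Continuous.clog ?_ hslit
    have := continuous_cl
    fun_prop
  have hexp : ∀ t : ℝ, Complex.exp (L t - Complex.log ((1 - (cl t : ℂ)) + cl t * m)) = a - u := by
    intro t
    rw [Complex.exp_sub, he, Complex.exp_log (Complex.slitPlane_ne_zero (hslit t)), hseg,
      mul_div_cancel_right₀ _ (Complex.slitPlane_ne_zero (hslit t))]
  have h1 : L 1 - Complex.log ((1 - (cl 1 : ℂ)) + cl 1 * m) =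
      L 0 - Complex.log ((1 - (cl 0 : ℂ)) + cl 0 * m) := eq_of_exp_const (hL.sub hcont) hexp 1 0
  rw [cl_eq ⟨zero_le_one, le_rfl⟩, cl_eq ⟨le_rfl, zero_le_one⟩] at h1
  simp only [Complex.ofReal_one, Complex.ofReal_zero, sub_self, one_mul, zero_add, sub_zero,
    zero_mul, add_zero, Complex.log_one] at h1
  rw [← h1]
  ring

/-- `log m - log (-m) = i π` for `Im m > 0`. -/
theorem log_sub_log_neg_pos {m : ℂ} (h : 0 < m.im) :
    Complex.log m - Complex.log (-m) = Real.pi * Complex.I := by
  unfold Complex.log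
  rw [norm_neg, Complex.arg_neg_eq_arg_sub_pi_of_im_pos h]
  push_cast
  ring

/-- `log m - log (-m) = - i π` for `Im m < 0`. -/
theorem log_sub_log_neg_neg {m : ℂ} (h : m.im < 0) :
    Complex.log m - Complex.log (-m) = -(Real.pi * Complex.I) := by
  unfold Complex.log
  rw [norm_neg, Complex.arg_neg_eq_arg_add_pi_of_im_neg h]
  push_cast
  ring

end Pool.Agent.H.MP_e98f69_an
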