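import Mathlib

/-! The coordinate 1 / (z - c) at a fixed point. -/

set_option autoImplicit false

open Set Filter Topology Metric

namespace Pool.Agent.H.MP_e98f69_an

/-- In the coordinate `u = 1 / (z - c)` at a fixed point `c` a rational map `P / Q` becomes `A / B` with
`deg B < deg A`.
Proof: `n = max P.natDegree Q.natDegree`, `P' = P.comp (X + C c)`, `Q' = Q.comp (X + C c)`, `A = Q'.reflect n`,
`B = (P' - C c * Q').reflect n` (`Polynomial.reflect`, `Polynomial.eval₂_reflect_mul_pow`): for `u ≠ 0`,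
`A.eval u = u ^ n * Q.eval (c + 1 / u)`, `B.eval u = u ^ n * (P.eval (c + 1/u) - c * Q.eval (c + 1/u))`.
The coefficient of `A` at `n` is `Q'.coeff 0 = Q.eval c ≠ 0`, the coefficient of `B` at `n` is
`P.eval c - c * Q.eval c = 0`, both degrees are `≤ n`, `n ≥ 1`: `natDegree B < n = natDegree A`.
No common zero: for `u ≠ 0` it would give a common zero of `P` and `Q`; for `u = 0` the coefficients of `X^n` in
`Q'` and in `P' - c Q'` vanish, so `natDegree Q < n` and `natDegree P < n` (composition with `X + C c` preserves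
`natDegree` and the leading coefficient), a contradiction. `B ≠ 0` because otherwise every zero of `A` would be a
common zero and `A` has a zero (`natDegree A = n ≥ 1`, `Complex.exists_root`). -/
theorem exists_coord {P Q : Polynomial ℂ} (hcop : IsCoprime P Q) {c : ℂ} (hc : Q.eval c ≠ 0)
    (hfix : P.eval c = c * Q.eval c) (hdeg : 1 ≤ max P.natDegree Q.natDegree) :
    ∃ A B : Polynomial ℂ, B ≠ 0 ∧ B.natDegree < A.natDegree ∧
      (∀ u : ℂ, ¬ (A.eval u = 0 ∧ B.eval u = 0)) ∧
      ∀ z : ℂ, z ≠ c → Q.eval z ≠ 0 → P.eval z / Q.eval z ≠ c →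
        B.eval (z - c)⁻¹ ≠ 0 ∧
        A.eval (z - c)⁻¹ / B.eval (z - c)⁻¹ = (P.eval z / Q.eval z - c)⁻¹ := by
  set n := max P.natDegree Q.natDegree with hn
  set P' := P.comp (Polynomial.X + Polynomial.C c) with hP'
  set Q' := Q.comp (Polynomial.X + Polynomial.C c) with hQ'
  have hX : (Polynomial.X + Polynomial.C c : Polynomial ℂ).natDegree = 1 :=
    Polynomial.natDegree_X_add_C c
  have hdP : P'.natDegree = P.natDegree := by
    rw [hP', Polynomial.natDegree_comp, hX, mul_one]
  have hdQ : Q'.natDegree = Q.natDegree := by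
    rw [hQ', Polynomial.natDegree_comp, hX, mul_one]
  have hP'n : P'.natDegree ≤ n := hdP.le.trans (le_max_left _ _)
  have hQ'n : Q'.natDegree ≤ n := hdQ.le.trans (le_max_right _ _)
  have hDn : (P' - Polynomial.C c * Q').natDegree ≤ n :=
    (Polynomial.natDegree_sub_le _ _).trans
      (max_le hP'n ((Polynomial.natDegree_C_mul_le _ _).trans hQ'n))
  set A := Q'.reflect n with hA
  set B := (P' - Polynomial.C c * Q').reflect n with hB
  have hevP : ∀ x, P'.eval x = P.eval (x + c) := fun x => by simp [hP', Polynomial.eval_comp]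
  have hevQ : ∀ x, Q'.eval x = Q.eval (x + c) := fun x => by simp [hQ', Polynomial.eval_comp]
  have hrefl : ∀ (f : Polynomial ℂ), f.natDegree ≤ n → ∀ x : ℂ, x ≠ 0 →
      (f.reflect n).eval x⁻¹ * x ^ n = f.eval x := by
    intro f hf x hx
    let _ := invertibleOfNonzero hx
    have h := Polynomial.eval₂_reflect_mul_pow (RingHom.id ℂ) x n f hf
    rw [Polynomial.eval₂_id, Polynomial.eval₂_id] at h
    rw [← h, invOf_eq_inv]
  have hA1 : ∀ x : ℂ, x ≠ 0 → A.eval x⁻¹ * x ^ n = Q.eval (x + c) := fun x hx => by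
    rw [hA, hrefl Q' hQ'n x hx, hevQ]
  have hB1 : ∀ x : ℂ, x ≠ 0 → B.eval x⁻¹ * x ^ n = P.eval (x + c) - c * Q.eval (x + c) :=
    fun x hx => by
      rw [hB, hrefl _ hDn x hx, Polynomial.eval_sub, Polynomial.eval_mul, Polynomial.eval_C,
        hevP, hevQ]
  have hAn : A.coeff n = Q.eval c := by
    rw [hA, Polynomial.coeff_reflect, Polynomial.revAt_le le_rfl, Nat.sub_self,
      Polynomial.coeff_zero_eq_eval_zero, hevQ, zero_add]
  have hBn : B.coeff n = 0 := by
    rw [hB, Polynomial.coeff_reflect, Polynomial.revAt_le le_rfl, Nat.sub_self,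
      Polynomial.coeff_zero_eq_eval_zero, Polynomial.eval_sub, Polynomial.eval_mul,
      Polynomial.eval_C, hevP, hevQ, zero_add, hfix, sub_self]
  have hAdeg : A.natDegree = n := by
    refine le_antisymm ?_ (Polynomial.le_natDegree_of_ne_zero (by rw [hAn]; exact hc))
    exact Polynomial.natDegree_reflect_le.trans (max_le le_rfl hQ'n)
  have hBle : B.natDegree ≤ n :=
    Polynomial.natDegree_reflect_le.trans (max_le le_rfl hDn)
  have hBdeg : B.natDegree < n := by
    refine lt_of_le_of_ne hBle fun h => ?_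
    have h1 : B.leadingCoeff = 0 := by
      rw [Polynomial.leadingCoeff, h]
      exact hBn
    have h2 : B = 0 := Polynomial.leadingCoeff_eq_zero.1 h1
    rw [h2, Polynomial.natDegree_zero] at h
    omega
  obtain ⟨a, b, hab⟩ := hcop
  have hnc : ∀ z : ℂ, ¬ (P.eval z = 0 ∧ Q.eval z = 0) := by
    rintro z ⟨h1, h2⟩
    have := congrArg (Polynomial.eval z) hab
    simp [h1, h2] at this
  have hco : ∀ u : ℂ, ¬ (A.eval u = 0 ∧ B.eval u = 0) := by
    rintro u ⟨h1, h2⟩
    rcases eq_or_ne u 0 with rfl | hu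
    · have hQc : Q'.coeff n = 0 := by
        rw [← Polynomial.coeff_zero_eq_eval_zero, hA, Polynomial.coeff_reflect,
          Polynomial.revAt_le (Nat.zero_le n), Nat.sub_zero] at h1
        exact h1
      have hPc : P'.coeff n = 0 := by
        rw [← Polynomial.coeff_zero_eq_eval_zero, hB, Polynomial.coeff_reflect,
          Polynomial.revAt_le (Nat.zero_le n), Nat.sub_zero, Polynomial.coeff_sub,
          Polynomial.coeff_C_mul, hQc, mul_zero, sub_zero] at h2
        exact h2
      rcases le_total P.natDegree Q.natDegree with h | h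
      · have h3 : Q'.natDegree = n := by rw [hdQ, hn, max_eq_right h]
        have h4 : Q' = 0 := by
          rw [← Polynomial.leadingCoeff_eq_zero, Polynomial.leadingCoeff, h3, hQc]
        rw [h4, Polynomial.natDegree_zero] at h3
        omega
      · have h3 : P'.natDegree = n := by rw [hdP, hn, max_eq_left h]
        have h4 : P' = 0 := by
          rw [← Polynomial.leadingCoeff_eq_zero, Polynomial.leadingCoeff, h3, hPc]
        rw [h4, Polynomial.natDegree_zero] at h3
        omega
    · have hu' : u⁻¹ ≠ 0 := inv_ne_zero hu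
      have e1 := hA1 u⁻¹ hu'
      have e2 := hB1 u⁻¹ hu'
      rw [inv_inv, h1, zero_mul] at e1
      rw [inv_inv, h2, zero_mul, ← e1, mul_zero, sub_zero] at e2
      exact hnc _ ⟨e2.symm, e1.symm⟩
  have hB0 : B ≠ 0 := by
    intro h0
    have hdA : 0 < A.degree := by
      rw [← Polynomial.natDegree_pos_iff_degree_pos, hAdeg]
      omega
    obtain ⟨u, hu⟩ := Complex.exists_root hdA
    exact hco u ⟨hu, by rw [h0, Polynomial.eval_zero]⟩
  refine ⟨A, B, hB0, by rw [hAdeg]; exact hBdeg, hco, fun z hz hQz hne => ?_⟩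
  have hx : z - c ≠ 0 := sub_ne_zero.2 hz
  have e1 := hA1 (z - c) hx
  have e2 := hB1 (z - c) hx
  rw [sub_add_cancel] at e1 e2
  have hpow : (z - c) ^ n ≠ 0 := pow_ne_zero n hx
  have hD : P.eval z - c * Q.eval z ≠ 0 := by
    intro h0
    refine hne ?_
    rw [div_eq_iff hQz]
    exact sub_eq_zero.1 h0
  have hBu : B.eval (z - c)⁻¹ ≠ 0 := by
    intro h0
    rw [h0, zero_mul] at e2
    exact hD e2.symm
  refine ⟨hBu, ?_⟩
  have h5 : P.eval z / Q.eval z - c = (P.eval z - c * Q.eval z) / Q.eval z := by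
    field_simp
  rw [h5, inv_div, ← e2, ← e1, mul_div_mul_right _ _ hpow]

end Pool.Agent.H.MP_e98f69_an
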