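import Pool.Agent.H.MP_e98f69_an.E.CovA

/-! Local inverse branches. -/

set_option autoImplicit false

open Set Filter Topology Metric

namespace Pool.Agent.H.MP_e98f69_an

/-- Local inverse branch of `A / B` at a noncritical point.
Proof: `f = A / B` is strictly differentiable at `p` with derivative `(wr A B).eval p / (B.eval p)^2 ≠ 0`;
`HasStrictDerivAt.toOpenPartialHomeomorph` (inverse function theorem), shrink the source to `N ∩ {B ≠ 0}` and take a
ball inside the (open) image. -/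
theorem local_inverse {A B : Polynomial ℂ} {p : ℂ} (hB : B.eval p ≠ 0) (hw : (wr A B).eval p ≠ 0)
    {N : Set ℂ} (hN : N ∈ 𝓝 p) {r : ℝ} (hr : 0 < r) :
    ∃ ρ : ℝ, 0 < ρ ∧ ρ < r ∧ ∃ g : ℂ → ℂ, ContinuousOn g (ball (A.eval p / B.eval p) ρ) ∧
      (∀ w ∈ ball (A.eval p / B.eval p) ρ, g w ∈ N ∧ B.eval (g w) ≠ 0 ∧
        A.eval (g w) / B.eval (g w) = w) ∧
      ∀ᶠ z in 𝓝 p, A.eval z / B.eval z ∈ ball (A.eval p / B.eval p) ρ ∧
        g (A.eval z / B.eval z) = z := by
  have hd : HasStrictDerivAt (fun y : ℂ => A.eval y / B.eval y)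
      (((Polynomial.derivative A).eval p * B.eval p - A.eval p * (Polynomial.derivative B).eval p)
        / B.eval p ^ 2) p :=
    (A.hasStrictDerivAt p).fun_div (B.hasStrictDerivAt p) hB
  have hd0 : ((Polynomial.derivative A).eval p * B.eval p
      - A.eval p * (Polynomial.derivative B).eval p) / B.eval p ^ 2 ≠ 0 := by
    refine div_ne_zero ?_ (pow_ne_zero 2 hB)
    simpa [wr] using hw
  obtain ⟨e, hpe, hef⟩ : ∃ e : OpenPartialHomeomorph ℂ ℂ, p ∈ e.source ∧
      ∀ z, e z = A.eval z / B.eval z :=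
    ⟨(hd.hasStrictFDerivAt_equiv hd0).toOpenPartialHomeomorph _,
      (hd.hasStrictFDerivAt_equiv hd0).mem_toOpenPartialHomeomorph_source, fun z => by simp⟩
  have hfp : A.eval p / B.eval p ∈ e.target := by
    rw [← hef]
    exact e.map_source hpe
  have hsym : e.symm (A.eval p / B.eval p) = p := by
    rw [← hef]
    exact e.left_inv hpe
  have hN' : N ∩ {z : ℂ | B.eval z ≠ 0} ∈ 𝓝 p :=
    inter_mem hN ((isOpen_ne_fun B.continuous continuous_const).mem_nhds hB)
  have h1 : e.symm ⁻¹' (N ∩ {z : ℂ | B.eval z ≠ 0}) ∈ 𝓝 (A.eval p / B.eval p) := by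
    have hc := e.symm.continuousAt (x := A.eval p / B.eval p) hfp
    refine hc.preimage_mem_nhds ?_
    rw [hsym]
    exact hN'
  obtain ⟨ρ₁, hρ₁, hball⟩ := Metric.mem_nhds_iff.1 (inter_mem h1 (e.open_target.mem_nhds hfp))
  refine ⟨min ρ₁ (r / 2), lt_min hρ₁ (half_pos hr),
    (min_le_right _ _).trans_lt (half_lt_self hr), e.symm, ?_, ?_, ?_⟩
  · refine e.symm.continuousOn.mono fun w hw' => ?_
    exact (hball (ball_subset_ball (min_le_left _ _) hw')).2
  · intro w hw'
    have h2 := hball (ball_subset_ball (min_le_left _ _) hw')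
    refine ⟨h2.1.1, h2.1.2, ?_⟩
    rw [← hef]
    exact e.right_inv h2.2
  · have hcont : ContinuousAt (fun z : ℂ => A.eval z / B.eval z) p := hd.hasDerivAt.continuousAt
    have h3 : ∀ᶠ z in 𝓝 p, A.eval z / B.eval z ∈ ball (A.eval p / B.eval p) (min ρ₁ (r / 2)) :=
      hcont.eventually (ball_mem_nhds _ (lt_min hρ₁ (half_pos hr)))
    filter_upwards [h3, e.open_source.mem_nhds hpe] with z hz1 hz2
    refine ⟨hz1, ?_⟩
    rw [← hef]
    exact e.left_inv hz2

end Pool.Agent.H.MP_e98f69_an
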