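import Pool.Agent.H.MP_e98f69_an.E.NA
import Pool.Agent.H.MP_e98f69_an.E.SphA
import Pool.Agent.H.MP_e98f69_an.E.SphB
import Pool.Agent.H.MP_e98f69_an.E.Cov
import Pool.Agent.H.MP_e98f69_an.E.Log

/-! The core of Lemma N. -/

set_option autoImplicit false

open Set Filter Topology Metric

namespace Pool.Agent.H.MP_e98f69_an

lemma ne_common {ι : Type*} {Fs : Set ι} (hF : Fs.Finite) {G : ι → ℝ → Prop}
    (hmono : ∀ p ε ε', 0 < ε' → ε' ≤ ε → G p ε → G p ε')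
    (h : ∀ p ∈ Fs, ∃ ε > 0, G p ε) : ∃ ε > 0, ∀ p ∈ Fs, G p ε := by
  refine hF.induction_on_subset (motive := fun s _ => ∃ ε > 0, ∀ p ∈ s, G p ε) Fs ?_ ?_
  · exact ⟨1, one_pos, fun p hp => hp.elim⟩
  · rintro a t ha _ _ ⟨ε, hε, h1⟩
    obtain ⟨ε', hε', h2⟩ := h a ha
    refine ⟨min ε ε', lt_min hε hε', ?_⟩
    rintro p (rfl | hp)
    · exact hmono _ _ _ (lt_min hε hε') (min_le_right _ _) h2
    · exact hmono _ _ _ (lt_min hε hε') (min_le_left _ _) (h1 p hp)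

namespace Siegel

variable {P Q : Polynomial ℂ} {S : Set ℂ} {θ : ℝ} {φ : ℂ → ℂ} (X : Siegel P Q S θ φ)

include X

/-- The core of Lemma N. `F = A / B` is the map `P / Q` in the coordinate `uu c`, `c = psi 0`.
If `x1 ≠ x2` are in `I(ζ')`, `f x1 = f x2 = y`, `ζ = R ζ'`, `uu y` is not a critical value of `F`, and all finite critical
values `v` of `F` satisfy `Avoid c ψ ζ y v`, then we get a contradiction. -/
theorem lemN_core {A B : Polynomial ℂ} (hB : B ≠ 0) (hdeg : B.natDegree < A.natDegree)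
    (hco : ∀ u : ℂ, ¬ (A.eval u = 0 ∧ B.eval u = 0))
    (hAB : ∀ z : ℂ, z ≠ X.psi 0 → Q.eval z ≠ 0 → P.eval z / Q.eval z ≠ X.psi 0 →
        B.eval (z - X.psi 0)⁻¹ ≠ 0 ∧
        A.eval (z - X.psi 0)⁻¹ / B.eval (z - X.psi 0)⁻¹ = (P.eval z / Q.eval z - X.psi 0)⁻¹)
    {x1 x2 ζ' : ℂ} (hζ : ‖ζ'‖ = 1) (h1 : rel S φ ζ' x1) (h2 : rel S φ ζ' x2) (hne : x1 ≠ x2)
    (heq : rat P Q x1 = rat P Q x2)
    (hcrit : ∀ p : ℂ, B.eval p ≠ 0 → (wr A B).eval p = 0 →
      A.eval p / B.eval p ≠ uu (X.psi 0) (rat P Q x1))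
    (hav : ∀ p : ℂ, B.eval p ≠ 0 → (wr A B).eval p = 0 →
      Avoid (X.psi 0) X.psi (rot θ * ζ') (rat P Q x1) (A.eval p / B.eval p)) : False := by
  set c := X.psi 0 with hc
  set y := rat P Q x1 with hy
  have hx1 : x1 ∈ frontier S := X.rel_frontier h1 hζ
  have hx2 : x2 ∈ frontier S := X.rel_frontier h2 hζ
  have hyf : y ∈ frontier S := X.rat_frontier hx1
  have hyc : y ≠ c := X.ne_centre hyf
  have hc1 : x1 ≠ c := X.ne_centre hx1
  have hc2 : x2 ≠ c := X.ne_centre hx2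
  -- the map in the new coordinate
  have hF : ∀ w ∈ ball (0 : ℂ) 1, w ≠ 0 → B.eval (uu c (X.psi w)) ≠ 0 ∧
      A.eval (uu c (X.psi w)) / B.eval (uu c (X.psi w)) = uu c (X.psi (rot θ * w)) := by
    intro w hw hw0
    have e1 : P.eval (X.psi w) / Q.eval (X.psi w) = X.psi (rot θ * w) := X.rat_psi hw
    have h3 := hAB (X.psi w) (X.psi_ne_centre hw hw0)
      (X.Q_ne (subset_closure (X.psi_mem hw))) (by
        rw [e1]
        exact X.psi_ne_centre (rot_mem hw) (mul_ne_zero (rot_ne θ) hw0))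
    rw [e1] at h3
    exact h3
  have e2 : P.eval x2 / Q.eval x2 = y := heq.symm
  obtain ⟨hB2, hF2⟩ := hAB x2 hc2 (X.Q_ne (frontier_closure hx2)) (by rw [e2]; exact hyc)
  rw [e2] at hF2
  change B.eval (uu c x2) ≠ 0 at hB2
  change A.eval (uu c x2) / B.eval (uu c x2) = uu c y at hF2
  have hw2 : (wr A B).eval (uu c x2) ≠ 0 := fun h => hcrit _ hB2 h hF2
  -- common constants
  have hfin : {p : ℂ | B.eval p ≠ 0 ∧ (wr A B).eval p = 0}.Finite := by
    refine (Finset.finite_toSet (wr A B).roots.toFinset).subset ?_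
    rintro p ⟨-, hp⟩
    simp only [Finset.mem_coe, Multiset.mem_toFinset]
    exact (Polynomial.mem_roots (wr_ne hB hdeg)).2 hp
  obtain ⟨ε, hε, hC⟩ := ne_common hfin
    (G := fun p ε => ∃ C : Set ℂ, IsPreconnected C ∧ A.eval p / B.eval p ∈ C ∧
      ¬ Bornology.IsBounded C ∧ (∀ w ∈ ball (0 : ℂ) 1, ‖w - rot θ * ζ'‖ < ε →
      uu c (X.psi w) ∉ C) ∧ Disjoint C (ball (uu c y) ε))
    (by
      rintro p ε ε' hε' hle ⟨C, h3, h4, h5, h6, h7⟩
      exact ⟨C, h3, h4, h5, fun w hw hw' => h6 w hw (hw'.trans_le hle),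
        h7.mono_right (ball_subset_ball hle)⟩)
    (by
      rintro p ⟨hp1, hp2⟩
      obtain ⟨C, h3, h4, h5, η, hη, ρ, hρ, h6, h7⟩ := hav p hp1 hp2
      exact ⟨min η ρ, lt_min hη hρ, C, h3, h4, h5,
        fun w hw hw' => h6 w hw (hw'.trans_le (min_le_left _ _)),
        h7.mono_right (ball_subset_ball (min_le_right _ _))⟩)
  set ε0 : ℝ := min ε (1 / 2) with hε0
  have hε0pos : 0 < ε0 := lt_min hε (by norm_num)
  have hpne : uu c x1 ≠ uu c x2 := fun h => hne (uu_inj h)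
  have hdpos : 0 < dist (uu c x1) (uu c x2) := dist_pos.2 hpne
  set r1 : ℝ := dist (uu c x1) (uu c x2) / 2 with hr1
  have hr1pos : 0 < r1 := by positivity
  obtain ⟨ρ, hρ, hρlt, g, hg, hg1, hg2⟩ := local_inverse hB2 hw2
    (ball_mem_nhds (uu c x2) hr1pos) hε0pos
  rw [hF2] at hg hg1 hg2
  -- the point `w1`
  have key : ∀ x : ℂ, x ∈ frontier S → rel S φ ζ' x → rat P Q x = y → ∀ p : ℂ → Prop,
      (∀ᶠ z in 𝓝 (uu c x), p z) → ∃ w ∈ ball (0 : ℂ) 1, ‖w - ζ'‖ < ε0 ∧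
        p (uu c (X.psi w)) ∧ uu c (X.psi (rot θ * w)) ∈ ball (uu c y) ρ := by
    intro x hx hrel hxy p hp
    obtain ⟨u, hu, hu1, hu2⟩ := rel_seq hrel
    have a1 : ∀ᶠ n in atTop, ‖φ (u n) - ζ'‖ < ε0 := by
      have := (Metric.tendsto_nhds.1 hu1) ε0 hε0pos
      simpa only [dist_eq_norm] using this
    have a2 : ∀ᶠ n in atTop, p (uu c (u n)) :=
      ((uu_cont (X.ne_centre hx)).tendsto.comp hu2).eventually hp
    have a3 : ∀ᶠ n in atTop, uu c (rat P Q (u n)) ∈ ball (uu c y) ρ := by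
      have h3 : Tendsto (fun n => rat P Q (u n)) atTop (𝓝 y) := by
        have := (X.rat_cont (frontier_closure hx)).tendsto.comp hu2
        rwa [hxy] at this
      exact ((uu_cont hyc).tendsto.comp h3).eventually (ball_mem_nhds _ hρ)
    obtain ⟨n, b1, b2, b3⟩ := (a1.and (a2.and a3)).exists
    refine ⟨φ (u n), X.phi_mem (hu n), b1, ?_, ?_⟩
    · rwa [X.psi_phi (hu n)]
    · rw [← X.rat_psi (X.phi_mem (hu n)), X.psi_phi (hu n)]
      exact b3
  obtain ⟨w1, hw1, hw1', hw1N, hw1y⟩ := key x1 hx1 h1 rfl (fun z => z ∈ ball (uu c x1) r1)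
    (ball_mem_nhds _ hr1pos)
  obtain ⟨w2, hw2m, hw2', hw2g, hw2y⟩ := key x2 hx2 h2 heq.symm _ hg2
  -- segments near `ζ'`
  have hball : Convex ℝ (ball (0 : ℂ) 1 ∩ ball ζ' ε0) := (convex_ball _ _).inter (convex_ball _ _)
  have hseg : ∀ t : ℝ, seg w1 w2 t ∈ ball (0 : ℂ) 1 ∩ ball ζ' ε0 := fun t =>
    seg_mem_of_convex hball ⟨hw1, mem_ball_iff_norm.2 hw1'⟩ ⟨hw2m, mem_ball_iff_norm.2 hw2'⟩ t
  have hne0 : ∀ w ∈ ball (0 : ℂ) 1 ∩ ball ζ' ε0, w ≠ 0 := by
    rintro w ⟨-, hw⟩ rfl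
    rw [mem_ball, dist_zero_left, hζ] at hw
    have : ε0 ≤ 1 / 2 := min_le_right _ _
    linarith
  set e0 := uu c (X.psi (rot θ * w1)) with he0
  set e1 := uu c (X.psi (rot θ * w2)) with he1
  have hF1 := hF w1 hw1 (hne0 w1 ⟨hw1, mem_ball_iff_norm.2 hw1'⟩)
  have hF2' := hF w2 hw2m (hne0 w2 ⟨hw2m, mem_ball_iff_norm.2 hw2'⟩)
  have hge1 : g e1 = uu c (X.psi w2) := by
    have := hw2g.2
    rwa [hF2'.2] at this
  have hsegy : ∀ t : ℝ, seg e1 e0 t ∈ ball (uu c y) ρ := fun t =>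
    seg_mem_of_convex (convex_ball _ _) hw2y hw1y t
  -- the path
  set γ : ℝ → ℂ := fun t => if t ≤ 1 / 2 then uu c (X.psi (seg w1 w2 (2 * t)))
    else g (seg e1 e0 (2 * t - 1)) with hγ
  have hγ1c : Continuous fun t : ℝ => uu c (X.psi (seg w1 w2 (2 * t))) := by
    rw [continuous_iff_continuousAt]
    intro t
    have h3 : ContinuousAt (fun t : ℝ => seg w1 w2 (2 * t)) t :=
      ((continuous_seg w1 w2).comp (continuous_const.mul continuous_id)).continuousAt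
    have h4 := hseg (2 * t)
    have h5 : ContinuousAt X.psi (seg w1 w2 (2 * t)) := X.psi_cont h4.1
    have h6 : ContinuousAt (uu c) (X.psi (seg w1 w2 (2 * t))) :=
      uu_cont (X.psi_ne_centre h4.1 (hne0 _ h4))
    exact ContinuousAt.comp (f := fun t : ℝ => X.psi (seg w1 w2 (2 * t))) h6
      (ContinuousAt.comp (f := fun t : ℝ => seg w1 w2 (2 * t)) h5 h3)
  have hγ2c : Continuous fun t : ℝ => g (seg e1 e0 (2 * t - 1)) := by
    refine hg.comp_continuous ?_ fun t => hsegy _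
    exact (continuous_seg e1 e0).comp (by fun_prop)
  have hγc : Continuous γ := by
    refine Continuous.if_le hγ1c hγ2c continuous_id continuous_const ?_
    intro t ht
    subst ht
    have a1 : (2 * (1 / 2) : ℝ) = 1 := by norm_num
    have a2 : (2 * (1 / 2) - 1 : ℝ) = 0 := by norm_num
    rw [a2, a1, seg_one, seg_zero, hge1]
  have hcase : ∀ t : ℝ, B.eval (γ t) ≠ 0 ∧
      ((∃ w ∈ ball (0 : ℂ) 1, ‖w - rot θ * ζ'‖ < ε0 ∧
        A.eval (γ t) / B.eval (γ t) = uu c (X.psi w)) ∨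
      A.eval (γ t) / B.eval (γ t) ∈ ball (uu c y) ρ) := by
    intro t
    by_cases ht : t ≤ 1 / 2
    · have e : γ t = uu c (X.psi (seg w1 w2 (2 * t))) := by simp only [hγ, ht, if_true]
      have h4 := hseg (2 * t)
      have h5 := hF _ h4.1 (hne0 _ h4)
      rw [e]
      refine ⟨h5.1, Or.inl ⟨rot θ * seg w1 w2 (2 * t), rot_mem h4.1, ?_, h5.2⟩⟩
      rw [← mul_sub, norm_mul, norm_rot, one_mul]
      exact mem_ball_iff_norm.1 h4.2
    · have e : γ t = g (seg e1 e0 (2 * t - 1)) := by simp only [hγ, ht, if_false]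
      have h4 := hg1 _ (hsegy (2 * t - 1))
      rw [e]
      refine ⟨h4.2.1, Or.inr ?_⟩
      rw [h4.2.2]
      exact hsegy _
  have hγ0 : γ 0 = uu c (X.psi w1) := by
    simp only [hγ]
    rw [if_pos (by norm_num), mul_zero, seg_zero]
  have hγ1 : γ 1 = g e0 := by
    simp only [hγ]
    rw [if_neg (by norm_num)]
    have : (2 * 1 - 1 : ℝ) = 1 := by norm_num
    rw [this, seg_one]
  have hmon := monodromy hB hdeg hco hγc.continuousOn (fun t _ => (hcase t).1)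
    (by rw [hγ0, hγ1, hF1.2, (hg1 _ hw1y).2.2])
    (by
      intro p hp1 hp2
      obtain ⟨C, h3, h4, h5, h6, h7⟩ := hC p ⟨hp1, hp2⟩
      refine ⟨C, h3, h4, h5, ?_⟩
      rw [disjoint_left]
      rintro _ hz ⟨t, -, rfl⟩
      rcases (hcase t).2 with ⟨w, hw, hw', hw''⟩ | hw
      · simp only [hw''] at hz
        exact h6 w hw (hw'.trans_le (min_le_left _ _)) hz
      · exact disjoint_left.1 h7 hz (ball_subset_ball (hρlt.le.trans (min_le_left _ _)) hw))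
  rw [hγ0, hγ1] at hmon
  have hN := (hg1 _ hw1y).1
  rw [← hmon] at hN
  rw [mem_ball] at hN hw1N
  have h8 : dist (uu c x1) (uu c x2) < r1 + r1 := by
    calc dist (uu c x1) (uu c x2) ≤ dist (uu c x1) (uu c (X.psi w1)) +
          dist (uu c (X.psi w1)) (uu c x2) := dist_triangle _ _ _
      _ < r1 + r1 := by
        rw [dist_comm (uu c x1)]
        exact add_lt_add hw1N hN
  rw [hr1] at h8
  linarith

end Siegel

end Pool.Agent.H.MP_e98f69_an
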