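import Pool.Agent.H.MP_e98f69_an.E.ND
import Pool.Agent.H.MP_e98f69_an.E.NE

/-! Preimages of a boundary point in one impression: Lemma N. -/

set_option autoImplicit false

open Set Filter Topology Metric

namespace Pool.Agent.H.MP_e98f69_an

namespace Siegel

variable {P Q : Polynomial ℂ} {S : Set ℂ} {θ : ℝ} {φ : ℂ → ℂ} (X : Siegel P Q S θ φ)

include X

/-- **Lemma N.** There is a finite family of closed subsets `T v` of the circle such that whenever two different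
boundary points `x1`, `x2` with the same image `y` belong to the same impression `I(ζ')`, there is `v` with
`R ζ' ∈ T v` and `T v ⊆ Z_y`.
Proof: `A`, `B` from `exists_coord` (`centre_fix`, `one_le_deg`, `X.cop`), `F` = finite set of the values `A p / B p` at the zeros
`p` of `wr A B` with `B p ≠ 0` (`wr_ne`), `T v = closure {α | ‖α‖ = 1 ∧ ¬ Out (uu c '' Imp S φ α) v}`.
Let `y = f x1`, `ζ = R ζ'`; `y ∈ Imp ζ` (`rel_rat`). Suppose that for every `v ∈ F`: `ζ ∉ T v` or `T v ⊄ Z_y`.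
(0) `uu y ∉ F`: for `v = uu y` and `‖α‖ = 1` we have `y ∈ Imp α ↔ ¬ Out (uu '' Imp α) v` (`Out.notMem` and `out_frontier`), so the set
in the definition of `T v` is `Z_y`, closed (`isClosed_Zs`), `T v = Z_y ∋ ζ`, contradiction.
(1) every `v ∈ F` satisfies `Avoid c ψ ζ y v`: if `ζ ∉ T v` then `Out (uu '' Imp ζ) v` (`subset_closure`), use `avoid_a`. If `T v ⊄ Z_y`, there
is `α0 ∈ T v` with `α0 ∉ Z_y`; the complement of `Z_y` is open and `α0` is in the closure, so there is `α`, `‖α‖ = 1`,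
`¬ Out (uu '' Imp α) v`, `α ∉ Z_y`, i.e. `y ∉ Imp α`; `α ≠ ζ` since `y ∈ Imp ζ`. Use `avoid_b`.
Then `lemN_core` gives the contradiction. -/
theorem lemmaN : ∃ (F : Finset ℂ) (T : ℂ → Set ℂ), (∀ v, IsClosed (T v)) ∧
    (∀ v, ∀ α ∈ T v, ‖α‖ = 1) ∧
    ∀ x1 x2 ζ' : ℂ, ‖ζ'‖ = 1 → rel S φ ζ' x1 → rel S φ ζ' x2 → x1 ≠ x2 →
      rat P Q x1 = rat P Q x2 →
      ∃ v ∈ F, rot θ * ζ' ∈ T v ∧ T v ⊆ Zs S φ (rat P Q x1) := by
  classical
  obtain ⟨hc1, hc2⟩ := X.centre_fix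
  obtain ⟨A, B, hB, hdeg, hco, hAB⟩ := exists_coord X.cop hc1 hc2 X.one_le_deg
  set c := X.psi 0 with hc
  have hfin : {p : ℂ | B.eval p ≠ 0 ∧ (wr A B).eval p = 0}.Finite := by
    refine (Finset.finite_toSet (wr A B).roots.toFinset).subset ?_
    rintro p ⟨-, hp⟩
    simp only [Finset.mem_coe, Multiset.mem_toFinset]
    exact (Polynomial.mem_roots (wr_ne hB hdeg)).2 hp
  have hfin2 : ((fun p : ℂ => A.eval p / B.eval p) ''
      {p : ℂ | B.eval p ≠ 0 ∧ (wr A B).eval p = 0}).Finite := hfin.image _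
  have hmemF : ∀ p : ℂ, B.eval p ≠ 0 → (wr A B).eval p = 0 →
      A.eval p / B.eval p ∈ hfin2.toFinset := by
    intro p h1 h2
    rw [Set.Finite.mem_toFinset]
    exact ⟨p, ⟨h1, h2⟩, rfl⟩
  set T : ℂ → Set ℂ := fun v => closure {α : ℂ | ‖α‖ = 1 ∧ ¬ Out (uu c '' Imp S φ α) v} with hT
  refine ⟨hfin2.toFinset, T, fun v => isClosed_closure, ?_, ?_⟩
  · intro v α hα
    have h1 : IsClosed {α : ℂ | ‖α‖ = 1} := isClosed_eq continuous_norm continuous_const
    exact closure_minimal (fun α hα => hα.1) h1 hα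
  intro x1 x2 ζ' hζ h1 h2 hne heq
  by_contra hcon
  push Not at hcon
  set y := rat P Q x1 with hy
  have hζ1 : ‖rot θ * ζ'‖ = 1 := by rw [norm_mul, norm_rot, one_mul, hζ]
  have hyr : rel S φ (rot θ * ζ') y := X.rel_rat h1
  have hyf : y ∈ frontier S := X.rel_frontier hyr hζ1
  refine X.lemN_core hB hdeg hco hAB hζ h1 h2 hne heq ?_ ?_
  · intro p hp1 hp2 hp3
    have hTy : T (uu c y) = Zs S φ y := by
      have e : {α : ℂ | ‖α‖ = 1 ∧ ¬ Out (uu c '' Imp S φ α) (uu c y)} = Zs S φ y := by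
        ext α
        constructor
        · rintro ⟨hα, h3⟩
          refine ⟨hα, ?_⟩
          by_contra h4
          exact h3 (X.out_frontier hα hyf h4)
        · rintro ⟨hα, h3⟩
          refine ⟨hα, fun h4 => h4.notMem ?_⟩
          exact mem_image_of_mem _ h3
      show closure {α : ℂ | ‖α‖ = 1 ∧ ¬ Out (uu c '' Imp S φ α) (uu c y)} = Zs S φ y
      rw [e, (isClosed_Zs S φ y).closure_eq]
    have h3 := hcon (uu c y) (by
      have := hmemF p hp1 hp2
      rwa [hp3] at this)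
    rw [hTy] at h3
    exact h3 ⟨hζ1, hyr⟩ Subset.rfl
  · intro p hp1 hp2
    have h3 := hcon _ (hmemF p hp1 hp2)
    set v := A.eval p / B.eval p with hv
    by_cases h4 : rot θ * ζ' ∈ T v
    · have h5 := h3 h4
      obtain ⟨α0, hα0, hα0'⟩ := not_subset.1 h5
      obtain ⟨α, hα, hα1, hα2⟩ := mem_closure_iff.1 hα0 (Zs S φ y)ᶜ
        (isClosed_Zs S φ y).isOpen_compl hα0'
      have h6 : y ∉ Imp S φ α := fun h => hα ⟨hα1, h⟩
      refine X.avoid_b hζ1 hα1 ?_ hyf h6 hα2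
      rintro rfl
      exact h6 hyr
    · refine X.avoid_a hζ1 hyr ?_
      by_contra h5
      exact h4 (subset_closure ⟨hζ1, h5⟩)

end Siegel

end Pool.Agent.H.MP_e98f69_an
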