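import Pool.Agent.H.MP_e98f69_an.E.Sph

/-! Lemma N, first case. -/

set_option autoImplicit false

open Set Filter Topology Metric

namespace Pool.Agent.H.MP_e98f69_an

/-- `v` can be connected to infinity avoiding the part of the Siegel disc near `ζ` and a small ball at
`y`, in the coordinate `uu c` -/
def Avoid (c : ℂ) (ψ : ℂ → ℂ) (ζ y v : ℂ) : Prop :=
  ∃ C : Set ℂ, IsPreconnected C ∧ v ∈ C ∧ ¬ Bornology.IsBounded C ∧ ∃ η > 0, ∃ ρ > 0,
    (∀ w ∈ ball (0 : ℂ) 1, ‖w - ζ‖ < η → uu c (ψ w) ∉ C) ∧ Disjoint C (ball (uu c y) ρ)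

namespace Siegel

variable {P Q : Polynomial ℂ} {S : Set ℂ} {θ : ℝ} {φ : ℂ → ℂ} (X : Siegel P Q S θ φ)

include X

/-- First case: `v` is connected to infinity off `uu '' Imp ζ` and `y ∈ Imp ζ`.
Proof: take the closed set `C` of `out_closed`. `uu y ∈ uu '' Imp ζ` is not in the closed set `C`, so a ball around it is
disjoint from `C`. If there were no `η`, there would be `w n → ζ` in the disc with `uu (ψ (w n)) ∈ C`; by compactness
a subsequence `ψ (w n) → z`, `z ∈ Imp ζ` (`rel_of_seq`), `z ≠ c` (`ne_centre`, `rel_frontier`), so `uu z ∈ C` by continuity and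
closedness: contradiction. -/
theorem avoid_a {ζ y v : ℂ} (hζ : ‖ζ‖ = 1) (hy : y ∈ Imp S φ ζ)
    (hv : Out (uu (X.psi 0) '' Imp S φ ζ) v) : Avoid (X.psi 0) X.psi ζ y v := by
  obtain ⟨C, hC, hpre, hvC, hunb, hdis⟩ := out_closed (X.isCompact_uImp hζ) hv
  have hyC : uu (X.psi 0) y ∉ C := fun h => Set.disjoint_left.1 hdis h ⟨y, hy, rfl⟩
  obtain ⟨ρ, hρ, hball⟩ := Metric.isOpen_iff.1 hC.isOpen_compl _ hyC
  have key : ∃ η > 0, ∀ w ∈ ball (0 : ℂ) 1, ‖w - ζ‖ < η → uu (X.psi 0) (X.psi w) ∉ C := by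
    by_contra hcon
    push Not at hcon
    have h1 : ∀ n : ℕ, ∃ w ∈ ball (0 : ℂ) 1, ‖w - ζ‖ < 1 / ((n : ℝ) + 1) ∧
        uu (X.psi 0) (X.psi w) ∈ C := fun n => hcon _ (by positivity)
    choose w hw hw2 hw3 using h1
    have hwl : Tendsto w atTop (𝓝 ζ) := by
      rw [tendsto_iff_norm_sub_tendsto_zero]
      exact squeeze_zero (fun n => norm_nonneg _) (fun n => (hw2 n).le)
        tendsto_one_div_add_atTop_nhds_zero_nat
    obtain ⟨z, -, s, hs, hs2⟩ := X.bdd.isCompact_closure.tendsto_subseq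
      (fun n => subset_closure (X.psi_mem (hw n)))
    have hzI : z ∈ Imp S φ ζ := by
      refine rel_of_seq (fun n => X.psi (w (s n))) (fun n => X.psi_mem (hw _)) ?_ hs2
      refine (hwl.comp hs.tendsto_atTop).congr fun n => ?_
      exact (X.phi_psi (hw _)).symm
    have hzc := X.ne_centre (X.rel_frontier hzI hζ)
    have h4 := (uu_cont hzc).tendsto.comp hs2
    have h5 : uu (X.psi 0) z ∈ C := hC.mem_of_tendsto h4 (Eventually.of_forall fun n => hw3 _)
    exact Set.disjoint_left.1 hdis h5 ⟨z, hzI, rfl⟩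
  obtain ⟨η, hη, h⟩ := key
  exact ⟨C, hpre, hvC, hunb, η, hη, ρ, hρ, h, Set.disjoint_left.2 fun a ha hb => hball hb ha⟩

end Siegel

end Pool.Agent.H.MP_e98f69_an
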