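import Pool.Agent.H.MP_e98f69_an.E.Sph

/-! Lemma N: the connected set K1. -/

set_option autoImplicit false

open Set Filter Topology Metric

namespace Pool.Agent.H.MP_e98f69_an

namespace Siegel

variable {P Q : Polynomial ℂ} {S : Set ℂ} {θ : ℝ} {φ : ℂ → ℂ} (X : Siegel P Q S θ φ)

include X

/-- The connected set `K1 = uu '' (ψ '' A ∪ Imp α)`, `A = {t α : 0 < t < 1} ∪ (ball 0 1 ∩ ball α η')`.
It is preconnected, unbounded, contains `uu '' Imp α`.
Proof: `A` is preconnected (two convex sets with a common point), so `ψ '' A` is; `Imp α ⊆ closure (ψ '' A)` (`rel_seq`), so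
`ψ '' A ∪ Imp α` is preconnected (`IsPreconnected.subset_closure`); it does not contain `c = ψ 0`, `uu` is continuous there.
Unbounded: `ψ (t α) → c` as `t → 0`. -/
theorem isPreconnected_K1 {α : ℂ} (hα : ‖α‖ = 1) {η' : ℝ} (hη' : 0 < η') (hη1 : η' < 1) :
    IsPreconnected (uu (X.psi 0) '' (X.psi '' ((fun t : ℝ => (t : ℂ) * α) '' Ioo 0 1 ∪
      (ball (0 : ℂ) 1 ∩ ball α η')) ∪ Imp S φ α)) ∧
    ¬ Bornology.IsBounded (uu (X.psi 0) '' (X.psi '' ((fun t : ℝ => (t : ℂ) * α) '' Ioo 0 1 ∪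
      (ball (0 : ℂ) 1 ∩ ball α η')) ∪ Imp S φ α)) := by
  set A : Set ℂ := (fun t : ℝ => (t : ℂ) * α) '' Ioo 0 1 ∪ (ball (0 : ℂ) 1 ∩ ball α η') with hA
  have hray : ∀ t ∈ Ioo (0 : ℝ) 1, (t : ℂ) * α ∈ ball (0 : ℂ) 1 ∧ (t : ℂ) * α ≠ 0 := by
    intro t ht
    have hn : ‖(t : ℂ) * α‖ = t := by
      rw [norm_mul, hα, mul_one, Complex.norm_real, Real.norm_eq_abs, abs_of_pos ht.1]
    refine ⟨by rw [mem_ball_zero_iff, hn]; exact ht.2, ?_⟩
    rw [← norm_pos_iff, hn]
    exact ht.1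
  have hAb : ∀ a ∈ A, a ∈ ball (0 : ℂ) 1 ∧ a ≠ 0 := by
    rintro a (⟨t, ht, rfl⟩ | ⟨ha1, ha2⟩)
    · exact hray t ht
    · refine ⟨ha1, ?_⟩
      rintro rfl
      rw [mem_ball, dist_comm, dist_zero_right, hα] at ha2
      linarith
  have hApre : IsPreconnected A := by
    refine IsPreconnected.union (((1 - η' / 2 : ℝ) : ℂ) * α) ⟨1 - η' / 2, ⟨by linarith, by linarith⟩, rfl⟩
      ⟨(hray _ ⟨by linarith, by linarith⟩).1, ?_⟩ ?_ ?_
    · rw [mem_ball, dist_eq_norm]
      have h1 : ((1 - η' / 2 : ℝ) : ℂ) * α - α = ((-(η' / 2) : ℝ) : ℂ) * α := by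
        push_cast
        ring
      rw [h1, norm_mul, hα, mul_one, Complex.norm_real, Real.norm_eq_abs, abs_neg,
        abs_of_pos (by linarith)]
      linarith
    · refine isPreconnected_Ioo.image _ (Continuous.continuousOn ?_)
      exact Complex.continuous_ofReal.mul continuous_const
    · exact ((convex_ball _ _).inter (convex_ball _ _)).isPreconnected
  have hψ : IsPreconnected (X.psi '' A) := hApre.image _
    fun a ha => (X.psi_cont (hAb a ha).1).continuousWithinAt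
  have hcl : Imp S φ α ⊆ closure (X.psi '' A) := by
    intro y hy
    obtain ⟨u, hu, h1, h2⟩ := rel_seq hy
    refine mem_closure_of_tendsto h2 ?_
    filter_upwards [h1.eventually (ball_mem_nhds α hη')] with n hn
    exact ⟨φ (u n), Or.inr ⟨X.phi_mem (hu n), hn⟩, X.psi_phi (hu n)⟩
  have hB : IsPreconnected (X.psi '' A ∪ Imp S φ α) :=
    hψ.subset_closure subset_union_left (union_subset subset_closure hcl)
  refine ⟨hB.image _ ?_, ?_⟩
  · rintro x (⟨a, ha, rfl⟩ | hx)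
    · exact (uu_cont (X.psi_ne_centre (hAb a ha).1 (hAb a ha).2)).continuousWithinAt
    · exact (uu_cont (X.ne_centre (X.rel_frontier hx hα))).continuousWithinAt
  · intro hbd
    obtain ⟨R, hR⟩ := hbd.exists_norm_le
    have h1 : ∀ t ∈ Ioo (0 : ℝ) 1, 1 ≤ R * ‖X.psi ((t : ℂ) * α) - X.psi 0‖ := by
      intro t ht
      have h2 := hR (uu (X.psi 0) (X.psi ((t : ℂ) * α)))
        ⟨_, Or.inl ⟨_, Or.inl ⟨t, ht, rfl⟩, rfl⟩, rfl⟩
      have h3 : 0 < ‖X.psi ((t : ℂ) * α) - X.psi 0‖ := by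
        rw [norm_pos_iff, sub_ne_zero]
        exact X.psi_ne_centre (hray t ht).1 (hray t ht).2
      unfold uu at h2
      rw [norm_inv] at h2
      have h4 := mul_le_mul_of_nonneg_right h2 h3.le
      rwa [inv_mul_cancel₀ h3.ne'] at h4
    have h2 : Tendsto (fun t : ℝ => R * ‖X.psi ((t : ℂ) * α) - X.psi 0‖) (𝓝[>] 0) (𝓝 (R * 0)) := by
      refine Tendsto.const_mul R ?_
      rw [← tendsto_iff_norm_sub_tendsto_zero]
      have h3 : Tendsto (fun t : ℝ => (t : ℂ) * α) (𝓝[>] 0) (𝓝 0) := by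
        have h4 : Continuous fun t : ℝ => (t : ℂ) * α := Complex.continuous_ofReal.mul continuous_const
        have h5 := (h4.tendsto 0).mono_left (nhdsWithin_le_nhds (s := Ioi (0 : ℝ)))
        simpa using h5
      exact (X.psi_cont (mem_ball_self one_pos)).tendsto.comp h3
    have h3 : (1 : ℝ) ≤ R * 0 := by
      refine ge_of_tendsto h2 ?_
      filter_upwards [Ioo_mem_nhdsGT (zero_lt_one' ℝ)] with t ht
      exact h1 t ht
    rw [mul_zero] at h3
    linarith

end Siegel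

end Pool.Agent.H.MP_e98f69_an
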