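import Pool.Agent.H.MP_e98f69_an.E.Sph

/-! Lemma N: boundary points off K1. -/

set_option autoImplicit false

open Set Filter Topology Metric

namespace Pool.Agent.H.MP_e98f69_an

namespace Siegel

variable {P Q : Polynomial ℂ} {S : Set ℂ} {θ : ℝ} {φ : ℂ → ℂ} (X : Siegel P Q S θ φ)

include X

/-- A boundary point `y ∉ Imp α` is not in the closure of `ψ '' A ∪ Imp α` for small `η'`.
Proof: otherwise for every `n` (with `η' = 1/(n+2)`) there is `w n ∈ A` with `‖ψ (w n) - y‖ < 1/n` (or points of `Imp α` tend to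
`y`, impossible because `Imp α` is closed). A subsequence of `w n` converges to `w` in the closed segment `[0, α]`. If `‖w‖ < 1` then
`ψ (w n) → ψ w ∈ S`, but `y ∉ S`. So `‖w‖ = 1`, `w = α`, and `y ∈ Imp α` (`rel_of_seq`, `phi_psi`). -/
theorem notMem_K1 {α y : ℂ} (hα : ‖α‖ = 1) (hy : y ∈ frontier S) (hyα : y ∉ Imp S φ α) :
    ∃ η' : ℝ, 0 < η' ∧ η' < 1 ∧ ∀ η'' : ℝ, 0 < η'' → η'' ≤ η' →
      y ∉ closure (X.psi '' ((fun t : ℝ => (t : ℂ) * α) '' Ioo 0 1 ∪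
      (ball (0 : ℂ) 1 ∩ ball α η'')) ∪ Imp S φ α) := by
  by_contra hcon
  push Not at hcon
  have hA : ∀ η : ℝ, ((fun t : ℝ => (t : ℂ) * α) '' Ioo 0 1 ∪ (ball (0 : ℂ) 1 ∩ ball α η)) ⊆
      ball (0 : ℂ) 1 := by
    rintro η w (⟨t, ht, rfl⟩ | hw)
    · rw [mem_ball_zero_iff, norm_mul, hα, mul_one, Complex.norm_real, Real.norm_eq_abs,
        abs_of_pos ht.1]
      exact ht.2
    · exact hw.1
  have hmono : ∀ η η' : ℝ, η ≤ η' →
      X.psi '' ((fun t : ℝ => (t : ℂ) * α) '' Ioo 0 1 ∪ (ball (0 : ℂ) 1 ∩ ball α η)) ⊆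
      X.psi '' ((fun t : ℝ => (t : ℂ) * α) '' Ioo 0 1 ∪ (ball (0 : ℂ) 1 ∩ ball α η')) := by
    intro η η' h
    exact image_mono (union_subset_union_right _
      (inter_subset_inter_right _ (ball_subset_ball h)))
  have hη : ∀ n : ℕ, (0 : ℝ) < 1 / ((n : ℝ) + 2) ∧ 1 / ((n : ℝ) + 2) < 1 := by
    intro n
    have h1 : (0 : ℝ) ≤ n := n.cast_nonneg
    refine ⟨by positivity, ?_⟩
    rw [div_lt_one (by linarith)]
    linarith
  have hex : ∀ n : ℕ, ∃ (w : ℂ) (t : ℝ), w ∈ ball (0 : ℂ) 1 ∧ t ∈ Icc (0 : ℝ) 1 ∧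
      ‖w - (t : ℂ) * α‖ ≤ 1 / ((n : ℝ) + 2) ∧ dist (X.psi w) y < 1 / ((n : ℝ) + 2) := by
    intro n
    obtain ⟨h0, h1⟩ := hη n
    obtain ⟨η'', h2, h3, h4⟩ := hcon _ h0 h1
    rw [closure_union, (isClosed_Imp S φ α).closure_eq] at h4
    have h5 := (h4.resolve_right hyα)
    obtain ⟨_, ⟨w, hw, rfl⟩, h6⟩ := Metric.mem_closure_iff.1 (closure_mono (hmono _ _ h3) h5) _ h0
    rw [dist_comm] at h6
    refine ⟨w, ?_⟩
    have hwb := hA _ hw
    rcases hw with ⟨t, ht, rfl⟩ | hw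
    · refine ⟨t, hwb, ⟨ht.1.le, ht.2.le⟩, ?_, h6⟩
      have h7 : (fun t : ℝ => (t : ℂ) * α) t - (t : ℂ) * α = 0 := sub_self _
      rw [h7, norm_zero]
      exact h0.le
    · refine ⟨1, hwb, ⟨zero_le_one, le_rfl⟩, ?_, h6⟩
      rw [Complex.ofReal_one, one_mul, ← dist_eq_norm]
      exact (mem_ball.1 hw.2).le
  choose w t hw ht hwt hwy using hex
  obtain ⟨t0, ht0, s, hs, hs2⟩ := isCompact_Icc.tendsto_subseq ht
  have hlim0 : Tendsto (fun n : ℕ => 1 / ((n : ℝ) + 2)) atTop (𝓝 0) := by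
    have h1 : Tendsto (fun n : ℕ => (n : ℝ) + 2) atTop atTop :=
      tendsto_atTop_add_const_right _ _ tendsto_natCast_atTop_atTop
    exact h1.const_div_atTop 1
  have hlims : Tendsto (fun n : ℕ => 1 / (((s n : ℕ) : ℝ) + 2)) atTop (𝓝 0) :=
    hlim0.comp hs.tendsto_atTop
  have hwlim : Tendsto (fun n => w (s n)) atTop (𝓝 ((t0 : ℂ) * α)) := by
    have h1 : Tendsto (fun n => w (s n) - ((t (s n) : ℝ) : ℂ) * α) atTop (𝓝 0) :=
      squeeze_zero_norm (fun n => hwt (s n)) hlims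
    have h2 : Tendsto (fun n => ((t (s n) : ℝ) : ℂ) * α) atTop (𝓝 ((t0 : ℂ) * α)) :=
      ((Complex.continuous_ofReal.tendsto t0).comp hs2).mul_const α
    have h3 := h1.add h2
    rw [zero_add] at h3
    refine h3.congr fun n => ?_
    exact sub_add_cancel _ _
  have hylim : Tendsto (fun n => X.psi (w (s n))) atTop (𝓝 y) := by
    rw [tendsto_iff_dist_tendsto_zero]
    exact squeeze_zero (fun n => dist_nonneg) (fun n => (hwy (s n)).le) hlims
  rcases eq_or_lt_of_le ht0.2 with h1 | h1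
  · apply hyα
    refine rel_of_seq (fun n => X.psi (w (s n))) (fun n => X.psi_mem (hw _)) ?_ hylim
    rw [h1, Complex.ofReal_one, one_mul] at hwlim
    refine hwlim.congr fun n => ?_
    exact (X.phi_psi (hw _)).symm
  · have h2 : (t0 : ℂ) * α ∈ ball (0 : ℂ) 1 := by
      rw [mem_ball_zero_iff, norm_mul, hα, mul_one, Complex.norm_real, Real.norm_eq_abs,
        abs_of_nonneg ht0.1]
      exact h1
    have h3 : Tendsto (fun n => X.psi (w (s n))) atTop (𝓝 (X.psi ((t0 : ℂ) * α))) :=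
      (X.psi_cont h2).tendsto.comp hwlim
    have h4 := tendsto_nhds_unique hylim h3
    rw [frontier, X.op.interior_eq] at hy
    exact hy.2 (h4 ▸ X.psi_mem h2)

end Siegel

end Pool.Agent.H.MP_e98f69_an
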