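import Pool.Agent.H.MP_e98f69_an.E.OutA

/-! Points not connected to infinity. -/

set_option autoImplicit false

open Set Filter Topology Metric

namespace Pool.Agent.H.MP_e98f69_an

/-- If `v` is neither in the compact set `K` nor connected to infinity off `K`, it lies in a bounded open
preconnected set `W` disjoint from `K`, with a boundary point in `K`, such that every unbounded preconnected set
disjoint from `K` is disjoint from `W`.
Proof: `W = connectedComponentIn Kᶜ v`; bounded because otherwise `Out K v`; its frontier is nonempty (`W ≠ univ`,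
`W` nonempty open) and contained in `K` (a point of `closure W \ K` has a ball off `K` meeting `W`, so it is in
`W`, and `W` is open). A preconnected set off `K` meeting `W` is contained in `W`. -/
theorem not_out {K : Set ℂ} (hK : IsCompact K) {v : ℂ} (hv : v ∉ K) (h : ¬ Out K v) :
    ∃ W : Set ℂ, IsPreconnected W ∧ v ∈ W ∧ (∃ b ∈ K, b ∈ closure W) ∧
      ∀ C : Set ℂ, IsPreconnected C → ¬ Bornology.IsBounded C → Disjoint C K → Disjoint C W := by
  set W : Set ℂ := connectedComponentIn Kᶜ v with hW
  have hvW : v ∈ W := mem_connectedComponentIn hv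
  have hWp : IsPreconnected W := isPreconnected_connectedComponentIn
  have hWs : W ⊆ Kᶜ := connectedComponentIn_subset _ _
  have hKo : IsOpen Kᶜ := hK.isClosed.isOpen_compl
  have hWo : IsOpen W := hKo.connectedComponentIn
  have hWb : Bornology.IsBounded W := by
    by_contra hcon
    exact h ⟨W, hWp, hvW, hcon, disjoint_left.2 fun x hx hxK => hWs hx hxK⟩
  -- a preconnected set off `K` meeting `W` is contained in `W`
  have key : ∀ C : Set ℂ, IsPreconnected C → Disjoint C K → (C ∩ W).Nonempty → C ⊆ W := by
    intro C hC hCK ⟨x, hxC, hxW⟩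
    have h1 : C ⊆ connectedComponentIn Kᶜ x :=
      hC.subset_connectedComponentIn hxC (fun y hy hyK => disjoint_left.1 hCK hy hyK)
    rwa [← connectedComponentIn_eq hxW] at h1
  refine ⟨W, hWp, hvW, ?_, ?_⟩
  · have hne : W ≠ univ := by
      intro hcon
      rw [hcon] at hWb
      exact NormedSpace.unbounded_univ ℝ ℂ hWb
    have hcl : ¬ IsClosed W := by
      intro hcl
      rcases isClopen_iff.1 ⟨hcl, hWo⟩ with h0 | h0
      · rw [h0] at hvW
        exact hvW
      · exact hne h0
    have : ¬ closure W ⊆ W := fun hcon => hcl (closure_subset_iff_isClosed.1 hcon)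
    rw [not_subset] at this
    obtain ⟨b, hb, hbW⟩ := this
    refine ⟨b, ?_, hb⟩
    by_contra hbK
    obtain ⟨r, hr, hsub⟩ := Metric.isOpen_iff.1 hKo b hbK
    obtain ⟨y, hyW, hy⟩ := Metric.mem_closure_iff.1 hb r hr
    have h1 := key (ball b r) (convex_ball b r).isPreconnected
      (disjoint_left.2 fun x hx hxK => hsub hx hxK) ⟨y, by rw [mem_ball, dist_comm]; exact hy, hyW⟩
    exact hbW (h1 (mem_ball_self hr))
  · intro C hC hCb hCK
    rw [disjoint_iff_inter_eq_empty]
    by_contra hcon
    exact hCb (hWb.subset (key C hC hCK (nonempty_iff_ne_empty.2 hcon)))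

end Pool.Agent.H.MP_e98f69_an
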