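import Pool.Agent.H.MP_e98f69_an.E.NA
import Pool.Agent.H.MP_e98f69_an.E.NB
import Pool.Agent.H.MP_e98f69_an.E.NC
import Pool.Agent.H.MP_e98f69_an.E.OutB

/-! Lemma N, second case. -/

set_option autoImplicit false

open Set Filter Topology Metric

namespace Pool.Agent.H.MP_e98f69_an

namespace Siegel

variable {P Q : Polynomial ℂ} {S : Set ℂ} {θ : ℝ} {φ : ℂ → ℂ} (X : Siegel P Q S θ φ)

include X

/-- Second case: `v` is not connected to infinity off `uu '' Imp α`, `y ∉ Imp α`, `α ≠ ζ`.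
Proof: `C = K1 ∪ W` with `K1` as above for a small `η'` (`notMem_K1`, and `η' < ‖α - ζ‖ / 2`), `W = ∅` if `v ∈ uu '' Imp α`, and `W` from
`not_out` otherwise (`K1 ∪ W` is preconnected: `W ∪ {b}` is, `b ∈ uu '' Imp α ⊆ K1`). Unbounded because `K1` is.
* Near `ζ`: for `w` in the disc, `‖w - ζ‖ < η` with `η` less than `‖α - ζ‖ / 2` and less than the distance of `ζ` to the segment `[0, α]`
  (positive because `‖ζ‖ = 1`, `ζ ≠ α`), and `η < 1`, `w ∉ A`, so `ψ w ∉ ψ '' A` (injective), `ψ w ∉ Imp α` (`ψ w ∈ S`), so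
  `uu (ψ w) ∉ K1`; and `uu (ψ w) ∉ W` by `out_disc` and the last property of `not_out` (the set `C` of `Out`).
* Near `y`: `y ∉ closure (ψ '' A ∪ Imp α)`, so a ball around `uu y` is disjoint from `K1` (`uu` is a homeomorphism off `c`; the
  inverse `u ↦ c + 1/u` is continuous at `uu y ≠ 0`). A small ball around `uu y` is disjoint from `uu '' Imp α` (closed); it is
  connected and contains `uu y`, so its union with the connected set of `out_frontier` is preconnected, unbounded and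
  disjoint from `uu '' Imp α`, hence disjoint from `W`. -/
theorem avoid_b {ζ α y v : ℂ} (hζ : ‖ζ‖ = 1) (hα : ‖α‖ = 1) (hne : α ≠ ζ) (hy : y ∈ frontier S)
    (hyα : y ∉ Imp S φ α) (hv : ¬ Out (uu (X.psi 0) '' Imp S φ α) v) :
    Avoid (X.psi 0) X.psi ζ y v := by
  have hK := X.isCompact_uImp hα
  obtain ⟨η', h0, h1, hη'⟩ := X.notMem_K1 hα hy hyα
  have hd : 0 < ‖α - ζ‖ := norm_pos_iff.2 (sub_ne_zero.2 hne)
  set e : ℝ := min η' (‖α - ζ‖ / 2) with he
  have he0 : 0 < e := lt_min h0 (by linarith)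
  have he1 : e < 1 := (min_le_left _ _).trans_lt h1
  have he2 : e ≤ ‖α - ζ‖ / 2 := min_le_right _ _
  have hycl := hη' e he0 (min_le_left _ _)
  obtain ⟨hKp, hKu⟩ := X.isPreconnected_K1 hα he0 he1
  set A : Set ℂ := (fun t : ℝ => (t : ℂ) * α) '' Ioo 0 1 ∪ (ball (0 : ℂ) 1 ∩ ball α e) with hA
  set B : Set ℂ := X.psi '' A ∪ Imp S φ α with hB
  have hAb : A ⊆ ball (0 : ℂ) 1 := by
    rintro w (⟨t, ht, rfl⟩ | hw)
    · rw [mem_ball_zero_iff, norm_mul, hα, mul_one, Complex.norm_real, Real.norm_eq_abs,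
        abs_of_pos ht.1]
      exact ht.2
    · exact hw.1
  obtain ⟨W, hWp, hvW, hW⟩ : ∃ W : Set ℂ, IsPreconnected (uu (X.psi 0) '' B ∪ W) ∧
      v ∈ uu (X.psi 0) '' B ∪ W ∧ ∀ C : Set ℂ, IsPreconnected C → ¬ Bornology.IsBounded C →
        Disjoint C (uu (X.psi 0) '' Imp S φ α) → Disjoint C W := by
    by_cases hvK : v ∈ uu (X.psi 0) '' Imp S φ α
    · refine ⟨∅, by rwa [union_empty], Or.inl (image_mono subset_union_right hvK), ?_⟩
      intro C _ _ _
      exact disjoint_empty C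
    · obtain ⟨W, hW1, hW2, ⟨b, hb1, hb2⟩, hW3⟩ := not_out hK hvK hv
      refine ⟨W, ?_, Or.inr hW2, hW3⟩
      have hWb : IsPreconnected (W ∪ {b}) := by
        refine hW1.subset_closure subset_union_left (union_subset subset_closure ?_)
        rintro x hx
        rw [mem_singleton_iff] at hx
        rw [hx]
        exact hb2
      have hb3 : b ∈ uu (X.psi 0) '' B := image_mono subset_union_right hb1
      have h2 : uu (X.psi 0) '' B ∪ (W ∪ {b}) = uu (X.psi 0) '' B ∪ W := by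
        rw [← union_assoc]
        exact union_eq_self_of_subset_right (singleton_subset_iff.2 (Or.inl hb3))
      rw [← h2]
      exact IsPreconnected.union b hb3 (Or.inr rfl) hKp hWb
  have hun : ¬ Bornology.IsBounded (uu (X.psi 0) '' B ∪ W) := fun h => hKu (h.subset subset_union_left)
  set η : ℝ := min (‖α - ζ‖ / 2) (1 / 2) with hη
  have hη0 : 0 < η := lt_min (by linarith) (by norm_num)
  have hη1 : η ≤ ‖α - ζ‖ / 2 := min_le_left _ _
  have hη2 : η ≤ 1 / 2 := min_le_right _ _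
  have hyc : y ≠ X.psi 0 := X.ne_centre hy
  have huy : uu (X.psi 0) y ≠ 0 := by
    unfold uu
    exact inv_ne_zero (sub_ne_zero.2 hyc)
  have hback : ∀ z : ℂ, X.psi 0 + (uu (X.psi 0) z)⁻¹ = z := by
    intro z
    unfold uu
    rw [inv_inv]
    ring
  obtain ⟨ρ1, hρ1, hball1⟩ : ∃ ρ > 0, ∀ u ∈ ball (uu (X.psi 0) y) ρ, u ∉ uu (X.psi 0) '' B := by
    have hc : ContinuousAt (fun u : ℂ => X.psi 0 + u⁻¹) (uu (X.psi 0) y) :=
      continuousAt_const.add (continuousAt_inv₀ huy)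
    have hm : (closure B)ᶜ ∈ 𝓝 ((fun u : ℂ => X.psi 0 + u⁻¹) (uu (X.psi 0) y)) := by
      refine isClosed_closure.isOpen_compl.mem_nhds ?_
      show X.psi 0 + (uu (X.psi 0) y)⁻¹ ∈ (closure B)ᶜ
      rw [hback]
      exact hycl
    obtain ⟨ρ, hρ, hsub⟩ := Metric.mem_nhds_iff.1 (hc.preimage_mem_nhds hm)
    refine ⟨ρ, hρ, ?_⟩
    rintro _ hu ⟨z, hz, rfl⟩
    have h2 : X.psi 0 + (uu (X.psi 0) z)⁻¹ ∈ (closure B)ᶜ := hsub hu
    rw [hback] at h2
    exact h2 (subset_closure hz)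
  have hyK : uu (X.psi 0) y ∉ uu (X.psi 0) '' Imp S φ α := by
    rintro ⟨z, hz, hzy⟩
    have h2 := uu_inj hzy
    exact hyα (h2 ▸ hz)
  obtain ⟨ρ2, hρ2, hball2⟩ := Metric.isOpen_iff.1 hK.isClosed.isOpen_compl _ hyK
  have hWball : Disjoint (ball (uu (X.psi 0) y) ρ2) W := by
    obtain ⟨C, hC1, hC2, hC3, hC4⟩ := X.out_frontier hα hy hyα
    have h2 : IsPreconnected (C ∪ ball (uu (X.psi 0) y) ρ2) :=
      IsPreconnected.union _ hC2 (mem_ball_self hρ2) hC1 (convex_ball _ _).isPreconnected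
    have h3 := hW _ h2 (fun h => hC3 (h.subset subset_union_left))
      (disjoint_union_left.2 ⟨hC4, disjoint_left.2 fun x hx hxK => hball2 hx hxK⟩)
    exact h3.mono_left subset_union_right
  refine ⟨uu (X.psi 0) '' B ∪ W, hWp, hvW, hun, η, hη0, min ρ1 ρ2, lt_min hρ1 hρ2, ?_, ?_⟩
  · intro w hw hwζ hmem
    have hw0 : w ≠ 0 := by
      rintro rfl
      rw [zero_sub, norm_neg, hζ] at hwζ
      linarith
    have hwA : w ∉ A := by
      rintro (⟨t, ht, rfl⟩ | hw2)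
      · have h2 : ‖α - ζ‖ ≤ ‖(t : ℂ) * α - ζ‖ + (1 - t) := by
          have h3 : α - ζ = ((t : ℂ) * α - ζ) + (((1 - t : ℝ) : ℂ) * α) := by
            push_cast
            ring
          calc ‖α - ζ‖ = ‖((t : ℂ) * α - ζ) + (((1 - t : ℝ) : ℂ) * α)‖ := by rw [← h3]
            _ ≤ ‖(t : ℂ) * α - ζ‖ + ‖((1 - t : ℝ) : ℂ) * α‖ := norm_add_le _ _
            _ = ‖(t : ℂ) * α - ζ‖ + (1 - t) := by
              rw [norm_mul, hα, mul_one, Complex.norm_real, Real.norm_eq_abs,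
                abs_of_pos (by linarith [ht.2])]
        have h4 : 1 - t ≤ ‖(t : ℂ) * α - ζ‖ := by
          have h5 : ‖ζ‖ ≤ ‖(t : ℂ) * α - ζ‖ + ‖(t : ℂ) * α‖ := by
            calc ‖ζ‖ = ‖(t : ℂ) * α - ((t : ℂ) * α - ζ)‖ := by rw [sub_sub_cancel]
              _ ≤ ‖(t : ℂ) * α‖ + ‖(t : ℂ) * α - ζ‖ := norm_sub_le _ _
              _ = ‖(t : ℂ) * α - ζ‖ + ‖(t : ℂ) * α‖ := add_comm _ _
          rw [hζ, norm_mul, hα, mul_one, Complex.norm_real, Real.norm_eq_abs,
            abs_of_pos ht.1] at h5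
          linarith
        have h6 : ‖(t : ℂ) * α - ζ‖ < η := hwζ
        linarith
      · have h2 : ‖w - α‖ < e := by
          rw [← dist_eq_norm]
          exact hw2.2
        have h3 : ‖α - ζ‖ ≤ ‖w - α‖ + ‖w - ζ‖ := by
          calc ‖α - ζ‖ = ‖(w - ζ) - (w - α)‖ := by rw [sub_sub_sub_cancel_left]
            _ ≤ ‖w - ζ‖ + ‖w - α‖ := norm_sub_le _ _
            _ = ‖w - α‖ + ‖w - ζ‖ := add_comm _ _
        linarith
    rcases hmem with ⟨z, hz, hzw⟩ | hmem
    · have h2 := uu_inj hzw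
      rcases hz with ⟨a, ha, rfl⟩ | hz
      · exact hwA (X.psi_inj (hAb ha) hw h2 ▸ ha)
      · rw [h2] at hz
        exact X.sph_psi_notMem hα hw hz
    · obtain ⟨C, hC1, hC2, hC3, hC4⟩ := X.out_disc hα hw hw0
      exact disjoint_left.1 (hW C hC1 hC3 hC4) hC2 hmem
  · rw [disjoint_union_left]
    constructor
    · exact disjoint_left.2 fun x hx hxb =>
        hball1 x (ball_subset_ball (min_le_left _ _) hxb) hx
    · exact (hWball.mono_left (ball_subset_ball (min_le_right _ _))).symm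

end Siegel

end Pool.Agent.H.MP_e98f69_an
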