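import Mathlib

/-! Points in the unbounded component of the complement of a compact plane set. -/

set_option autoImplicit false

open Set Filter Topology Metric

namespace Pool.Agent.H.MP_e98f69_an

/-- `v` is connected to infinity in the complement of `K` -/
def Out (K : Set ℂ) (v : ℂ) : Prop :=
  ∃ C : Set ℂ, IsPreconnected C ∧ v ∈ C ∧ ¬ Bornology.IsBounded C ∧ Disjoint C K

lemma Out.mono {K K' : Set ℂ} (h : K' ⊆ K) {v : ℂ} (hv : Out K v) : Out K' v := by
  obtain ⟨C, h1, h2, h3, h4⟩ := hv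
  exact ⟨C, h1, h2, h3, h4.mono_right h⟩

lemma Out.notMem {K : Set ℂ} {v : ℂ} (h : Out K v) : v ∉ K := by
  obtain ⟨C, h1, h2, h3, h4⟩ := h
  exact fun hv => disjoint_left.1 h4 h2 hv

/-- The outside of a ball is preconnected.
Proof: it is the image of `Ici R ×ˢ sphere 0 1` under `(t, u) ↦ t • u` for `R ≥ 0` (`isPreconnected_sphere`, rank of `ℂ`
over `ℝ` is `2`), and everything for `R < 0`. -/
theorem isPreconnected_outer (R : ℝ) : IsPreconnected {z : ℂ | R ≤ ‖z‖} := by
  rcases le_or_gt R 0 with hR | hR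
  · have h1 : {z : ℂ | R ≤ ‖z‖} = univ := by
      ext z
      simp only [Set.mem_ofPred_eq, mem_univ, iff_true]
      exact hR.trans (norm_nonneg z)
    rw [h1]
    exact isPreconnected_univ
  · have h2 : IsPreconnected (sphere (0 : ℂ) 1) := by
      apply isPreconnected_sphere
      rw [Complex.rank_real_complex]
      exact Cardinal.one_lt_two
    have h3 : IsPreconnected (Ici R ×ˢ sphere (0 : ℂ) 1) := isPreconnected_Ici.prod h2
    have h4 : {z : ℂ | R ≤ ‖z‖} = (fun p : ℝ × ℂ => p.1 • p.2) '' (Ici R ×ˢ sphere (0 : ℂ) 1) := by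
      ext z
      constructor
      · intro hz
        have hz' : R ≤ ‖z‖ := hz
        have h5 : 0 < ‖z‖ := hR.trans_le hz'
        refine ⟨(‖z‖, (‖z‖)⁻¹ • z), ⟨hz', ?_⟩, ?_⟩
        · rw [mem_sphere_zero_iff_norm, norm_smul, norm_inv, norm_norm]
          exact inv_mul_cancel₀ h5.ne'
        · show ‖z‖ • ((‖z‖)⁻¹ • z) = z
          rw [smul_smul, mul_inv_cancel₀ h5.ne', one_smul]
      · rintro ⟨⟨t, u⟩, ⟨ht, hu⟩, rfl⟩
        have ht' : R ≤ t := ht
        have hu' : ‖u‖ = 1 := mem_sphere_zero_iff_norm.1 hu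
        show R ≤ ‖t • u‖
        rw [norm_smul, hu', mul_one, Real.norm_eq_abs, abs_of_pos (hR.trans_le ht')]
        exact ht'
    rw [h4]
    exact h3.image _ (by fun_prop)

theorem outA_unb (R : ℝ) {C : Set ℂ} (h : {z : ℂ | R ≤ ‖z‖} ⊆ C) : ¬ Bornology.IsBounded C := by
  intro hb
  obtain ⟨M, hM⟩ := (hb.subset h).exists_norm_le
  have h1 : ((max R (M + 1) : ℝ) : ℂ) ∈ {z : ℂ | R ≤ ‖z‖} := by
    show R ≤ ‖((max R (M + 1) : ℝ) : ℂ)‖
    rw [Complex.norm_real]
    exact (le_max_left _ _).trans (le_abs_self _)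
  have h2 := hM _ h1
  rw [Complex.norm_real] at h2
  have h3 : M + 1 ≤ ‖max R (M + 1)‖ := (le_max_right _ _).trans (le_abs_self _)
  linarith

/-- The unbounded component of the complement of a compact set.
Proof: choose `R` with `K ⊆ ball 0 R`; `O = connectedComponentIn Kᶜ (R : ℂ)`, open, preconnected, disjoint
from `K`, contains `{R ≤ ‖z‖}` (`isPreconnected_outer`). If `C` is as in the definition of `Out`, then `C` contains a point
of norm `≥ R` (unbounded), so `C ∪ {R ≤ ‖z‖}` is preconnected in `Kᶜ`, hence contained in `O`. -/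
theorem out_component {K : Set ℂ} (hK : IsCompact K) : ∃ O : Set ℂ, IsOpen O ∧ IsPreconnected O ∧
    Disjoint O K ∧ (∃ R : ℝ, ∀ z, R ≤ ‖z‖ → z ∈ O) ∧ ∀ v, Out K v → v ∈ O := by
  obtain ⟨R0, hR0⟩ := hK.isBounded.exists_norm_le
  set R : ℝ := max (R0 + 1) 1 with hR
  have hRpos : 0 < R := lt_of_lt_of_le one_pos (le_max_right _ _)
  have hout : {z : ℂ | R ≤ ‖z‖} ⊆ Kᶜ := by
    intro z hz hzK
    have h1 := hR0 z hzK
    have h2 : R ≤ ‖z‖ := hz
    have h3 : R0 + 1 ≤ R := le_max_left _ _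
    linarith
  have hRm : (R : ℂ) ∈ {z : ℂ | R ≤ ‖z‖} := by
    show R ≤ ‖(R : ℂ)‖
    rw [Complex.norm_real]
    exact le_abs_self _
  have hsub : {z : ℂ | R ≤ ‖z‖} ⊆ connectedComponentIn Kᶜ (R : ℂ) :=
    (isPreconnected_outer R).subset_connectedComponentIn hRm hout
  refine ⟨connectedComponentIn Kᶜ (R : ℂ), hK.isClosed.isOpen_compl.connectedComponentIn,
    isPreconnected_connectedComponentIn, ?_, ⟨R, fun z hz => hsub hz⟩, ?_⟩
  · rw [Set.disjoint_left]
    intro z hz
    exact connectedComponentIn_subset _ _ hz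
  · rintro v ⟨C, h1, h2, h3, h4⟩
    obtain ⟨u, huC, hu⟩ : ∃ u ∈ C, R ≤ ‖u‖ := by
      by_contra hcon
      push Not at hcon
      exact h3 (isBounded_iff_forall_norm_le.2 ⟨R, fun u hu => (hcon u hu).le⟩)
    have h5 : IsPreconnected (C ∪ {z : ℂ | R ≤ ‖z‖}) :=
      IsPreconnected.union u huC hu h1 (isPreconnected_outer R)
    have h6 : C ∪ {z : ℂ | R ≤ ‖z‖} ⊆ connectedComponentIn Kᶜ (R : ℂ) := by
      refine h5.subset_connectedComponentIn (Or.inr hRm) ?_
      rintro z (hz | hz)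
      · exact fun hzK => disjoint_left.1 h4 hz hzK
      · exact hout hz
    exact h6 (Or.inl h2)

/-- `Out` with a closed connecting set.
Proof: in the open connected set `O` of `out_component` join `v` by a path to a point of norm `R`
(`IsOpen.isConnected_iff_isPathConnected`); `C` = (range of the path) `∪ {R ≤ ‖z‖}`. -/
theorem out_closed {K : Set ℂ} (hK : IsCompact K) {v : ℂ} (h : Out K v) :
    ∃ C : Set ℂ, IsClosed C ∧ IsPreconnected C ∧ v ∈ C ∧ ¬ Bornology.IsBounded C ∧ Disjoint C K := by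
  obtain ⟨O, hO, hpre, hdis, ⟨R, hR⟩, hall⟩ := out_component hK
  have hv : v ∈ O := hall v h
  have hconn : IsPathConnected O := (hO.isConnected_iff_isPathConnected).1 ⟨⟨v, hv⟩, hpre⟩
  have hRm : R ≤ ‖(R : ℂ)‖ := by
    rw [Complex.norm_real]
    exact le_abs_self _
  obtain ⟨γ, hγ⟩ := hconn.joinedIn v hv (R : ℂ) (hR _ hRm)
  have h1 : IsPreconnected (range γ) := isPreconnected_range γ.continuous
  refine ⟨range γ ∪ {z : ℂ | R ≤ ‖z‖}, ?_, ?_, Or.inl ⟨0, γ.source⟩, ?_, ?_⟩
  · exact (isCompact_range γ.continuous).isClosed.union (isClosed_le continuous_const continuous_norm)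
  · exact IsPreconnected.union (R : ℂ) ⟨1, γ.target⟩ hRm h1 (isPreconnected_outer R)
  · exact outA_unb R subset_union_right
  · rw [Set.disjoint_left]
    rintro z (⟨t, rfl⟩ | hz)
    · exact disjoint_left.1 hdis (hγ t)
    · exact disjoint_left.1 hdis (hR z hz)

end Pool.Agent.H.MP_e98f69_an
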