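import Pool.Agent.H.MP_e98f69_an.Potential
import Pool.Agent.H.MP_e98f69_an.E.Def

/-! Radii of finite length have limits. -/

set_option autoImplicit false

open Set Filter Topology Metric MeasureTheory

namespace Pool.Agent.H.MP_e98f69_an

namespace Siegel

variable {P Q : Polynomial ℂ} {S : Set ℂ} {θ : ℝ} {φ : ℂ → ℂ} (X : Siegel P Q S θ φ)

include X

theorem radc_mem {ζ : ℂ} (hζ : ‖ζ‖ = 1) {r : ℝ} (h0 : 0 ≤ r) (h1 : r < 1) :
    (r : ℂ) * ζ ∈ ball (0 : ℂ) 1 := by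
  rw [mem_ball_zero_iff, norm_mul, hζ, mul_one, Complex.norm_real, Real.norm_eq_abs,
    abs_of_nonneg h0]
  exact h1

theorem radc_deriv {ζ : ℂ} (hζ : ‖ζ‖ = 1) {r : ℝ} (h0 : 0 ≤ r) (h1 : r < 1) :
    HasDerivAt (fun t : ℝ => X.psi ((t : ℂ) * ζ)) (deriv X.psi ((r : ℂ) * ζ) * ζ) r := by
  have h2 : HasDerivAt X.psi (deriv X.psi ((r : ℂ) * ζ)) ((r : ℂ) * ζ) :=
    (X.psi_an (X.radc_mem hζ h0 h1)).differentiableAt.hasDerivAt
  have h3 : HasDerivAt (fun t : ℝ => (t : ℂ) * ζ) (1 * ζ) r :=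
    (Complex.ofRealCLM.hasDerivAt (x := r)).mul_const ζ
  rw [one_mul] at h3
  exact h2.comp_of_eq r h3 rfl

theorem radc_cont {ζ : ℂ} (hζ : ‖ζ‖ = 1) {r : ℝ} (h0 : 0 ≤ r) (h1 : r < 1) :
    ContinuousAt (fun t : ℝ => deriv X.psi ((t : ℂ) * ζ) * ζ) r := by
  have h2 : ContinuousAt (deriv X.psi) ((r : ℂ) * ζ) :=
    (X.psi_an (X.radc_mem hζ h0 h1)).deriv.continuousAt
  have h3 : ContinuousAt (fun t : ℝ => (t : ℂ) * ζ) r := by fun_prop
  exact (ContinuousAt.comp (f := fun t : ℝ => (t : ℂ) * ζ) h2 h3).mul continuousAt_const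

/-- A radius of finite length has a limit.
Proof: `psi (r2 ζ) - psi (r1 ζ)` is the integral of `deriv psi (r ζ) * ζ` over `(r1, r2)`, so `r ↦ psi (r ζ)` is Cauchy as `r → 1`
(the integral of an integrable function over `(r, 1)` tends to `0`); limit `x`; let `r1 = 1 - h` (use `r1 > 1 - h` and
continuity) for the estimate. -/
theorem radial_lim {ζ : ℂ} (hζ : ‖ζ‖ = 1) {h : ℝ} (hh : 0 < h) (hh2 : h ≤ 1 / 2) {A : ℝ} (hA : 0 ≤ A)
    (hl : ∫⁻ r in Ioo (1 - h) 1, ENNReal.ofReal ‖deriv X.psi ((r : ℂ) * ζ)‖ ≤ ENNReal.ofReal A) :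
    ∃ x : ℂ, Tendsto (fun r : ℝ => X.psi ((r : ℂ) * ζ)) (𝓝[<] 1) (𝓝 x) ∧
      ‖x - X.psi (((1 - h : ℝ) : ℂ) * ζ)‖ ≤ A := by
  have hc : ContinuousOn (fun t : ℝ => deriv X.psi ((t : ℂ) * ζ) * ζ) (Ico (1 - h) 1) := by
    intro r hr
    exact (X.radc_cont hζ (by linarith [hr.1]) hr.2).continuousWithinAt
  have hn : ∀ r : ℝ, ‖deriv X.psi ((r : ℂ) * ζ) * ζ‖ = ‖deriv X.psi ((r : ℂ) * ζ)‖ := by
    intro r
    rw [norm_mul, hζ, mul_one]
  have hl2 : ∫⁻ r in Ioo (1 - h) 1, ENNReal.ofReal ‖deriv X.psi ((r : ℂ) * ζ) * ζ‖ ≤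
      ENNReal.ofReal A := by
    simp only [hn]
    exact hl
  have hint0 : IntegrableOn (fun t : ℝ => deriv X.psi ((t : ℂ) * ζ) * ζ) (Ioo (1 - h) 1) := by
    refine ⟨(hc.mono Ioo_subset_Ico_self).aestronglyMeasurable measurableSet_Ioo, ?_⟩
    rw [hasFiniteIntegral_iff_norm]
    exact hl2.trans_lt ENNReal.ofReal_lt_top
  have hle : 1 - h ≤ (1 : ℝ) := by linarith
  have hint : IntervalIntegrable (fun t : ℝ => deriv X.psi ((t : ℂ) * ζ) * ζ) volume (1 - h) 1 := by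
    rw [intervalIntegrable_iff_integrableOn_Ioo_of_le hle]
    exact hint0
  have hG := intervalIntegral.continuousOn_primitive_interval' hint left_mem_uIcc
  rw [uIcc_of_le hle] at hG
  have h1 : Tendsto (fun b : ℝ => ∫ x in (1 - h)..b, deriv X.psi ((x : ℂ) * ζ) * ζ) (𝓝[<] 1)
      (𝓝 (∫ x in (1 - h)..1, deriv X.psi ((x : ℂ) * ζ) * ζ)) := by
    have h2 := hG 1 (right_mem_Icc.2 hle)
    refine h2.tendsto.mono_left ?_
    rw [← nhdsWithin_Ioo_eq_nhdsLT (show 1 - h < 1 by linarith)]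
    exact nhdsWithin_mono _ Ioo_subset_Icc_self
  have h2 : ∀ b : ℝ, 1 - h ≤ b → b < 1 →
      ∫ x in (1 - h)..b, deriv X.psi ((x : ℂ) * ζ) * ζ =
        X.psi ((b : ℂ) * ζ) - X.psi (((1 - h : ℝ) : ℂ) * ζ) := by
    intro b hb1 hb2
    refine intervalIntegral.integral_eq_sub_of_hasDerivAt (f := fun t : ℝ => X.psi ((t : ℂ) * ζ))
      ?_ ?_
    · intro r hr
      rw [uIcc_of_le hb1] at hr
      exact X.radc_deriv hζ (by linarith [hr.1]) (by linarith [hr.2])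
    · refine ContinuousOn.intervalIntegrable ?_
      rw [uIcc_of_le hb1]
      exact hc.mono fun r hr => ⟨hr.1, hr.2.trans_lt hb2⟩
  refine ⟨X.psi (((1 - h : ℝ) : ℂ) * ζ) + ∫ x in (1 - h)..1, deriv X.psi ((x : ℂ) * ζ) * ζ,
    ?_, ?_⟩
  · refine (h1.const_add (X.psi (((1 - h : ℝ) : ℂ) * ζ))).congr' ?_
    have h3 : ∀ᶠ b : ℝ in 𝓝[<] 1, b ∈ Ioo (1 - h) 1 :=
      Ioo_mem_nhdsLT (show 1 - h < 1 by linarith)
    filter_upwards [h3] with b hb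
    rw [h2 b hb.1.le hb.2]
    ring
  · rw [add_sub_cancel_left, intervalIntegral.integral_of_le hle, integral_Ioc_eq_integral_Ioo]
    refine (norm_integral_le_lintegral_norm _).trans ?_
    exact ENNReal.toReal_le_of_le_ofReal hA hl2

end Siegel

end Pool.Agent.H.MP_e98f69_an
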