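import Pool.Agent.H.MP_e98f69_an.E.RadA

/-! Pointwise bound of the derivative by the area. -/

set_option autoImplicit false

open Set Filter Topology Metric MeasureTheory

namespace Pool.Agent.H.MP_e98f69_an

/-- the value at the centre is bounded by the circle integral -/
theorem radd_mean {g : ℂ → ℂ} {w : ℂ} {s : ℝ} (hs : 0 < s)
    (hg : DifferentiableOn ℂ g (closedBall w s)) (hg2 : DiffContOnCl ℂ g (ball w |s|)) :
    ENNReal.ofReal (2 * Real.pi * ‖g w‖ ^ 2) ≤
      ∫⁻ t in Ioo (-Real.pi) Real.pi,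
        ENNReal.ofReal (‖g (w + (s : ℂ) * ((Real.cos t : ℂ) + (Real.sin t : ℂ) * Complex.I))‖ ^ 2) := by
  have hG : DiffContOnCl ℂ (fun z => g z * g z) (ball w |s|) := by
    have h1 := hg2.smul hg2
    exact h1
  have h1 := hG.circleAverage
  rw [Real.circleAverage_eq_integral_add (-Real.pi)] at h1
  rw [intervalIntegral.integral_comp_add_right (fun t => g (circleMap w s t) * g (circleMap w s t))] at h1
  have e1 : (0 : ℝ) + -Real.pi = -Real.pi := by ring
  have e2 : 2 * Real.pi + -Real.pi = Real.pi := by ring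
  rw [e1, e2, intervalIntegral.integral_of_le (by linarith [Real.pi_pos])] at h1
  have h2 : (2 * Real.pi) • (g w * g w) =
      ∫ t in Ioc (-Real.pi) Real.pi, g (circleMap w s t) * g (circleMap w s t) := by
    rw [← h1, smul_smul, mul_inv_cancel₀ (by positivity), one_smul]
  have h3 : ENNReal.ofReal (2 * Real.pi * ‖g w‖ ^ 2) = ‖(2 * Real.pi) • (g w * g w)‖ₑ := by
    rw [← ofReal_norm, norm_smul, norm_mul (g w) (g w),
      Real.norm_of_nonneg (show (0 : ℝ) ≤ 2 * Real.pi by positivity), sq]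
  rw [h3, h2]
  refine (enorm_integral_le_lintegral_enorm _).trans (le_of_eq ?_)
  rw [setLIntegral_congr (Ioo_ae_eq_Ioc (a := -Real.pi) (b := Real.pi)).symm]
  refine lintegral_congr fun t => ?_
  rw [← ofReal_norm, norm_mul, ← sq]
  congr 3
  rw [circleMap, Complex.exp_mul_I, Complex.ofReal_cos, Complex.ofReal_sin]

namespace Siegel

variable {P Q : Polynomial ℂ} {S : Set ℂ} {θ : ℝ} {φ : ℂ → ℂ} (X : Siegel P Q S θ φ)

include X

/-- Pointwise bound of the derivative by the area.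
Proof: for `0 < s < h` Cauchy's formula for the centre gives `‖deriv psi w‖ ≤` circle average of `‖deriv psi‖` over the circle of
radius `s` around `w` (e.g. mean value property `DiffContOnCl.circleAverage`/`circleIntegral` for the holomorphic function
`deriv psi`), so `‖deriv psi w‖^2 ≤ (1/2π) ∫ ‖deriv psi (w + s e^{it})‖^2 dt` (Cauchy-Schwarz / Jensen). Multiply by `s` and
integrate over `0 < s < h`: `(h^2/2) 2π ‖deriv psi w‖^2 ≤ ∫⁻ over ball w h ≤ tailA (2h)` since `ball w h ⊆ {1 - 2h < ‖·‖ < 1}`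
(polar coordinates around `w`). So `π h^2 ‖deriv psi w‖^2 ≤ tailA (2h)`. -/
theorem deriv_le {w : ℂ} {h : ℝ} (hh : 0 < h) (hh2 : h ≤ 1 / 2) (hw : ‖w‖ = 1 - h) :
    ENNReal.ofReal (h ^ 2 * ‖deriv X.psi w‖ ^ 2) ≤ X.tailA (2 * h) := by
  have hmeas : Measurable (fun u : ℂ => ENNReal.ofReal (‖deriv X.psi u‖ ^ 2)) :=
    ENNReal.measurable_ofReal.comp ((measurable_deriv X.psi).norm.pow_const 2)
  set Φ : ℂ → ENNReal := (ball w h).indicator (fun u : ℂ => ENNReal.ofReal (‖deriv X.psi u‖ ^ 2)) with hΦ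
  have hΦm : Measurable Φ := hmeas.indicator measurableSet_ball
  -- upper bound
  have hup : ∫⁻ z, Φ (w + z) ≤ X.tailA (2 * h) := by
    rw [lintegral_add_left_eq_self, hΦ, lintegral_indicator measurableSet_ball]
    unfold tailA
    refine lintegral_mono_set fun u hu => ?_
    rw [mem_ball, dist_eq_norm] at hu
    have h1 : ‖w‖ ≤ ‖u‖ + ‖u - w‖ := by
      have := norm_sub_norm_le w u
      rw [norm_sub_rev] at this
      linarith
    have h2 : ‖u‖ ≤ ‖w‖ + ‖u - w‖ := by
      have := norm_sub_norm_le u w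
      linarith
    refine ⟨?_, ?_⟩
    · linarith
    · linarith
  refine le_trans ?_ hup
  have htar : polarCoord.target = Ioi (0 : ℝ) ×ˢ Ioo (-Real.pi) Real.pi := rfl
  rw [← Complex.lintegral_comp_polarCoord_symm, htar]
  -- restrict to the subset
  have hsub : Ioo (h / 2) h ×ˢ Ioo (-Real.pi) Real.pi ⊆ Ioi (0 : ℝ) ×ˢ Ioo (-Real.pi) Real.pi := by
    rintro ⟨r, t⟩ ⟨h1, h2⟩
    exact ⟨lt_trans (by linarith) h1.1, h2⟩
  refine le_trans ?_ (lintegral_mono_set hsub)
  have hpm : Measurable (fun p : ℝ × ℝ => ENNReal.ofReal p.1 • Φ (w + Complex.polarCoord.symm p)) := by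
    have h1 : (fun p : ℝ × ℝ => ENNReal.ofReal p.1 • Φ (w + Complex.polarCoord.symm p)) =
        fun p : ℝ × ℝ => ENNReal.ofReal p.1 *
          Φ (w + ((p.1 : ℝ) : ℂ) * (((Real.cos p.2 : ℝ) : ℂ) + ((Real.sin p.2 : ℝ) : ℂ) * Complex.I)) := by
      funext p
      rw [Complex.polarCoord_symm_apply, smul_eq_mul]
    rw [h1]
    refine (ENNReal.measurable_ofReal.comp measurable_fst).mul (hΦm.comp ?_)
    refine Continuous.measurable ?_
    have c1 : Continuous fun p : ℝ × ℝ => ((p.1 : ℝ) : ℂ) := Complex.continuous_ofReal.comp continuous_fst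
    have c2 : Continuous fun p : ℝ × ℝ => ((Real.cos p.2 : ℝ) : ℂ) :=
      Complex.continuous_ofReal.comp (Real.continuous_cos.comp continuous_snd)
    have c3 : Continuous fun p : ℝ × ℝ => ((Real.sin p.2 : ℝ) : ℂ) :=
      Complex.continuous_ofReal.comp (Real.continuous_sin.comp continuous_snd)
    exact continuous_const.add (c1.mul (c2.add (c3.mul continuous_const)))
  rw [Measure.volume_eq_prod, ← Measure.prod_restrict, lintegral_prod _ hpm.aemeasurable]
  -- inner integrals
  have hinner : ∀ s ∈ Ioo (h / 2) h, ENNReal.ofReal (h / 2 * (2 * Real.pi * ‖deriv X.psi w‖ ^ 2)) ≤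
      ∫⁻ t in Ioo (-Real.pi) Real.pi, ENNReal.ofReal s • Φ (w + Complex.polarCoord.symm (s, t)) := by
    intro s hs
    have hs0 : 0 < s := lt_trans (by linarith) hs.1
    have hcb : closedBall w s ⊆ ball (0 : ℂ) 1 := by
      intro u hu
      rw [mem_closedBall, dist_eq_norm] at hu
      rw [mem_ball_zero_iff]
      have h2 : ‖u‖ ≤ ‖w‖ + ‖u - w‖ := by
        have := norm_sub_norm_le u w
        linarith
      linarith [hs.2]
    have hd : DifferentiableOn ℂ (deriv X.psi) (ball (0 : ℂ) 1) := fun z hz =>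
      (X.psi_an hz).deriv.differentiableAt.differentiableWithinAt
    have h1 := radd_mean (g := deriv X.psi) (w := w) hs0 (hd.mono hcb)
      (hd.diffContOnCl_ball (by rw [abs_of_pos hs0]; exact hcb))
    have h2 : ∫⁻ t in Ioo (-Real.pi) Real.pi, ENNReal.ofReal s • Φ (w + Complex.polarCoord.symm (s, t)) =
        ENNReal.ofReal s * ∫⁻ t in Ioo (-Real.pi) Real.pi,
        ENNReal.ofReal (‖deriv X.psi (w + (s : ℂ) * ((Real.cos t : ℂ) + (Real.sin t : ℂ) * Complex.I))‖ ^ 2) := by
      rw [← lintegral_const_mul' _ _ ENNReal.ofReal_ne_top]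
      refine lintegral_congr fun t => ?_
      rw [smul_eq_mul, Complex.polarCoord_symm_apply]
      congr 1
      rw [hΦ]
      apply indicator_of_mem
      rw [mem_ball, dist_eq_norm, add_sub_cancel_left, norm_mul]
      have e1 : ‖((Real.cos t : ℝ) : ℂ) + ((Real.sin t : ℝ) : ℂ) * Complex.I‖ = 1 := by
        rw [Complex.ofReal_cos, Complex.ofReal_sin, ← Complex.exp_mul_I, Complex.norm_exp_ofReal_mul_I]
      show ‖((s : ℝ) : ℂ)‖ * ‖((Real.cos t : ℝ) : ℂ) + ((Real.sin t : ℝ) : ℂ) * Complex.I‖ < h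
      rw [e1, mul_one, Complex.norm_real, Real.norm_of_nonneg hs0.le]
      exact hs.2
    rw [h2, ENNReal.ofReal_mul (by linarith)]
    exact mul_le_mul' (ENNReal.ofReal_le_ofReal hs.1.le) h1
  calc ENNReal.ofReal (h ^ 2 * ‖deriv X.psi w‖ ^ 2)
      ≤ ENNReal.ofReal (h / 2 * (2 * Real.pi * ‖deriv X.psi w‖ ^ 2)) * ENNReal.ofReal (h / 2) := by
        rw [← ENNReal.ofReal_mul (by positivity)]
        refine ENNReal.ofReal_le_ofReal ?_
        have h3 := Real.pi_gt_three
        have h4 : 0 ≤ h ^ 2 * ‖deriv X.psi w‖ ^ 2 := by positivity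
        nlinarith
    _ = ∫⁻ _s in Ioo (h / 2) h, ENNReal.ofReal (h / 2 * (2 * Real.pi * ‖deriv X.psi w‖ ^ 2)) := by
        rw [setLIntegral_const, Real.volume_Ioo]
        congr 2
        ring
    _ ≤ _ := setLIntegral_mono' measurableSet_Ioo hinner

end Siegel

end Pool.Agent.H.MP_e98f69_an
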