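import Pool.Agent.H.MP_e98f69_an.E.RadB
import Pool.Agent.H.MP_e98f69_an.E.RadC
import Pool.Agent.H.MP_e98f69_an.E.RadD

/-! Radial limits are dense in the boundary. -/

set_option autoImplicit false

open Set Filter Topology Metric MeasureTheory

namespace Pool.Agent.H.MP_e98f69_an

namespace Siegel

variable {P Q : Polynomial ℂ} {S : Set ℂ} {θ : ℝ} {φ : ℂ → ℂ} (X : Siegel P Q S θ φ)

include X

/-- moving along an arc of a circle around the origin -/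
theorem rad_arc {ζ0 : ℂ} (hζ : ‖ζ0‖ = 1) {h : ℝ} (hh : 0 < h) (hh2 : h ≤ 1 / 2) {K : ℝ}
    (hK : ∀ w : ℂ, ‖w‖ = 1 - h → ‖deriv X.psi w‖ ≤ K) (t : ℝ) :
    ‖X.psi (((1 - h : ℝ) : ℂ) * (Complex.exp (t * Complex.I) * ζ0)) -
      X.psi (((1 - h : ℝ) : ℂ) * ζ0)‖ ≤ K * |t| := by
  set c : ℝ → ℂ := fun s => ((1 - h : ℝ) : ℂ) * (Complex.exp (s * Complex.I) * ζ0) with hc
  have hcn : ∀ s : ℝ, ‖c s‖ = 1 - h := by
    intro s
    rw [hc]
    simp only
    rw [norm_mul, norm_mul, Complex.norm_exp_ofReal_mul_I, hζ, Complex.norm_real,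
      Real.norm_of_nonneg (by linarith)]
    ring
  have hcd : ∀ s : ℝ, HasDerivAt c (c s * Complex.I) s := by
    intro s
    have h1 : HasDerivAt (fun s : ℝ => (s : ℂ) * Complex.I) (1 * Complex.I) s :=
      (Complex.ofRealCLM.hasDerivAt (x := s)).mul_const Complex.I
    have h2 := h1.cexp
    have h3 := (h2.mul_const ζ0).const_mul (((1 - h : ℝ) : ℂ))
    refine h3.congr_deriv ?_
    rw [hc]
    simp only
    ring
  have hd : ∀ s : ℝ, HasDerivAt (fun s => X.psi (c s)) (deriv X.psi (c s) * (c s * Complex.I)) s := by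
    intro s
    have h1 : c s ∈ ball (0 : ℂ) 1 := by rw [mem_ball_zero_iff, hcn]; linarith
    exact (X.psi_an h1).differentiableAt.hasDerivAt.comp_of_eq s (hcd s) rfl
  have hb : ∀ s : ℝ, ‖deriv X.psi (c s) * (c s * Complex.I)‖ ≤ K := by
    intro s
    rw [norm_mul, norm_mul, Complex.norm_I, mul_one, hcn]
    have h1 := hK (c s) (hcn s)
    have h2 := norm_nonneg (deriv X.psi (c s))
    nlinarith
  have h5 := convex_univ.norm_image_sub_le_of_norm_hasDerivWithin_le (f := fun s => X.psi (c s))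
    (f' := fun s => deriv X.psi (c s) * (c s * Complex.I)) (C := K) (x := (0 : ℝ)) (y := t) (s := univ)
    (fun s _ => (hd s).hasDerivWithinAt) (fun s _ => hb s) (mem_univ _) (mem_univ _)
  have h6 : c 0 = ((1 - h : ℝ) : ℂ) * ζ0 := by
    rw [hc]; simp
  simp only [h6, sub_zero, Real.norm_eq_abs] at h5
  exact h5

/-- **Radial limits are dense in the boundary.**
Proof: let `ε' = ε / 4`. `tail_small` gives `δ` with `tailA δ < (ε')^2`. `exists_rel_frontier` and `rel_seq`: points `u ∈ S` with `φ u`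
close to the circle, `‖u - y‖ < ε'`; put `w0 = φ u`, `h = 1 - ‖w0‖`, we may assume `0 < h`, `2 h ≤ δ`, `ζ0 = w0 / ‖w0‖`.
`radial_short` for `h`: `t`; `ζ = exp (i t) ζ0`. The length is `≤ (tailA h)^(1/2) ≤ ofReal ε'` (`tail_mono`). `radial_lim`: `x` with
`‖x - psi ((1-h) ζ)‖ ≤ ε'`. On the circle of radius `1 - h`, `‖deriv psi‖ ≤ ε' / h` (`deriv_le`), and the arc from
`(1-h) ζ0` to `(1-h) ζ` has length `≤ h`: `‖psi ((1-h) ζ) - psi ((1-h) ζ0)‖ ≤ ε'` (derivative of `s ↦ psi ((1-h) e^{is} ζ0)`,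
`Convex.norm_image_sub_le_of_norm_deriv_le`). Total `‖x - y‖ ≤ 3 ε' < ε`. -/
theorem radial_dense {y : ℂ} (hy : y ∈ frontier S) {ε : ℝ} (hε : 0 < ε) :
    ∃ ζ x : ℂ, ‖ζ‖ = 1 ∧ Tendsto (fun r : ℝ => X.psi ((r : ℂ) * ζ)) (𝓝[<] 1) (𝓝 x) ∧
      ‖x - y‖ < ε := by
  have he : 0 < ε / 4 := by linarith
  obtain ⟨δ, hδ0, hδ1, hδ⟩ := X.tail_small (ε := ENNReal.ofReal ((ε / 4) ^ 2))
    (ENNReal.ofReal_pos.2 (by positivity))
  obtain ⟨ζ1, hζ1, hrel⟩ := X.exists_rel_frontier hy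
  obtain ⟨u, hu, hu1, hu2⟩ := rel_seq hrel
  -- choose a good index
  have hev1 : ∀ᶠ n in atTop, ‖u n - y‖ < ε / 4 := by
    have := (Metric.tendsto_nhds.1 hu2) (ε / 4) he
    simpa [dist_eq_norm] using this
  have hev2 : ∀ᶠ n in atTop, 1 - δ / 2 < ‖φ (u n)‖ := by
    have h1 : Tendsto (fun n => ‖φ (u n)‖) atTop (𝓝 ‖ζ1‖) := hu1.norm
    rw [hζ1] at h1
    exact h1.eventually (lt_mem_nhds (by linarith))
  obtain ⟨n, hn1, hn2⟩ := (hev1.and hev2).exists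
  set w0 := φ (u n) with hw0
  have hw1 : ‖w0‖ < 1 := mem_ball_zero_iff.1 (X.phi_mem (hu n))
  set h := 1 - ‖w0‖ with hh
  have hh0 : 0 < h := by linarith
  have hh1 : 2 * h ≤ δ := by linarith
  have hh2 : h ≤ 1 / 2 := by linarith
  have hwn : ‖w0‖ = 1 - h := by linarith
  have hw0ne : (‖w0‖ : ℂ) ≠ 0 := by
    rw [Complex.ofReal_ne_zero]
    linarith
  set ζ0 : ℂ := w0 / (‖w0‖ : ℂ) with hζ0
  have hζ0n : ‖ζ0‖ = 1 := by
    rw [hζ0, norm_div, Complex.norm_real, norm_norm, div_self]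
    intro h0
    exact hw0ne (by rw [h0]; rfl)
  have hw0e : ((1 - h : ℝ) : ℂ) * ζ0 = w0 := by
    rw [← hwn, hζ0, mul_div_cancel₀ _ hw0ne]
  -- bound of the derivative
  have hK : ∀ w : ℂ, ‖w‖ = 1 - h → ‖deriv X.psi w‖ ≤ (ε / 4) / h := by
    intro w hw
    have h1 := X.deriv_le hh0 hh2 hw
    have h2 : ENNReal.ofReal (h ^ 2 * ‖deriv X.psi w‖ ^ 2) < ENNReal.ofReal ((ε / 4) ^ 2) :=
      lt_of_le_of_lt (h1.trans (X.tail_mono hh1)) hδ
    have h3 : h ^ 2 * ‖deriv X.psi w‖ ^ 2 < (ε / 4) ^ 2 :=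
      (ENNReal.ofReal_lt_ofReal_iff (by positivity)).1 h2
    rw [← mul_pow] at h3
    have h4 : h * ‖deriv X.psi w‖ < ε / 4 :=
      lt_of_pow_lt_pow_left₀ 2 he.le h3
    rw [le_div_iff₀ hh0]
    linarith
  obtain ⟨t, ht, hlen⟩ := X.radial_short hζ0n hh0 hh2
  have hζn : ‖Complex.exp (t * Complex.I) * ζ0‖ = 1 := by
    rw [norm_mul, Complex.norm_exp_ofReal_mul_I, hζ0n, mul_one]
  have hlen2 : ∫⁻ r in Ioo (1 - h) 1,
      ENNReal.ofReal ‖deriv X.psi ((r : ℂ) * (Complex.exp (t * Complex.I) * ζ0))‖ ≤ ENNReal.ofReal (ε / 4) := by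
    refine hlen.trans ?_
    have h1 : X.tailA h ≤ ENNReal.ofReal ((ε / 4) ^ 2) := (X.tail_mono (by linarith)).trans hδ.le
    refine (ENNReal.rpow_le_rpow h1 (by norm_num)).trans (le_of_eq ?_)
    rw [ENNReal.ofReal_pow he.le, ← ENNReal.rpow_natCast, ← ENNReal.rpow_mul]
    norm_num
  obtain ⟨x, hx1, hx2⟩ := X.radial_lim hζn hh0 hh2 he.le hlen2
  refine ⟨_, x, hζn, hx1, ?_⟩
  have h5 := X.rad_arc hζ0n hh0 hh2 hK t
  have h6 : (ε / 4) / h * |t| ≤ ε / 4 := by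
    have h7 : (ε / 4) / h * |t| ≤ (ε / 4) / h * h :=
      mul_le_mul_of_nonneg_left ht.le (by positivity)
    rwa [div_mul_cancel₀ _ hh0.ne'] at h7
  rw [hw0e, hw0, X.psi_phi (hu n)] at h5
  have h8 : x - y = (x - X.psi (((1 - h : ℝ) : ℂ) * (Complex.exp (t * Complex.I) * ζ0))) +
      ((X.psi (((1 - h : ℝ) : ℂ) * (Complex.exp (t * Complex.I) * ζ0)) - u n) + (u n - y)) := by ring
  rw [h8]
  refine lt_of_le_of_lt ((norm_add_le _ _).trans (add_le_add hx2 ((norm_add_le _ _).trans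
    (add_le_add (h5.trans h6) hn1.le)))) ?_
  linarith

end Siegel

end Pool.Agent.H.MP_e98f69_an
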