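import Pool.Agent.H.MP_e98f69_an.Potential
import Pool.Agent.H.MP_e98f69_an.E.Def

/-! Areas of tails. -/

set_option autoImplicit false

open Set Filter Topology Metric MeasureTheory

namespace Pool.Agent.H.MP_e98f69_an

/-- the determinant of the multiplication by a complex number -/
theorem radA_det (c : ℂ) : (c • (1 : ℂ →L[ℝ] ℂ)).det = ‖c‖ ^ 2 := by
  have h1 : (c • (1 : ℂ →L[ℝ] ℂ)).det = Algebra.norm ℝ c := by
    rw [Algebra.norm_apply, ContinuousLinearMap.det]
    congr 1
  rw [h1, Algebra.norm_complex_apply, Complex.normSq_eq_norm_sq]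

namespace Siegel

variable {P Q : Polynomial ℂ} {S : Set ℂ} {θ : ℝ} {φ : ℂ → ℂ} (X : Siegel P Q S θ φ)

include X

/-- the area integral over the annulus `1 - δ < ‖w‖ < 1` -/
noncomputable def tailA (δ : ℝ) : ENNReal :=
  ∫⁻ w in {w : ℂ | 1 - δ < ‖w‖ ∧ ‖w‖ < 1}, ENNReal.ofReal (‖deriv X.psi w‖ ^ 2)

/-- The area integral over a measurable subset of the disc is the area of the image.
Proof: `lintegral_abs_det_fderiv_eq_addHaar_image` (real derivative of `psi` = multiplication by `deriv psi w`, determinant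
`‖deriv psi w‖ ^ 2`: `Complex.det_...` / `ContinuousLinearMap.restrictScalars`, see also
`Pool/Agent/H/MP_1b807b_an/G/Degen.lean`), `psi_inj`. -/
theorem area_eq {B : Set ℂ} (hB : MeasurableSet B) (hsub : B ⊆ ball (0 : ℂ) 1) :
    ∫⁻ w in B, ENNReal.ofReal (‖deriv X.psi w‖ ^ 2) = volume (X.psi '' B) := by
  have hder : ∀ w ∈ B, HasFDerivWithinAt X.psi (deriv X.psi w • (1 : ℂ →L[ℝ] ℂ)) B w := by
    intro w hw
    have h1 : HasDerivAt X.psi (deriv X.psi w) w := (X.psi_an (hsub hw)).differentiableAt.hasDerivAt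
    exact h1.complexToReal_fderiv.hasFDerivWithinAt
  have hinj : InjOn X.psi B := fun a ha b hb h => X.psi_inj (hsub ha) (hsub hb) h
  rw [← lintegral_abs_det_fderiv_eq_addHaar_image volume hB hder hinj]
  refine lintegral_congr fun w => ?_
  rw [radA_det, abs_of_nonneg (by positivity)]

/-- The areas of the tails tend to zero.
Proof: `area_eq`; the sets `psi '' {1 - 1/(n+2) < ‖w‖ < 1}` decrease, are contained in the bounded set `S` (finite measure) and
have empty intersection (`tendsto_measure_iInter_atTop` or dominated convergence for the lower integrals). -/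
theorem tail_small {ε : ENNReal} (hε : 0 < ε) : ∃ δ : ℝ, 0 < δ ∧ δ < 1 / 4 ∧ X.tailA δ < ε := by
  set A : ℕ → Set ℂ := fun n => {w : ℂ | 1 - 1 / ((n : ℝ) + 5) < ‖w‖ ∧ ‖w‖ < 1} with hA
  have hAo : ∀ n, IsOpen (A n) := fun n =>
    (isOpen_lt continuous_const continuous_norm).inter (isOpen_lt continuous_norm continuous_const)
  have hAsub : ∀ n, A n ⊆ ball (0 : ℂ) 1 := fun n w hw => mem_ball_zero_iff.2 hw.2
  set T : ℕ → Set ℂ := fun n => X.psi '' A n with hT
  have hTeq : ∀ n, T n = S ∩ φ ⁻¹' A n := by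
    intro n
    ext z
    constructor
    · rintro ⟨w, hw, rfl⟩
      refine ⟨X.psi_mem (hAsub n hw), ?_⟩
      change φ (X.psi w) ∈ A n
      rw [X.phi_psi (hAsub n hw)]
      exact hw
    · rintro ⟨hz, hz2⟩
      exact ⟨φ z, hz2, X.psi_phi hz⟩
  have hTo : ∀ n, IsOpen (T n) := by
    intro n
    rw [hTeq]
    exact X.diff.continuousOn.isOpen_inter_preimage X.op (hAo n)
  have hanti : Antitone T := by
    intro m n hmn
    refine image_mono ?_
    rintro w ⟨h1, h2⟩
    refine ⟨lt_of_le_of_lt ?_ h1, h2⟩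
    have h3 : (m : ℝ) ≤ n := by exact_mod_cast hmn
    have h4 : 1 / ((n : ℝ) + 5) ≤ 1 / ((m : ℝ) + 5) := by
      apply one_div_le_one_div_of_le
      · positivity
      · linarith
    linarith
  have hfin : ∃ n, volume (T n) ≠ ⊤ := by
    refine ⟨0, ?_⟩
    have h1 : T 0 ⊆ S := by
      rw [hTeq]
      exact inter_subset_left
    exact ((measure_mono h1).trans_lt X.bdd.measure_lt_top).ne
  have hlim := tendsto_measure_iInter_atTop (μ := (volume : Measure ℂ))
    (fun n => (hTo n).measurableSet.nullMeasurableSet) hanti hfin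
  have hempty : (⋂ n, T n) = ∅ := by
    rw [eq_empty_iff_forall_notMem]
    intro z hz
    rw [mem_iInter] at hz
    have h0 := hz 0
    rw [hTeq] at h0
    have h1 : ‖φ z‖ < 1 := mem_ball_zero_iff.1 (X.phi_mem h0.1)
    obtain ⟨n, hn⟩ := exists_nat_one_div_lt (sub_pos.2 h1)
    have h2 := hz n
    rw [hTeq] at h2
    have h3 : 1 - 1 / ((n : ℝ) + 5) < ‖φ z‖ := h2.2.1
    have h4 : 1 / ((n : ℝ) + 5) ≤ 1 / ((n : ℝ) + 1) := by
      apply one_div_le_one_div_of_le
      · positivity
      · linarith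
    linarith
  rw [hempty, measure_empty] at hlim
  obtain ⟨n, hn⟩ := (hlim.eventually (gt_mem_nhds hε)).exists
  refine ⟨1 / ((n : ℝ) + 5), by positivity, ?_, ?_⟩
  · apply one_div_lt_one_div_of_lt
    · norm_num
    · have : (0 : ℝ) ≤ n := Nat.cast_nonneg n
      linarith
  · have h1 : X.tailA (1 / ((n : ℝ) + 5)) = volume (T n) :=
      X.area_eq (hAo n).measurableSet (hAsub n)
    rw [h1]
    exact hn

theorem tail_mono {δ δ' : ℝ} (h : δ ≤ δ') : X.tailA δ ≤ X.tailA δ' := by
  unfold tailA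
  refine lintegral_mono_set ?_
  rintro w ⟨h1, h2⟩
  exact ⟨by linarith, h2⟩

end Siegel

end Pool.Agent.H.MP_e98f69_an
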