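import Pool.Agent.H.MP_e98f69_an.E.RadA

/-! Short radii. -/

set_option autoImplicit false

open Set Filter Topology Metric MeasureTheory

namespace Pool.Agent.H.MP_e98f69_an

namespace Siegel

variable {P Q : Polynomial ℂ} {S : Set ℂ} {θ : ℝ} {φ : ℂ → ℂ} (X : Siegel P Q S θ φ)

include X

/-- rotation invariance of the area integral -/
theorem radb_rot {ζ0 : ℂ} (hζ : ‖ζ0‖ = 1) (F : ℂ → ENNReal) : ∫⁻ w, F (ζ0 * w) = ∫⁻ w, F w := by
  have h1 : ∀ w : ℂ, ζ0 * w = rotation (⟨ζ0, by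
      rw [Submonoid.unitSphere, Submonoid.mem_mk, Subsemigroup.mem_mk]
      simpa using hζ⟩ : Circle) w := fun w => rfl
  simp only [h1]
  exact (LinearIsometryEquiv.measurePreserving (rotation _)).lintegral_comp_emb
    (rotation _).toHomeomorph.measurableEmbedding F

/-- the area integral over a sector is at most the area integral over the annulus -/
theorem radb_sector {ζ0 : ℂ} (hζ : ‖ζ0‖ = 1) {h : ℝ} (hh : 0 < h) (hh2 : h ≤ 1 / 2) :
    ∫⁻ t in Ioo (-h) h, ∫⁻ r in Ioo (1 - h) 1, ENNReal.ofReal r *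
      ENNReal.ofReal (‖deriv X.psi ((r : ℂ) * (Complex.exp (t * Complex.I) * ζ0))‖ ^ 2) ≤
      X.tailA h := by
  have hm : Measurable (fun w : ℂ => ENNReal.ofReal (‖deriv X.psi w‖ ^ 2)) :=
    ((measurable_deriv X.psi).norm.pow_const 2).ennreal_ofReal
  have hann : MeasurableSet {w : ℂ | 1 - h < ‖w‖ ∧ ‖w‖ < 1} :=
    (measurableSet_lt measurable_const measurable_norm).inter
      (measurableSet_lt measurable_norm measurable_const)
  unfold tailA
  rw [← lintegral_indicator hann, ← X.radb_rot hζ, ← Complex.lintegral_comp_polarCoord_symm]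
  have hsub : Ioo (1 - h) 1 ×ˢ Ioo (-h) h ⊆ Complex.polarCoord.target := by
    rw [Complex.polarCoord_target]
    rintro ⟨r, t⟩ ⟨h1, h2⟩
    refine ⟨?_, ?_, ?_⟩
    · show (0 : ℝ) < r
      have := h1.1
      simp only at this
      linarith
    · have := h2.1
      have := Real.pi_gt_three
      simp only at *
      linarith
    · have := h2.2
      have := Real.pi_gt_three
      simp only at *
      linarith
  refine le_trans (le_of_eq ?_) (lintegral_mono_set hsub)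
  have hmm : Measurable (fun p : ℝ × ℝ => ENNReal.ofReal p.1 *
      ENNReal.ofReal (‖deriv X.psi ((p.1 : ℂ) * (Complex.exp (p.2 * Complex.I) * ζ0))‖ ^ 2)) := by
    refine (measurable_fst.ennreal_ofReal).mul (hm.comp ?_)
    fun_prop
  have h1 : ∫⁻ p in Ioo (1 - h) 1 ×ˢ Ioo (-h) h, ENNReal.ofReal p.1 *
      ENNReal.ofReal (‖deriv X.psi ((p.1 : ℂ) * (Complex.exp (p.2 * Complex.I) * ζ0))‖ ^ 2) =
      ∫⁻ t in Ioo (-h) h, ∫⁻ r in Ioo (1 - h) 1, ENNReal.ofReal r *
      ENNReal.ofReal (‖deriv X.psi ((r : ℂ) * (Complex.exp (t * Complex.I) * ζ0))‖ ^ 2) := by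
    rw [Measure.volume_eq_prod, ← Measure.prod_restrict]
    exact lintegral_prod_symm _ hmm.aemeasurable
  rw [← h1]
  refine setLIntegral_congr_fun (measurableSet_Ioo.prod measurableSet_Ioo) ?_
  rintro ⟨r, t⟩ ⟨hr, ht⟩
  simp only at hr ht
  have hr0 : 0 < r := by linarith [hr.1]
  have h2 : Complex.polarCoord.symm (r, t) = (r : ℂ) * Complex.exp (t * Complex.I) := by
    rw [Complex.polarCoord_symm_apply, Complex.exp_mul_I, Complex.ofReal_cos, Complex.ofReal_sin]
  have h3 : ζ0 * ((r : ℂ) * Complex.exp (t * Complex.I)) =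
      (r : ℂ) * (Complex.exp (t * Complex.I) * ζ0) := by ring
  have h4 : ‖(r : ℂ) * (Complex.exp (t * Complex.I) * ζ0)‖ = r := by
    rw [norm_mul, norm_mul, hζ, mul_one, Complex.norm_exp_ofReal_mul_I, mul_one, Complex.norm_real,
      Real.norm_eq_abs, abs_of_pos hr0]
  show _ = ENNReal.ofReal r • _
  rw [h2, h3, indicator_of_mem (by
    show 1 - h < ‖_‖ ∧ ‖_‖ < 1
    rw [h4]
    exact ⟨hr.1, hr.2⟩)]
  rfl

/-- A short radius in every sector: for `‖ζ0‖ = 1`, `0 < h ≤ 1/2` there is an angle `t`, `|t| < h`, such that the image of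
the end `1 - h < r < 1` of the radius at `exp (i t) ζ0` has length at most `(tailA h)^(1/2)`.
Proof: polar coordinates (`Complex.lintegral_comp_polarCoord_symm`) for the function
`w ↦ ‖deriv psi (w ζ0)‖^2` (rotation by `ζ0` preserves the measure) on the set `1 - h < r < 1`, `|t| < h`:
`∫_{|t|<h} ∫_{1-h<r<1} r ‖psi' (r e^{it} ζ0)‖^2 ≤ tailA h`, `r ≥ 1/2`. So some `t` has
`∫_{1-h<r<1} ‖psi' (r e^{it} ζ0)‖^2 dr ≤ tailA h / h` (`exists_le_lintegral`-type argument on an interval of length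
`2 h`), and by Cauchy-Schwarz (`ENNReal.lintegral_mul_le_Lp_mul_Lq` with `p = q = 2`) the length is at most
`(h * tailA h / h)^(1/2)`. -/
theorem radial_short {ζ0 : ℂ} (hζ : ‖ζ0‖ = 1) {h : ℝ} (hh : 0 < h) (hh2 : h ≤ 1 / 2) :
    ∃ t : ℝ, |t| < h ∧
      ∫⁻ r in Ioo (1 - h) 1, ENNReal.ofReal ‖deriv X.psi ((r : ℂ) * (Complex.exp (t * Complex.I) * ζ0))‖ ≤
        (X.tailA h) ^ (1 / 2 : ℝ) := by
  have hm : Measurable (fun w : ℂ => ENNReal.ofReal (‖deriv X.psi w‖ ^ 2)) :=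
    ((measurable_deriv X.psi).norm.pow_const 2).ennreal_ofReal
  have hm1 : Measurable (fun w : ℂ => ENNReal.ofReal ‖deriv X.psi w‖) :=
    (measurable_deriv X.psi).norm.ennreal_ofReal
  have hmm : Measurable (fun p : ℝ × ℝ =>
      ENNReal.ofReal (‖deriv X.psi ((p.2 : ℂ) * (Complex.exp (p.1 * Complex.I) * ζ0))‖ ^ 2)) := by
    refine hm.comp ?_
    fun_prop
  have hL : Measurable (fun t : ℝ => ∫⁻ r in Ioo (1 - h) 1,
      ENNReal.ofReal (‖deriv X.psi ((r : ℂ) * (Complex.exp (t * Complex.I) * ζ0))‖ ^ 2)) :=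
    hmm.lintegral_prod_right'
  have hvol : volume (Ioo (-h) h) = ENNReal.ofReal (2 * h) := by
    rw [Real.volume_Ioo]
    congr 1
    ring
  have h2h : 0 < 2 * h := by linarith
  obtain ⟨t, ht, hle⟩ := exists_le_setLAverage (μ := volume) (s := Ioo (-h) h)
    (by rw [hvol]; exact (ENNReal.ofReal_pos.2 h2h).ne')
    (by rw [hvol]; exact ENNReal.ofReal_ne_top) hL.aemeasurable
  refine ⟨t, abs_lt.2 ht, ?_⟩
  have hsec := X.radb_sector hζ hh hh2
  have h1 : ENNReal.ofReal (1 / 2) * ∫⁻ t in Ioo (-h) h, ∫⁻ r in Ioo (1 - h) 1,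
      ENNReal.ofReal (‖deriv X.psi ((r : ℂ) * (Complex.exp (t * Complex.I) * ζ0))‖ ^ 2) ≤
      X.tailA h := by
    refine le_trans ?_ hsec
    rw [← lintegral_const_mul _ hL]
    refine lintegral_mono fun s => ?_
    show ENNReal.ofReal (1 / 2) * ∫⁻ r in Ioo (1 - h) 1,
      ENNReal.ofReal (‖deriv X.psi ((r : ℂ) * (Complex.exp (s * Complex.I) * ζ0))‖ ^ 2) ≤ _
    have hms : Measurable (fun r : ℝ =>
        ENNReal.ofReal (‖deriv X.psi ((r : ℂ) * (Complex.exp (s * Complex.I) * ζ0))‖ ^ 2)) := by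
      refine hm.comp ?_
      fun_prop
    rw [← lintegral_const_mul _ hms]
    refine setLIntegral_mono' measurableSet_Ioo fun r hr => ?_
    show ENNReal.ofReal (1 / 2) * ENNReal.ofReal (‖deriv X.psi ((r : ℂ) *
      (Complex.exp (s * Complex.I) * ζ0))‖ ^ 2) ≤ _
    gcongr
    linarith [hr.1]
  have h2 : ENNReal.ofReal h * ∫⁻ r in Ioo (1 - h) 1,
      ENNReal.ofReal (‖deriv X.psi ((r : ℂ) * (Complex.exp (t * Complex.I) * ζ0))‖ ^ 2) ≤
      X.tailA h := by
    refine le_trans ?_ h1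
    rw [setLAverage_eq, hvol] at hle
    calc ENNReal.ofReal h * ∫⁻ r in Ioo (1 - h) 1,
          ENNReal.ofReal (‖deriv X.psi ((r : ℂ) * (Complex.exp (t * Complex.I) * ζ0))‖ ^ 2)
        ≤ ENNReal.ofReal h * ((∫⁻ t in Ioo (-h) h, ∫⁻ r in Ioo (1 - h) 1,
          ENNReal.ofReal (‖deriv X.psi ((r : ℂ) * (Complex.exp (t * Complex.I) * ζ0))‖ ^ 2)) /
          ENNReal.ofReal (2 * h)) := by gcongr
      _ = _ := by
        rw [ENNReal.div_eq_inv_mul, ← mul_assoc, ← ENNReal.ofReal_inv_of_pos h2h,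
          ← ENNReal.ofReal_mul hh.le]
        congr 2
        field_simp
  have h3 := ENNReal.lintegral_mul_le_Lp_mul_Lq (volume.restrict (Ioo (1 - h) 1))
    Real.HolderConjugate.two_two (f := fun _ : ℝ => (1 : ENNReal))
    (g := fun r : ℝ => ENNReal.ofReal
      ‖deriv X.psi ((r : ℂ) * (Complex.exp (t * Complex.I) * ζ0))‖)
    aemeasurable_const (hm1.comp (by fun_prop)).aemeasurable
  simp only [Pi.mul_apply, one_mul, lintegral_const, Measure.restrict_apply_univ,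
    Real.volume_Ioo, ENNReal.rpow_two, ← ENNReal.ofReal_pow (norm_nonneg _), one_pow] at h3
  refine h3.trans ?_
  rw [← ENNReal.mul_rpow_of_nonneg _ _ (by norm_num : (0 : ℝ) ≤ 1 / 2)]
  have h4 : (1 : ℝ) - (1 - h) = h := by ring
  rw [h4]
  exact ENNReal.rpow_le_rpow h2 (by norm_num)

end Siegel

end Pool.Agent.H.MP_e98f69_an
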