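import Pool.Agent.H.MP_e98f69_an.E.VSepC

/-! Maximal separated sets are dynamical covers. -/

set_option autoImplicit false

open Set Filter Topology Metric MeasureTheory

namespace Pool.Agent.H.MP_e98f69_an

variable {f : ℂ → ℂ} {K O : Set ℂ} {D : ℕ}

/-- If separated sets are bounded in size, a maximal one is a dynamical cover. -/
theorem exists_max_sep {n : ℕ} {s : ℝ} (hs : 0 < s) (hn : 1 ≤ n) {B : ℕ}
    (hB : ∀ E : Finset ℂ, (E : Set ℂ) ⊆ K → IsSep f n s E → E.card ≤ B) :
    ∃ E : Finset ℂ, (E : Set ℂ) ⊆ K ∧ E.card ≤ B ∧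
      Dynamics.IsDynCoverOf f K {p : ℂ × ℂ | dist p.1 p.2 < s} n E := by
  classical
  have _ := hn
  obtain ⟨E, ⟨hEK, hEs⟩, hmin⟩ := (measure fun E : Finset ℂ => B - E.card).wf.has_min
    {E : Finset ℂ | (E : Set ℂ) ⊆ K ∧ IsSep f n s E}
    ⟨∅, by
      rw [Finset.coe_empty]
      exact empty_subset K, fun x hx => absurd hx (Finset.notMem_empty x)⟩
  refine ⟨E, hEK, hB E hEK hEs, ?_⟩
  intro x hx
  by_contra hcon
  push Not at hcon
  have hfar : ∀ y ∈ E, ∃ k < n, s ≤ dist (f^[k] x) (f^[k] y) := by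
    intro y hy
    by_contra h1
    push Not at h1
    exact hcon y (Finset.mem_coe.2 hy) (Dynamics.mem_dynEntourage.2 fun k hk => h1 k hk)
  have hxE : x ∉ E := by
    intro h1
    obtain ⟨k, hk, h2⟩ := hfar x h1
    rw [dist_self] at h2
    linarith
  have hsub : ((insert x E : Finset ℂ) : Set ℂ) ⊆ K := by
    rw [Finset.coe_insert]
    exact insert_subset hx hEK
  have hsep : IsSep f n s (insert x E) := by
    intro a ha b hb hab
    rcases Finset.mem_insert.1 ha with rfl | ha'
    · rcases Finset.mem_insert.1 hb with rfl | hb'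
      · exact absurd rfl hab
      · exact hfar b hb'
    · rcases Finset.mem_insert.1 hb with rfl | hb'
      · obtain ⟨k, hk, h1⟩ := hfar a ha'
        exact ⟨k, hk, by rwa [dist_comm]⟩
      · exact hEs a ha' b hb' hab
  have hcard : (insert x E).card = E.card + 1 := Finset.card_insert_of_notMem hxE
  have h3 := hB _ hsub hsep
  refine hmin (insert x E) ⟨hsub, hsep⟩ ?_
  show B - (insert x E).card < B - E.card
  omega

end Pool.Agent.H.MP_e98f69_an
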