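import Pool.Agent.H.MP_e98f69_an.E.VSep
import Pool.Agent.H.MP_e98f69_an.E.VEntA

/-! The covering entropy at a small scale. -/

set_option autoImplicit false

open Set Filter Topology Metric MeasureTheory

namespace Pool.Agent.H.MP_e98f69_an

variable {f : ℂ → ℂ} {K O : Set ℂ} {D : ℕ}

/-- choice of the time `n` -/
lemma ventc_time {A ε : ℝ} (hA : 0 < A) (hε : 0 < ε) : ∃ n : ℕ, 1 ≤ n ∧ (n : ℝ) * A ≤ Real.exp (ε * n) := by
  obtain ⟨n, hn⟩ := exists_nat_gt (2 * A / ε ^ 2)
  have hpos : 0 < 2 * A / ε ^ 2 := by positivity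
  have hn0 : (0 : ℝ) < n := hpos.trans hn
  refine ⟨n, by exact_mod_cast hn0, ?_⟩
  rw [div_lt_iff₀ (by positivity)] at hn
  have h1 := Real.quadratic_le_exp_of_nonneg (x := ε * n) (by positivity)
  have h2 : (n : ℝ) * A ≤ (ε * n) ^ 2 / 2 := by nlinarith
  have h3 : 0 ≤ ε * n := by positivity
  linarith

/-- The covering entropy at a small scale. -/
theorem ent_small (V : VData f K O D) {r0 r : ℝ} (h0 : cthickening r0 K ⊆ O) (hr : 0 < r)
    (hrr : r < r0) {ε : ℝ} (hε : 0 < ε) {C : ℕ} (hC : ∀ k p, ∃ N : ℕ, (AA f K r k p).encard ≤ N ∧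
      (N : ℝ) ≤ C * Real.exp (2 * ε * k)) {s : ℝ} (hs : 4 * r ≤ s) :
    Dynamics.coverEntropyEntourage f K {p : ℂ × ℂ | dist p.1 p.2 < s} ≤ ((3 * ε : ℝ) : EReal) := by
  set v : ℝ := (volume (cthickening r K)).toReal with hv
  have hv0 : 0 ≤ v := ENNReal.toReal_nonneg
  set A : ℝ := C * v * (72 / (Real.pi * r ^ 2)) + 1 with hA
  have hA0 : 0 < A := by positivity
  obtain ⟨n, hn1, hn2⟩ := ventc_time hA0 hε
  have hn0 : (0 : ℝ) < n := by exact_mod_cast (Nat.lt_of_lt_of_le one_pos hn1)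
  -- bound for separated sets
  have hbound : ∀ E : Finset ℂ, (E : Set ℂ) ⊆ K → IsSep f n (2 * r) E →
      (E.card : ℝ) ≤ n * A * Real.exp (2 * ε * n) := by
    intro E hE hsep
    have h1 := sep_bound V h0 hr hrr hn1 hE hsep (N := ⌊C * Real.exp (2 * ε * n)⌋₊) (by
      intro k hk p
      obtain ⟨N, hN1, hN2⟩ := hC k p
      refine hN1.trans ?_
      have h3 : (N : ℝ) ≤ C * Real.exp (2 * ε * n) := by
        refine hN2.trans ?_
        have h4 : (k : ℝ) ≤ n := by exact_mod_cast hk.le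
        gcongr
      exact_mod_cast Nat.le_floor h3)
    have h2 : ((⌊C * Real.exp (2 * ε * n)⌋₊ : ℕ) : ℝ) ≤ C * Real.exp (2 * ε * n) :=
      Nat.floor_le (by positivity)
    have h3 : (E.card : ℝ) ≤ n * (C * Real.exp (2 * ε * n)) * v * (72 / (Real.pi * r ^ 2)) := by
      have h4 : (E.card : ℝ) * (Real.pi * r ^ 2 / 72) ≤ n * (C * Real.exp (2 * ε * n)) * v := by
        refine h1.trans ?_
        gcongr
      have h5 : (0 : ℝ) < Real.pi * r ^ 2 / 72 := by positivity
      have h6 : (E.card : ℝ) = (E.card : ℝ) * (Real.pi * r ^ 2 / 72) * (72 / (Real.pi * r ^ 2)) := by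
        field_simp
      rw [h6]
      gcongr
    refine h3.trans ?_
    have h7 : n * (C * Real.exp (2 * ε * n)) * v * (72 / (Real.pi * r ^ 2)) =
        n * (C * v * (72 / (Real.pi * r ^ 2))) * Real.exp (2 * ε * n) := by ring
    rw [h7]
    have h8 : C * v * (72 / (Real.pi * r ^ 2)) ≤ A := by rw [hA]; linarith
    gcongr
  obtain ⟨E, hEK, hEc, hcov⟩ := exists_max_sep (f := f) (K := K) (n := n) (s := 2 * r) (by positivity) hn1
    (B := ⌊n * A * Real.exp (2 * ε * n)⌋₊) (fun E hE hsep => Nat.le_floor (hbound E hE hsep))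
  have hcard : (E.card : ℝ) ≤ n * A * Real.exp (2 * ε * n) :=
    (Nat.le_floor_iff (by positivity)).1 hEc
  have hEne : E.Nonempty := by
    obtain ⟨x, hx⟩ := V.ne
    obtain ⟨w, hw, -⟩ := hcov hx
    exact ⟨w, hw⟩
  have hsymm : SetRel.IsSymm {p : ℂ × ℂ | dist p.1 p.2 < 2 * r} := ⟨fun x y h => by
    show dist y x < 2 * r
    rw [dist_comm]
    exact h⟩
  have h1 := hcov.coverEntropyEntourage_le_log_card_div V.inv (by omega)
  have hVV : SetRel.comp {p : ℂ × ℂ | dist p.1 p.2 < 2 * r} {p : ℂ × ℂ | dist p.1 p.2 < 2 * r} ⊆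
      {p : ℂ × ℂ | dist p.1 p.2 < s} := by
    rintro ⟨a, b⟩ ⟨c, h2, h3⟩
    have h2' : dist a c < 2 * r := h2
    have h3' : dist c b < 2 * r := h3
    show dist a b < s
    calc dist a b ≤ dist a c + dist c b := dist_triangle _ _ _
      _ < s := by linarith
  refine (Dynamics.coverEntropyEntourage_antitone f K hVV).trans (h1.trans ?_)
  have hcard0 : (0 : ℝ) < E.card := by exact_mod_cast hEne.card_pos
  have hlog : ENNReal.log (E.card : ENNReal) = ((Real.log E.card : ℝ) : EReal) := by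
    have : 0 < ((E.card : ENNReal)).toReal := by simpa using hEne.card_pos
    rw [ENNReal.log_pos_real' this]
    simp
  rw [hlog]
  have h2 : Real.log E.card ≤ 3 * ε * n := by
    have h3 : (E.card : ℝ) ≤ Real.exp (3 * ε * n) := by
      refine hcard.trans ?_
      have h4 : Real.exp (3 * ε * n) = Real.exp (ε * n) * Real.exp (2 * ε * n) := by
        rw [← Real.exp_add]
        ring_nf
      rw [h4]
      gcongr
    have h5 := Real.log_le_log hcard0 h3
    rwa [Real.log_exp] at h5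
  have h3 : Real.log E.card / n ≤ 3 * ε := by
    rw [div_le_iff₀ hn0]
    exact h2
  have h4 : (((Real.log E.card : ℝ) : EReal) / ((n : ℕ) : EReal)) =
      ((Real.log E.card / n : ℝ) : EReal) := by
    rw [EReal.coe_div]
    rfl
  rw [h4]
  exact_mod_cast h3

end Pool.Agent.H.MP_e98f69_an
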