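import Pool.Agent.H.MP_e98f69_an.E.RateB
import Pool.Agent.H.MP_e98f69_an.E.VEntC

/-! The covering entropy at a small scale. -/

set_option autoImplicit false

open Set Filter Topology Metric MeasureTheory

namespace Pool.Agent.H.MP_e98f69_an

variable {f : ℂ → ℂ} {K O : Set ℂ} {D : ℕ}

/-- The covering entropy at a small scale. -/
theorem ent_small_rate {a : ℝ} (ha : 0 ≤ a) (V : VData f K O D) {r0 r : ℝ} (h0 : cthickening r0 K ⊆ O) (hr : 0 < r)
    (hrr : r < r0) {ε : ℝ} (hε : 0 < ε) {C : ℕ} (hC : ∀ k p, ∃ N : ℕ, (AA f K r k p).encard ≤ N ∧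
      (N : ℝ) ≤ C * Real.exp ((a + 2 * ε) * k)) {s : ℝ} (hs : 4 * r ≤ s) :
    Dynamics.coverEntropyEntourage f K {p : ℂ × ℂ | dist p.1 p.2 < s} ≤ ((a + 3 * ε : ℝ) : EReal) := by
  set v : ℝ := (volume (cthickening r K)).toReal with hv
  have hv0 : 0 ≤ v := ENNReal.toReal_nonneg
  set A : ℝ := C * v * (72 / (Real.pi * r ^ 2)) + 1 with hA
  have hA0 : 0 < A := by positivity
  obtain ⟨n, hn1, hn2⟩ := ventc_time hA0 hε
  have hn0 : (0 : ℝ) < n := by exact_mod_cast (Nat.lt_of_lt_of_le one_pos hn1)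
  -- bound for separated sets
  have hbound : ∀ E : Finset ℂ, (E : Set ℂ) ⊆ K → IsSep f n (2 * r) E →
      (E.card : ℝ) ≤ n * A * Real.exp ((a + 2 * ε) * n) := by
    intro E hE hsep
    have h1 := sep_bound V h0 hr hrr hn1 hE hsep (N := ⌊C * Real.exp ((a + 2 * ε) * n)⌋₊) (by
      intro k hk p
      obtain ⟨N, hN1, hN2⟩ := hC k p
      refine hN1.trans ?_
      have h3 : (N : ℝ) ≤ C * Real.exp ((a + 2 * ε) * n) := by
        refine hN2.trans ?_
        have h4 : (k : ℝ) ≤ n := by exact_mod_cast hk.le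
        gcongr
      exact_mod_cast Nat.le_floor h3)
    have h2 : ((⌊C * Real.exp ((a + 2 * ε) * n)⌋₊ : ℕ) : ℝ) ≤ C * Real.exp ((a + 2 * ε) * n) :=
      Nat.floor_le (by positivity)
    have h3 : (E.card : ℝ) ≤ n * (C * Real.exp ((a + 2 * ε) * n)) * v * (72 / (Real.pi * r ^ 2)) := by
      have h4 : (E.card : ℝ) * (Real.pi * r ^ 2 / 72) ≤ n * (C * Real.exp ((a + 2 * ε) * n)) * v := by
        refine h1.trans ?_
        gcongr
      have h5 : (0 : ℝ) < Real.pi * r ^ 2 / 72 := by positivity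
      have h6 : (E.card : ℝ) = (E.card : ℝ) * (Real.pi * r ^ 2 / 72) * (72 / (Real.pi * r ^ 2)) := by
        field_simp
      rw [h6]
      gcongr
    refine h3.trans ?_
    have h7 : n * (C * Real.exp ((a + 2 * ε) * n)) * v * (72 / (Real.pi * r ^ 2)) =
        n * (C * v * (72 / (Real.pi * r ^ 2))) * Real.exp ((a + 2 * ε) * n) := by ring
    rw [h7]
    have h8 : C * v * (72 / (Real.pi * r ^ 2)) ≤ A := by rw [hA]; linarith
    gcongr
  obtain ⟨E, hEK, hEc, hcov⟩ := exists_max_sep (f := f) (K := K) (n := n) (s := 2 * r) (by positivity) hn1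
    (B := ⌊n * A * Real.exp ((a + 2 * ε) * n)⌋₊) (fun E hE hsep => Nat.le_floor (hbound E hE hsep))
  have hcard : (E.card : ℝ) ≤ n * A * Real.exp ((a + 2 * ε) * n) :=
    (Nat.le_floor_iff (by positivity)).1 hEc
  have hEne : E.Nonempty := by
    obtain ⟨x, hx⟩ := V.ne
    obtain ⟨w, hw, -⟩ := hcov hx
    exact ⟨w, hw⟩
  have hsymm : SetRel.IsSymm {p : ℂ × ℂ | dist p.1 p.2 < 2 * r} := ⟨fun x y h => by
    show dist y x < 2 * r
    rw [dist_comm]
    exact h⟩
  have h1 := hcov.coverEntropyEntourage_le_log_card_div V.inv (by omega)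
  have hVV : SetRel.comp {p : ℂ × ℂ | dist p.1 p.2 < 2 * r} {p : ℂ × ℂ | dist p.1 p.2 < 2 * r} ⊆
      {p : ℂ × ℂ | dist p.1 p.2 < s} := by
    rintro ⟨a, b⟩ ⟨c, h2, h3⟩
    have h2' : dist a c < 2 * r := h2
    have h3' : dist c b < 2 * r := h3
    show dist a b < s
    calc dist a b ≤ dist a c + dist c b := dist_triangle _ _ _
      _ < s := by linarith
  refine (Dynamics.coverEntropyEntourage_antitone f K hVV).trans (h1.trans ?_)
  have hcard0 : (0 : ℝ) < E.card := by exact_mod_cast hEne.card_pos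
  have hlog : ENNReal.log (E.card : ENNReal) = ((Real.log E.card : ℝ) : EReal) := by
    have : 0 < ((E.card : ENNReal)).toReal := by simpa using hEne.card_pos
    rw [ENNReal.log_pos_real' this]
    simp
  rw [hlog]
  have h2 : Real.log E.card ≤ (a + 3 * ε) * n := by
    have h3 : (E.card : ℝ) ≤ Real.exp ((a + 3 * ε) * n) := by
      refine hcard.trans ?_
      have h4 : Real.exp ((a + 3 * ε) * n) = Real.exp (ε * n) * Real.exp ((a + 2 * ε) * n) := by
        rw [← Real.exp_add]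
        ring_nf
      rw [h4]
      gcongr
    have h5 := Real.log_le_log hcard0 h3
    rwa [Real.log_exp] at h5
  have h3 : Real.log E.card / n ≤ a + 3 * ε := by
    rw [div_le_iff₀ hn0]
    exact h2
  have h4 : (((Real.log E.card : ℝ) : EReal) / ((n : ℕ) : EReal)) =
      ((Real.log E.card / n : ℝ) : EReal) := by
    rw [EReal.coe_div]
    rfl
  rw [h4]
  exact_mod_cast h3

/-- **Entropy and growth of the number of preimages.** -/
theorem ent_rate {a : ℝ} (ha : 0 ≤ a) (V : VData f K O D) (h : ∀ ε > 0, ∃ B : ℝ, ∀ m : ℕ, ∀ y ∈ K,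
      (VV f K m y).Finite ∧ ((VV f K m y).ncard : ℝ) ≤ B * Real.exp ((a + ε) * m)) :
    Dynamics.coverEntropy f K ≤ ((a : ℝ) : EReal) := by
  obtain ⟨r0, hr0, h0⟩ := V.cpt.exists_cthickening_subset_open V.op V.sub
  rw [Dynamics.coverEntropy_eq_iSup_basis Metric.uniformity_basis_dist]
  refine iSup₂_le fun s hs => ?_
  have key : ∀ ε : ℝ, 0 < ε →
      Dynamics.coverEntropyEntourage f K {p : ℂ × ℂ | dist p.1 p.2 < s} ≤ ((a + 3 * ε : ℝ) : EReal) := by
    intro ε hε
    obtain ⟨ρ, hρ, C, hC⟩ := exp_bound_rate ha V h hε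
    set r : ℝ := min (min (s / 4) ρ) (r0 / 2) with hr
    have hs' : (0 : ℝ) < s := hs
    have hrpos : 0 < r := lt_min (lt_min (by positivity) hρ) (by positivity)
    have h1 : 4 * r ≤ s := by
      have : r ≤ s / 4 := (min_le_left _ _).trans (min_le_left _ _)
      linarith
    have h2 : r ≤ ρ := (min_le_left _ _).trans (min_le_right _ _)
    have h3 : r < r0 := by
      have : r ≤ r0 / 2 := min_le_right _ _
      linarith
    exact ent_small_rate ha V h0 hrpos h3 hε (fun k p => hC r h2 k p) h1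
  by_contra hcon
  rw [not_le] at hcon
  obtain ⟨t, ht0, ht1⟩ := EReal.lt_iff_exists_real_btwn.1 hcon
  have ht : a < t := by exact_mod_cast ht0
  have h4 := key ((t - a) / 3) (by linarith)
  have h5 : (a + 3 * ((t - a) / 3) : ℝ) = t := by ring
  rw [h5] at h4
  exact absurd (ht1.trans_le h4) (lt_irrefl _)

end Pool.Agent.H.MP_e98f69_an
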