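import Pool.Agent.H.MP_e98f69_an.E.RateD

/-! The number of preimages in an invariant compact set grows at most at the rate of the entropy. -/

set_option autoImplicit false

open Set Filter Topology Metric Uniformity

namespace Pool.Agent.H.MP_e98f69_an

variable {f : ℂ → ℂ} {K O : Set ℂ} {D : ℕ}

/-- dynamical covers with few elements -/
theorem re_cover (V : VData f K O D) {a : ℝ} (ha : Dynamics.coverEntropy f K ≤ ((a : ℝ) : EReal))
    {ε : ℝ} (hε : 0 < ε) {s : ℝ} (hs : 0 < s) : ∃ m0 : ℕ, ∀ m ≥ m0, ∃ F : Finset ℂ,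
      Dynamics.IsDynCoverOf f K {p : ℂ × ℂ | dist p.1 p.2 < s} m F ∧
      (F.card : ℝ) ≤ Real.exp ((a + ε) * m) := by
  have hU : {p : ℂ × ℂ | dist p.1 p.2 < s} ∈ 𝓤 ℂ := Metric.dist_mem_uniformity hs
  have h1 : Dynamics.coverEntropyEntourage f K {p : ℂ × ℂ | dist p.1 p.2 < s} <
      ((a + ε : ℝ) : EReal) := by
    refine lt_of_le_of_lt ((Dynamics.coverEntropyEntourage_le_coverEntropy f K hU).trans ha) ?_
    exact_mod_cast (by linarith : a < a + ε)
  unfold Dynamics.coverEntropyEntourage at h1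
  have h2 := ExpGrowth.eventually_le_exp h1
  obtain ⟨m0, hm0⟩ := eventually_atTop.1 h2
  refine ⟨m0, fun m hm => ?_⟩
  have h3 := hm0 m hm
  have h4 : ((a + ε : ℝ) : EReal) * (m : EReal) = (((a + ε) * m : ℝ) : EReal) := by
    rw [EReal.coe_mul, EReal.coe_natCast]
  rw [h4, EReal.exp_coe] at h3
  have h5 : Dynamics.coverMincard f K {p : ℂ × ℂ | dist p.1 p.2 < s} m < ⊤ :=
    Dynamics.coverMincard_finite_of_isCompact_invariant V.cpt V.inv hU m
  obtain ⟨F, hF1, hF2⟩ := (Dynamics.coverMincard_finite_iff f K _ m).1 h5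
  refine ⟨F, hF1, ?_⟩
  rw [← hF2] at h3
  have h6 : ((F.card : ℕ) : ENNReal) ≤ ENNReal.ofReal (Real.exp ((a + ε) * m)) := by
    simpa using h3
  have h7 := ENNReal.toReal_mono ENNReal.ofReal_ne_top h6
  rwa [ENNReal.toReal_natCast, ENNReal.toReal_ofReal (Real.exp_pos _).le] at h7

theorem VV_encard_le (V : VData f K O D) (m : ℕ) (y : ℂ) : (VV f K m y).encard ≤ ((D ^ m : ℕ) : ℕ∞) := by
  obtain ⟨r0, hr0, h0⟩ := V.cpt.exists_cthickening_subset_open V.op V.sub
  refine (encard_le_encard ?_).trans (AA_le V h0 m y)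
  rintro z ⟨hz, hzm⟩
  exact ⟨hzm, fun j _ => self_subset_cthickening K (V.inv.iterate j hz)⟩

/-- the elementary estimate for the branching factor -/
theorem re_exp {D c T m : ℕ} (hD : 1 ≤ D) {ε : ℝ} (hT : (c : ℝ) * Real.log D ≤ ε * (T + 1)) :
    ((D ^ (c * (m / (T + 1) + 1)) : ℕ) : ℝ) ≤ (D : ℝ) ^ c * Real.exp (ε * m) := by
  have hD0 : (0 : ℝ) < D := by exact_mod_cast hD
  have hL : 0 ≤ Real.log D := Real.log_nonneg (by exact_mod_cast hD)
  have h1 : ((m / (T + 1) : ℕ) : ℝ) * (T + 1) ≤ m := by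
    have := Nat.div_mul_le_self m (T + 1)
    exact_mod_cast this
  have h2 : ((D ^ (c * (m / (T + 1) + 1)) : ℕ) : ℝ) = (D : ℝ) ^ c * (D : ℝ) ^ (c * (m / (T + 1))) := by
    push_cast
    rw [← pow_add]
    congr 1
    ring
  rw [h2]
  refine mul_le_mul_of_nonneg_left ?_ (by positivity)
  rw [← Real.log_le_iff_le_exp (by positivity), Real.log_pow]
  push_cast
  have h3 : (0 : ℝ) ≤ ((m / (T + 1) : ℕ) : ℝ) := Nat.cast_nonneg _
  have hcL : 0 ≤ (c : ℝ) * Real.log D := by positivity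
  have hε : 0 ≤ ε := by
    by_contra hcon
    push Not at hcon
    have : ε * ((T : ℝ) + 1) < 0 := mul_neg_of_neg_of_pos hcon (by positivity)
    linarith
  have h4 : ((m / (T + 1) : ℕ) : ℝ) * ((c : ℝ) * Real.log D) ≤
      ((m / (T + 1) : ℕ) : ℝ) * (ε * (T + 1)) := mul_le_mul_of_nonneg_left hT h3
  have h5 : ε * (((m / (T + 1) : ℕ) : ℝ) * (T + 1)) ≤ ε * m := mul_le_mul_of_nonneg_left h1 hε
  push_cast at h3 h4 h5 ⊢
  nlinarith

/-- **The number of preimages grows at most at the rate of the entropy.** -/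
theorem count_le_ent (V : VData f K O D) {a : ℝ} (ha0 : 0 ≤ a)
    (ha : Dynamics.coverEntropy f K ≤ ((a : ℝ) : EReal)) {ε : ℝ} (hε : 0 < ε) :
    ∃ B : ℝ, ∀ m : ℕ, ∀ y ∈ K,
      (VV f K m y).Finite ∧ ((VV f K m y).ncard : ℝ) ≤ B * Real.exp ((a + ε) * m) := by
  have hD := V.one_le
  set c : ℕ := (CK f K).ncard with hc
  obtain ⟨T, hT⟩ := exists_nat_gt ((c : ℝ) * Real.log D / (ε / 2))
  rw [div_lt_iff₀ (by positivity)] at hT
  have hT' : (c : ℝ) * Real.log D ≤ ε / 2 * (T + 1) := by nlinarith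
  obtain ⟨η, hη, hret⟩ := rd_return V T
  obtain ⟨δ, hδ, hinj⟩ := rd_inj V (half_pos hη)
  set δ' : ℝ := min (δ / 2) (η / 2) with hδ'
  have hδ'0 : 0 < δ' := lt_min (by positivity) (by positivity)
  have h1 : 2 * δ' ≤ δ := by
    have := min_le_left (δ / 2) (η / 2)
    linarith
  have h2 : 2 * δ' ≤ η := by
    have := min_le_right (δ / 2) (η / 2)
    linarith
  obtain ⟨m0, hm0⟩ := re_cover V ha (half_pos hε) (half_pos hδ'0)
  have hfin : ∀ m : ℕ, ∀ y, (VV f K m y).Finite := fun m y =>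
    Set.finite_of_encard_le_coe (VV_encard_le V m y)
  have hDpow : ∀ n : ℕ, (0 : ℝ) < (D : ℝ) ^ n := fun n => by
    have : (0 : ℝ) < D := by exact_mod_cast hD
    positivity
  refine ⟨(D : ℝ) ^ m0 + (D : ℝ) ^ c, fun m y hy => ⟨hfin m y, ?_⟩⟩
  rcases lt_or_ge m m0 with hm | hm
  · have h3 : (VV f K m y).ncard ≤ D ^ m := by
      have := VV_encard_le V m y
      rw [← (hfin m y).cast_ncard_eq] at this
      exact_mod_cast this
    have h4 : D ^ m ≤ D ^ m0 := Nat.pow_le_pow_right hD hm.le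
    have h5 : ((VV f K m y).ncard : ℝ) ≤ (D : ℝ) ^ m0 := by exact_mod_cast h3.trans h4
    have h6 : (1 : ℝ) ≤ Real.exp ((a + ε) * m) := Real.one_le_exp (by positivity)
    have h7 := hDpow m0
    have h8 := hDpow c
    nlinarith
  · obtain ⟨F, hF1, hF2⟩ := hm0 m hm
    have hG : ∀ w ∈ (F : Set ℂ), ({z | z ∈ VV f K m y ∧ ∀ j < m, dist (f^[j] z) (f^[j] w) < δ' / 2}).encard ≤
        ((D ^ (c * (m / (T + 1) + 1)) : ℕ) : ℕ∞) := by
      intro w _
      set G : Set ℂ := {z | z ∈ VV f K m y ∧ ∀ j < m, dist (f^[j] z) (f^[j] w) < δ' / 2} with hGdef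
      have hGfin : G.Finite := (hfin m y).subset fun z hz => hz.1
      rcases G.eq_empty_or_nonempty with h0 | ⟨x0, hx0⟩
      · rw [h0, encard_empty]
        exact bot_le
      · have h3 := rd_branch V hinj h1 h2 m (x := x0) (y := y) hGfin (by
          intro z hz
          refine ⟨hz.1.1, hz.1.2, fun j hj => ?_⟩
          have h4 := hz.2 j hj
          have h5 := hx0.2 j hj
          calc dist (f^[j] z) (f^[j] x0) ≤ dist (f^[j] z) (f^[j] w) + dist (f^[j] w) (f^[j] x0) :=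
                dist_triangle _ _ _
            _ < δ' := by rw [dist_comm (f^[j] w)]; linarith)
        have h4 : vis f K η m x0 ≤ c * (m / (T + 1) + 1) := rd_visits V hret m x0
        have h5 : G.ncard ≤ D ^ (c * (m / (T + 1) + 1)) := h3.trans (Nat.pow_le_pow_right hD h4)
        rw [← hGfin.cast_ncard_eq]
        exact_mod_cast h5
    have hsub : VV f K m y ⊆ ⋃ w ∈ (F : Set ℂ),
        {z | z ∈ VV f K m y ∧ ∀ j < m, dist (f^[j] z) (f^[j] w) < δ' / 2} := by
      intro z hz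
      obtain ⟨w, hw, hzw⟩ := hF1 hz.1
      have hzw' : (z, w) ∈ Dynamics.dynEntourage f {p : ℂ × ℂ | dist p.1 p.2 < δ' / 2} m := hzw
      rw [Dynamics.mem_dynEntourage] at hzw'
      simp only [mem_iUnion]
      exact ⟨w, hw, hz, fun j hj => hzw' j hj⟩
    have h3 : (VV f K m y).encard ≤ ((F.card * D ^ (c * (m / (T + 1) + 1)) : ℕ) : ℕ∞) :=
      (encard_le_encard hsub).trans (encard_biUnion_le (by rw [encard_coe_eq_coe_finsetCard]) hG)
    rw [← (hfin m y).cast_ncard_eq] at h3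
    have h4 : (VV f K m y).ncard ≤ F.card * D ^ (c * (m / (T + 1) + 1)) := by exact_mod_cast h3
    have h5 : ((VV f K m y).ncard : ℝ) ≤ F.card * ((D ^ (c * (m / (T + 1) + 1)) : ℕ) : ℝ) := by
      exact_mod_cast h4
    have h6 := re_exp (m := m) hD hT'
    have h7 : Real.exp ((a + ε) * m) = Real.exp ((a + ε / 2) * m) * Real.exp (ε / 2 * m) := by
      rw [← Real.exp_add]
      congr 1
      ring
    have h8 := hDpow m0
    have h9 := hDpow c
    calc ((VV f K m y).ncard : ℝ) ≤ F.card * ((D ^ (c * (m / (T + 1) + 1)) : ℕ) : ℝ) := h5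
      _ ≤ Real.exp ((a + ε / 2) * m) * ((D : ℝ) ^ c * Real.exp (ε / 2 * m)) := by
          refine mul_le_mul hF2 h6 (Nat.cast_nonneg _) (Real.exp_pos _).le
      _ = (D : ℝ) ^ c * Real.exp ((a + ε) * m) := by rw [h7]; ring
      _ ≤ ((D : ℝ) ^ m0 + (D : ℝ) ^ c) * Real.exp ((a + ε) * m) := by
          refine mul_le_mul_of_nonneg_right ?_ (Real.exp_pos _).le
          linarith

end Pool.Agent.H.MP_e98f69_an
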