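import Pool.Agent.H.MP_e98f69_an.E.ThmB
import Pool.Agent.H.MP_e98f69_an.E.RateA
import Pool.Agent.H.MP_e98f69_an.E.RateC
import Pool.Agent.H.MP_e98f69_an.E.RateE

/-! The entropy of `f` on the boundary is the entropy on the set of points common to all impressions. -/

set_option autoImplicit false

open Set Filter Topology Metric

namespace Pool.Agent.H.MP_e98f69_an

namespace Siegel

variable {P Q : Polynomial ℂ} {S : Set ℂ} {θ : ℝ} {φ : ℂ → ℂ} (X : Siegel P Q S θ φ)

include X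

/-- the setting of the volume argument for an invariant compact subset of the boundary -/
theorem vdata_sub {K : Set ℂ} (hK : IsClosed K) (hKX : K ⊆ frontier S) (hne : K.Nonempty)
    (hf : MapsTo (rat P Q) K K) : VData (rat P Q) K {z : ℂ | Q.eval z ≠ 0}
    (max P.natDegree Q.natDegree) where
  cpt := X.frontier_compact.of_isClosed_subset hK hKX
  ne := hne
  op := X.vdata.op
  sub := hKX.trans X.vdata.sub
  dif := X.vdata.dif
  inv := hf
  deg := X.v_deg
  crit := X.v_crit.subset fun _ hz => ⟨hKX hz.1, hz.2⟩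
  noper := fun _ hz hd _ hn => X.crit_not_periodic (hKX hz) hd hn

/-- counts of preimages with rate `a` -/
theorem count_all_rate {a : ℝ} (ha : 0 ≤ a) (hb : ∀ ε > 0, ∃ B : ℝ, ∀ m : ℕ, ∀ y ∈ Pc S φ,
      ((VV (rat P Q) (Pc S φ) m y).ncard : ℝ) ≤ B * Real.exp ((a + ε) * m)) :
    ∀ ε > 0, ∃ B : ℝ, ∀ m : ℕ, ∀ y ∈ frontier S,
      ((VV (rat P Q) (frontier S) m y).ncard : ℝ) ≤ B * Real.exp ((a + ε) * m) := by
  obtain ⟨F, T, D⟩ := X.cdata
  obtain ⟨C, e, h⟩ := D.poly_count (fun y _ => (X.fiber_one y).2)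
  refine count_core_rate ha D.maps D.fin (fun y _ => (X.fiber_one y).2) X.Pc_sub
    (fun x hx => X.Pc_rat hx) (C := C) (e := e) ?_ hb
  intro m y hy hyP
  refine h m y hy ?_
  simp only [Pc, mem_ofPred_eq] at hyP
  push Not at hyP
  obtain ⟨ζ, hζ, hn⟩ := hyP
  exact ⟨ζ, hζ, fun h => hn h.2⟩

/-- the entropy on the boundary is at most `a`, if it is on the core -/
theorem entropy_le_core {a : ℝ} (ha : 0 ≤ a)
    (h : Dynamics.coverEntropy (rat P Q) (Pc S φ) ≤ ((a : ℝ) : EReal)) :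
    Dynamics.coverEntropy (rat P Q) (frontier S) ≤ ((a : ℝ) : EReal) := by
  have hb : ∀ ε > 0, ∃ B : ℝ, ∀ m : ℕ, ∀ y ∈ Pc S φ,
      ((VV (rat P Q) (Pc S φ) m y).ncard : ℝ) ≤ B * Real.exp ((a + ε) * m) := by
    intro ε hε
    rcases (Pc S φ).eq_empty_or_nonempty with h0 | hne
    · exact ⟨0, fun m y hy => by rw [h0] at hy; exact hy.elim⟩
    · obtain ⟨B, hB⟩ := count_le_ent
        (X.vdata_sub (isClosed_Pc S φ) X.Pc_sub hne (fun x hx => X.Pc_rat hx)) ha h hε
      exact ⟨B, fun m y hy => (hB m y hy).2⟩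
  have h1 := X.count_all_rate ha hb
  refine ent_rate ha X.vdata fun ε hε => ?_
  obtain ⟨B, hB⟩ := h1 ε hε
  refine ⟨B, fun m y hy => ⟨?_, hB m y hy⟩⟩
  exact Set.finite_of_encard_le_coe (VV_encard_le X.vdata m y)

/-- **The entropy lives on the core.** -/
theorem entropy_eq_core : Dynamics.coverEntropy (rat P Q) (frontier S) =
    max 0 (Dynamics.coverEntropy (rat P Q) (Pc S φ)) := by
  refine le_antisymm ?_ ?_
  · refine EReal.le_of_forall_lt_iff_le.1 ?_
    intro a ha
    have h1 : (0 : EReal) < ((a : ℝ) : EReal) := (le_max_left _ _).trans_lt ha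
    have h2 : 0 < a := by exact_mod_cast h1
    exact X.entropy_le_core h2.le ((le_max_right _ _).trans ha.le)
  · exact max_le (Dynamics.coverEntropy_nonneg _ X.frontier_nonempty)
      (Dynamics.coverEntropy_monotone _ X.Pc_sub)

end Siegel

end Pool.Agent.H.MP_e98f69_an
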