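import Pool.Agent.H.MP_e98f69_an.E.VLoc

/-! Visits to the critical points and branching of preimages in a dynamical ball. -/

set_option autoImplicit false

open Set Filter Topology Metric

namespace Pool.Agent.H.MP_e98f69_an

variable {f : ℂ → ℂ} {K O : Set ℂ} {D : ℕ}

/-- the critical points in `K` -/
def CK (f : ℂ → ℂ) (K : Set ℂ) : Set ℂ := {z | z ∈ K ∧ deriv f z = 0}

/-- being `η`-close to a critical point of `K` -/
def Nr (f : ℂ → ℂ) (K : Set ℂ) (η : ℝ) (z : ℂ) : Prop := ∃ c ∈ CK f K, dist z c < η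

/-- Uniform local injectivity away from the critical points. -/
theorem rd_inj (V : VData f K O D) {η : ℝ} (hη : 0 < η) : ∃ δ > 0, ∀ x ∈ K, ∀ x' ∈ K,
    dist x x' < δ → f x = f x' → x ≠ x' → Nr f K η x := by
  set K' : Set ℂ := {x | x ∈ K ∧ ¬ Nr f K η x} with hK'
  have hK'c : IsCompact K' := by
    have h1 : K' = K ∩ (⋃ c ∈ CK f K, ball c η)ᶜ := by
      ext z
      simp only [hK', Nr, mem_ofPred_eq, mem_inter_iff, mem_compl_iff, mem_iUnion, mem_ball, exists_prop]
    rw [h1]
    exact V.cpt.inter_right (isOpen_biUnion fun _ _ => isOpen_ball).isClosed_compl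
  have key : ∃ δ > 0, ∀ x ∈ K', ∀ x' : ℂ, dist x x' < δ → f x = f x' → x = x' := by
    refine hK'c.induction_on (p := fun s => ∃ δ > 0, ∀ x ∈ s, ∀ x' : ℂ, dist x x' < δ →
      f x = f x' → x = x') ?_ ?_ ?_ ?_
    · exact ⟨1, one_pos, fun x hx => hx.elim⟩
    · rintro s t hst ⟨r, hr, h⟩
      exact ⟨r, hr, fun x hx => h x (hst hx)⟩
    · rintro s t ⟨r, hr, h⟩ ⟨r', hr', h'⟩
      refine ⟨min r r', lt_min hr hr', ?_⟩
      rintro x (hx | hx) y hy
      · exact h x hx y (hy.trans_le (min_le_left _ _))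
      · exact h' x hx y (hy.trans_le (min_le_right _ _))
    · intro x hx
      obtain ⟨N, hN1, hN2, hN3, hN4⟩ := loc_mult V hx.1
      have hd : deriv f x ≠ 0 := by
        intro h0
        exact hx.2 ⟨x, ⟨hx.1, h0⟩, by simpa using hη⟩
      have hc : crn f 1 x = 0 := by
        unfold crn
        simp [hd]
      rw [hc, pow_zero] at hN4
      obtain ⟨r, hr, hr2⟩ := Metric.isOpen_iff.1 hN1 x hN2
      refine ⟨ball x (r / 2), mem_nhdsWithin_of_mem_nhds (ball_mem_nhds _ (by positivity)),
        r / 2, by positivity, ?_⟩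
      intro y hy z hz hfyz
      have hy' : y ∈ N := hr2 (ball_subset_ball (by linarith) hy)
      have hz' : z ∈ N := by
        apply hr2
        rw [mem_ball] at *
        calc dist z x ≤ dist z y + dist y x := dist_triangle _ _ _
          _ < r := by rw [dist_comm z y]; linarith
      have h1 := hN4 (f z)
      have h2 : ({w | w ∈ N ∧ f w = f z}).encard ≤ 1 := by exact_mod_cast h1
      exact Set.encard_le_one_iff.1 h2 y z ⟨hy', hfyz⟩ ⟨hz', rfl⟩
  obtain ⟨δ, hδ, h⟩ := key
  refine ⟨δ, hδ, fun x hx x' _ hd hf hne => ?_⟩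
  by_contra hN
  exact hne (h x ⟨hx, hN⟩ x' hd hf)

/-- No quick returns to a critical point. -/
theorem rd_return (V : VData f K O D) (T : ℕ) : ∃ η > 0, ∀ c ∈ CK f K, ∀ j : ℕ, 1 ≤ j → j ≤ T →
    ∀ z, dist z c < η → η ≤ dist (f^[j] z) c := by
  have h1 : ∀ c ∈ CK f K, ∀ j : ℕ, 1 ≤ j → ∀ᶠ η in 𝓝[>] (0 : ℝ), ∀ z, dist z c < η →
      η ≤ dist (f^[j] z) c := by
    intro c hc j hj
    have hne : f^[j] c ≠ c := V.noper c hc.1 hc.2 j hj
    have hd : 0 < dist (f^[j] c) c := dist_pos.2 hne
    have hcont := V.iter_cont j hc.1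
    obtain ⟨η0, hη0, h2⟩ := Metric.continuousAt_iff.1 hcont (dist (f^[j] c) c / 2) (by positivity)
    have h3 : ∀ᶠ η in 𝓝[>] (0 : ℝ), η < min η0 (dist (f^[j] c) c / 2) :=
      nhdsWithin_le_nhds (Iio_mem_nhds (lt_min hη0 (by positivity)))
    filter_upwards [h3] with η hη z hz
    have h4 := h2 (hz.trans (hη.trans_le (min_le_left _ _)))
    have h5 : dist (f^[j] c) c ≤ dist (f^[j] c) (f^[j] z) + dist (f^[j] z) c := dist_triangle _ _ _
    rw [dist_comm (f^[j] c) (f^[j] z)] at h5
    have h6 := hη.trans_le (min_le_right _ _)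
    linarith
  have h2 : ∀ᶠ η in 𝓝[>] (0 : ℝ), ∀ c ∈ CK f K, ∀ j ∈ Finset.Icc 1 T, ∀ z, dist z c < η →
      η ≤ dist (f^[j] z) c := by
    have hfin : (CK f K).Finite := V.crit
    rw [Filter.eventually_all_finite hfin]
    intro c hc
    rw [Filter.eventually_all_finset]
    intro j hj
    exact h1 c hc j (Finset.mem_Icc.1 hj).1
  obtain ⟨η, h3, h4⟩ := (h2.and self_mem_nhdsWithin).exists
  exact ⟨η, h4, fun c hc j hj1 hj2 => h3 c hc j (Finset.mem_Icc.2 ⟨hj1, hj2⟩)⟩

/-- number of visits to the `η`-neighbourhood of the critical points -/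
noncomputable def vis (f : ℂ → ℂ) (K : Set ℂ) (η : ℝ) (m : ℕ) (x : ℂ) : ℕ := by
  classical
  exact ((Finset.range m).filter (fun j => Nr f K η (f^[j] x))).card

/-- Few visits. -/
theorem rd_visits (V : VData f K O D) {T : ℕ} {η : ℝ}
    (h : ∀ c ∈ CK f K, ∀ j : ℕ, 1 ≤ j → j ≤ T → ∀ z, dist z c < η → η ≤ dist (f^[j] z) c)
    (m : ℕ) (x : ℂ) : vis f K η m x ≤ (CK f K).ncard * (m / (T + 1) + 1) := by
  classical
  have hfin : (CK f K).Finite := V.crit
  have h1 : (Finset.range m).filter (fun j => Nr f K η (f^[j] x)) ⊆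
      hfin.toFinset.biUnion (fun c => (Finset.range m).filter (fun j => dist (f^[j] x) c < η)) := by
    intro j hj
    rw [Finset.mem_filter] at hj
    obtain ⟨hj1, c, hc, hj2⟩ := hj
    rw [Finset.mem_biUnion]
    exact ⟨c, hfin.mem_toFinset.2 hc, Finset.mem_filter.2 ⟨hj1, hj2⟩⟩
  have h2 : ∀ c ∈ hfin.toFinset,
      ((Finset.range m).filter (fun j => dist (f^[j] x) c < η)).card ≤ m / (T + 1) + 1 := by
    intro c hc
    have hc' := hfin.mem_toFinset.1 hc
    rw [← Finset.card_range (m / (T + 1) + 1)]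
    refine Finset.card_le_card_of_injOn (fun j => j / (T + 1)) ?_ ?_
    · intro j hj
      have hj' := Finset.mem_filter.1 hj
      have : j < m := Finset.mem_range.1 hj'.1
      simp only [Finset.coe_range, mem_Iio]
      have := Nat.div_le_div_right (c := T + 1) this.le
      omega
    · intro i hi j hj hij
      have hi' := (Finset.mem_filter.1 hi).2
      have hj' := (Finset.mem_filter.1 hj).2
      simp only at hij
      have aux : ∀ i j : ℕ, dist (f^[i] x) c < η → dist (f^[j] x) c < η → i / (T + 1) = j / (T + 1) →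
          i < j → False := by
        intro i j hi hj hij hlt
        have h3 : j - i ≤ T := by
          have h4 := Nat.div_add_mod i (T + 1)
          have h5 := Nat.div_add_mod j (T + 1)
          have h6 := Nat.mod_lt i (Nat.succ_pos T)
          have h7 := Nat.mod_lt j (Nat.succ_pos T)
          rw [← hij] at h5
          simp only [Nat.succ_eq_add_one] at h6 h7
          omega
        have h4 := h c hc' (j - i) (by omega) h3 (f^[i] x) hi
        rw [← Function.iterate_add_apply, show j - i + i = j by omega] at h4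
        exact absurd hj (not_lt.2 h4)
      rcases lt_trichotomy i j with hlt | heq | hlt
      · exact (aux i j hi' hj' hij hlt).elim
      · exact heq
      · exact (aux j i hj' hi' hij.symm hlt).elim
  unfold vis
  calc _ ≤ _ := Finset.card_le_card h1
    _ ≤ ∑ c ∈ hfin.toFinset, ((Finset.range m).filter (fun j => dist (f^[j] x) c < η)).card :=
        Finset.card_biUnion_le
    _ ≤ ∑ _c ∈ hfin.toFinset, (m / (T + 1) + 1) := Finset.sum_le_sum h2
    _ = _ := by
        rw [Finset.sum_const, smul_eq_mul, ncard_eq_toFinset_card _ hfin]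

/-- the shift for the number of visits -/
theorem vis_succ (f : ℂ → ℂ) (K : Set ℂ) (η : ℝ) (m : ℕ) (x : ℂ) :
    vis f K η (m + 1) x = vis f K η 1 x + vis f K η m (f x) := by
  classical
  unfold vis
  simp only [Finset.card_filter]
  rw [Finset.sum_range_succ', add_comm]
  simp only [Function.iterate_succ_apply, Finset.range_one, Finset.sum_singleton]
  congr!

theorem vis_one (f : ℂ → ℂ) (K : Set ℂ) (η : ℝ) (x : ℂ) :
    (Nr f K η x → vis f K η 1 x = 1) ∧ (¬ Nr f K η x → vis f K η 1 x = 0) := by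
  classical
  unfold vis
  simp only [Finset.card_filter, Finset.range_one, Finset.sum_singleton, Function.iterate_zero, id]
  exact ⟨fun h => if_pos h, fun h => if_neg h⟩

/-- Branching in a dynamical ball. -/
theorem rd_branch (V : VData f K O D) {η δ δ' : ℝ} (h : ∀ x ∈ K, ∀ x' ∈ K,
    dist x x' < δ → f x = f x' → x ≠ x' → Nr f K (η / 2) x) (hδ1 : 2 * δ' ≤ δ) (hδ2 : 2 * δ' ≤ η)
    (m : ℕ) {x y : ℂ} {G : Set ℂ} (hGf : G.Finite) (hG : ∀ z ∈ G, z ∈ K ∧ f^[m] z = y ∧
      ∀ j < m, dist (f^[j] z) (f^[j] x) < δ') : G.ncard ≤ D ^ vis f K η m x := by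
  induction m generalizing x G with
  | zero =>
    have h1 : G ⊆ {y} := fun z hz => by simpa using (hG z hz).2.1
    have h2 : G.ncard ≤ 1 := by
      have := ncard_le_ncard h1 (finite_singleton y)
      rwa [ncard_singleton] at this
    have h3 : vis f K η 0 x = 0 := by
      unfold vis
      simp
    rw [h3, pow_zero]
    exact h2
  | succ m ih =>
    have hG'f : (f '' G).Finite := hGf.image f
    have h1 : (f '' G).ncard ≤ D ^ vis f K η m (f x) := by
      refine ih hG'f ?_
      rintro _ ⟨z, hz, rfl⟩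
      obtain ⟨h2, h3, h4⟩ := hG z hz
      refine ⟨V.inv h2, by rw [← Function.iterate_succ_apply]; exact h3, fun j hj => ?_⟩
      rw [← Function.iterate_succ_apply, ← Function.iterate_succ_apply]
      exact h4 (j + 1) (by omega)
    rw [vis_succ, pow_add]
    by_cases hN : Nr f K η x
    · have h2 : vis f K η 1 x = 1 := (vis_one f K η x).1 hN
      rw [h2, pow_one]
      have h3 : G ⊆ ⋃ w ∈ f '' G, {z | z ∈ G ∧ f z = w} := by
        intro z hz
        simp only [mem_iUnion]
        exact ⟨f z, mem_image_of_mem f hz, hz, rfl⟩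
      have h4 : G.encard ≤ (((f '' G).ncard * D : ℕ) : ℕ∞) := by
        refine (encard_le_encard h3).trans (encard_biUnion_le ?_ ?_)
        · rw [hG'f.cast_ncard_eq]
        · intro w _
          refine (encard_le_encard ?_).trans (V.deg w)
          rintro z ⟨hz, hw⟩
          exact ⟨V.sub (hG z hz).1, hw⟩
      rw [← hGf.cast_ncard_eq] at h4
      have h5 : G.ncard ≤ (f '' G).ncard * D := by exact_mod_cast h4
      calc G.ncard ≤ (f '' G).ncard * D := h5
        _ ≤ D ^ vis f K η m (f x) * D := Nat.mul_le_mul_right _ h1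
        _ = D * D ^ vis f K η m (f x) := mul_comm _ _
    · have h2 : vis f K η 1 x = 0 := (vis_one f K η x).2 hN
      rw [h2, pow_zero, one_mul]
      have hinj : InjOn f G := by
        intro z hz z' hz' hzz'
        by_contra hne
        have h3 := (hG z hz).2.2 0 (by omega)
        have h4 := (hG z' hz').2.2 0 (by omega)
        simp only [Function.iterate_zero, id] at h3 h4
        have h5 : dist z z' < δ := by
          calc dist z z' ≤ dist z x + dist x z' := dist_triangle _ _ _
            _ < δ := by rw [dist_comm x z']; linarith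
        obtain ⟨c, hc, hzc⟩ := h z (hG z hz).1 z' (hG z' hz').1 h5 hzz' hne
        refine hN ⟨c, hc, ?_⟩
        calc dist x c ≤ dist x z + dist z c := dist_triangle _ _ _
          _ < η := by rw [dist_comm x z]; linarith
      rw [← hinj.ncard_image]
      exact h1

end Pool.Agent.H.MP_e98f69_an
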