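import Pool.Agent.H.MP_e98f69_an.E.Def

/-! Radial limits in a second impression. -/

set_option autoImplicit false

open Set Filter Topology Metric

namespace Pool.Agent.H.MP_e98f69_an

/-- A point of the circle on the given side of the chord. -/
theorem sepB_point {σ : ℝ} (hσ : σ = 1 ∨ σ = -1) {ζ1 ζ2 : ℂ} (h1 : ‖ζ1‖ = 1) (h2 : ‖ζ2‖ = 1)
    (hne : ζ1 ≠ ζ2) : ∃ m : ℂ, ‖m‖ = 1 ∧ 0 < σ * side ζ1 ζ2 m := by
  have hd : ζ2 - ζ1 ≠ 0 := sub_ne_zero.2 hne.symm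
  have hr : 0 < ‖ζ2 - ζ1‖ := norm_pos_iff.2 hd
  have hσ2 : σ * σ = 1 := by
    rcases hσ with h | h <;> rw [h] <;> norm_num
  have hn : ∀ z : ℂ, ‖z‖ * ‖z‖ = z.re * z.re + z.im * z.im := by
    intro z
    rw [Complex.norm_mul_self_eq_normSq, Complex.normSq_apply]
  have e1 := hn ζ1
  have e2 := hn ζ2
  have e3 := hn (ζ2 - ζ1)
  rw [h1] at e1
  rw [h2] at e2
  rw [Complex.sub_re, Complex.sub_im] at e3
  obtain ⟨r, hrd⟩ : ∃ r : ℝ, r = ‖ζ2 - ζ1‖ := ⟨_, rfl⟩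
  rw [← hrd] at hr e3
  refine ⟨(σ : ℂ) * Complex.I * (ζ2 - ζ1) / (r : ℂ), ?_, ?_⟩
  · rw [norm_div, norm_mul, norm_mul, Complex.norm_I, mul_one, Complex.norm_real,
      Complex.norm_real, ← hrd, Real.norm_eq_abs, Real.norm_eq_abs, abs_of_pos hr]
    have h3 : |σ| = 1 := by
      rcases hσ with h | h <;> rw [h] <;> norm_num
    rw [h3, one_mul, div_self hr.ne']
  · obtain ⟨m, hm⟩ : ∃ m : ℂ, m = (σ : ℂ) * Complex.I * (ζ2 - ζ1) / (r : ℂ) := ⟨_, rfl⟩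
    rw [← hm]
    have hmr : m * (r : ℂ) = (σ : ℂ) * Complex.I * (ζ2 - ζ1) := by
      rw [hm, div_mul_cancel₀]
      exact_mod_cast hr.ne'
    have hre := congrArg Complex.re hmr
    have him := congrArg Complex.im hmr
    simp only [Complex.mul_re, Complex.mul_im, Complex.ofReal_re, Complex.ofReal_im, Complex.I_re,
      Complex.I_im, Complex.sub_re, Complex.sub_im, mul_zero, mul_one, zero_mul,
      add_zero, zero_add, zero_sub, sub_zero] at hre him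
    rw [side_eq]
    obtain ⟨B, hB⟩ : ∃ B : ℝ, B = ζ2.im * ζ1.re - ζ2.re * ζ1.im := ⟨_, rfl⟩
    have h4 : r * (σ * ((ζ2.im - m.im) * (ζ1.re - m.re) - (ζ2.re - m.re) * (ζ1.im - m.im))) =
        r * (σ * B + r) := by
      have h5 : r * ((ζ2.im - m.im) * (ζ1.re - m.re) - (ζ2.re - m.re) * (ζ1.im - m.im)) =
          r * B - (m.re * r) * (ζ2.im - ζ1.im) + (m.im * r) * (ζ2.re - ζ1.re) := by
        rw [hB]
        ring
      calc r * (σ * ((ζ2.im - m.im) * (ζ1.re - m.re) - (ζ2.re - m.re) * (ζ1.im - m.im)))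
          = σ * (r * ((ζ2.im - m.im) * (ζ1.re - m.re) - (ζ2.re - m.re) * (ζ1.im - m.im))) := by
            ring
        _ = σ * (r * B - (m.re * r) * (ζ2.im - ζ1.im) + (m.im * r) * (ζ2.re - ζ1.re)) := by
            rw [h5]
        _ = r * (σ * B) + (σ * σ) * ((ζ2.re - ζ1.re) * (ζ2.re - ζ1.re) +
              (ζ2.im - ζ1.im) * (ζ2.im - ζ1.im)) := by
            rw [hre, him]
            ring
        _ = r * (σ * B + r) := by
            rw [hσ2, ← e3]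
            ring
    have h5 := mul_left_cancel₀ hr.ne' h4
    rw [h5]
    obtain ⟨A, hA⟩ : ∃ A : ℝ, A = ζ1.re * ζ2.re + ζ1.im * ζ2.im := ⟨_, rfl⟩
    have h6 : A * A + B * B = 1 := by
      have h7 : A * A + B * B = (ζ1.re * ζ1.re + ζ1.im * ζ1.im) *
          (ζ2.re * ζ2.re + ζ2.im * ζ2.im) := by
        rw [hA, hB]
        ring
      rw [h7, ← e1, ← e2]
      norm_num
    have h7 : r * r = 2 - 2 * A := by
      rw [e3, hA]
      nlinarith [e1, e2]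
    have h8 : 0 < 1 - A := by nlinarith [mul_pos hr hr]
    have h9 : B * B < r * r := by nlinarith [mul_pos h8 h8]
    by_contra hcon
    push Not at hcon
    have h10 : (σ * B) * (σ * B) = B * B := by
      calc (σ * B) * (σ * B) = (σ * σ) * (B * B) := by ring
        _ = B * B := by rw [hσ2, one_mul]
    nlinarith [h10, h9, hr, hcon]

namespace Siegel

variable {P Q : Polynomial ℂ} {S : Set ℂ} {θ : ℝ} {φ : ℂ → ℂ} (X : Siegel P Q S θ φ)

include X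

/-- Iterated `rel_lift`. -/
theorem rel_lift_iter (n : ℕ) {ζ y : ℂ} (h : rel S φ (rot θ ^ n * ζ) y) :
    ∃ x, rel S φ ζ x ∧ (rat P Q)^[n] x = y := by
  induction n generalizing y with
  | zero =>
    rw [pow_zero, one_mul] at h
    exact ⟨y, h, rfl⟩
  | succ n ih =>
    obtain ⟨x1, hx1, hx2⟩ := X.rel_lift h
    have e : (rot θ)⁻¹ * (rot θ ^ (n + 1) * ζ) = rot θ ^ n * ζ := by
      rw [pow_succ', mul_assoc, inv_mul_cancel_left₀ (rot_ne θ)]
    rw [e] at hx1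
    obtain ⟨x, hx, hx3⟩ := ih hx1
    refine ⟨x, hx, ?_⟩
    rw [Function.iterate_succ_apply', hx3, hx2]

/-- Every radial limit belongs to a second impression, if `σ = 1` or `σ = -1` and all impressions on the side
`σ * side ζ1 ζ2 β > 0` are contained in `I(ζ1) ∪ I(ζ2)`.
Proof. There is `m` on the circle with `σ * side ζ1 ζ2 m > 0` (`m = ± i (ζ1 - ζ2)/‖ζ1 - ζ2‖`-type point; or the two points of the circle
on the perpendicular bisector of the chord). Let `u = β0 / m`. By `dense_orbit` there are `n_k` with `rot θ ^ n_k → u`. For large `k`,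
`σ * side ζ1 ζ2 (rot θ ^ (-n_k) β0) > 0` (this tends to `σ * side ζ1 ζ2 m`). By `rel_lift_iter` there is `x'` in `I(rot θ ^ (-n_k) β0)` with
`f^{n_k} x' = x0`, so `x' ∈ I(ζ1)` or `I(ζ2)` and `x0 ∈ I(rot θ ^ n_k ζ1)` or `I(rot θ ^ n_k ζ2)` (`rel_iter`); one of the cases occurs infinitely
often and in the limit (`rel_isClosed`) `x0 ∈ I(u ζ1)` or `x0 ∈ I(u ζ2)`. `u ζi ≠ β0` because `ζi ≠ m` (`side ζ1 ζ2 ζi = 0`). -/
theorem second_imp {σ : ℝ} (hσ : σ = 1 ∨ σ = -1) {ζ1 ζ2 : ℂ} (h1 : ‖ζ1‖ = 1) (h2 : ‖ζ2‖ = 1)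
    (hne : ζ1 ≠ ζ2)
    (hside : ∀ β : ℂ, ‖β‖ = 1 → 0 < σ * side ζ1 ζ2 β → ∀ y, rel S φ β y →
      rel S φ ζ1 y ∨ rel S φ ζ2 y) {β0 x0 : ℂ} (hβ : ‖β0‖ = 1) (hx : rel S φ β0 x0) :
    ∃ q : ℂ, ‖q‖ = 1 ∧ q ≠ β0 ∧ rel S φ q x0 := by
  obtain ⟨m, hm, hmσ⟩ := sepB_point hσ h1 h2 hne
  have hm0 : m ≠ 0 := by rw [← norm_pos_iff, hm]; exact one_pos
  have hβ0 : β0 ≠ 0 := by rw [← norm_pos_iff, hβ]; exact one_pos
  obtain ⟨u, hu⟩ : ∃ u : ℂ, u = β0 / m := ⟨_, rfl⟩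
  have hun : ‖u‖ = 1 := by rw [hu, norm_div, hβ, hm, div_one]
  have hu0 : u ≠ 0 := by rw [← norm_pos_iff, hun]; exact one_pos
  have hum : u * m = β0 := by rw [hu, div_mul_cancel₀ _ hm0]
  have hseq : ∀ k : ℕ, ∃ n : ℕ, ‖rot θ ^ n - u‖ < 1 / ((k : ℝ) + 1) := by
    intro k
    obtain ⟨n, -, hn⟩ := dense_orbit X.irr (ζ := 1) (ζ' := u) (by simp) hun
      (show (0 : ℝ) < 1 / ((k : ℝ) + 1) by positivity) 0
    rw [mul_one] at hn
    exact ⟨n, hn⟩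
  choose n hn using hseq
  have hw : Tendsto (fun k => rot θ ^ n k) atTop (𝓝 u) := by
    rw [tendsto_iff_norm_sub_tendsto_zero]
    exact squeeze_zero (fun k => norm_nonneg _) (fun k => (hn k).le)
      tendsto_one_div_add_atTop_nhds_zero_nat
  have hwn : ∀ k, rot θ ^ n k ≠ 0 := fun k => pow_ne_zero _ (rot_ne θ)
  have hb : Tendsto (fun k => (rot θ ^ n k)⁻¹ * β0) atTop (𝓝 m) := by
    have h3 : m = u⁻¹ * β0 := by rw [← hum, inv_mul_cancel_left₀ hu0]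
    rw [h3]
    exact (hw.inv₀ hu0).mul_const β0
  have hs : Tendsto (fun k => σ * side ζ1 ζ2 ((rot θ ^ n k)⁻¹ * β0)) atTop
      (𝓝 (σ * side ζ1 ζ2 m)) :=
    (((continuous_side ζ1 ζ2).tendsto m).comp hb).const_mul σ
  have hev : ∀ᶠ k in atTop, 0 < σ * side ζ1 ζ2 ((rot θ ^ n k)⁻¹ * β0) :=
    hs.eventually_const_lt hmσ
  have hor : ∀ᶠ k in atTop, rel S φ (rot θ ^ n k * ζ1) x0 ∨ rel S φ (rot θ ^ n k * ζ2) x0 := by
    filter_upwards [hev] with k hk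
    have e : rot θ ^ n k * ((rot θ ^ n k)⁻¹ * β0) = β0 := mul_inv_cancel_left₀ (hwn k) β0
    rw [← e] at hx
    obtain ⟨x', hx1, hx2⟩ := X.rel_lift_iter (n k) hx
    have hbn : ‖(rot θ ^ n k)⁻¹ * β0‖ = 1 := by
      rw [norm_mul, norm_inv, norm_pow, norm_rot, one_pow, inv_one, one_mul, hβ]
    rcases hside _ hbn hk x' hx1 with h3 | h3
    · left
      rw [← hx2]
      exact X.rel_iter (n k) h3
    · right
      rw [← hx2]
      exact X.rel_iter (n k) h3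
  have hclos : ∀ ζ : ℂ, (∃ᶠ k in atTop, rel S φ (rot θ ^ n k * ζ) x0) → rel S φ (u * ζ) x0 := by
    intro ζ hfr
    have h3 : Tendsto (fun k => ((rot θ ^ n k * ζ, x0) : ℂ × ℂ)) atTop (𝓝 (u * ζ, x0)) :=
      (hw.mul_const ζ).prodMk_nhds tendsto_const_nhds
    exact (rel_isClosed (S := S) (φ := φ)).mem_of_frequently_of_tendsto hfr h3
  have hne' : ∀ ζ : ℂ, side ζ1 ζ2 ζ = 0 → u * ζ ≠ β0 := by
    intro ζ hζ hcon
    rw [← hum] at hcon
    have h3 := mul_left_cancel₀ hu0 hcon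
    rw [← h3, hζ, mul_zero] at hmσ
    exact lt_irrefl _ hmσ
  have hs1 : side ζ1 ζ2 ζ1 = 0 := by
    rw [side_eq]
    ring
  have hs2 : side ζ1 ζ2 ζ2 = 0 := by
    rw [side_eq]
    ring
  rcases Filter.frequently_or_distrib.1 hor.frequently with h3 | h3
  · exact ⟨u * ζ1, by rw [norm_mul, hun, h1, one_mul], hne' _ hs1, hclos _ h3⟩
  · exact ⟨u * ζ2, by rw [norm_mul, hun, h2, one_mul], hne' _ hs2, hclos _ h3⟩

end Siegel

end Pool.Agent.H.MP_e98f69_an
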