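import Pool.Agent.H.MP_e98f69_an.E.SepA
import Pool.Agent.H.MP_e98f69_an.E.SepB
import Pool.Agent.H.MP_e98f69_an.E.Acc
import Pool.Agent.H.MP_e98f69_an.E.Rad

/-! Impressions that meet. -/

set_option autoImplicit false

open Set Filter Topology Metric

namespace Pool.Agent.H.MP_e98f69_an

namespace Siegel

variable {P Q : Polynomial ℂ} {S : Set ℂ} {θ : ℝ} {φ : ℂ → ℂ} (X : Siegel P Q S θ φ)

include X

/-- **Dichotomy.** If the boundary is contained in the closure of a connected open set `U` disjoint from the closed disc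
`closure S` and two impressions meet, then every impression is the whole boundary.
Proof: `sep`, `second_imp` and `acc_dichotomy` show that every radial limit point is in `Pc S φ`, which is closed; by
`radial_dense` `frontier S ⊆ Pc S φ`. -/
theorem full_of_meet {U : Set ℂ} (hU : IsOpen U) (hUc : IsPreconnected U)
    (hUS : Disjoint U (closure S)) (hfr : frontier S ⊆ closure U) {ζ1 ζ2 x : ℂ} (h1 : ‖ζ1‖ = 1)
    (h2 : ‖ζ2‖ = 1) (hne : ζ1 ≠ ζ2) (hr1 : rel S φ ζ1 x) (hr2 : rel S φ ζ2 x) :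
    frontier S ⊆ Pc S φ := by
  obtain ⟨σ, hσ, hside⟩ : ∃ σ : ℝ, (σ = 1 ∨ σ = -1) ∧ ∀ β : ℂ, ‖β‖ = 1 → 0 < σ * side ζ1 ζ2 β →
      ∀ y, rel S φ β y → rel S φ ζ1 y ∨ rel S φ ζ2 y := by
    rcases X.sep hU hUc hUS hfr h1 h2 hne hr1 hr2 with h | h
    · exact ⟨1, Or.inl rfl, fun β hβ hs => h β hβ (by linarith)⟩
    · exact ⟨-1, Or.inr rfl, fun β hβ hs => h β hβ (by linarith)⟩
  have hrad : ∀ β0 x0 : ℂ, ‖β0‖ = 1 →
      Tendsto (fun r : ℝ => X.psi ((r : ℂ) * β0)) (𝓝[<] 1) (𝓝 x0) → x0 ∈ Pc S φ := by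
    intro β0 x0 hβ hx0
    obtain ⟨q, hq, hqne, hqr⟩ := X.second_imp hσ h1 h2 hne hside hβ (X.radial_rel hβ hx0)
    rcases X.acc_dichotomy hβ hx0 with h | h
    · exact h
    · exact absurd (h q hq hqr) hqne
  intro y hy
  rw [← (isClosed_Pc S φ).closure_eq, Metric.mem_closure_iff]
  intro ε hε
  obtain ⟨ζ, x0, hζ, hx0, hlt⟩ := X.radial_dense hy hε
  exact ⟨x0, hrad ζ x0 hζ hx0, by rwa [dist_comm, dist_eq_norm]⟩

end Siegel

end Pool.Agent.H.MP_e98f69_an
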