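import Pool.Agent.H.MP_e98f69_an.E.Cross

/-! Separation. -/

set_option autoImplicit false

open Set Filter Topology Metric

namespace Pool.Agent.H.MP_e98f69_an

namespace Siegel

variable {P Q : Polynomial ℂ} {S : Set ℂ} {θ : ℝ} {φ : ℂ → ℂ} (X : Siegel P Q S θ φ)

include X

/-- a boundary point off `I(ζ1) ∪ I(ζ2)` has a ball that is finally disjoint from the images of the chords -/
theorem sepa_ball {ζ1 ζ2 y : ℂ} (h1 : ‖ζ1‖ = 1) (h2 : ‖ζ2‖ = 1) (hne : ζ1 ≠ ζ2)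
    (hy : y ∈ frontier S) (hn1 : ¬ rel S φ ζ1 y) (hn2 : ¬ rel S φ ζ2 y) {a b : ℕ → ℂ}
    (ha : ∀ n, a n ∈ ball (0 : ℂ) 1) (hb : ∀ n, b n ∈ ball (0 : ℂ) 1)
    (hta : Tendsto a atTop (𝓝 ζ1)) (htb : Tendsto b atTop (𝓝 ζ2)) :
    ∃ ρ > 0, ∀ᶠ n in atTop, ∀ p ∈ segment ℝ (a n) (b n), X.psi p ∉ ball y ρ := by
  by_contra hcon
  push Not at hcon
  have hch : ∀ k : ℕ, ∃ n ≥ k, ∃ t ∈ Icc (0 : ℝ) 1,
      X.psi (a n + (t : ℂ) * (b n - a n)) ∈ ball y (1 / ((k : ℝ) + 1)) := by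
    intro k
    obtain ⟨n, hn, p, hp, hp2⟩ := (frequently_atTop.1 (hcon (1 / ((k : ℝ) + 1)) (by positivity))) k
    rw [segment_eq_image'] at hp
    obtain ⟨t, ht, rfl⟩ := hp
    exact ⟨n, hn, t, ht, by simpa [Complex.real_smul] using hp2⟩
  choose N hN t ht hball using hch
  have hNt : Tendsto N atTop atTop := tendsto_atTop_mono hN tendsto_id
  obtain ⟨t0, ht0, s, hs, hs2⟩ := isCompact_Icc.tendsto_subseq ht
  set q : ℕ → ℂ := fun k => a (N (s k)) + (t (s k) : ℂ) * (b (N (s k)) - a (N (s k))) with hq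
  have hqmem : ∀ k, q k ∈ ball (0 : ℂ) 1 := by
    intro k
    refine (convex_ball (0 : ℂ) 1).segment_subset (ha (N (s k))) (hb (N (s k))) ?_
    rw [segment_eq_image']
    exact ⟨t (s k), ht _, by simp [hq, Complex.real_smul]⟩
  have hqt : Tendsto q atTop (𝓝 (ζ1 + (t0 : ℂ) * (ζ2 - ζ1))) := by
    have e1 : Tendsto (fun k => a (N (s k))) atTop (𝓝 ζ1) :=
      hta.comp (hNt.comp hs.tendsto_atTop)
    have e2 : Tendsto (fun k => b (N (s k))) atTop (𝓝 ζ2) :=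
      htb.comp (hNt.comp hs.tendsto_atTop)
    have e3 : Tendsto (fun k => (t (s k) : ℂ)) atTop (𝓝 (t0 : ℂ)) :=
      (Complex.continuous_ofReal.tendsto _).comp hs2
    exact e1.add (e3.mul (e2.sub e1))
  have hψq : Tendsto (fun k => X.psi (q k)) atTop (𝓝 y) := by
    rw [Metric.tendsto_atTop]
    intro ε hε
    obtain ⟨k0, hk0⟩ := exists_nat_one_div_lt hε
    refine ⟨k0, fun k hk => ?_⟩
    have h3 := hball (s k)
    rw [mem_ball] at h3
    have h4 : (k0 : ℝ) ≤ (s k : ℝ) := by exact_mod_cast hk.trans (hs.id_le k)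
    calc dist (X.psi (q k)) y < 1 / ((s k : ℝ) + 1) := h3
      _ ≤ 1 / ((k0 : ℝ) + 1) := by gcongr
      _ < ε := hk0
  have hrel : rel S φ (ζ1 + (t0 : ℂ) * (ζ2 - ζ1)) y := by
    refine rel_of_seq (fun k => X.psi (q k)) (fun k => X.psi_mem (hqmem k)) ?_ hψq
    exact hqt.congr fun k => (X.phi_psi (hqmem k)).symm
  have hyS : y ∉ S := by
    rw [frontier, X.op.interior_eq] at hy
    exact hy.2
  have hnorm := X.rel_norm_eq hrel hyS
  rcases eq_or_lt_of_le ht0.1 with h0 | h0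
  · rw [← h0] at hrel
    apply hn1
    simpa using hrel
  rcases eq_or_lt_of_le ht0.2 with h0' | h0'
  · rw [h0'] at hrel
    apply hn2
    simpa using hrel
  have h3 := combo_mem_ball_of_ne (z := (0 : ℂ)) (r := 1) (x := ζ1) (y := ζ2) (a := 1 - t0) (b := t0)
    (by simp [h1]) (by simp [h2]) hne (by linarith) h0 (by ring)
  rw [mem_ball_zero_iff] at h3
  have e : (1 - t0) • ζ1 + t0 • ζ2 = ζ1 + (t0 : ℂ) * (ζ2 - ζ1) := by
    simp only [Complex.real_smul]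
    push_cast
    ring
  rw [e, hnorm] at h3
  exact lt_irrefl _ h3

/-- **Separation.** Let `x ∈ I(ζ1) ∩ I(ζ2)`, `ζ1 ≠ ζ2`. For one of the two open arcs between `ζ1` and `ζ2` the impressions
of all its points are contained in `I(ζ1) ∪ I(ζ2)`.
Proof: otherwise there are `β1`, `β2` on the two arcs (`side > 0`, `side < 0`) and `y1 ∈ I(β1)`, `y2 ∈ I(β2)`, not in
`I(ζ1) ∪ I(ζ2)`. `y1, y2 ≠ x`. Take `ρ > 0` small: `‖yi - x‖ > 2 ρ` and there is `ε > 0` such that no `z ∈ S` with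
`‖z - yi‖ < ρ` has `‖φ z - ζj‖ < ε` (negation of `rel`). `yi ∈ closure U` (they are in the frontier): points `pi ∈ U ∩ ball yi ρ`; `U` is
open and preconnected, so there is a path in `U` from `p1` to `p2`, with compact image `κ ⊆ U`. `C = κ ∪ ball y1 ρ ∪ ball y2 ρ` is preconnected,
`x ∉ closure C` (`x ∈ closure S`, so `x ∉ U ⊇ κ`). `w1 n → ζ1`, `w2 n → ζ2` with `ψ (wi n) → x` (`rel_seq`). For large `n` the set `C` is disjoint
from `ψ '' segment (w1 n) (w2 n)`: `κ` is disjoint from `S`; if `ψ (v n) ∈ ball yi ρ'` for infinitely many `n`, `v n` in the segment and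
(after shrinking `ρ` once more to `ρ' = 1/n`) a subsequence of `v n` tends to a point `v` of the chord `[ζ1, ζ2]` and `ψ (v n) → yi`: if
`‖v‖ < 1` then `yi = ψ v ∈ S`, impossible; otherwise `v = ζ1` or `ζ2` and `yi ∈ I(ζ1) ∪ I(ζ2)`, impossible. So for a suitable `ρ` (chosen
by this contradiction argument) disjointness holds for large `n`. `a ∈ ball 0 1` with `ψ a ∈ ball y1 ρ` and `side ζ1 ζ2 a > 0` exists since
`y1 ∈ I(β1)`; similarly `a'`. `crossing` gives the contradiction. -/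
theorem sep {U : Set ℂ} (hU : IsOpen U) (hUc : IsPreconnected U) (hUS : Disjoint U (closure S))
    (hfr : frontier S ⊆ closure U) {ζ1 ζ2 x : ℂ} (h1 : ‖ζ1‖ = 1) (h2 : ‖ζ2‖ = 1) (hne : ζ1 ≠ ζ2)
    (hr1 : rel S φ ζ1 x) (hr2 : rel S φ ζ2 x) :
    (∀ β : ℂ, ‖β‖ = 1 → 0 < side ζ1 ζ2 β → ∀ y, rel S φ β y → rel S φ ζ1 y ∨ rel S φ ζ2 y) ∨
    (∀ β : ℂ, ‖β‖ = 1 → side ζ1 ζ2 β < 0 → ∀ y, rel S φ β y → rel S φ ζ1 y ∨ rel S φ ζ2 y) := by
  by_contra hcon
  push Not at hcon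
  obtain ⟨⟨β1, hβ1, hs1, y1, hy1, hn11, hn12⟩, ⟨β2, hβ2, hs2, y2, hy2, hn21, hn22⟩⟩ := hcon
  have hf1 := X.rel_frontier hy1 hβ1
  have hf2 := X.rel_frontier hy2 hβ2
  have hxf := X.rel_frontier hr1 h1
  have hne1 : y1 ≠ x := fun h => hn11 (h ▸ hr1)
  have hne2 : y2 ≠ x := fun h => hn21 (h ▸ hr1)
  obtain ⟨u, hu, hu1, hu2⟩ := rel_seq hr1
  obtain ⟨v, hv, hv1, hv2⟩ := rel_seq hr2
  obtain ⟨ρ1, hρ1, hb1⟩ := X.sepa_ball h1 h2 hne hf1 hn11 hn12 (fun n => X.phi_mem (hu n))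
    (fun n => X.phi_mem (hv n)) hu1 hv1
  obtain ⟨ρ2, hρ2, hb2⟩ := X.sepa_ball h1 h2 hne hf2 hn21 hn22 (fun n => X.phi_mem (hu n))
    (fun n => X.phi_mem (hv n)) hu1 hv1
  set ρ : ℝ := min (min ρ1 ρ2) (min (dist y1 x) (dist y2 x) / 2) with hρ
  have hd : 0 < min (dist y1 x) (dist y2 x) := lt_min (dist_pos.2 hne1) (dist_pos.2 hne2)
  have hρpos : 0 < ρ := lt_min (lt_min hρ1 hρ2) (by positivity)
  have l1 : ρ ≤ ρ1 := (min_le_left _ _).trans (min_le_left _ _)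
  have l2 : ρ ≤ ρ2 := (min_le_left _ _).trans (min_le_right _ _)
  have l3 : ρ ≤ min (dist y1 x) (dist y2 x) / 2 := min_le_right _ _
  have l4 : min (dist y1 x) (dist y2 x) ≤ dist y1 x := min_le_left _ _
  have l5 : min (dist y1 x) (dist y2 x) ≤ dist y2 x := min_le_right _ _
  -- points of the disc
  have hpt : ∀ β y : ℂ, rel S φ β y → ∀ A : Set ℂ, IsOpen A → β ∈ A →
      ∃ a ∈ ball (0 : ℂ) 1, a ∈ A ∧ X.psi a ∈ ball y ρ := by
    intro β y hβy A hA hβA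
    obtain ⟨w, hw, hw1, hw2⟩ := rel_seq hβy
    obtain ⟨n, c1, c2⟩ := ((hw1.eventually (hA.mem_nhds hβA)).and
      (hw2.eventually (ball_mem_nhds _ hρpos))).exists
    exact ⟨φ (w n), X.phi_mem (hw n), c1, by rwa [X.psi_phi (hw n)]⟩
  obtain ⟨a, ha, has, hay⟩ := hpt β1 y1 hy1 _ (isOpen_lt continuous_const (continuous_side ζ1 ζ2)) hs1
  obtain ⟨a', ha', has', hay'⟩ := hpt β2 y2 hy2 _ (isOpen_lt (continuous_side ζ1 ζ2) continuous_const)
    hs2
  -- a path in `U`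
  obtain ⟨p1, hp1U, hp1⟩ := mem_closure_iff.1 (hfr hf1) (ball y1 ρ) isOpen_ball
    (mem_ball_self hρpos) |>.imp fun p hp => (⟨hp.2, hp.1⟩ : p ∈ U ∧ p ∈ ball y1 ρ)
  obtain ⟨p2, hp2U, hp2⟩ := mem_closure_iff.1 (hfr hf2) (ball y2 ρ) isOpen_ball
    (mem_ball_self hρpos) |>.imp fun p hp => (⟨hp.2, hp.1⟩ : p ∈ U ∧ p ∈ ball y2 ρ)
  have hpc : IsPathConnected U := (hU.isConnected_iff_isPathConnected).1 ⟨⟨p1, hp1U⟩, hUc⟩
  obtain ⟨γ, hγ⟩ := hpc.joinedIn p1 hp1U p2 hp2U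
  have hγc : IsPreconnected (range γ) := isPreconnected_range γ.continuous
  have h01 : p1 ∈ range γ := ⟨0, γ.source⟩
  have h02 : p2 ∈ range γ := ⟨1, γ.target⟩
  have hC : IsPreconnected ((range γ ∪ ball y1 ρ) ∪ ball y2 ρ) :=
    (hγc.union p1 h01 hp1 (convex_ball _ _).isPreconnected).union p2 (Or.inl h02) hp2
      (convex_ball _ _).isPreconnected
  have hγcl : IsClosed (range γ) := (isCompact_range γ.continuous).isClosed
  refine X.crossing h1 h2 (w1 := fun n => φ (u n)) (w2 := fun n => φ (v n))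
    (fun n => X.phi_mem (hu n)) (fun n => X.phi_mem (hv n)) hu1 hv1
    (hu2.congr fun n => (X.psi_phi (hu n)).symm) (hv2.congr fun n => (X.psi_phi (hv n)).symm)
    ha ha' has has' hC (Or.inl (Or.inr hay)) (Or.inr hay') ?_ ?_
  · rw [closure_union, closure_union, hγcl.closure_eq]
    rintro ((⟨t, ht⟩ | h) | h)
    · exact disjoint_left.1 hUS (hγ t) (ht ▸ frontier_closure hxf)
    · have h3 := closure_ball_subset_closedBall h
      rw [mem_closedBall, dist_comm] at h3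
      linarith
    · have h3 := closure_ball_subset_closedBall h
      rw [mem_closedBall, dist_comm] at h3
      linarith
  · filter_upwards [hb1, hb2] with n hn1 hn2
    rw [disjoint_left]
    rintro _ hz ⟨p, hp, rfl⟩
    have hpb : p ∈ ball (0 : ℂ) 1 :=
      (convex_ball _ _).segment_subset (X.phi_mem (hu n)) (X.phi_mem (hv n)) hp
    rcases hz with (⟨t, ht⟩ | h) | h
    · exact disjoint_left.1 hUS (hγ t) (ht ▸ subset_closure (X.psi_mem hpb))
    · exact hn1 p hp (ball_subset_ball l1 h)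
    · exact hn2 p hp (ball_subset_ball l2 h)

end Siegel

end Pool.Agent.H.MP_e98f69_an
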