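import Pool.Agent.H.MP_e98f69_an.Potential
import Pool.Agent.H.MP_e98f69_an.E.Def
import Pool.Agent.H.MP_e98f69_an.DerivF
import Pool.Agent.H.MP_e98f69_an.E.HomeA
import Pool.Agent.H.MP_e98f69_an.E.OutA

/-! The coordinate 1 / (z - c) at the centre of the Siegel disc. -/

set_option autoImplicit false

open Set Filter Topology Metric

namespace Pool.Agent.H.MP_e98f69_an

/-- the coordinate with pole at `c` -/
noncomputable def uu (c z : ℂ) : ℂ := (z - c)⁻¹

lemma uu_cont {c z : ℂ} (h : z ≠ c) : ContinuousAt (uu c) z := by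
  unfold uu
  exact (continuousAt_id.sub continuousAt_const).inv₀ (sub_ne_zero.2 h)

lemma uu_inj {c z z' : ℂ} (h : uu c z = uu c z') : z = z' := by
  unfold uu at h
  have := inv_inj.1 h
  simpa using this

namespace Siegel

variable {P Q : Polynomial ℂ} {S : Set ℂ} {θ : ℝ} {φ : ℂ → ℂ} (X : Siegel P Q S θ φ)

include X

/-- `P / Q` is not constant, so one of the degrees is positive.
Proof: otherwise `rat P Q` is constant, but `φ (rat P Q z) = rot θ * φ z` takes different values (`φ '' S` is the unit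
disc). -/
theorem one_le_deg : 1 ≤ max P.natDegree Q.natDegree := by
  by_contra hcon
  have h1 : max P.natDegree Q.natDegree = 0 := by omega
  have hP : P.natDegree = 0 := by
    have := le_max_left P.natDegree Q.natDegree
    omega
  have hQ : Q.natDegree = 0 := by
    have := le_max_right P.natDegree Q.natDegree
    omega
  have hc : ∀ z z' : ℂ, rat P Q z = rat P Q z' := by
    intro z z'
    unfold rat
    rw [Polynomial.eq_C_of_natDegree_eq_zero hP, Polynomial.eq_C_of_natDegree_eq_zero hQ]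
    simp
  have hw : (1 / 2 : ℂ) ∈ ball (0 : ℂ) 1 := by
    rw [mem_ball_zero_iff]
    norm_num
  have h2 := (X.dyn _ (X.psi_mem zero_mem)).2
  have h3 := (X.dyn _ (X.psi_mem hw)).2
  rw [X.phi_psi zero_mem] at h2
  rw [X.phi_psi hw, hc _ (X.psi 0), h2] at h3
  have h4 := mul_left_cancel₀ (rot_ne θ) h3
  norm_num at h4

/-- the centre is a fixed point: `P c = c * Q c` -/
theorem centre_fix : Q.eval (X.psi 0) ≠ 0 ∧ P.eval (X.psi 0) = X.psi 0 * Q.eval (X.psi 0) := by
  have h1 := X.Q_ne (subset_closure (X.psi_mem zero_mem))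
  refine ⟨h1, ?_⟩
  have h2 := X.rat_fix
  unfold rat at h2
  rw [div_eq_iff h1] at h2
  exact h2

/-- boundary points are different from the centre -/
theorem ne_centre {x : ℂ} (hx : x ∈ frontier S) : x ≠ X.psi 0 := by
  rw [frontier, X.op.interior_eq] at hx
  rintro rfl
  exact hx.2 (X.psi_mem zero_mem)

theorem psi_ne_centre {w : ℂ} (hw : w ∈ ball (0 : ℂ) 1) (h0 : w ≠ 0) : X.psi w ≠ X.psi 0 :=
  fun h => h0 (X.psi_inj hw zero_mem h)

theorem isCompact_Imp (ζ : ℂ) : IsCompact (Imp S φ ζ) :=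
  X.bdd.isCompact_closure.of_isClosed_subset (isClosed_Imp S φ ζ) fun _ h => rel_closure h

/-- the image of an impression in the new coordinate is compact (`uu` is continuous off the centre) -/
theorem isCompact_uImp {ζ : ℂ} (hζ : ‖ζ‖ = 1) : IsCompact (uu (X.psi 0) '' Imp S φ ζ) := by
  refine (X.isCompact_Imp ζ).image_of_continuousOn fun x hx => ?_
  exact (uu_cont (X.ne_centre (X.rel_frontier hx hζ))).continuousWithinAt

theorem sph_G_conn : IsPreconnected (X.psi '' (ball (0 : ℂ) 1 \ {0})) := by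
  have h1 : IsPreconnected (ball (0 : ℂ) 1 \ (({0} : Finset ℂ) : Set ℂ)) :=
    isPreconnected_diff_finset isOpen_ball (convex_ball 0 1).isPreconnected {0}
  rw [Finset.coe_singleton] at h1
  exact h1.image _ fun w hw => (X.psi_cont hw.1).continuousWithinAt

/-- auxiliary form of the two theorems below -/
theorem sph_out {α v : ℂ} {G : Set ℂ} (_hα : ‖α‖ = 1) (hG : IsPreconnected G)
    (hsub : X.psi '' (ball (0 : ℂ) 1 \ {0}) ⊆ G) (hc : X.psi 0 ∉ G) (hd : ∀ g ∈ G, g ∉ Imp S φ α) (hv : v ∈ G) :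
    Out (uu (X.psi 0) '' Imp S φ α) (uu (X.psi 0) v) := by
  refine ⟨uu (X.psi 0) '' G, hG.image _ fun z hz => (uu_cont (c := X.psi 0) (z := z) (by rintro rfl; exact hc hz)).continuousWithinAt,
    ⟨v, hv, rfl⟩, ?_, ?_⟩
  · intro hb
    obtain ⟨M, hM⟩ := hb.exists_norm_le
    have hM0 : 0 < |M| + 1 := by positivity
    have h1 := X.psi_cont (zero_mem : (0 : ℂ) ∈ ball (0 : ℂ) 1)
    rw [Metric.continuousAt_iff] at h1
    obtain ⟨δ, hδ, h2⟩ := h1 (|M| + 1)⁻¹ (inv_pos.2 hM0)
    set t : ℝ := min (δ / 2) (1 / 2) with ht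
    have ht0 : 0 < t := lt_min (by positivity) (by norm_num)
    have ht1 : t < 1 := lt_of_le_of_lt (min_le_right _ _) (by norm_num)
    have ht2 : t < δ := lt_of_le_of_lt (min_le_left _ _) (by linarith)
    have hn : ‖(t : ℂ)‖ = t := by rw [Complex.norm_real, Real.norm_eq_abs, abs_of_pos ht0]
    have htm : (t : ℂ) ∈ ball (0 : ℂ) 1 \ {0} := by
      refine ⟨by rw [mem_ball_zero_iff, hn]; exact ht1, ?_⟩
      intro h
      rw [mem_singleton_iff] at h
      rw [h, norm_zero] at hn
      exact ht0.ne hn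
    have h3 := h2 (x := (t : ℂ)) (by rw [dist_zero_right, hn]; exact ht2)
    rw [dist_eq_norm] at h3
    have hg : X.psi t ∈ G := hsub ⟨_, htm, rfl⟩
    have h4 := hM _ ⟨X.psi t, hg, rfl⟩
    have hne : X.psi t - X.psi 0 ≠ 0 := sub_ne_zero.2 fun h => hc (h ▸ hg)
    have hpos : 0 < ‖X.psi t - X.psi 0‖ := norm_pos_iff.2 hne
    unfold uu at h4
    rw [norm_inv] at h4
    have h5 : (|M| + 1) < ‖X.psi t - X.psi 0‖⁻¹ := by
      rw [lt_inv_comm₀ hM0 hpos]
      exact h3
    have h6 := le_abs_self M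
    linarith
  · rw [Set.disjoint_left]
    rintro _ ⟨g, hg, rfl⟩ ⟨x, hx, hxg⟩
    have := uu_inj hxg
    exact hd g hg (this ▸ hx)

theorem sph_psi_notMem {α w : ℂ} (hα : ‖α‖ = 1) (hw : w ∈ ball (0 : ℂ) 1) : X.psi w ∉ Imp S φ α := by
  intro h
  have h1 := X.rel_frontier h hα
  rw [frontier, X.op.interior_eq] at h1
  exact h1.2 (X.psi_mem hw)

/-- the punctured disc in the new coordinate, together with a boundary point `y`, is preconnected, unbounded and
disjoint from `uu '' Imp α` if `y ∉ Imp α`. So `uu y` is connected to infinity off `uu '' Imp α`.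
Proof: `ball 0 1 \ {0}` is preconnected (`isPreconnected_diff_finset`), hence so is `G = psi '' (ball 0 1 \ {0})`, with
`y ∈ closure G` (`y ∈ closure S`, `y ≠ psi 0`); `G ∪ {y}` is preconnected (`IsPreconnected.subset_closure`) and `uu` is
continuous on it. It is disjoint from `Imp α` (subset of the frontier, `uu` injective). Unbounded: `psi w → psi 0` as
`w → 0`, `w ≠ 0`. -/
theorem out_frontier {α y : ℂ} (hα : ‖α‖ = 1) (hy : y ∈ frontier S) (hyα : y ∉ Imp S φ α) :
    Out (uu (X.psi 0) '' Imp S φ α) (uu (X.psi 0) y) := by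
  have hyc : y ≠ X.psi 0 := X.ne_centre hy
  have hcl : y ∈ closure (X.psi '' (ball (0 : ℂ) 1 \ {0})) := by
    have h1 : S ⊆ X.psi '' (ball (0 : ℂ) 1 \ {0}) ∪ {X.psi 0} := by
      intro z hz
      by_cases h : φ z = 0
      · right
        rw [mem_singleton_iff, ← h, X.psi_phi hz]
      · left
        exact ⟨φ z, ⟨X.phi_mem hz, h⟩, X.psi_phi hz⟩
    have h2 := closure_mono h1 (frontier_subset_closure hy)
    rw [closure_union, closure_singleton] at h2
    rcases h2 with h2 | h2
    · exact h2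
    · exact absurd h2 hyc
  refine X.sph_out hα (G := X.psi '' (ball (0 : ℂ) 1 \ {0}) ∪ {y}) ?_ subset_union_left ?_ ?_ (Or.inr rfl)
  · refine X.sph_G_conn.subset_closure subset_union_left ?_
    rintro z (hz | hz)
    · exact subset_closure hz
    · rw [mem_singleton_iff] at hz
      rw [hz]
      exact hcl
  · rintro (⟨w, hw, hw2⟩ | h)
    · exact X.psi_ne_centre hw.1 hw.2 hw2
    · exact hyc h.symm
  · rintro g (⟨w, hw, rfl⟩ | h)
    · exact X.sph_psi_notMem hα hw.1
    · rw [mem_singleton_iff] at h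
      rw [h]
      exact hyα

/-- every point of the punctured disc is connected to infinity off `uu '' Imp α` (same proof) -/
theorem out_disc {α w : ℂ} (hα : ‖α‖ = 1) (hw : w ∈ ball (0 : ℂ) 1) (h0 : w ≠ 0) :
    Out (uu (X.psi 0) '' Imp S φ α) (uu (X.psi 0) (X.psi w)) := by
  refine X.sph_out hα X.sph_G_conn subset_rfl ?_ ?_ ⟨w, ⟨hw, h0⟩, rfl⟩
  · rintro ⟨w', hw', h⟩
    exact X.psi_ne_centre hw'.1 hw'.2 h
  · rintro g ⟨w', hw', rfl⟩
    exact X.sph_psi_notMem hα hw'.1

end Siegel

end Pool.Agent.H.MP_e98f69_an
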