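import Pool.Agent.H.MP_e98f69_an.Statement
import Pool.Agent.H.MP_e98f69_an.E.Rate

/-! Definitions used in the hand-ins on the entropy, and the bridge to the working definitions. -/

set_option autoImplicit false

namespace Pool.Agent.H.MP_e98f69_an

/-- The impression of the prime end of `S` corresponding to the point `ζ` of the unit circle under `φ`: the set of all
limits of sequences `z_n` in `S` with `φ z_n → ζ`. -/
def Impression (S : Set ℂ) (φ : ℂ → ℂ) (ζ : ℂ) : Set ℂ :=
  {x | ∀ ε > 0, ∃ z ∈ S, ‖φ z - ζ‖ < ε ∧ ‖z - x‖ < ε}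

/-- The set of points that lie in the impression of every prime end. -/
def Core (S : Set ℂ) (φ : ℂ → ℂ) : Set ℂ := {x | ∀ ζ : ℂ, ‖ζ‖ = 1 → x ∈ Impression S φ ζ}

/-- The filled Julia set of the polynomial `P`: the points with bounded orbit. -/
def FilledJulia (P : Polynomial ℂ) : Set ℂ :=
  {z | Bornology.IsBounded (Set.range fun n : ℕ => (fun w : ℂ => P.eval w)^[n] z)}

theorem core_eq (S : Set ℂ) (φ : ℂ → ℂ) : Core S φ = Pc S φ := rfl

theorem filledJulia_compl (P : Polynomial ℂ) : (FilledJulia P)ᶜ = Bas (fun z => P.eval z) := rfl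

end Pool.Agent.H.MP_e98f69_an
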