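import Pool.Agent.H.MP_e98f69_an.E.Tree

/-! Preimages of points of an invariant subset. -/

set_option autoImplicit false

open Set Filter Topology Metric

namespace Pool.Agent.H.MP_e98f69_an

/-- Polynomials are dominated by exponentials. -/
theorem treeB_poly (e : ℕ) {δ : ℝ} (hδ : 0 < δ) :
    ∃ B : ℝ, 0 ≤ B ∧ ∀ m : ℕ, ((m : ℝ) + 1) ^ e ≤ B * Real.exp (δ * m) := by
  refine ⟨(e.factorial : ℝ) / δ ^ e * Real.exp δ, by positivity, fun m => ?_⟩
  have h1 := Real.pow_div_factorial_le_exp (δ * ((m : ℝ) + 1)) (by positivity) e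
  have hfac : (0 : ℝ) < (e.factorial : ℝ) := by positivity
  have hδe : 0 < δ ^ e := by positivity
  rw [div_le_iff₀ hfac, mul_pow] at h1
  have h2 : ((m : ℝ) + 1) ^ e ≤ Real.exp (δ * ((m : ℝ) + 1)) * (e.factorial : ℝ) / δ ^ e := by
    rw [le_div_iff₀ hδe]
    linarith
  refine h2.trans (le_of_eq ?_)
  rw [mul_add, mul_one, Real.exp_add]
  ring

/-- A finite union of finite sets indexed by a finite set. -/
theorem treeB_union {ι α : Type*} {s : Set ι} (hs : s.Finite) (T : ι → Set α) {N : ℕ}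
    (hT : ∀ i ∈ s, (T i).ncard ≤ N) : (⋃ i ∈ s, T i).ncard ≤ s.ncard * N := by
  classical
  lift s to Finset ι using hs
  calc (⋃ i ∈ (s : Set ι), T i).ncard = (⋃ i ∈ s, T i).ncard := by simp
    _ ≤ ∑ i ∈ s, (T i).ncard := s.set_ncard_biUnion_le T
    _ ≤ ∑ i ∈ s, N := Finset.sum_le_sum fun i hi => hT i (by simpa using hi)
    _ = (s : Set ι).ncard * N := by simp [Set.ncard_coe_finset]

/-- Counting all preimages when the preimages of points outside an invariant subset `Z` grow polynomially and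
the preimages inside `Z` grow subexponentially.
Proof: for `y ∉ Z`: `C (m+1)^e ≤ B' exp (ε m)`. For `y ∈ Z`: let `u ∈ VV f X m y`. Either `u ∈ Z` (at most `B exp (ε m / 2)`
such points), or there is `k < m` with `f^[m-k] u ∈ Z`, `f^[m-k-1] u ∉ Z` (the first entrance into the forward
invariant set `Z`): then `u` is an `(m-k-1)`-th preimage of a point `w' ∉ Z`, `w' ∈ VV f X 1 w`, `w ∈ VV f Z k y`. So
`#VV f X m y ≤ B exp (ε m/2) + ∑ k < m, B exp (ε k / 2) * d * C (m+1)^e ≤ B (1 + d C (m+1)^(e+1)) exp (ε m / 2)`. -/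
theorem count_core {α : Type*} {f : α → α} {X : Set α} (hf : MapsTo f X X)
    (hfin : ∀ y ∈ X, (VV f X 1 y).Finite) {d : ℕ} (hd : ∀ y ∈ X, (VV f X 1 y).ncard ≤ d)
    {Z : Set α} (hZ : Z ⊆ X) (hfZ : MapsTo f Z Z) {C e : ℕ}
    (h : ∀ m, ∀ y ∈ X, y ∉ Z → (VV f X m y).ncard ≤ C * (m + 1) ^ e)
    (hb : ∀ ε > 0, ∃ B : ℝ, ∀ m : ℕ, ∀ y ∈ Z, ((VV f Z m y).ncard : ℝ) ≤ B * Real.exp (ε * m)) :
    ∀ ε > 0, ∃ B : ℝ, ∀ m : ℕ, ∀ y ∈ X, ((VV f X m y).ncard : ℝ) ≤ B * Real.exp (ε * m) := by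
  classical
  intro ε hε
  obtain ⟨B1, hB1⟩ := hb (ε / 2) (by positivity)
  set B : ℝ := max B1 0 with hBdef
  have hB0 : 0 ≤ B := le_max_right _ _
  have hB : ∀ m : ℕ, ∀ y ∈ Z, ((VV f Z m y).ncard : ℝ) ≤ B * Real.exp (ε / 2 * m) :=
    fun m y hy => (hB1 m y hy).trans (mul_le_mul_of_nonneg_right (le_max_left _ _) (Real.exp_pos _).le)
  obtain ⟨P0, hP0, hP0'⟩ := treeB_poly e hε
  obtain ⟨P1, hP1, hP1'⟩ := treeB_poly (e + 1) (half_pos hε)
  -- the decomposition for `y ∈ Z`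
  have key : ∀ m : ℕ, ∀ y ∈ Z, VV f X m y ⊆ VV f Z m y ∪
      ⋃ j ∈ Finset.range m, ⋃ w ∈ VV f Z (m - 1 - j) y, ⋃ w' ∈ VV f X 1 w \ Z, VV f X j w' := by
    intro m y hy u hu
    obtain ⟨huX, hum⟩ := hu
    by_cases huZ : u ∈ Z
    · exact Or.inl ⟨huZ, hum⟩
    · right
      have hex : ∃ j, f^[j] u ∈ Z := ⟨m, by rw [hum]; exact hy⟩
      set j0 := Nat.find hex with hj0
      have hj0Z : f^[j0] u ∈ Z := Nat.find_spec hex
      have hj0m : j0 ≤ m := Nat.find_min' hex (by rw [hum]; exact hy)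
      have hj0pos : 0 < j0 := by
        rcases Nat.eq_zero_or_pos j0 with h0 | h0
        · rw [h0] at hj0Z
          exact absurd hj0Z huZ
        · exact h0
      obtain ⟨j, hj⟩ : ∃ j, j0 = j + 1 := ⟨j0 - 1, by omega⟩
      have hjZ : f^[j] u ∉ Z := by
        refine Nat.find_min hex ?_
        change j < j0
        omega
      have hXi : ∀ i, f^[i] u ∈ X := fun i => hf.iterate i huX
      simp only [mem_iUnion, Finset.mem_range]
      refine ⟨j, by omega, f^[j0] u, ⟨hj0Z, ?_⟩, f^[j] u, ⟨⟨hXi j, ?_⟩, hjZ⟩, huX, rfl⟩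
      · rw [← Function.iterate_add_apply, show m - 1 - j + j0 = m by omega, hum]
      · rw [hj, Function.iterate_succ_apply' f j u]
        rfl
  have hfinX : ∀ (k : ℕ) (y : α), y ∈ X → (VV f X k y).Finite := fun k y hy => VV_finite hf hfin k hy
  have hfinZ : ∀ (k : ℕ) (y : α), y ∈ X → (VV f Z k y).Finite := fun k y hy =>
    (hfinX k y hy).subset fun u hu => ⟨hZ hu.1, hu.2⟩
  have hle : ∀ m : ℕ, ∀ y ∈ Z, (VV f X m y).ncard ≤ (VV f Z m y).ncard +
      ∑ j ∈ Finset.range m, (VV f Z (m - 1 - j) y).ncard * (d * (C * (j + 1) ^ e)) := by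
    intro m y hy
    have hfinU : ∀ j, (⋃ w ∈ VV f Z (m - 1 - j) y, ⋃ w' ∈ VV f X 1 w \ Z, VV f X j w').Finite := by
      intro j
      refine (hfinZ _ y (hZ hy)).biUnion fun w hw => ?_
      refine ((hfin w (hZ hw.1)).subset sdiff_subset).biUnion fun w' hw' => ?_
      exact hfinX j w' hw'.1.1
    refine (Set.ncard_le_ncard (key m y hy) ?_).trans ?_
    · refine (hfinZ m y (hZ hy)).union ?_
      exact (Finset.range m).finite_toSet.biUnion fun j _ => hfinU j
    refine (Set.ncard_union_le _ _).trans ?_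
    refine Nat.add_le_add_left ?_ _
    refine ((Finset.range m).set_ncard_biUnion_le _).trans ?_
    refine Finset.sum_le_sum fun j _ => ?_
    refine treeB_union (hfinZ _ y (hZ hy)) _ fun w hw => ?_
    have hwX : w ∈ X := hZ hw.1
    refine (treeB_union ((hfin w hwX).subset sdiff_subset) _
      (N := C * (j + 1) ^ e) fun w' hw' => ?_).trans ?_
    · exact h j w' hw'.1.1 hw'.2
    · refine Nat.mul_le_mul_right _ ?_
      exact (Set.ncard_le_ncard sdiff_subset (hfin w hwX)).trans (hd w hwX)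
  refine ⟨max (C * P0) (B + B * (d * C) * P1), fun m y hy => ?_⟩
  by_cases hyZ : y ∈ Z
  · -- points of `Z`
    have h1 : ((VV f X m y).ncard : ℝ) ≤ ((VV f Z m y).ncard : ℝ) +
        ∑ j ∈ Finset.range m, ((VV f Z (m - 1 - j) y).ncard : ℝ) * (d * (C * ((j : ℝ) + 1) ^ e)) := by
      exact_mod_cast hle m y hyZ
    have h2 : ∀ j ∈ Finset.range m,
        ((VV f Z (m - 1 - j) y).ncard : ℝ) * (d * (C * ((j : ℝ) + 1) ^ e)) ≤
          B * Real.exp (ε / 2 * m) * (d * (C * ((m : ℝ) + 1) ^ e)) := by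
      intro j hj
      have hjm : j < m := Finset.mem_range.1 hj
      have hjm' : (j : ℝ) ≤ m := by exact_mod_cast hjm.le
      have h3 : ((VV f Z (m - 1 - j) y).ncard : ℝ) ≤ B * Real.exp (ε / 2 * m) := by
        refine (hB (m - 1 - j) y hyZ).trans ?_
        refine mul_le_mul_of_nonneg_left (Real.exp_le_exp.2 ?_) hB0
        refine mul_le_mul_of_nonneg_left ?_ (by positivity)
        exact_mod_cast (by omega : m - 1 - j ≤ m)
      have h4 : ((d : ℝ) * (C * ((j : ℝ) + 1) ^ e)) ≤ d * (C * ((m : ℝ) + 1) ^ e) := by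
        gcongr
      exact mul_le_mul h3 h4 (by positivity) (by positivity)
    have h5 := Finset.sum_le_sum h2
    rw [Finset.sum_const, Finset.card_range, nsmul_eq_mul] at h5
    have h6 : ((VV f X m y).ncard : ℝ) ≤ B * Real.exp (ε / 2 * m) +
        m * (B * Real.exp (ε / 2 * m) * (d * (C * ((m : ℝ) + 1) ^ e))) := by
      linarith [hB m y hyZ]
    have h7 : (m : ℝ) * (B * Real.exp (ε / 2 * m) * (d * (C * ((m : ℝ) + 1) ^ e))) ≤
        B * (d * C) * P1 * Real.exp (ε * m) := by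
      have h8 := hP1' m
      have h9 : (m : ℝ) * ((m : ℝ) + 1) ^ e ≤ ((m : ℝ) + 1) ^ (e + 1) := by
        rw [pow_succ, mul_comm]
        gcongr
        linarith
      have h10 : Real.exp (ε * m) = Real.exp (ε / 2 * m) * Real.exp (ε / 2 * m) := by
        rw [← Real.exp_add]
        congr 1
        ring
      calc (m : ℝ) * (B * Real.exp (ε / 2 * m) * (d * (C * ((m : ℝ) + 1) ^ e)))
          = B * (d * C) * Real.exp (ε / 2 * m) * ((m : ℝ) * ((m : ℝ) + 1) ^ e) := by ring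
        _ ≤ B * (d * C) * Real.exp (ε / 2 * m) * (P1 * Real.exp (ε / 2 * m)) := by
            refine mul_le_mul_of_nonneg_left (h9.trans h8) (by positivity)
        _ = B * (d * C) * P1 * Real.exp (ε * m) := by
            rw [h10]
            ring
    have h11 : B * Real.exp (ε / 2 * m) ≤ B * Real.exp (ε * m) := by
      refine mul_le_mul_of_nonneg_left (Real.exp_le_exp.2 ?_) hB0
      have : (0 : ℝ) ≤ m := Nat.cast_nonneg m
      nlinarith
    calc ((VV f X m y).ncard : ℝ) ≤ (B + B * (d * C) * P1) * Real.exp (ε * m) := by linarith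
      _ ≤ _ := mul_le_mul_of_nonneg_right (le_max_right _ _) (Real.exp_pos _).le
  · have h1 : ((VV f X m y).ncard : ℝ) ≤ C * ((m : ℝ) + 1) ^ e := by
      exact_mod_cast h m y hy hyZ
    calc ((VV f X m y).ncard : ℝ) ≤ C * ((m : ℝ) + 1) ^ e := h1
      _ ≤ C * (P0 * Real.exp (ε * m)) := mul_le_mul_of_nonneg_left (hP0' m) (Nat.cast_nonneg _)
      _ = C * P0 * Real.exp (ε * m) := by ring
      _ ≤ _ := mul_le_mul_of_nonneg_right (le_max_left _ _) (Real.exp_pos _).le

end Pool.Agent.H.MP_e98f69_an
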