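import Pool.Agent.H.MP_e98f69_an.E.Conn
import Pool.Agent.H.MP_e98f69_an.E.LemN
import Pool.Agent.H.MP_e98f69_an.E.Count
import Pool.Agent.H.MP_e98f69_an.E.TreeB

/-! Growth of the number of preimages in the boundary. -/

set_option autoImplicit false

open Set Filter Topology Metric

namespace Pool.Agent.H.MP_e98f69_an

namespace Siegel

variable {P Q : Polynomial ℂ} {S : Set ℂ} {θ : ℝ} {φ : ℂ → ℂ} (X : Siegel P Q S θ φ)

include X

/-- A point has at most `max (deg P) (deg Q)` preimages in the boundary.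
Proof: they are roots of `P - C y * Q`, a nonzero polynomial (otherwise `P = y Q`, `rat P Q` would be constant on `S`, see
`one_le_deg`) of degree `≤ max`; `Q z ≠ 0` on the closure (`Q_ne`). -/
theorem fiber_one (y : ℂ) : (VV (rat P Q) (frontier S) 1 y).Finite ∧
    (VV (rat P Q) (frontier S) 1 y).ncard ≤ max P.natDegree Q.natDegree := by
  classical
  have hne : P - Polynomial.C y * Q ≠ 0 := by
    intro h0
    have h1 : P = Polynomial.C y * Q := sub_eq_zero.1 h0
    have hdvd : Q ∣ P := ⟨Polynomial.C y, by rw [h1, mul_comm]⟩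
    have hu : IsUnit Q := X.cop.symm.isUnit_of_dvd' (dvd_refl _) hdvd
    have hQ0 : Q.natDegree = 0 := Polynomial.natDegree_eq_zero_of_isUnit hu
    have hP0 : P.natDegree = 0 := by
      rw [h1]
      exact Nat.le_zero.1 (Polynomial.natDegree_mul_le.trans (by simp [hQ0]))
    have := X.one_le_deg
    omega
  have hsub : VV (rat P Q) (frontier S) 1 y ⊆
      ((P - Polynomial.C y * Q).roots.toFinset : Set ℂ) := by
    rintro u ⟨hu, hu1⟩
    simp only [Finset.mem_coe, Multiset.mem_toFinset]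
    rw [Polynomial.mem_roots hne]
    rw [Function.iterate_one] at hu1
    unfold rat at hu1
    rw [div_eq_iff (X.Q_ne (frontier_closure hu))] at hu1
    simp [Polynomial.IsRoot, hu1]
  have hfin := Finset.finite_toSet (P - Polynomial.C y * Q).roots.toFinset
  refine ⟨hfin.subset hsub, (ncard_le_ncard hsub hfin).trans ?_⟩
  rw [ncard_coe_finset]
  refine (Multiset.toFinset_card_le _).trans ((Polynomial.card_roots' _).trans ?_)
  refine (Polynomial.natDegree_sub_le _ _).trans ?_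
  refine max_le_max le_rfl (Polynomial.natDegree_mul_le.trans ?_)
  simp

/-- The boundary with `Z = Zs S φ` satisfies the hypotheses of the count.
Proof: `X.irr`, `rat_frontier`, `fiber_one`, `isClosed_Zs`, `Zs_nonempty`, `Zs_preconnected`, `Zs_rat`, `rel_lift` (with `rel_frontier`),
`lemmaN`. -/
theorem cdata : ∃ (F : Finset ℂ) (T : ℂ → Set ℂ),
    CData (rat P Q) (frontier S) θ (Zs S φ) F T := by
  obtain ⟨F, T, h1, h2, h3⟩ := X.lemmaN
  refine ⟨F, T, ⟨X.irr, fun x hx => X.rat_frontier hx, fun y _ => (X.fiber_one y).1,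
    fun x _ => isClosed_Zs S φ x, fun x hx => X.Zs_nonempty hx, fun x _ ζ hζ => hζ.1,
    fun x hx => X.Zs_preconnected hx, fun x _ ζ hζ => X.Zs_rat hζ, ?_, h1, h2, ?_⟩⟩
  · intro y _ ζ hζ
    obtain ⟨x, hx1, hx2⟩ := X.rel_lift hζ.2
    have hn : ‖(rot θ)⁻¹ * ζ‖ = 1 := by rw [norm_mul, norm_inv, norm_rot, inv_one, one_mul, hζ.1]
    exact ⟨x, X.rel_frontier hx1 hn, hx2, hn, hx1⟩
  · intro x1 _ x2 _ hne heq ζ hζ1 hζ2
    exact h3 x1 x2 ζ hζ1.1 hζ1.2 hζ2.2 hne heq

/-- **Subexponential growth of the number of preimages in the boundary**, if the number of preimages in the common part of the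
impressions grows subexponentially.
Proof: `cdata`, `CData.poly_count`, `count_core` with `Z = Pc S φ` (`Pc_sub`, `Pc_rat`; `y ∉ Pc` means `∃ ζ, ‖ζ‖ = 1 ∧ ζ ∉ Zs S φ y`). -/
theorem count_all (hb : ∀ ε > 0, ∃ B : ℝ, ∀ m : ℕ, ∀ y ∈ Pc S φ,
      ((VV (rat P Q) (Pc S φ) m y).ncard : ℝ) ≤ B * Real.exp (ε * m)) :
    ∀ ε > 0, ∃ B : ℝ, ∀ m : ℕ, ∀ y ∈ frontier S,
      ((VV (rat P Q) (frontier S) m y).ncard : ℝ) ≤ B * Real.exp (ε * m) := by
  obtain ⟨F, T, D⟩ := X.cdata
  obtain ⟨C, e, h⟩ := D.poly_count (fun y _ => (X.fiber_one y).2)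
  refine count_core D.maps D.fin (fun y _ => (X.fiber_one y).2) X.Pc_sub
    (fun x hx => X.Pc_rat hx) (C := C) (e := e) ?_ hb
  intro m y hy hyP
  refine h m y hy ?_
  simp only [Pc, mem_ofPred_eq] at hyP
  push Not at hyP
  obtain ⟨ζ, hζ, hn⟩ := hyP
  exact ⟨ζ, hζ, fun h => hn h.2⟩

/-- Polynomial growth outside the common part. -/
theorem count_poly : ∃ C e : ℕ, ∀ m : ℕ, ∀ y ∈ frontier S, y ∉ Pc S φ →
    (VV (rat P Q) (frontier S) m y).ncard ≤ C * (m + 1) ^ e := by
  obtain ⟨F, T, D⟩ := X.cdata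
  obtain ⟨C, e, h⟩ := D.poly_count (fun y _ => (X.fiber_one y).2)
  refine ⟨C, e, fun m y hy hyP => h m y hy ?_⟩
  simp only [Pc, mem_ofPred_eq] at hyP
  push Not at hyP
  obtain ⟨ζ, hζ, hn⟩ := hyP
  exact ⟨ζ, hζ, fun h => hn h.2⟩

end Siegel

end Pool.Agent.H.MP_e98f69_an
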