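import Pool.Agent.H.MP_e98f69_an.E.VEntB
import Pool.Agent.H.MP_e98f69_an.E.VEntC

/-! Zero entropy from subexponential growth of the number of preimages. -/

set_option autoImplicit false

open Set Filter Topology Metric MeasureTheory

namespace Pool.Agent.H.MP_e98f69_an

variable {f : ℂ → ℂ} {K O : Set ℂ} {D : ℕ}

/-- **Zero entropy from subexponential growth of the number of preimages.**
Proof: as in `entropy_zero` (Entropy.lean): `coverEntropy_eq_iSup_basis Metric.uniformity_basis_dist`; for a scale `s` and `ε` take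
`r ≤ min(s/4, ρ, r0/2)` and `ent_small`. -/
theorem ent_zero (V : VData f K O D) (h : ∀ ε > 0, ∃ B : ℝ, ∀ m : ℕ, ∀ y ∈ K,
      (VV f K m y).Finite ∧ ((VV f K m y).ncard : ℝ) ≤ B * Real.exp (ε * m)) :
    Dynamics.coverEntropy f K = 0 := by
  obtain ⟨r0, hr0, h0⟩ := V.cpt.exists_cthickening_subset_open V.op V.sub
  refine le_antisymm ?_ (Dynamics.coverEntropy_nonneg f V.ne)
  rw [Dynamics.coverEntropy_eq_iSup_basis Metric.uniformity_basis_dist]
  refine iSup₂_le fun s hs => ?_
  have key : ∀ ε : ℝ, 0 < ε →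
      Dynamics.coverEntropyEntourage f K {p : ℂ × ℂ | dist p.1 p.2 < s} ≤ ((3 * ε : ℝ) : EReal) := by
    intro ε hε
    obtain ⟨ρ, hρ, C, hC⟩ := exp_bound V h hε
    set r : ℝ := min (min (s / 4) ρ) (r0 / 2) with hr
    have hs' : (0 : ℝ) < s := hs
    have hrpos : 0 < r := lt_min (lt_min (by positivity) hρ) (by positivity)
    have h1 : 4 * r ≤ s := by
      have : r ≤ s / 4 := (min_le_left _ _).trans (min_le_left _ _)
      linarith
    have h2 : r ≤ ρ := (min_le_left _ _).trans (min_le_right _ _)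
    have h3 : r < r0 := by
      have : r ≤ r0 / 2 := min_le_right _ _
      linarith
    exact ent_small V h0 hrpos h3 hε (fun k p => hC r h2 k p) h1
  by_contra hcon
  rw [not_le] at hcon
  obtain ⟨t, ht0, ht1⟩ := EReal.lt_iff_exists_real_btwn.1 hcon
  have ht : 0 < t := by exact_mod_cast ht0
  have h4 := key (t / 3) (by positivity)
  have h5 : (3 * (t / 3) : ℝ) = t := by ring
  rw [h5] at h4
  exact absurd (ht1.trans_le h4) (lt_irrefl _)

end Pool.Agent.H.MP_e98f69_an
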