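import Pool.Agent.H.MP_e98f69_an.E.Crit
import Pool.Agent.H.MP_e98f69_an.E.Sph
import Pool.Agent.H.MP_e98f69_an.E.VEnt

/-! Subexponential growth of preimages in the boundary implies zero entropy. -/

set_option autoImplicit false

open Set Filter Topology Metric

namespace Pool.Agent.H.MP_e98f69_an

namespace Siegel

variable {P Q : Polynomial ℂ} {S : Set ℂ} {θ : ℝ} {φ : ℂ → ℂ} (X : Siegel P Q S θ φ)

include X

/-- The degree bound off the poles.
Proof: as `fiber_one` in ThmA.lean (roots of `P - C p * Q`, nonzero because `one_le_deg`). -/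
theorem v_deg (p : ℂ) : {z | z ∈ {z : ℂ | Q.eval z ≠ 0} ∧ rat P Q z = p}.encard ≤
    ((max P.natDegree Q.natDegree : ℕ) : ℕ∞) := by
  classical
  have hne : P - Polynomial.C p * Q ≠ 0 := by
    intro h0
    have h1 : P = Polynomial.C p * Q := sub_eq_zero.1 h0
    have hdvd : Q ∣ P := ⟨Polynomial.C p, by rw [h1, mul_comm]⟩
    have hu : IsUnit Q := X.cop.symm.isUnit_of_dvd' (dvd_refl _) hdvd
    have hQ0 : Q.natDegree = 0 := Polynomial.natDegree_eq_zero_of_isUnit hu
    have hP0 : P.natDegree = 0 := by
      rw [h1]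
      exact Nat.le_zero.1 (Polynomial.natDegree_mul_le.trans (by simp [hQ0]))
    have := X.one_le_deg
    omega
  have hsub : {z | z ∈ {z : ℂ | Q.eval z ≠ 0} ∧ rat P Q z = p} ⊆
      ((P - Polynomial.C p * Q).roots.toFinset : Set ℂ) := by
    rintro u ⟨hu, hu1⟩
    simp only [Finset.mem_coe, Multiset.mem_toFinset]
    rw [Polynomial.mem_roots hne]
    unfold rat at hu1
    rw [div_eq_iff hu] at hu1
    simp [Polynomial.IsRoot, hu1]
  refine (encard_le_encard hsub).trans ?_
  rw [encard_coe_eq_coe_finsetCard]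
  refine Nat.cast_le.2 ?_
  refine (Multiset.toFinset_card_le _).trans ((Polynomial.card_roots' _).trans ?_)
  refine (Polynomial.natDegree_sub_le _ _).trans ?_
  refine max_le_max le_rfl (Polynomial.natDegree_mul_le.trans ?_)
  simp

/-- Finitely many critical points.
Proof: `deriv (rat P Q) z = (P' Q - P Q') z / Q z ^ 2`; the polynomial `W = P' Q - P Q'` is not zero: otherwise the derivative of
`rat P Q` vanishes on the open connected set `S` (image of a ball under `X.psi`) and `rat P Q` is constant on it, or directly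
`deriv (rat P Q)` vanishes on `S`, but `φ ∘ rat P Q = rot θ * φ` has nonzero derivative (`deriv_phi_ne`). -/
theorem v_crit : {z | z ∈ frontier S ∧ deriv (rat P Q) z = 0}.Finite := by
  classical
  have hder : ∀ z : ℂ, Q.eval z ≠ 0 → deriv (rat P Q) z =
      (Polynomial.derivative P * Q - P * Polynomial.derivative Q).eval z / Q.eval z ^ 2 := by
    intro z hz
    have h1 := (P.hasDerivAt z).div (Q.hasDerivAt z) hz
    have h2 : deriv (rat P Q) z = _ := h1.deriv
    rw [h2]
    simp
  have h0 : X.psi 0 ∈ S := X.psi_mem zero_mem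
  have hW : Polynomial.derivative P * Q - P * Polynomial.derivative Q ≠ 0 := by
    intro hW
    have h1 := hder _ (X.Q_ne (subset_closure h0))
    rw [hW, Polynomial.eval_zero, zero_div] at h1
    exact X.deriv_rat_ne h0 h1
  refine (Finset.finite_toSet
    (Polynomial.derivative P * Q - P * Polynomial.derivative Q).roots.toFinset).subset ?_
  rintro z ⟨hz, hz1⟩
  simp only [Finset.mem_coe, Multiset.mem_toFinset]
  have hQz := X.Q_ne (frontier_subset_closure hz)
  rw [hder z hQz, div_eq_zero_iff] at hz1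
  rcases hz1 with hz1 | hz1
  · exact (Polynomial.mem_roots hW).2 hz1
  · exact absurd hz1 (pow_ne_zero 2 hQz)

theorem vdata : VData (rat P Q) (frontier S) {z : ℂ | Q.eval z ≠ 0}
    (max P.natDegree Q.natDegree) where
  cpt := X.frontier_compact
  ne := X.frontier_nonempty
  op := isOpen_ne_fun (by fun_prop) continuous_const
  sub := fun _ hz => X.Q_ne (frontier_subset_closure hz)
  dif := fun _ hw => (P.differentiableAt.fun_div Q.differentiableAt hw).differentiableWithinAt
  inv := fun _ hx => X.rat_frontier hx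
  deg := X.v_deg
  crit := X.v_crit
  noper := fun _ hz hd _ hn => X.crit_not_periodic hz hd hn

/-- Volume lemma (section 6 of /team-store/h26_e98f69_DEEP.md). -/
theorem entropy_of_count (h : ∀ ε > 0, ∃ B : ℝ, ∀ m : ℕ, ∀ y ∈ frontier S,
      ((VV (rat P Q) (frontier S) m y).ncard : ℝ) ≤ B * Real.exp (ε * m)) :
    Dynamics.coverEntropy (rat P Q) (frontier S) = 0 := by
  refine ent_zero X.vdata ?_
  have hfin : ∀ y ∈ frontier S, (VV (rat P Q) (frontier S) 1 y).Finite := by
    intro y _
    have h1 : (VV (rat P Q) (frontier S) 1 y) ⊆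
        {z | z ∈ {z : ℂ | Q.eval z ≠ 0} ∧ rat P Q z = y} := fun z hz =>
      ⟨X.Q_ne (frontier_subset_closure hz.1), hz.2⟩
    refine Set.Finite.subset ?_ h1
    exact Set.finite_of_encard_le_coe (X.v_deg y)
  intro ε hε
  obtain ⟨B, hB⟩ := h ε hε
  exact ⟨B, fun m y hy => ⟨VV_finite (fun x hx => X.rat_frontier hx) hfin m hy, hB m y hy⟩⟩

end Siegel

end Pool.Agent.H.MP_e98f69_an
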