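import Pool.Agent.H.MP_e98f69_an.E.ThmA
import Pool.Agent.H.MP_e98f69_an.E.Sep
import Pool.Agent.H.MP_e98f69_an.E.Bas
import Pool.Agent.H.MP_e98f69_an.E.VInt

/-! The main theorems. -/

set_option autoImplicit false

open Set Filter Topology Metric

namespace Pool.Agent.H.MP_e98f69_an

namespace Siegel

variable {P Q : Polynomial ℂ} {S : Set ℂ} {θ : ℝ} {φ : ℂ → ℂ} (X : Siegel P Q S θ φ)

include X

/-- Theorem A. -/
theorem entropy_core (hb : ∀ ε > 0, ∃ B : ℝ, ∀ m : ℕ, ∀ y ∈ Pc S φ,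
      ((VV (rat P Q) (Pc S φ) m y).ncard : ℝ) ≤ B * Real.exp (ε * m)) :
    Dynamics.coverEntropy (rat P Q) (frontier S) = 0 :=
  X.entropy_of_count (X.count_all hb)

/-- If the common part of the impressions is finite, then its preimage counts are bounded. -/
theorem core_finite (hfin : (Pc S φ).Finite) : ∀ ε > 0, ∃ B : ℝ, ∀ m : ℕ, ∀ y ∈ Pc S φ,
      ((VV (rat P Q) (Pc S φ) m y).ncard : ℝ) ≤ B * Real.exp (ε * m) := by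
  intro ε hε
  refine ⟨(Pc S φ).ncard, fun m y _ => ?_⟩
  have h1 : (VV (rat P Q) (Pc S φ) m y).ncard ≤ (Pc S φ).ncard :=
    ncard_le_ncard (fun u hu => hu.1) hfin
  have h2 : (1 : ℝ) ≤ Real.exp (ε * m) := Real.one_le_exp (by positivity)
  have h3 : ((VV (rat P Q) (Pc S φ) m y).ncard : ℝ) ≤ ((Pc S φ).ncard : ℝ) := by exact_mod_cast h1
  have h4 : (0 : ℝ) ≤ ((Pc S φ).ncard : ℝ) := by positivity
  nlinarith

/-- Theorem B. -/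
theorem dichotomy {U : Set ℂ} (hU : IsOpen U) (hUc : IsPreconnected U)
    (hUS : Disjoint U (closure S)) (hfr : frontier S ⊆ closure U) :
    (∀ ζ : ℂ, ‖ζ‖ = 1 → ∀ x ∈ frontier S, rel S φ ζ x) ∨
    ((∀ ζ1 ζ2 : ℂ, ‖ζ1‖ = 1 → ‖ζ2‖ = 1 → ζ1 ≠ ζ2 → ∀ x, rel S φ ζ1 x → ¬ rel S φ ζ2 x) ∧
      (∀ x ∈ frontier S, ∀ n : ℕ, 1 ≤ n → (rat P Q)^[n] x ≠ x) ∧
      Dynamics.coverEntropy (rat P Q) (frontier S) = 0) := by
  by_cases hmeet : ∃ ζ1 ζ2 x : ℂ, ‖ζ1‖ = 1 ∧ ‖ζ2‖ = 1 ∧ ζ1 ≠ ζ2 ∧ rel S φ ζ1 x ∧ rel S φ ζ2 x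
  · obtain ⟨ζ1, ζ2, x, h1, h2, hne, hr1, hr2⟩ := hmeet
    left
    intro ζ hζ x hx
    exact X.full_of_meet hU hUc hUS hfr h1 h2 hne hr1 hr2 hx ζ hζ
  · right
    have hdis : ∀ ζ1 ζ2 : ℂ, ‖ζ1‖ = 1 → ‖ζ2‖ = 1 → ζ1 ≠ ζ2 → ∀ x, rel S φ ζ1 x →
        ¬ rel S φ ζ2 x := fun ζ1 ζ2 h1 h2 hne x hr1 hr2 => hmeet ⟨ζ1, ζ2, x, h1, h2, hne, hr1, hr2⟩
    have hP : Pc S φ = ∅ := by
      rw [eq_empty_iff_forall_notMem]
      intro x hx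
      exact hdis 1 (-1) (by simp) (by simp) (by norm_num) x (hx 1 (by simp)) (hx (-1) (by simp))
    refine ⟨hdis, fun x hx n hn hper => ?_, X.entropy_core (X.core_finite (by rw [hP]; exact finite_empty))⟩
    have := X.periodic_Pc hx hn hper
    rw [hP] at this
    exact this

end Siegel

end Pool.Agent.H.MP_e98f69_an
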