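import Pool.Agent.H.MP_e98f69_an.E.Tree

/-! Preimages along orbits close to an invariant compact set. -/

set_option autoImplicit false

open Set Filter Topology Metric

namespace Pool.Agent.H.MP_e98f69_an

/-- points `z` with `f^[m] z = p` whose orbit up to time `m` stays in the closed `r`-neighbourhood of `K` -/
def AA (f : ℂ → ℂ) (K : Set ℂ) (r : ℝ) (m : ℕ) (p : ℂ) : Set ℂ :=
  {z | f^[m] z = p ∧ ∀ j ≤ m, f^[j] z ∈ cthickening r K}

/-- the setting of the volume argument -/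
structure VData (f : ℂ → ℂ) (K O : Set ℂ) (D : ℕ) : Prop where
  cpt : IsCompact K
  ne : K.Nonempty
  op : IsOpen O
  sub : K ⊆ O
  dif : DifferentiableOn ℂ f O
  inv : MapsTo f K K
  deg : ∀ p, {z | z ∈ O ∧ f z = p}.encard ≤ D
  crit : {z | z ∈ K ∧ deriv f z = 0}.Finite
  noper : ∀ z ∈ K, deriv f z = 0 → ∀ n, 1 ≤ n → f^[n] z ≠ z

/-- A union of at most `A` sets with at most `B` elements. -/
theorem encard_biUnion_le {α β : Type*} {s : Set α} {t : α → Set β} {A B : ℕ} (hs : s.encard ≤ A)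
    (ht : ∀ a ∈ s, (t a).encard ≤ B) : (⋃ a ∈ s, t a).encard ≤ ((A * B : ℕ) : ℕ∞) := by
  have hfin : s.Finite := Set.finite_of_encard_le_coe hs
  have h1 : (⋃ a ∈ s, t a) = ⋃ a ∈ hfin.toFinset, t a := by
    simp
  have h2 := hfin.toFinset.set_encard_biUnion_le t
  rw [h1]
  refine h2.trans ?_
  have h3 : ∑ a ∈ hfin.toFinset, (t a).encard ≤ ∑ _a ∈ hfin.toFinset, (B : ℕ∞) :=
    Finset.sum_le_sum fun a ha => ht a (hfin.mem_toFinset.1 ha)
  refine h3.trans ?_
  rw [Finset.sum_const, nsmul_eq_mul]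
  have h4 : ((hfin.toFinset.card : ℕ) : ℕ∞) = s.encard := hfin.encard_eq_coe_toFinset_card.symm
  rw [h4, Nat.cast_mul]
  exact mul_le_mul_left hs _

theorem AA_mono {f : ℂ → ℂ} {K : Set ℂ} {r r' : ℝ} (h : r ≤ r') (m : ℕ) (p : ℂ) :
    AA f K r m p ⊆ AA f K r' m p := fun _ hz => ⟨hz.1, fun j hj => cthickening_mono h K (hz.2 j hj)⟩

/-- The points of level `l + k` lie over the points of level `l` (`w = f^[k] z`; `f^[l + k] z = f^[l] (f^[k] z)`). -/
theorem AA_add {f : ℂ → ℂ} {K : Set ℂ} {r : ℝ} {k l A B : ℕ}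
    (hk : ∀ p, (AA f K r k p).encard ≤ A) (hl : ∀ p, (AA f K r l p).encard ≤ B) (p : ℂ) :
    (AA f K r (l + k) p).encard ≤ ((B * A : ℕ) : ℕ∞) := by
  have h : AA f K r (l + k) p ⊆ ⋃ w ∈ AA f K r l p, AA f K r k w := by
    intro z hz
    have hw : f^[l] (f^[k] z) = p := by
      rw [← Function.iterate_add_apply]
      exact hz.1
    refine mem_biUnion (x := f^[k] z) ⟨hw, fun j hj => ?_⟩ ⟨rfl, fun j hj => hz.2 j (by omega)⟩
    rw [← Function.iterate_add_apply]
    exact hz.2 (j + k) (by omega)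
  exact (encard_le_encard h).trans (encard_biUnion_le (hl p) (fun a _ => hk a))

/-- `AA` at level `1` has at most `D` points, at level `0` at most one, so by `AA_add` at level `m` at most `D ^ m`. -/
theorem AA_le {f : ℂ → ℂ} {K O : Set ℂ} {D : ℕ} (V : VData f K O D) {r : ℝ}
    (hr : cthickening r K ⊆ O) (m : ℕ) (p : ℂ) : (AA f K r m p).encard ≤ ((D ^ m : ℕ) : ℕ∞) := by
  induction m generalizing p with
  | zero =>
    have h : AA f K r 0 p ⊆ {p} := fun z hz => hz.1
    refine (encard_le_encard h).trans ?_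
    rw [encard_singleton]
    simp
  | succ m ih =>
    have h1 : ∀ q, (AA f K r 1 q).encard ≤ (D : ℕ∞) := by
      intro q
      refine (encard_le_encard ?_).trans (V.deg q)
      intro z hz
      exact ⟨hr (hz.2 0 (Nat.zero_le _)), hz.1⟩
    have h2 := AA_add (l := m) h1 ih p
    rw [pow_succ]
    exact h2

/-- `1 ≤ D`: a point of `K` is a preimage of its image. -/
theorem VData.one_le {f : ℂ → ℂ} {K O : Set ℂ} {D : ℕ} (V : VData f K O D) : 1 ≤ D := by
  obtain ⟨z, hz⟩ := V.ne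
  have h1 : (1 : ℕ∞) ≤ {w | w ∈ O ∧ f w = f z}.encard :=
    one_le_encard_iff_nonempty.2 ⟨z, V.sub hz, rfl⟩
  have h2 := h1.trans (V.deg (f z))
  exact_mod_cast h2

/-- Submultiplicativity: `k = m * q + j`, `j < m` (`AA_add`, `AA_le`, induction on `q`). -/
theorem AA_pow {f : ℂ → ℂ} {K O : Set ℂ} {D : ℕ} (V : VData f K O D) {r : ℝ}
    (hr : cthickening r K ⊆ O) {m M : ℕ} (hm : 1 ≤ m) (h : ∀ p, (AA f K r m p).encard ≤ M)
    (k : ℕ) (p : ℂ) : (AA f K r k p).encard ≤ ((M ^ (k / m) * D ^ m : ℕ) : ℕ∞) := by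
  have key : ∀ q j p, (AA f K r (m * q + j) p).encard ≤ ((M ^ q * D ^ j : ℕ) : ℕ∞) := by
    intro q
    induction q with
    | zero =>
      intro j p
      rw [mul_zero, zero_add, pow_zero, one_mul]
      exact AA_le V hr j p
    | succ q ih =>
      intro j p
      have h1 := AA_add (l := m * q + j) (k := m) h (ih j) p
      have e1 : m * (q + 1) + j = m * q + j + m := by ring
      have e2 : M ^ (q + 1) * D ^ j = M ^ q * D ^ j * M := by ring
      rw [e1, e2]
      exact h1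
  have h1 := key (k / m) (k % m) p
  rw [Nat.div_add_mod] at h1
  refine h1.trans ?_
  have h2 : D ^ (k % m) ≤ D ^ m := Nat.pow_le_pow_right V.one_le (Nat.mod_lt _ hm).le
  exact_mod_cast Nat.mul_le_mul_left _ h2

end Pool.Agent.H.MP_e98f69_an
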