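import Mathlib

/-! Countable decomposition into pieces of injectivity. -/

set_option autoImplicit false

open Set Filter Topology Metric MeasureTheory

namespace Pool.Agent.H.MP_e98f69_an

/-- a neighbourhood of injectivity -/
theorem varea_b_nhds {V : Set ℂ} (hV : IsOpen V) {f : ℂ → ℂ} (hf : DifferentiableOn ℂ f V)
    {z : ℂ} (hz : z ∈ V) (hd : deriv f z ≠ 0) : ∃ U : Set ℂ, IsOpen U ∧ z ∈ U ∧ U ⊆ V ∧
      InjOn f U := by
  have ha : AnalyticAt ℂ f z := hf.analyticAt (hV.mem_nhds hz)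
  have hs : HasStrictDerivAt f (deriv f z) z := ha.hasStrictDerivAt
  have hs2 := hs.hasStrictFDerivAt_equiv hd
  refine ⟨V ∩ (hs2.toOpenPartialHomeomorph f).source, hV.inter
    (hs2.toOpenPartialHomeomorph f).open_source, ⟨hz, hs2.mem_toOpenPartialHomeomorph_source⟩,
    inter_subset_left, ?_⟩
  have h1 := (hs2.toOpenPartialHomeomorph f).injOn
  rw [hs2.toOpenPartialHomeomorph_coe] at h1
  exact h1.mono inter_subset_right

/-- Countable decomposition into measurable pieces on which `f` is injective.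
Proof: every point of the open set `{z ∈ V | deriv f z ≠ 0}` has an open neighbourhood in `V` on which `f` is injective
(`HasStrictDerivAt`, e.g. `HasStrictFDerivAt.toOpenPartialHomeomorph` or `AnalyticAt` ...); countable subcover
(`TopologicalSpace.isOpen_iUnion_countable` / `TopologicalSpace.countable_cover_nhds`), then `disjointed`. -/
theorem area_pieces {V : Set ℂ} (hV : IsOpen V) {f : ℂ → ℂ} (hf : DifferentiableOn ℂ f V) :
    ∃ B : ℕ → Set ℂ, (∀ i, MeasurableSet (B i)) ∧ (∀ i, B i ⊆ V) ∧ (∀ i, InjOn f (B i)) ∧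
      Pairwise (fun i j => Disjoint (B i) (B j)) ∧ ∀ z ∈ V, deriv f z ≠ 0 → z ∈ ⋃ i, B i := by
  classical
  have h1 : ∀ z : ℂ, ∃ U : Set ℂ, IsOpen U ∧ U ⊆ V ∧ InjOn f U ∧
      (z ∈ V → deriv f z ≠ 0 → z ∈ U) := by
    intro z
    by_cases h : z ∈ V ∧ deriv f z ≠ 0
    · obtain ⟨U, h2, h3, h4, h5⟩ := varea_b_nhds hV hf h.1 h.2
      exact ⟨U, h2, h4, h5, fun _ _ => h3⟩
    · exact ⟨∅, isOpen_empty, empty_subset _, injOn_empty _, fun h2 h3 => absurd ⟨h2, h3⟩ h⟩
  choose U hU1 hU2 hU3 hU4 using h1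
  obtain ⟨t, ht1, ht2, ht3⟩ := TopologicalSpace.countable_cover_nhdsWithin
    (s := {z | z ∈ V ∧ deriv f z ≠ 0}) (f := U) fun z hz =>
      mem_nhdsWithin_of_mem_nhds ((hU1 z).mem_nhds (hU4 z hz.1 hz.2))
  obtain ⟨u, hu⟩ : ∃ u : ℕ → ℂ, t ⊆ range u := by
    rcases t.eq_empty_or_nonempty with h | h
    · exact ⟨fun _ => 0, by rw [h]; exact empty_subset _⟩
    · obtain ⟨u, hu⟩ := ht2.exists_eq_range h
      exact ⟨u, hu.subset⟩
  refine ⟨disjointed fun n => U (u n), fun i => MeasurableSet.disjointed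
    (fun n => (hU1 (u n)).measurableSet) i, fun i => (disjointed_subset _ i).trans (hU2 _),
    fun i => (hU3 (u i)).mono (disjointed_subset _ i), disjoint_disjointed _, fun z hz hd => ?_⟩
  rw [iUnion_disjointed]
  obtain ⟨w, hw, hzw⟩ := mem_iUnion₂.1 (ht3 ⟨hz, hd⟩)
  obtain ⟨n, rfl⟩ := hu hw
  exact mem_iUnion.2 ⟨n, hzw⟩

end Pool.Agent.H.MP_e98f69_an
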