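import Mathlib

/-! Counting the images of the pieces. -/

set_option autoImplicit false

open Set Filter Topology Metric MeasureTheory

namespace Pool.Agent.H.MP_e98f69_an

/-- Images counted with multiplicity.
Proof: `∑ i, volume (f '' B i) = ∫⁻ ∑ i, indicator (f '' B i) 1` (`lintegral_tsum`), and at every `p` the sum is at most
`N * indicator A 1 p`: for a finite set `s` of indices `i` with `p ∈ f '' B i` the preimages of `p` in the `B i` are different, so
`s.card ≤ N` (`ENNReal.tsum_eq_iSup_sum`), and the sum is `0` if `p ∉ A`. -/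
theorem area_count {V A : Set ℂ} {f : ℂ → ℂ} (hA : MapsTo f V A) {N : ℕ}
    (hN : ∀ p, {z | z ∈ V ∧ f z = p}.encard ≤ N) {B : ℕ → Set ℂ} (hBV : ∀ i, B i ⊆ V)
    (hd : Pairwise (fun i j => Disjoint (B i) (B j))) (hm : ∀ i, MeasurableSet (f '' B i)) :
    ∑' i, volume (f '' B i) ≤ N * volume A := by
  classical
  have h1 : ∀ p : ℂ, ∑' i, (f '' B i).indicator (1 : ℂ → ENNReal) p ≤
      N * (toMeasurable volume A).indicator (1 : ℂ → ENNReal) p := by
    intro p
    by_cases hp : p ∈ toMeasurable volume A
    · rw [Set.indicator_of_mem hp, Pi.one_apply, mul_one, ENNReal.tsum_eq_iSup_sum]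
      refine iSup_le fun s => ?_
      have h2 : ∑ i ∈ s, (f '' B i).indicator (1 : ℂ → ENNReal) p =
          ((s.filter fun i => p ∈ f '' B i).card : ENNReal) := by
        rw [Finset.card_filter, Nat.cast_sum]
        refine Finset.sum_congr rfl fun i _ => ?_
        by_cases hi : p ∈ f '' B i
        · rw [Set.indicator_of_mem hi, if_pos hi, Pi.one_apply, Nat.cast_one]
        · rw [Set.indicator_of_notMem hi, if_neg hi, Nat.cast_zero]
      rw [h2]
      have h3 : ∀ i : {i // i ∈ s.filter fun i => p ∈ f '' B i}, ∃ z ∈ B i.1, f z = p :=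
        fun i => (Finset.mem_filter.1 i.2).2
      choose g hg hgf using h3
      have h4 : Function.Injective g := by
        intro i j hij
        by_contra hne
        have h5 : i.1 ≠ j.1 := fun h => hne (Subtype.ext h)
        exact Set.disjoint_left.1 (hd h5) (hg i) (hij ▸ hg j)
      have h6 : ((s.filter fun i => p ∈ f '' B i).card : ℕ∞) ≤ N := by
        refine le_trans ?_ (hN p)
        have h7 : Set.range g ⊆ {z | z ∈ V ∧ f z = p} := by
          rintro _ ⟨i, rfl⟩
          exact ⟨hBV _ (hg i), hgf i⟩
        refine le_trans (le_of_eq ?_) (Set.encard_le_encard h7)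
        rw [← Set.image_univ, h4.encard_image, Set.encard_univ, ENat.card_eq_coe_fintype_card,
          Fintype.card_coe]
      exact_mod_cast h6
    · have h2 : ∀ i, (f '' B i).indicator (1 : ℂ → ENNReal) p = 0 := by
        intro i
        refine Set.indicator_of_notMem ?_ _
        rintro ⟨z, hz, rfl⟩
        exact hp (subset_toMeasurable volume A (hA (hBV i hz)))
      simp only [h2, tsum_zero]
      exact zero_le
  calc ∑' i, volume (f '' B i) = ∑' i, ∫⁻ p, (f '' B i).indicator (1 : ℂ → ENNReal) p := by
        refine tsum_congr fun i => ?_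
        rw [lintegral_indicator_one (hm i)]
    _ = ∫⁻ p, ∑' i, (f '' B i).indicator (1 : ℂ → ENNReal) p := by
        rw [lintegral_tsum]
        intro i
        exact (measurable_one.indicator (hm i)).aemeasurable
    _ ≤ ∫⁻ p, N * (toMeasurable volume A).indicator (1 : ℂ → ENNReal) p := lintegral_mono h1
    _ = N * volume A := by
        rw [lintegral_const_mul _ (measurable_one.indicator (measurableSet_toMeasurable _ _)),
          lintegral_indicator_one (measurableSet_toMeasurable _ _), measure_toMeasurable]

end Pool.Agent.H.MP_e98f69_an
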