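import Pool.Agent.H.MP_e98f69_an.E.VAreaA
import Pool.Agent.H.MP_e98f69_an.E.VAreaB
import Pool.Agent.H.MP_e98f69_an.E.VAreaC

/-! Area of images counted with multiplicity. -/

set_option autoImplicit false

open Set Filter Topology Metric MeasureTheory

namespace Pool.Agent.H.MP_e98f69_an

/-- **Area with multiplicity.** -/
theorem area_mult {V A : Set ℂ} (hV : IsOpen V) {f : ℂ → ℂ} (hf : DifferentiableOn ℂ f V)
    (hA : MapsTo f V A) {N : ℕ} (hN : ∀ p, {z | z ∈ V ∧ f z = p}.encard ≤ N) :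
    ∫⁻ z in V, ENNReal.ofReal (‖deriv f z‖ ^ 2) ≤ N * volume A := by
  obtain ⟨B, hBm, hBV, hBi, hBd, hBc⟩ := area_pieces hV hf
  have hdiff : ∀ z ∈ V, DifferentiableAt ℂ f z := fun z hz => hf.differentiableAt (hV.mem_nhds hz)
  have h1 : ∀ i, ∫⁻ z in B i, ENNReal.ofReal (‖deriv f z‖ ^ 2) = volume (f '' B i) ∧
      MeasurableSet (f '' B i) := fun i => area_inj (hBm i) (fun z hz => hdiff z (hBV i hz)) (hBi i)
  have hUm : MeasurableSet (⋃ i, B i) := MeasurableSet.iUnion hBm
  have h2 : ∫⁻ z in V, ENNReal.ofReal (‖deriv f z‖ ^ 2) ≤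
      ∫⁻ z in ⋃ i, B i, ENNReal.ofReal (‖deriv f z‖ ^ 2) := by
    rw [← lintegral_indicator hV.measurableSet, ← lintegral_indicator hUm]
    refine lintegral_mono fun z => ?_
    by_cases hz : z ∈ V
    · by_cases hd : deriv f z = 0
      · rw [indicator_of_mem hz, hd]
        simp
      · rw [indicator_of_mem hz, indicator_of_mem (hBc z hz hd)]
    · rw [indicator_of_notMem hz]
      exact zero_le
  refine h2.trans ?_
  rw [lintegral_iUnion hBm hBd]
  simp_rw [fun i => (h1 i).1]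
  exact area_count hA hN hBV hBd (fun i => (h1 i).2)

end Pool.Agent.H.MP_e98f69_an
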