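import Mathlib

/-! Area of injective images. -/

set_option autoImplicit false

open Set Filter Topology Metric MeasureTheory

namespace Pool.Agent.H.MP_e98f69_an

theorem vareaa_det (c : ℂ) :
    |(((ContinuousLinearMap.toSpanSingleton ℂ c).restrictScalars ℝ : ℂ →L[ℝ] ℂ)).det| =
      ‖c‖ ^ 2 := by
  have h1 : ((ContinuousLinearMap.toSpanSingleton ℂ c).restrictScalars ℝ : ℂ →L[ℝ] ℂ).det =
      Algebra.norm ℝ c := by
    rw [ContinuousLinearMap.det]
    have h2 : (((ContinuousLinearMap.toSpanSingleton ℂ c).restrictScalars ℝ : ℂ →L[ℝ] ℂ) :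
        ℂ →ₗ[ℝ] ℂ) = ((ContinuousLinearMap.toSpanSingleton ℂ c : ℂ →L[ℂ] ℂ) :
        ℂ →ₗ[ℂ] ℂ).restrictScalars ℝ := rfl
    rw [h2, LinearMap.det_restrictScalars]
    congr 1
    have h3 := ContinuousLinearMap.det_toSpanSingleton (𝕜 := ℂ) c
    exact h3
  rw [h1, Algebra.norm_complex_apply, Complex.normSq_eq_norm_sq, abs_of_nonneg (sq_nonneg _)]

/-- Change of variables for an injective holomorphic function on a measurable set.
Proof: `lintegral_abs_det_fderiv_eq_addHaar_image volume` for the real derivative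
(`HasDerivAt.hasFDerivAt`, `.restrictScalars ℝ`), whose determinant is `‖deriv f z‖ ^ 2`
(search Mathlib for `Complex` ... `det`: `ContinuousLinearMap.det`, `LinearMap.det_restrictScalars`, or compute with
`Complex.basisOneI`; `(ContinuousLinearMap.smulRight 1 c).restrictScalars` has matrix `![![a, -b], ![b, a]]`). -/
theorem area_inj {B : Set ℂ} (hB : MeasurableSet B) {f : ℂ → ℂ}
    (hf : ∀ z ∈ B, DifferentiableAt ℂ f z) (hi : InjOn f B) :
    ∫⁻ z in B, ENNReal.ofReal (‖deriv f z‖ ^ 2) = volume (f '' B) ∧ MeasurableSet (f '' B) := by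
  have hd : ∀ z ∈ B, HasFDerivWithinAt f
      ((ContinuousLinearMap.toSpanSingleton ℂ (deriv f z)).restrictScalars ℝ : ℂ →L[ℝ] ℂ) B z := by
    intro z hz
    exact ((hf z hz).hasDerivAt.hasFDerivAt.restrictScalars ℝ).hasFDerivWithinAt
  refine ⟨?_, measurable_image_of_fderivWithin hB hd hi⟩
  rw [← lintegral_abs_det_fderiv_eq_addHaar_image volume hB hd hi]
  refine lintegral_congr fun z => ?_
  rw [vareaa_det]

end Pool.Agent.H.MP_e98f69_an
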