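import Pool.Agent.H.MP_e98f69_an.E.VDbarA

/-! Rules for the operator `2 ∂/∂z̄`. -/

set_option autoImplicit false

open Set Filter Topology Metric MeasureTheory

namespace Pool.Agent.H.MP_e98f69_an

theorem dbar_mul {F G : ℂ → ℂ} {z : ℂ} (hF : DifferentiableAt ℝ F z) (hG : DifferentiableAt ℝ G z) :
    dbar (fun w => F w * G w) z = dbar F z * G z + F z * dbar G z := by
  have h1 := hF.hasFDerivAt.fun_mul hG.hasFDerivAt
  unfold dbar
  rw [h1.fderiv]
  simp only [ContinuousLinearMap.add_apply, ContinuousLinearMap.smul_apply, smul_eq_mul]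
  ring

theorem dbar_sum {ι : Type*} (s : Finset ι) {F : ι → ℂ → ℂ} {z : ℂ}
    (hF : ∀ i ∈ s, DifferentiableAt ℝ (F i) z) :
    dbar (fun w => ∑ i ∈ s, F i w) z = ∑ i ∈ s, dbar (F i) z := by
  unfold dbar
  rw [(HasFDerivAt.fun_sum fun i hi => (hF i hi).hasFDerivAt).fderiv]
  rw [_root_.sum_apply, _root_.sum_apply, Finset.mul_sum,
    ← Finset.sum_add_distrib]

/-- `dbar` kills holomorphic functions -/
theorem dbar_hol {F : ℂ → ℂ} {z : ℂ} (hF : DifferentiableAt ℂ F z) : dbar F z = 0 := by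
  unfold dbar
  rw [(hF.hasFDerivAt.restrictScalars ℝ).fderiv]
  show fderiv ℂ F z 1 + Complex.I * fderiv ℂ F z Complex.I = 0
  have h : fderiv ℂ F z Complex.I = Complex.I * fderiv ℂ F z 1 := by
    have := (fderiv ℂ F z).map_smul Complex.I 1
    simpa using this
  rw [h, ← mul_assoc, Complex.I_mul_I]
  ring

/-- `dbar (conj F) = 2 conj F'` for holomorphic `F` -/
theorem dbar_conj {F : ℂ → ℂ} {z : ℂ} (hF : DifferentiableAt ℂ F z) :
    dbar (fun w => (starRingEnd ℂ) (F w)) z = 2 * (starRingEnd ℂ) (deriv F z) := by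
  have h1 : HasFDerivAt (fun w => (starRingEnd ℂ) (F w))
      ((Complex.conjCLE : ℂ →L[ℝ] ℂ).comp ((fderiv ℂ F z).restrictScalars ℝ)) z :=
    (Complex.conjCLE : ℂ →L[ℝ] ℂ).hasFDerivAt.comp z (hF.hasFDerivAt.restrictScalars ℝ)
  unfold dbar
  rw [h1.fderiv]
  show (starRingEnd ℂ) (fderiv ℂ F z 1) + Complex.I * (starRingEnd ℂ) (fderiv ℂ F z Complex.I) = _
  have h : fderiv ℂ F z Complex.I = Complex.I * fderiv ℂ F z 1 := by
    have := (fderiv ℂ F z).map_smul Complex.I 1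
    simpa using this
  have h2 : fderiv ℂ F z 1 = deriv F z := rfl
  rw [h, h2, map_mul, Complex.conj_I, ← mul_assoc, mul_neg, Complex.I_mul_I]
  ring

/-- chain rule for a real function of a real function -/
theorem dbar_comp {h : ℂ → ℝ} {φ : ℝ → ℝ} {z : ℂ} (hh : DifferentiableAt ℝ h z)
    (hφ : DifferentiableAt ℝ φ (h z)) :
    dbar (fun w => (φ (h w) : ℂ)) z = ((deriv φ (h z) : ℝ) : ℂ) * dbar (fun w => (h w : ℂ)) z := by
  have h1 : HasFDerivAt (fun w => ((φ (h w) : ℝ) : ℂ))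
      (Complex.ofRealCLM.comp (deriv φ (h z) • fderiv ℝ h z)) z :=
    Complex.ofRealCLM.hasFDerivAt.comp z (hφ.hasDerivAt.comp_hasFDerivAt z hh.hasFDerivAt)
  have h2 : HasFDerivAt (fun w => ((h w : ℝ) : ℂ)) (Complex.ofRealCLM.comp (fderiv ℝ h z)) z :=
    Complex.ofRealCLM.hasFDerivAt.comp z hh.hasFDerivAt
  unfold dbar
  rw [h1.fderiv, h2.fderiv]
  show (((deriv φ (h z) * fderiv ℝ h z 1 : ℝ)) : ℂ) +
    Complex.I * (((deriv φ (h z) * fderiv ℝ h z Complex.I : ℝ)) : ℂ) =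
    ((deriv φ (h z) : ℝ) : ℂ) * (((fderiv ℝ h z 1 : ℝ) : ℂ) +
      Complex.I * ((fderiv ℝ h z Complex.I : ℝ) : ℂ))
  push_cast
  ring

end Pool.Agent.H.MP_e98f69_an
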