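import Mathlib

/-! The operator `2 ∂/∂z̄` and its integral over the plane. -/

set_option autoImplicit false

open Set Filter Topology Metric MeasureTheory

namespace Pool.Agent.H.MP_e98f69_an

/-- twice the Wirtinger derivative `∂/∂z̄` -/
noncomputable def dbar (F : ℂ → ℂ) (z : ℂ) : ℂ := fderiv ℝ F z 1 + Complex.I * fderiv ℝ F z Complex.I

/-- The integral of `dbar F` vanishes for a compactly supported `C¹` function.
Proof: both integrals `∫ fderiv ℝ F z v` vanish (`v = 1`, `v = I`): Mathlib has
`integral_mul_fderiv_eq_neg_fderiv_mul_of_integrable` / `integral_bilinear_hasLineDerivAt_right_eq_neg_left_of_integrable`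
in `Mathlib/Analysis/Calculus/LineDeriv/IntegrationByParts.lean`; apply it with a smooth compactly supported function equal to
`1` on the support of `F`, or use Fubini (`Complex.equivRealProd`, volume preserving) and
`integral_eq_zero_of_hasDerivAt_of_integrable` in one variable. -/
theorem integral_dbar_zero {F : ℂ → ℂ} (hF : ContDiff ℝ 1 F) (hs : HasCompactSupport F) :
    ∫ z, dbar F z = 0 := by
  have hcont : ∀ v : ℂ, Continuous fun z => fderiv ℝ F z v := fun v =>
    (hF.continuous_fderiv (by norm_num)).clm_apply continuous_const
  have hint : ∀ v : ℂ, Integrable fun z => fderiv ℝ F z v := fun v =>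
    (hcont v).integrable_of_hasCompactSupport (hs.fderiv_apply ℝ v)
  have key : ∀ v : ℂ, ∫ z, fderiv ℝ F z v = 0 := by
    intro v
    have h0 : ∀ z : ℂ, fderiv ℝ (fun _ : ℂ => (1 : ℝ)) z v = 0 := by
      intro z
      rw [fderiv_fun_const]
      rfl
    have h1 := integral_smul_fderiv_eq_neg_fderiv_smul_of_integrable (𝕜 := ℝ) (μ := volume)
      (f := fun _ : ℂ => (1 : ℝ)) (g := F) (v := v)
      (by
        simp only [h0, zero_smul]
        exact integrable_zero _ _ _)
      (by
        simp only [one_smul]
        exact hint v)
      (by
        simp only [one_smul]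
        exact hF.continuous.integrable_of_hasCompactSupport hs)
      (fun x _ => differentiableAt_const _)
      (fun x _ => hF.differentiable (by norm_num) x)
    simp only [one_smul, h0, zero_smul, integral_zero, neg_zero] at h1
    exact h1
  unfold dbar
  rw [integral_add (hint 1) ((hint Complex.I).const_mul Complex.I), key 1,
    integral_const_mul, key Complex.I, mul_zero, add_zero]

end Pool.Agent.H.MP_e98f69_an
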