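import Pool.Agent.H.MP_e98f69_an.E.VDbar

/-! The functions used in the volume lemma. -/

set_option autoImplicit false

open Set Filter Topology Metric MeasureTheory

namespace Pool.Agent.H.MP_e98f69_an

/-- `h = ∑ |g_k|²` -/
noncomputable def vh (n : ℕ) (g : ℕ → ℂ → ℂ) (z : ℂ) : ℝ := ∑ k ∈ Finset.range n, ‖g k z‖ ^ 2

/-- `J = ∑ |g_k'|²` -/
noncomputable def vJ (n : ℕ) (g : ℕ → ℂ → ℂ) (z : ℂ) : ℝ := ∑ k ∈ Finset.range n, ‖deriv (g k) z‖ ^ 2

/-- `D = ∑ g_k' conj g_k` -/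
noncomputable def vD (n : ℕ) (g : ℕ → ℂ → ℂ) (z : ℂ) : ℂ :=
  ∑ k ∈ Finset.range n, deriv (g k) z * (starRingEnd ℂ) (g k z)

/-- cut-off function -/
noncomputable def vphi (r : ℝ) (t : ℝ) : ℝ := (max 0 (1 - t / r ^ 2)) ^ 2

/-- the test function -/
noncomputable def vF (n : ℕ) (g : ℕ → ℂ → ℂ) (U : Set ℂ) (r s : ℝ) (z : ℂ) : ℂ := by
  classical
  exact if z ∈ U then (vphi r (vh n g z) : ℂ) * (vD n g z * (((vh n g z + s)⁻¹ : ℝ) : ℂ)) else 0

/-- the sublevel set -/
def vW (n : ℕ) (g : ℕ → ℂ → ℂ) (U : Set ℂ) (r : ℝ) : Set ℂ := {z | z ∈ U ∧ vh n g z < r ^ 2}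

lemma vh_nonneg (n : ℕ) (g : ℕ → ℂ → ℂ) (z : ℂ) : 0 ≤ vh n g z :=
  Finset.sum_nonneg fun _ _ => by positivity

lemma vJ_nonneg (n : ℕ) (g : ℕ → ℂ → ℂ) (z : ℂ) : 0 ≤ vJ n g z :=
  Finset.sum_nonneg fun _ _ => by positivity

/-- Cauchy-Schwarz: `|D|² ≤ h J` -/
theorem vD_sq_le (n : ℕ) (g : ℕ → ℂ → ℂ) (z : ℂ) : ‖vD n g z‖ ^ 2 ≤ vh n g z * vJ n g z := by
  have h1 : ‖vD n g z‖ ≤ ∑ k ∈ Finset.range n, ‖g k z‖ * ‖deriv (g k) z‖ := by
    unfold vD
    refine (norm_sum_le _ _).trans (le_of_eq ?_)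
    refine Finset.sum_congr rfl fun k _ => ?_
    rw [norm_mul, RCLike.norm_conj, mul_comm]
  have h2 : ‖vD n g z‖ ^ 2 ≤ (∑ k ∈ Finset.range n, ‖g k z‖ * ‖deriv (g k) z‖) ^ 2 :=
    pow_le_pow_left₀ (norm_nonneg _) h1 2
  exact h2.trans (Finset.sum_mul_sq_le_sq_mul_sq _ _ _)

theorem vdef_max (t : ℝ) : HasDerivAt (fun x : ℝ => (max 0 x) ^ 2) (2 * max 0 t) t := by
  rcases lt_trichotomy t 0 with h | h | h
  · have h1 : (fun x : ℝ => (max 0 x) ^ 2) =ᶠ[𝓝 t] fun _ => 0 := by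
      filter_upwards [Iio_mem_nhds h] with x hx
      rw [max_eq_left (le_of_lt hx)]
      norm_num
    rw [max_eq_left h.le, mul_zero]
    exact (hasDerivAt_const t (0 : ℝ)).congr_of_eventuallyEq h1
  · subst h
    rw [max_self, mul_zero]
    rw [hasDerivAt_iff_isLittleO]
    have h2 : (fun x : ℝ => (max 0 x) ^ 2 - (max 0 (0 : ℝ)) ^ 2 - (x - 0) • (0 : ℝ)) =
        fun x : ℝ => (max 0 x) ^ 2 := by
      funext x
      simp
    have h3 : (fun x' : ℝ => x' - 0) = fun x => x := by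
      funext x
      simp
    rw [h2, h3]
    have h4 : (fun x : ℝ => (max 0 x) ^ 2) =O[𝓝 0] fun x : ℝ => x ^ 2 := by
      refine Asymptotics.IsBigO.of_bound 1 (Eventually.of_forall fun x => ?_)
      rw [one_mul, norm_pow, norm_pow]
      refine pow_le_pow_left₀ (norm_nonneg _) ?_ 2
      rw [Real.norm_eq_abs, Real.norm_eq_abs, abs_of_nonneg (le_max_left _ _)]
      exact max_le (abs_nonneg _) (le_abs_self _)
    refine h4.trans_isLittleO ?_
    have := Asymptotics.isLittleO_pow_id (𝕜 := ℝ) (n := 2) (by norm_num)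
    exact this
  · have h1 : (fun x : ℝ => (max 0 x) ^ 2) =ᶠ[𝓝 t] fun x => x ^ 2 := by
      filter_upwards [Ioi_mem_nhds h] with x hx
      rw [max_eq_right (le_of_lt hx)]
    rw [max_eq_right h.le]
    have h2 := (hasDerivAt_pow 2 t).congr_of_eventuallyEq h1
    simpa using h2

/-- The cut-off function is `C¹` with derivative `-(2/r²) max 0 (1 - t/r²)`. -/
theorem vphi_deriv {r : ℝ} (hr : 0 < r) (t : ℝ) :
    HasDerivAt (vphi r) (-(2 / r ^ 2) * max 0 (1 - t / r ^ 2)) t := by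
  have h1 : HasDerivAt (fun t : ℝ => 1 - t / r ^ 2) (-(1 / r ^ 2)) t :=
    ((hasDerivAt_id t).div_const (r ^ 2)).const_sub 1
  have h2 := (vdef_max (1 - t / r ^ 2)).comp t h1
  refine h2.congr_deriv ?_
  ring

theorem vphi_contDiff {r : ℝ} (hr : 0 < r) : ContDiff ℝ 1 (vphi r) := by
  rw [contDiff_one_iff_deriv]
  refine ⟨fun t => (vphi_deriv hr t).differentiableAt, ?_⟩
  have h1 : deriv (vphi r) = fun t => -(2 / r ^ 2) * max 0 (1 - t / r ^ 2) :=
    funext fun t => (vphi_deriv hr t).deriv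
  rw [h1]
  fun_prop

/-- `h`, `D` are `C¹` (real sense) on `U`, with `dbar h = 2 conj D`, `dbar D = 2 J`.
Proof: `h = ∑ g_k * conj g_k` (as complex functions), `dbar_sum`, `dbar_mul`, `dbar_hol`, `dbar_conj` (the derivative of a
holomorphic function is holomorphic: `DifferentiableOn.deriv`). -/
theorem vh_dbar {n : ℕ} {g : ℕ → ℂ → ℂ} {U : Set ℂ} (hU : IsOpen U)
    (hg : ∀ k < n, DifferentiableOn ℂ (g k) U) {z : ℂ} (hz : z ∈ U) :
    ContDiffAt ℝ 1 (vh n g) z ∧ ContDiffAt ℝ 1 (vD n g) z ∧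
      dbar (fun w => (vh n g w : ℂ)) z = 2 * (starRingEnd ℂ) (vD n g z) ∧
      dbar (vD n g) z = 2 * (vJ n g z : ℂ) := by
  have hUz : U ∈ 𝓝 z := hU.mem_nhds hz
  have han : ∀ k < n, AnalyticAt ℂ (g k) z := fun k hk => (hg k hk).analyticAt hUz
  have hcg : ∀ k < n, ContDiffAt ℝ 1 (g k) z := fun k hk =>
    ((han k hk).contDiffAt (n := 1)).restrict_scalars ℝ
  have hcd : ∀ k < n, ContDiffAt ℝ 1 (deriv (g k)) z := fun k hk =>
    ((han k hk).deriv.contDiffAt (n := 1)).restrict_scalars ℝ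
  have hconj : ContDiff ℝ 1 (fun w : ℂ => (starRingEnd ℂ) w) :=
    (Complex.conjCLE : ℂ →L[ℝ] ℂ).contDiff
  have hcc : ∀ k < n, ContDiffAt ℝ 1 (fun w => (starRingEnd ℂ) (g k w)) z := fun k hk =>
    hconj.contDiffAt.comp z (hcg k hk)
  have hdg : ∀ k < n, DifferentiableAt ℂ (g k) z := fun k hk => (han k hk).differentiableAt
  have hdd : ∀ k < n, DifferentiableAt ℂ (deriv (g k)) z := fun k hk =>
    (han k hk).deriv.differentiableAt
  have hne : (1 : WithTop ℕ∞) ≠ 0 := one_ne_zero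
  refine ⟨?_, ?_, ?_, ?_⟩
  · unfold vh
    refine ContDiffAt.sum fun k hk => ?_
    exact (hcg k (Finset.mem_range.1 hk)).norm_sq ℝ
  · unfold vD
    refine ContDiffAt.sum fun k hk => ?_
    exact (hcd k (Finset.mem_range.1 hk)).mul (hcc k (Finset.mem_range.1 hk))
  · have h1 : (fun w => (vh n g w : ℂ)) =
        fun w => ∑ k ∈ Finset.range n, g k w * (starRingEnd ℂ) (g k w) := by
      funext w
      unfold vh
      push_cast
      refine Finset.sum_congr rfl fun k _ => ?_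
      rw [Complex.mul_conj, Complex.normSq_eq_norm_sq]
      push_cast
      ring
    rw [h1, dbar_sum (F := fun k w => g k w * (starRingEnd ℂ) (g k w))]
    · unfold vD
      rw [map_sum, Finset.mul_sum]
      refine Finset.sum_congr rfl fun k hk => ?_
      have hk := Finset.mem_range.1 hk
      rw [dbar_mul ((hcg k hk).differentiableAt hne) ((hcc k hk).differentiableAt hne),
        dbar_hol (hdg k hk), dbar_conj (hdg k hk), map_mul, Complex.conj_conj]
      ring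
    · intro k hk
      have hk := Finset.mem_range.1 hk
      exact ((hcg k hk).differentiableAt hne).mul ((hcc k hk).differentiableAt hne)
  · unfold vD
    rw [dbar_sum (F := fun k w => deriv (g k) w * (starRingEnd ℂ) (g k w))]
    · unfold vJ
      push_cast
      rw [Finset.mul_sum]
      refine Finset.sum_congr rfl fun k hk => ?_
      have hk := Finset.mem_range.1 hk
      rw [dbar_mul ((hcd k hk).differentiableAt hne) ((hcc k hk).differentiableAt hne),
        dbar_hol (hdd k hk), dbar_conj (hdg k hk), zero_mul, zero_add, ← mul_assoc,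
        mul_comm (deriv (g k) z) 2, mul_assoc, Complex.mul_conj, Complex.normSq_eq_norm_sq]
      push_cast
      ring
    · intro k hk
      have hk := Finset.mem_range.1 hk
      exact ((hcd k hk).differentiableAt hne).mul ((hcc k hk).differentiableAt hne)

end Pool.Agent.H.MP_e98f69_an
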