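import Pool.Agent.H.MP_e98f69_an.E.VLoc

/-! Exponential bound for the counts near `K`. -/

set_option autoImplicit false

open Set Filter Topology Metric MeasureTheory

namespace Pool.Agent.H.MP_e98f69_an

variable {f : ℂ → ℂ} {K O : Set ℂ} {D : ℕ}

/-- Exponential bound for the counts near `K`, with a uniform radius.
Proof: `c = #crit`. Choose `m ≥ 1` with `B D^c e^{ε m} ≤ e^{2 ε m}` (`B` from `h ε`, `m` large). By
`unif_bound` (with the natural number `B' = ⌊B e^{ε m}⌋₊`) there is `ρ` with `AA f K ρ m p ≤ B' D^c =: M`, `M ≤ e^{2 ε m}`; take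
`ρ` also smaller than some `r0` with `cthickening r0 K ⊆ O` (`AA_mono`). By `AA_pow`:
`AA f K r k p ≤ M^(k/m) D^m ≤ e^{2 ε k} D^m`, since `m * (k/m) ≤ k`. -/
theorem exp_bound (V : VData f K O D) (h : ∀ ε > 0, ∃ B : ℝ, ∀ m : ℕ, ∀ y ∈ K,
      (VV f K m y).Finite ∧ ((VV f K m y).ncard : ℝ) ≤ B * Real.exp (ε * m)) {ε : ℝ} (hε : 0 < ε) :
    ∃ ρ > 0, ∃ C : ℕ, ∀ r ≤ ρ, ∀ k p, ∃ N : ℕ, (AA f K r k p).encard ≤ N ∧
      (N : ℝ) ≤ C * Real.exp (2 * ε * k) := by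
  obtain ⟨B, hB⟩ := h ε hε
  obtain ⟨y0, hy0⟩ := V.ne
  have hB0 : 0 ≤ B := by
    have h1 := (hB 0 y0 hy0).2
    have h2 : (0 : ℝ) ≤ ((VV f K 0 y0).ncard : ℝ) := Nat.cast_nonneg _
    have h3 := h2.trans h1
    exact nonneg_of_mul_nonneg_left h3 (Real.exp_pos _)
  obtain ⟨c, hc⟩ : ∃ c : ℕ, c = {z | z ∈ K ∧ deriv f z = 0}.ncard := ⟨_, rfl⟩
  -- choice of `m`
  have htop : Tendsto (fun m : ℕ => Real.exp (ε * m)) atTop atTop :=
    Real.tendsto_exp_atTop.comp (tendsto_natCast_atTop_atTop.const_mul_atTop hε)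
  obtain ⟨m, hm1, hmB⟩ := ((eventually_ge_atTop 1).and
    (htop.eventually_ge_atTop (B * (D : ℝ) ^ c))).exists
  obtain ⟨B', hB'⟩ : ∃ B' : ℕ, B' = ⌊B * Real.exp (ε * m)⌋₊ := ⟨_, rfl⟩
  have hBn : 0 ≤ B * Real.exp (ε * m) := mul_nonneg hB0 (Real.exp_pos _).le
  have hen : ∀ y ∈ K, (VV f K m y).encard ≤ B' := by
    intro y hy
    obtain ⟨h1, h2⟩ := hB m y hy
    rw [← h1.cast_ncard_eq]
    have h3 : (VV f K m y).ncard ≤ B' := by
      rw [hB']
      exact Nat.le_floor h2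
    exact_mod_cast h3
  obtain ⟨ρ1, hρ1, hun⟩ := unif_bound V m hen
  rw [← hc] at hun
  obtain ⟨ρ2, hρ2, hsub⟩ := V.cpt.exists_cthickening_subset_open V.op V.sub
  obtain ⟨M, hM⟩ : ∃ M : ℕ, M = B' * D ^ c := ⟨_, rfl⟩
  rw [← hM] at hun
  have hMle : (M : ℝ) ≤ Real.exp (2 * ε * m) := by
    have h1 : (B' : ℝ) ≤ B * Real.exp (ε * m) := by
      rw [hB']
      exact Nat.floor_le hBn
    have hD : (0 : ℝ) ≤ (D : ℝ) ^ c := by positivity
    calc (M : ℝ) = (B' : ℝ) * (D : ℝ) ^ c := by rw [hM]; push_cast; ring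
      _ ≤ B * Real.exp (ε * m) * (D : ℝ) ^ c := mul_le_mul_of_nonneg_right h1 hD
      _ = B * (D : ℝ) ^ c * Real.exp (ε * m) := by ring
      _ ≤ Real.exp (ε * m) * Real.exp (ε * m) :=
          mul_le_mul_of_nonneg_right hmB (Real.exp_pos _).le
      _ = Real.exp (2 * ε * m) := by
          rw [← Real.exp_add]
          congr 1
          ring
  refine ⟨min ρ1 ρ2, lt_min hρ1 hρ2, D ^ m, fun r hr k p => ⟨M ^ (k / m) * D ^ m, ?_, ?_⟩⟩
  · refine AA_pow V ((cthickening_mono (hr.trans (min_le_right _ _)) K).trans hsub) hm1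
      (fun q => ?_) k p
    exact (encard_le_encard (AA_mono (hr.trans (min_le_left _ _)) m q)).trans (hun q)
  · have h1 : ((M : ℝ)) ^ (k / m) ≤ Real.exp (2 * ε * k) := by
      calc ((M : ℝ)) ^ (k / m) ≤ Real.exp (2 * ε * m) ^ (k / m) :=
            pow_le_pow_left₀ (Nat.cast_nonneg _) hMle _
        _ = Real.exp (((k / m : ℕ) : ℝ) * (2 * ε * m)) := (Real.exp_nat_mul _ _).symm
        _ ≤ Real.exp (2 * ε * k) := by
            apply Real.exp_le_exp.2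
            have h2 : (((k / m : ℕ) : ℝ)) * (m : ℝ) ≤ (k : ℝ) := by
              exact_mod_cast Nat.div_mul_le_self k m
            have h3 : (0 : ℝ) ≤ 2 * ε := by linarith
            calc ((k / m : ℕ) : ℝ) * (2 * ε * m) = 2 * ε * (((k / m : ℕ) : ℝ) * (m : ℝ)) := by ring
              _ ≤ 2 * ε * k := mul_le_mul_of_nonneg_left h2 h3
    push_cast
    calc ((M : ℝ)) ^ (k / m) * (D : ℝ) ^ m ≤ Real.exp (2 * ε * k) * (D : ℝ) ^ m :=
          mul_le_mul_of_nonneg_right h1 (by positivity)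
      _ = (D : ℝ) ^ m * Real.exp (2 * ε * k) := mul_comm _ _

end Pool.Agent.H.MP_e98f69_an
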