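import Pool.Agent.H.MP_e98f69_an.E.VDef

/-! `dbar` of the test function of the volume lemma. -/

set_option autoImplicit false

open Set Filter Topology Metric MeasureTheory

namespace Pool.Agent.H.MP_e98f69_an

/-- `dbar` of the test function on the sublevel set.
Proof: `dbar_mul`, `dbar_comp` (for `vphi r` and for `t ↦ (t + s)⁻¹`), `vh_dbar`:
`dbar F = 2 [φ'(h) |D|² / (h+s) + φ(h) J / (h+s) - φ(h) |D|² / (h+s)²]`, with `conj D * D = |D|²`. -/
theorem vF_dbar {n : ℕ} {g : ℕ → ℂ → ℂ} {U : Set ℂ} (hU : IsOpen U)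
    (hg : ∀ k < n, DifferentiableOn ℂ (g k) U) {r s : ℝ} (hr : 0 < r) (hs : 0 < s)
    {z : ℂ} (hz : z ∈ U) :
    dbar (vF n g U r s) z = ((2 * (-(2 / r ^ 2) * max 0 (1 - vh n g z / r ^ 2) * ‖vD n g z‖ ^ 2 /
      (vh n g z + s) + vphi r (vh n g z) * (vJ n g z * (vh n g z + s) - ‖vD n g z‖ ^ 2) /
      (vh n g z + s) ^ 2) : ℝ) : ℂ) := by
  obtain ⟨hh, hD, hdh, hdD⟩ := vh_dbar hU hg hz
  have hh' : DifferentiableAt ℝ (vh n g) z := hh.differentiableAt one_ne_zero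
  have hD' : DifferentiableAt ℝ (vD n g) z := hD.differentiableAt one_ne_zero
  have hpos : 0 < vh n g z + s := by linarith [vh_nonneg n g z]
  have hφ : DifferentiableAt ℝ (vphi r) (vh n g z) := (vphi_deriv hr _).differentiableAt
  have hinv : HasDerivAt (fun t : ℝ => (t + s)⁻¹) (-1 / (vh n g z + s) ^ 2) (vh n g z) := by
    exact ((hasDerivAt_id (vh n g z)).add_const s).fun_inv hpos.ne'
  have hev : vF n g U r s =ᶠ[𝓝 z] fun w => (vphi r (vh n g w) : ℂ) *
      (vD n g w * (((vh n g w + s)⁻¹ : ℝ) : ℂ)) := by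
    filter_upwards [hU.mem_nhds hz] with w hw
    unfold vF
    rw [if_pos hw]
  have hdb : dbar (vF n g U r s) z = dbar (fun w => (vphi r (vh n g w) : ℂ) *
      (vD n g w * (((vh n g w + s)⁻¹ : ℝ) : ℂ))) z := by
    unfold dbar
    rw [hev.fderiv_eq]
  have dA : DifferentiableAt ℝ (fun w => (vphi r (vh n g w) : ℂ)) z :=
    Complex.ofRealCLM.differentiableAt.comp z (hφ.comp z hh')
  have dC : DifferentiableAt ℝ (fun w => (((vh n g w + s)⁻¹ : ℝ) : ℂ)) z :=
    Complex.ofRealCLM.differentiableAt.comp z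
      (DifferentiableAt.comp z (g := fun t : ℝ => (t + s)⁻¹) hinv.differentiableAt hh')
  have eA := dbar_comp (φ := vphi r) hh' hφ
  have eC := dbar_comp (φ := fun t : ℝ => (t + s)⁻¹) hh' hinv.differentiableAt
  have dB : DifferentiableAt ℝ (fun w => vD n g w * (((vh n g w + s)⁻¹ : ℝ) : ℂ)) z := hD'.mul dC
  rw [hdb, dbar_mul dA dB, dbar_mul hD' dC]
  have eC' : dbar (fun w => (((vh n g w + s)⁻¹ : ℝ) : ℂ)) z =
      ((deriv (fun t : ℝ => (t + s)⁻¹) (vh n g z) : ℝ) : ℂ) * dbar (fun w => (vh n g w : ℂ)) z := eC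
  rw [eA, eC', hinv.deriv, (vphi_deriv hr _).deriv, hdh, hdD]
  have hnorm : (starRingEnd ℂ) (vD n g z) * vD n g z = ((‖vD n g z‖ : ℝ) : ℂ) ^ 2 :=
    Complex.conj_mul' _
  have hne : ((vh n g z : ℝ) : ℂ) + (s : ℂ) ≠ 0 := by
    rw [← Complex.ofReal_add]; exact_mod_cast hpos.ne'
  push_cast
  generalize vD n g z = D at *
  generalize (starRingEnd ℂ) D = D' at *
  rw [← hnorm]
  field_simp
  ring

end Pool.Agent.H.MP_e98f69_an
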