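import Pool.Agent.H.MP_e98f69_an.E.VFA
import Pool.Agent.H.MP_e98f69_an.E.VFB

/-! The inequality behind the volume lemma. -/

set_option autoImplicit false

open Set Filter Topology Metric MeasureTheory

namespace Pool.Agent.H.MP_e98f69_an

theorem vf_dbar_integrable {F : ℂ → ℂ} (hF : ContDiff ℝ 1 F) (hs : HasCompactSupport F) :
    Integrable (dbar F) := by
  have h1 : Continuous (fderiv ℝ F) := hF.continuous_fderiv one_ne_zero
  have h2 : Continuous (dbar F) := by
    unfold dbar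
    exact (h1.clm_apply continuous_const).add
      (continuous_const.mul (h1.clm_apply continuous_const))
  have h3 : HasCompactSupport (dbar F) :=
    (hs.fderiv ℝ).comp_left (g := fun L : ℂ →L[ℝ] ℂ => L 1 + Complex.I * L Complex.I) (by simp)
  exact h2.integrable_of_hasCompactSupport h3

theorem vf_isOpen {n : ℕ} {g : ℕ → ℂ → ℂ} {U : Set ℂ} (hU : IsOpen U)
    (hg : ∀ k < n, DifferentiableOn ℂ (g k) U) (r : ℝ) : IsOpen (vW n g U r) := by
  have h1 : ContinuousOn (vh n g) U := by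
    unfold vh
    refine continuousOn_finsetSum _ fun k hk => ?_
    exact ((hg k (Finset.mem_range.1 hk)).continuousOn.norm).pow 2
  have h2 := h1.isOpen_inter_preimage hU (isOpen_Iio (a := r ^ 2))
  exact h2

theorem vf_contJ {n : ℕ} {g : ℕ → ℂ → ℂ} {U : Set ℂ} (hU : IsOpen U)
    (hg : ∀ k < n, DifferentiableOn ℂ (g k) U) : ContinuousOn (vJ n g) U := by
  unfold vJ
  refine continuousOn_finsetSum _ fun k hk => ?_
  exact (((hg k (Finset.mem_range.1 hk)).deriv hU).continuousOn.norm).pow 2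

/-- **The inequality.** `∫_W φ(h) s J / (h+s)² ≤ (2/r²) ∫_W J`.
Proof: `integral_dbar_zero`; by `vF_dbar`, `vF_dbar_zero`
`∫_W φ(h) (J (h+s) - |D|²)/(h+s)² = ∫_W (2/r²) max 0 (1-h/r²) |D|²/(h+s)`. On the left `J (h+s) - |D|² ≥ s J` and on the right
`|D|²/(h+s) ≤ h J/(h+s) ≤ J`, `max 0 (1 - h/r²) ≤ 1` (`vD_sq_le`). All integrands are bounded continuous on the compact closure of
`W` (the functions `h, D, J` are continuous on `U`), so everything is integrable on `W`. -/
theorem v_ineq {n : ℕ} {g : ℕ → ℂ → ℂ} {U : Set ℂ} (hU : IsOpen U)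
    (hg : ∀ k < n, DifferentiableOn ℂ (g k) U) {r s : ℝ} (hr : 0 < r) (hs : 0 < s)
    (hW : closure (vW n g U r) ⊆ U) (hWb : Bornology.IsBounded (vW n g U r)) :
    ∫ z in vW n g U r, vphi r (vh n g z) * s * vJ n g z / (vh n g z + s) ^ 2 ≤
      2 / r ^ 2 * ∫ z in vW n g U r, vJ n g z := by
  obtain ⟨hC, hcs⟩ := vF_contDiff hU hg hr hs hW hWb
  have hint := vf_dbar_integrable hC hcs
  have h0 := integral_dbar_zero hC hcs
  have hWo := vf_isOpen hU hg r
  have hWm : MeasurableSet (vW n g U r) := hWo.measurableSet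
  obtain ⟨G, hG⟩ : ∃ G : ℂ → ℝ, G = fun z => -(2 / r ^ 2) * max 0 (1 - vh n g z / r ^ 2) *
      ‖vD n g z‖ ^ 2 / (vh n g z + s) + vphi r (vh n g z) * (vJ n g z * (vh n g z + s) -
      ‖vD n g z‖ ^ 2) / (vh n g z + s) ^ 2 := ⟨_, rfl⟩
  have hGd : ∀ z ∈ vW n g U r, dbar (vF n g U r s) z = ((2 * G z : ℝ) : ℂ) := by
    intro z hz
    rw [vF_dbar hU hg hr hs hz.1, hG]
  have h1 : ∫ z in vW n g U r, dbar (vF n g U r s) z = 0 := by
    rw [setIntegral_eq_integral_of_forall_compl_eq_zero fun z hz =>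
      vF_dbar_zero hU hg hr hs hW hz]
    exact h0
  have h2 : ∫ z in vW n g U r, G z = 0 := by
    rw [setIntegral_congr_fun hWm hGd, integral_complex_ofReal, Complex.ofReal_eq_zero,
      integral_const_mul] at h1
    linarith
  have h3 : IntegrableOn G (vW n g U r) := by
    have h4 : IntegrableOn (fun z => (dbar (vF n g U r s) z).re / 2) (vW n g U r) :=
      (hint.re.div_const 2).integrableOn
    refine h4.congr_fun (fun z hz => ?_) hWm
    show (dbar (vF n g U r s) z).re / 2 = G z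
    rw [hGd z hz, Complex.ofReal_re]
    ring
  have h5 : IntegrableOn (vJ n g) (vW n g U r) := by
    have hcomp : IsCompact (closure (vW n g U r)) := hWb.isCompact_closure
    exact (((vf_contJ hU hg).mono hW).integrableOn_compact hcomp).mono_set subset_closure
  have h6 : ∫ z in vW n g U r, (G z + 2 / r ^ 2 * vJ n g z) =
      2 / r ^ 2 * ∫ z in vW n g U r, vJ n g z := by
    rw [integral_add h3 (h5.const_mul _), h2, zero_add, integral_const_mul]
  rw [← h6]
  refine integral_mono_of_nonneg (Eventually.of_forall fun z => ?_) (h3.add (h5.const_mul _))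
    (Eventually.of_forall fun z => ?_)
  · have e1 := vh_nonneg n g z
    have e2 := vJ_nonneg n g z
    have e3 : 0 ≤ vphi r (vh n g z) := sq_nonneg _
    show 0 ≤ vphi r (vh n g z) * s * vJ n g z / (vh n g z + s) ^ 2
    positivity
  · have e1 := vh_nonneg n g z
    have e2 := vJ_nonneg n g z
    have e3 : 0 ≤ vphi r (vh n g z) := sq_nonneg _
    have e4 := vD_sq_le n g z
    have e5 : 0 < vh n g z + s := by linarith
    show vphi r (vh n g z) * s * vJ n g z / (vh n g z + s) ^ 2 ≤ G z + 2 / r ^ 2 * vJ n g z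
    have e6 : vphi r (vh n g z) * s * vJ n g z / (vh n g z + s) ^ 2 ≤
        vphi r (vh n g z) * (vJ n g z * (vh n g z + s) - ‖vD n g z‖ ^ 2) /
          (vh n g z + s) ^ 2 := by
      apply div_le_div_of_nonneg_right _ (by positivity)
      rw [mul_assoc]
      exact mul_le_mul_of_nonneg_left (by linarith) e3
    have e7 : max 0 (1 - vh n g z / r ^ 2) ≤ 1 := by
      apply max_le zero_le_one
      have : 0 ≤ vh n g z / r ^ 2 := by positivity
      linarith
    have e8 : ‖vD n g z‖ ^ 2 / (vh n g z + s) ≤ vJ n g z := by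
      rw [div_le_iff₀ e5]
      nlinarith
    have e9 : 0 ≤ ‖vD n g z‖ ^ 2 / (vh n g z + s) := by positivity
    have e10 : 2 / r ^ 2 * max 0 (1 - vh n g z / r ^ 2) * ‖vD n g z‖ ^ 2 / (vh n g z + s) ≤
        2 / r ^ 2 * vJ n g z := by
      calc 2 / r ^ 2 * max 0 (1 - vh n g z / r ^ 2) * ‖vD n g z‖ ^ 2 / (vh n g z + s) =
            2 / r ^ 2 * (max 0 (1 - vh n g z / r ^ 2) * (‖vD n g z‖ ^ 2 / (vh n g z + s))) := by
            ring
        _ ≤ 2 / r ^ 2 * (1 * vJ n g z) := by
            apply mul_le_mul_of_nonneg_left _ (by positivity)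
            exact mul_le_mul e7 e8 e9 zero_le_one
        _ = 2 / r ^ 2 * vJ n g z := by rw [one_mul]
    have e11 : -(2 / r ^ 2) * max 0 (1 - vh n g z / r ^ 2) * ‖vD n g z‖ ^ 2 / (vh n g z + s) =
        -(2 / r ^ 2 * max 0 (1 - vh n g z / r ^ 2) * ‖vD n g z‖ ^ 2 / (vh n g z + s)) := by
      ring
    rw [hG]
    show _ ≤ -(2 / r ^ 2) * max 0 (1 - vh n g z / r ^ 2) *
      ‖vD n g z‖ ^ 2 / (vh n g z + s) + vphi r (vh n g z) * (vJ n g z * (vh n g z + s) -
      ‖vD n g z‖ ^ 2) / (vh n g z + s) ^ 2 + 2 / r ^ 2 * vJ n g z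
    rw [e11]
    linarith

end Pool.Agent.H.MP_e98f69_an
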