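import Pool.Agent.H.MP_e98f69_an.E.VDef

/-! The test function of the volume lemma is `C¹`. -/

set_option autoImplicit false

open Set Filter Topology Metric MeasureTheory

namespace Pool.Agent.H.MP_e98f69_an

lemma vfa_phi {r : ℝ} (hr : 0 < r) {t : ℝ} (ht : r ^ 2 ≤ t) : max 0 (1 - t / r ^ 2) = 0 := by
  have h2 : 0 < r ^ 2 := by positivity
  have h3 : 1 ≤ t / r ^ 2 := by rw [le_div_iff₀ h2]; linarith
  exact max_eq_left (by linarith)

lemma vfa_zero {n : ℕ} {g : ℕ → ℂ → ℂ} {U : Set ℂ} {r s : ℝ} (hr : 0 < r) {w : ℂ}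
    (hw : w ∉ vW n g U r) : vF n g U r s w = 0 := by
  unfold vF
  split_ifs with h
  · have h1 : r ^ 2 ≤ vh n g w := by
      by_contra h2
      exact hw ⟨h, not_le.1 h2⟩
    unfold vphi
    rw [vfa_phi hr h1]
    simp
  · rfl

lemma vfa_out {n : ℕ} {g : ℕ → ℂ → ℂ} {U : Set ℂ} {r s : ℝ} (hr : 0 < r) {z : ℂ}
    (hz : z ∉ closure (vW n g U r)) : vF n g U r s =ᶠ[𝓝 z] fun _ => 0 := by
  have h1 : (closure (vW n g U r))ᶜ ∈ 𝓝 z := isClosed_closure.isOpen_compl.mem_nhds hz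
  filter_upwards [h1] with w hw
  exact vfa_zero hr fun h => hw (subset_closure h)

lemma vfa_in {n : ℕ} {g : ℕ → ℂ → ℂ} {U : Set ℂ} (hU : IsOpen U) {r s : ℝ} {z : ℂ} (hz : z ∈ U) :
    vF n g U r s =ᶠ[𝓝 z] fun w => (vphi r (vh n g w) : ℂ) *
      (vD n g w * (((vh n g w + s)⁻¹ : ℝ) : ℂ)) := by
  filter_upwards [hU.mem_nhds hz] with w hw
  unfold vF
  rw [if_pos hw]

lemma vfa_G {n : ℕ} {g : ℕ → ℂ → ℂ} {U : Set ℂ} (hU : IsOpen U)
    (hg : ∀ k < n, DifferentiableOn ℂ (g k) U) {s : ℝ} (hs : 0 < s) {z : ℂ} (hz : z ∈ U) :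
    ContDiffAt ℝ 1 (fun w => vD n g w * (((vh n g w + s)⁻¹ : ℝ) : ℂ)) z := by
  obtain ⟨h1, h2, -, -⟩ := vh_dbar hU hg hz
  have h3 : ContDiffAt ℝ 1 (fun w => (vh n g w + s)⁻¹) z := by
    refine (h1.add contDiffAt_const).inv ?_
    have := vh_nonneg n g z
    exact ne_of_gt (by linarith)
  exact h2.mul (Complex.ofRealCLM.contDiff.contDiffAt.comp z h3)

lemma vfa_P {n : ℕ} {g : ℕ → ℂ → ℂ} {U : Set ℂ} (hU : IsOpen U)
    (hg : ∀ k < n, DifferentiableOn ℂ (g k) U) {r : ℝ} (hr : 0 < r) {z : ℂ} (hz : z ∈ U) :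
    ContDiffAt ℝ 1 (fun w => (vphi r (vh n g w) : ℂ)) z := by
  obtain ⟨h1, -, -, -⟩ := vh_dbar hU hg hz
  exact Complex.ofRealCLM.contDiff.contDiffAt.comp z ((vphi_contDiff hr).contDiffAt.comp z h1)

/-- The test function is `C¹` with compact support, if the sublevel set is relatively compact in `U`.
Proof: near a point of `closure (vW ..) ⊆ U` it is the product of `C¹` functions (`vphi_contDiff`, `vh_dbar`, `h + s > 0`), near a
point of the complement of the closure it vanishes (`z ∈ U`, `h z ≥ r²` gives `vphi = 0`). So it is `ContDiffAt` everywhere. Its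
support is contained in `vW`, so the closed support is contained in the compact set `closure (vW ..)`. -/
theorem vF_contDiff {n : ℕ} {g : ℕ → ℂ → ℂ} {U : Set ℂ} (hU : IsOpen U)
    (hg : ∀ k < n, DifferentiableOn ℂ (g k) U) {r s : ℝ} (hr : 0 < r) (hs : 0 < s)
    (hW : closure (vW n g U r) ⊆ U) (hWb : Bornology.IsBounded (vW n g U r)) :
    ContDiff ℝ 1 (vF n g U r s) ∧ HasCompactSupport (vF n g U r s) := by
  refine ⟨?_, ?_⟩
  · rw [contDiff_iff_contDiffAt]
    intro z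
    by_cases hz : z ∈ U
    · exact ((vfa_P hU hg hr hz).mul (vfa_G hU hg hs hz)).congr_of_eventuallyEq (vfa_in hU hz)
    · exact contDiffAt_const.congr_of_eventuallyEq (vfa_out hr fun h => hz (hW h))
  · refine HasCompactSupport.intro
      (Metric.isCompact_of_isClosed_isBounded isClosed_closure hWb.closure) fun x hx => ?_
    exact vfa_zero hr fun h => hx (subset_closure h)

/-- outside the closure of the sublevel set `dbar F = 0`, and also at the points of `U` with `h ≥ r²` -/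
theorem vF_dbar_zero {n : ℕ} {g : ℕ → ℂ → ℂ} {U : Set ℂ} (hU : IsOpen U)
    (hg : ∀ k < n, DifferentiableOn ℂ (g k) U) {r s : ℝ} (hr : 0 < r) (hs : 0 < s)
    (hW : closure (vW n g U r) ⊆ U) {z : ℂ} (hz : z ∉ vW n g U r) : dbar (vF n g U r s) z = 0 := by
  by_cases hzU : z ∈ U
  · have h1 : r ^ 2 ≤ vh n g z := by
      by_contra h2
      exact hz ⟨hzU, not_le.1 h2⟩
    obtain ⟨h2, -, -, -⟩ := vh_dbar hU hg hzU
    have hd := vphi_deriv hr (vh n g z)
    have e1 : dbar (vF n g U r s) z = dbar (fun w => (vphi r (vh n g w) : ℂ) *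
        (vD n g w * (((vh n g w + s)⁻¹ : ℝ) : ℂ))) z := by
      unfold dbar
      rw [(vfa_in hU hzU).fderiv_eq]
    rw [e1, dbar_mul ((vfa_P hU hg hr hzU).differentiableAt (by norm_num))
      ((vfa_G hU hg hs hzU).differentiableAt (by norm_num)),
      dbar_comp (h2.differentiableAt (by norm_num)) hd.differentiableAt, hd.deriv, vfa_phi hr h1]
    have h5 : vphi r (vh n g z) = 0 := by
      unfold vphi
      rw [vfa_phi hr h1]
      norm_num
    rw [h5]
    simp
  · unfold dbar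
    rw [(vfa_out hr fun h => hzU (hW h)).fderiv_eq]
    simp

end Pool.Agent.H.MP_e98f69_an
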