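import Pool.Agent.H.MP_e98f69_an.E.VLocC

/-! The uniform count of preimages near `K`. -/

set_option autoImplicit false

open Set Filter Topology Metric MeasureTheory

namespace Pool.Agent.H.MP_e98f69_an

variable {f : ℂ → ℂ} {K O : Set ℂ} {D : ℕ}

theorem vloc_mono {r r' : ℝ} (h : r ≤ r') (m : ℕ) (p : ℂ) : AA f K r m p ⊆ AA f K r' m p :=
  fun _ hz => ⟨hz.1, fun j hj => cthickening_mono h K (hz.2 j hj)⟩

/-- Uniform bound.
Proof: compactness of `K` (`loc_bound`, `IsCompact.elim_finite_subcover` or `IsCompact.induction_on`), and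
`IsCompact.exists_cthickening_subset_open` for the union of the neighbourhoods; for `p ∉ cthickening ρ K` the set `AA f K ρ m p` is
empty. -/
theorem unif_bound (V : VData f K O D) (m : ℕ) {B : ℕ}
    (hB : ∀ y ∈ K, (VV f K m y).encard ≤ B) : ∃ ρ > 0, ∀ p,
      (AA f K ρ m p).encard ≤ ((B * D ^ {z | z ∈ K ∧ deriv f z = 0}.ncard : ℕ) : ℕ∞) := by
  have h1 : ∃ ρ > 0, ∃ N : Set ℂ, IsOpen N ∧ K ⊆ N ∧ ∀ p ∈ N,
      (AA f K ρ m p).encard ≤ ((B * D ^ {z | z ∈ K ∧ deriv f z = 0}.ncard : ℕ) : ℕ∞) := by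
    refine V.cpt.induction_on (p := fun s => ∃ ρ > 0, ∃ N : Set ℂ, IsOpen N ∧ s ⊆ N ∧ ∀ p ∈ N,
      (AA f K ρ m p).encard ≤ ((B * D ^ {z | z ∈ K ∧ deriv f z = 0}.ncard : ℕ) : ℕ∞)) ?_ ?_ ?_ ?_
    · exact ⟨1, one_pos, ∅, isOpen_empty, Subset.rfl, fun p hp => absurd hp (notMem_empty p)⟩
    · rintro s t hst ⟨ρ, hρ, N, hN, htN, h⟩
      exact ⟨ρ, hρ, N, hN, hst.trans htN, h⟩
    · rintro s t ⟨ρ, hρ, N, hN, hsN, h⟩ ⟨ρ', hρ', N', hN', htN', h'⟩
      refine ⟨min ρ ρ', lt_min hρ hρ', N ∪ N', hN.union hN', union_subset_union hsN htN', ?_⟩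
      rintro p (hp | hp)
      · exact (encard_le_encard (vloc_mono (min_le_left _ _) m p)).trans (h p hp)
      · exact (encard_le_encard (vloc_mono (min_le_right _ _) m p)).trans (h' p hp)
    · intro y hy
      obtain ⟨ρ, hρ, N, hN, hyN, h⟩ := loc_bound V m hy (hB y hy)
      exact ⟨N, mem_nhdsWithin_of_mem_nhds (hN.mem_nhds hyN), ρ, hρ, N, hN, Subset.rfl, h⟩
  obtain ⟨ρ, hρ, N, hN, hKN, h⟩ := h1
  obtain ⟨ρ', hρ', hthick⟩ := V.cpt.exists_cthickening_subset_open hN hKN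
  refine ⟨min ρ ρ', lt_min hρ hρ', fun p => ?_⟩
  by_cases hp : p ∈ N
  · exact (encard_le_encard (vloc_mono (min_le_left _ _) m p)).trans (h p hp)
  · have h2 : AA f K (min ρ ρ') m p = ∅ := by
      rw [eq_empty_iff_forall_notMem]
      intro z hz
      apply hp
      have h3 := hz.2 m le_rfl
      rw [hz.1] at h3
      exact hthick (cthickening_mono (min_le_right _ _) K h3)
    rw [h2, encard_empty]
    exact zero_le

end Pool.Agent.H.MP_e98f69_an
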