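import Pool.Agent.H.MP_e98f69_an.E.VAA

/-! Local multiplicity. -/

set_option autoImplicit false

open Set Filter Topology Metric MeasureTheory

namespace Pool.Agent.H.MP_e98f69_an

variable {f : ℂ → ℂ} {K O : Set ℂ} {D : ℕ}

/-- number of critical points on the orbit segment of length `m` -/
noncomputable def crn (f : ℂ → ℂ) (m : ℕ) (x : ℂ) : ℕ := by
  classical
  exact ((Finset.range m).filter (fun j => deriv f (f^[j] x) = 0)).card

/-- Local multiplicity of `f`: one where the derivative is not zero (`HasStrictDerivAt`, local injectivity), at most `D`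
otherwise (take `N = O`). -/
theorem loc_mult (V : VData f K O D) {x : ℂ} (hx : x ∈ K) : ∃ N : Set ℂ, IsOpen N ∧ x ∈ N ∧ N ⊆ O ∧
    ∀ p, {z | z ∈ N ∧ f z = p}.encard ≤ ((D ^ crn f 1 x : ℕ) : ℕ∞) := by
  classical
  by_cases hd : deriv f x = 0
  · refine ⟨O, V.op, V.sub hx, Subset.rfl, fun p => ?_⟩
    have h1 : crn f 1 x = 1 := by
      unfold crn
      rw [Finset.range_one, Finset.filter_singleton, if_pos (by simpa using hd),
        Finset.card_singleton]
    rw [h1, pow_one]
    exact V.deg p
  · have hO : O ∈ 𝓝 x := V.op.mem_nhds (V.sub hx)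
    have han : AnalyticAt ℂ f x := V.dif.analyticAt hO
    have hs : HasStrictDerivAt f (deriv f x) x := han.hasStrictDerivAt
    have hs' := hs.hasStrictFDerivAt_equiv hd
    refine ⟨(hs'.toOpenPartialHomeomorph f).source ∩ O,
      (hs'.toOpenPartialHomeomorph f).open_source.inter V.op,
      ⟨hs'.mem_toOpenPartialHomeomorph_source, V.sub hx⟩, inter_subset_right, fun p => ?_⟩
    have h1 : crn f 1 x = 0 := by
      unfold crn
      rw [Finset.range_one, Finset.filter_singleton, if_neg (by simpa using hd),
        Finset.card_empty]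
    rw [h1, pow_zero, Nat.cast_one, encard_le_one_iff]
    intro a b ha hb
    refine (hs'.toOpenPartialHomeomorph f).injOn ha.1.1 hb.1.1 ?_
    rw [hs'.toOpenPartialHomeomorph_coe, ha.2, hb.2]

end Pool.Agent.H.MP_e98f69_an
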