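import Pool.Agent.H.MP_e98f69_an.E.VLocA

/-! Local multiplicity of iterates. -/

set_option autoImplicit false

open Set Filter Topology Metric MeasureTheory

namespace Pool.Agent.H.MP_e98f69_an

variable {f : ℂ → ℂ} {K O : Set ℂ} {D : ℕ}

theorem vlocb_crn_succ (f : ℂ → ℂ) (m : ℕ) (x : ℂ) :
    crn f (m + 1) x = crn f 1 x + crn f m (f x) := by
  classical
  unfold crn
  rw [Finset.card_filter, Finset.card_filter, Finset.card_filter, Finset.sum_range_succ',
    Finset.sum_range_one, add_comm]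
  congr 1

/-- Local multiplicity of `f^[m]`.
Proof: induction on `m` for all `x ∈ K`. For `m + 1`: `N'` for `f x` and `m`, `N0` from `loc_mult`, `N = N0 ∩ f ⁻¹' N'` (open: `f` is
continuous on `N0`). `{z ∈ N | f^[m+1] z = p} ⊆ ⋃ w ∈ {w ∈ N' | f^[m] w = p}, {z ∈ N0 | f z = w}` and `encard_biUnion_le`; 
`crn f (m+1) x = crn f 1 x + crn f m (f x)`. -/
theorem loc_iter (V : VData f K O D) (m : ℕ) {x : ℂ} (hx : x ∈ K) : ∃ N : Set ℂ, IsOpen N ∧ x ∈ N ∧
    ∀ p, {z | z ∈ N ∧ f^[m] z = p}.encard ≤ ((D ^ crn f m x : ℕ) : ℕ∞) := by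
  induction m generalizing x with
  | zero =>
    refine ⟨univ, isOpen_univ, mem_univ x, fun p => ?_⟩
    have h1 : crn f 0 x = 0 := by
      unfold crn
      simp
    rw [h1, pow_zero, Nat.cast_one, encard_le_one_iff]
    intro a b ha hb
    have h2 : a = p := ha.2
    have h3 : b = p := hb.2
    rw [h2, h3]
  | succ m ih =>
    obtain ⟨N', hN', hxN', hb'⟩ := ih (V.inv hx)
    obtain ⟨N0, hN0, hxN0, hN0O, hb0⟩ := loc_mult V hx
    have hc : ContinuousOn f N0 := V.dif.continuousOn.mono hN0O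
    refine ⟨N0 ∩ f ⁻¹' N', hc.isOpen_inter_preimage hN0 hN', ⟨hxN0, hxN'⟩, fun p => ?_⟩
    have hsub : {z | z ∈ N0 ∩ f ⁻¹' N' ∧ f^[m + 1] z = p} ⊆
        ⋃ w ∈ {w | w ∈ N' ∧ f^[m] w = p}, {z | z ∈ N0 ∧ f z = w} := by
      rintro z ⟨⟨hz1, hz2⟩, hz3⟩
      rw [Function.iterate_succ_apply] at hz3
      exact mem_biUnion (x := f z) ⟨hz2, hz3⟩ ⟨hz1, rfl⟩
    have h1 := encard_biUnion_le (hb' p) (fun w _ => hb0 w)
    refine (encard_le_encard hsub).trans (h1.trans (le_of_eq ?_))
    rw [vlocb_crn_succ f m x, pow_add, mul_comm]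

/-- An orbit in `K` meets each critical point at most once, so `crn f m x` is at most the number of critical points in `K`.
Proof: `j ↦ f^[j] x` is injective on the set of `j < m` with `deriv f (f^[j] x) = 0`: if `f^[i] x = f^[j] x = c` with `i < j`
then `f^[j-i] c = c`, against `noper`. `Finset.card_le_card_of_injOn` into `V.crit.toFinset`, `ncard_eq_toFinset_card`. -/
theorem crn_le (V : VData f K O D) (m : ℕ) {x : ℂ} (hx : x ∈ K) :
    crn f m x ≤ {z | z ∈ K ∧ deriv f z = 0}.ncard := by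
  classical
  rw [ncard_eq_toFinset_card _ V.crit]
  unfold crn
  have hK : ∀ j, f^[j] x ∈ K := fun j => V.inv.iterate j hx
  have key : ∀ i j : ℕ, i < j → deriv f (f^[i] x) = 0 → f^[i] x ≠ f^[j] x := by
    intro i j hij hd h
    apply V.noper _ (hK i) hd (j - i) (by omega)
    rw [← Function.iterate_add_apply, Nat.sub_add_cancel hij.le]
    exact h.symm
  refine Finset.card_le_card_of_injOn (fun j => f^[j] x) ?_ ?_
  · intro j hj
    have h1 := (Finset.mem_filter.1 hj).2
    exact V.crit.mem_toFinset.2 ⟨hK j, h1⟩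
  · intro i hi j hj hij
    have h1 := (Finset.mem_filter.1 hi).2
    have h2 := (Finset.mem_filter.1 hj).2
    rcases lt_trichotomy i j with h | h | h
    · exact absurd hij (key i j h h1)
    · exact h
    · exact absurd hij.symm (key j i h h2)

/-- `f^[m]` is continuous at the points of `K`. -/
theorem VData.iter_cont (V : VData f K O D) (m : ℕ) {x : ℂ} (hx : x ∈ K) : ContinuousAt (f^[m]) x := by
  induction m generalizing x with
  | zero => exact continuousAt_id
  | succ m ih =>
    have h1 : ContinuousAt f x :=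
      (V.dif.differentiableAt (V.op.mem_nhds (V.sub hx))).continuousAt
    rw [Function.iterate_succ]
    exact ContinuousAt.comp (ih (V.inv hx)) h1

end Pool.Agent.H.MP_e98f69_an
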