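import Pool.Agent.H.MP_e98f69_an.E.VLocB

/-! The count of preimages near a point of `K`. -/

set_option autoImplicit false

open Set Filter Topology Metric MeasureTheory

namespace Pool.Agent.H.MP_e98f69_an

variable {f : ℂ → ℂ} {K O : Set ℂ} {D : ℕ}

/-- Near a point `y` of `K`.
Proof: let `N x` (`x ∈ VV f K m y`) be the neighbourhoods of `loc_iter` and `N'` their union. Claim: for some `ρ > 0` and all `p` in a
neighbourhood of `y`: `AA f K ρ m p ⊆ N'`. Otherwise there are `p_n → y`, `z_n ∈ AA f K (1/(n+1)) m (p_n)` not in the open set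
`N'`; a subsequence of `z_n` converges to a point `z` (bounded), `z ∈ K` (distance to `K` at most `1/(n+1)`, `j = 0`), 
`f^[m] z = y` by continuity, so `z ∈ VV f K m y ⊆ N'`, contradiction. Then
`AA f K ρ m p ⊆ ⋃ x ∈ VV f K m y, {z ∈ N x | f^[m] z = p}`, and `encard_biUnion_le`, `crn_le` (`1 ≤ D`). -/
theorem loc_bound (V : VData f K O D) (m : ℕ) {y : ℂ} (hy : y ∈ K) {B : ℕ}
    (hB : (VV f K m y).encard ≤ B) : ∃ ρ > 0, ∃ N : Set ℂ, IsOpen N ∧ y ∈ N ∧ ∀ p ∈ N,
      (AA f K ρ m p).encard ≤ ((B * D ^ {z | z ∈ K ∧ deriv f z = 0}.ncard : ℕ) : ℕ∞) := by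
  have hVK : ∀ x ∈ VV f K m y, x ∈ K := fun x hx => hx.1
  have hloc : ∀ x ∈ VV f K m y, ∃ N : Set ℂ, IsOpen N ∧ x ∈ N ∧
      ∀ p, {z | z ∈ N ∧ f^[m] z = p}.encard ≤ ((D ^ crn f m x : ℕ) : ℕ∞) :=
    fun x hx => loc_iter V m (hVK x hx)
  choose! N hNo hxN hNb using hloc
  have hN'o : IsOpen (⋃ x ∈ VV f K m y, N x) := isOpen_biUnion fun x hx => hNo x hx
  have hclaim : ∃ n : ℕ, ∀ p ∈ ball y (1 / ((n : ℝ) + 1)),
      AA f K (1 / ((n : ℝ) + 1)) m p ⊆ ⋃ x ∈ VV f K m y, N x := by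
    by_contra hcon
    push Not at hcon
    have hcon' : ∀ n : ℕ, ∃ p z, p ∈ ball y (1 / ((n : ℝ) + 1)) ∧
        z ∈ AA f K (1 / ((n : ℝ) + 1)) m p ∧ z ∉ ⋃ x ∈ VV f K m y, N x := by
      intro n
      obtain ⟨p, hp, hz⟩ := hcon n
      obtain ⟨z, hz1, hz2⟩ := not_subset.1 hz
      exact ⟨p, z, hp, hz1, hz2⟩
    choose P Z hP hZ hZN using hcon'
    have hpos : ∀ n : ℕ, 0 < 1 / ((n : ℝ) + 1) := fun n => Nat.one_div_pos_of_nat
    have hle1 : ∀ n : ℕ, 1 / ((n : ℝ) + 1) ≤ 1 := by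
      intro n
      rw [div_le_one (by positivity)]
      linarith [Nat.cast_nonneg (α := ℝ) n]
    have hZ0 : ∀ n : ℕ, Z n ∈ cthickening (1 / ((n : ℝ) + 1)) K := fun n => by
      have h1 := (hZ n).2 0 (Nat.zero_le m)
      exact h1
    have hc1 : IsCompact (cthickening 1 K) := V.cpt.cthickening
    obtain ⟨z, hz, φ, hφ, hlim⟩ := hc1.tendsto_subseq
      (fun n => cthickening_mono (hle1 n) K (hZ0 n))
    have htend : Tendsto (fun n : ℕ => 1 / ((n : ℝ) + 1)) atTop (𝓝 0) :=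
      tendsto_one_div_add_atTop_nhds_zero_nat
    have hzK : z ∈ K := by
      have h1 : Tendsto (fun n => infDist (Z (φ n)) K) atTop (𝓝 (infDist z K)) :=
        (continuous_infDist_pt K).continuousAt.tendsto.comp hlim
      have h2 : Tendsto (fun n => infDist (Z (φ n)) K) atTop (𝓝 0) := by
        refine squeeze_zero (fun n => infDist_nonneg) (fun n => ?_)
          (htend.comp hφ.tendsto_atTop)
        have h3 := hZ0 (φ n)
        rw [cthickening_eq_preimage_infEDist, mem_preimage, mem_Iic] at h3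
        show (infEDist (Z (φ n)) K).toReal ≤ _
        exact ENNReal.toReal_le_of_le_ofReal (hpos _).le h3
      have h3 := tendsto_nhds_unique h1 h2
      exact (V.cpt.isClosed.mem_iff_infDist_zero V.ne).2 h3
    have hfz : f^[m] z = y := by
      have h1 : Tendsto (fun n => f^[m] (Z (φ n))) atTop (𝓝 (f^[m] z)) :=
        (V.iter_cont m hzK).tendsto.comp hlim
      have h2 : (fun n => f^[m] (Z (φ n))) = fun n => P (φ n) := funext fun n => (hZ (φ n)).1
      rw [h2] at h1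
      have h3 : Tendsto (fun n => P (φ n)) atTop (𝓝 y) := by
        rw [tendsto_iff_dist_tendsto_zero]
        refine squeeze_zero (fun n => dist_nonneg) (fun n => (mem_ball.1 (hP (φ n))).le)
          (htend.comp hφ.tendsto_atTop)
      exact tendsto_nhds_unique h1 h3
    have hzV : z ∈ VV f K m y := ⟨hzK, hfz⟩
    have hzN' : z ∈ ⋃ x ∈ VV f K m y, N x := mem_biUnion hzV (hxN z hzV)
    obtain ⟨n, hn⟩ := (hlim.eventually (hN'o.mem_nhds hzN')).exists
    exact hZN _ hn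
  obtain ⟨n, hn⟩ := hclaim
  refine ⟨1 / ((n : ℝ) + 1), Nat.one_div_pos_of_nat, ball y (1 / ((n : ℝ) + 1)), isOpen_ball,
    mem_ball_self Nat.one_div_pos_of_nat, fun p hp => ?_⟩
  have hsub : AA f K (1 / ((n : ℝ) + 1)) m p ⊆
      ⋃ x ∈ VV f K m y, {z | z ∈ N x ∧ f^[m] z = p} := by
    intro z hz
    obtain ⟨x, hx, hzx⟩ := mem_iUnion₂.1 (hn p hp hz)
    exact mem_biUnion hx ⟨hzx, hz.1⟩
  refine (encard_le_encard hsub).trans (encard_biUnion_le hB fun x hx => (hNb x hx p).trans ?_)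
  exact_mod_cast Nat.pow_le_pow_right V.one_le (crn_le V m (hVK x hx))

end Pool.Agent.H.MP_e98f69_an
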