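import Pool.Agent.H.MP_e98f69_an.E.VSepA
import Pool.Agent.H.MP_e98f69_an.E.VArea

/-! Areas of the images of the sublevel sets of a separated set. -/

set_option autoImplicit false

open Set Filter Topology Metric MeasureTheory

namespace Pool.Agent.H.MP_e98f69_an

variable {f : ℂ → ℂ} {K O : Set ℂ} {D : ℕ}

/-- `(n, s)`-separated finite sets -/
def IsSep (f : ℂ → ℂ) (n : ℕ) (s : ℝ) (E : Finset ℂ) : Prop :=
  ∀ x ∈ E, ∀ y ∈ E, x ≠ y → ∃ k < n, s ≤ dist (f^[k] x) (f^[k] y)

/-- For a separated set the sum of the areas of the `k`-th images is bounded.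
Proof: the sets `WW f K r0 r n x`, `x ∈ E`, are pairwise disjoint (`WW_lt`: a common point gives
`dist (f^[k] x) (f^[k] y) < 2 r` for all `k < n`), so the sum of the integrals is the integral over the union
(`lintegral_biUnion_finset`), and `area_mult` applies to the union `Ω`, `f^[k]` (`UU_diff`) and `A = cthickening r K`, with `N`: the points
of `Ω` over `p` are in `AA f K r k p` (`WW_AA`). -/
theorem sep_area (V : VData f K O D) {r0 r : ℝ} (h0 : cthickening r0 K ⊆ O) (hr : 0 < r)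
    (hrr : r < r0) {n : ℕ} (hn : 1 ≤ n) {E : Finset ℂ} (hE : (E : Set ℂ) ⊆ K)
    (hsep : IsSep f n (2 * r) E) {k : ℕ} (hk : k < n) {N : ℕ} (hN : ∀ p, (AA f K r k p).encard ≤ N) :
    ∑ x ∈ E, ∫⁻ z in WW f K r0 r n x, ENNReal.ofReal (‖deriv (f^[k]) z‖ ^ 2) ≤
      N * volume (cthickening r K) := by
  have hopen : ∀ x ∈ E, IsOpen (WW f K r0 r n x) := fun x hx =>
    (WW_open V h0 hr hrr hn (hE hx)).1
  have hdisj : (E : Set ℂ).PairwiseDisjoint (fun x => WW f K r0 r n x) := by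
    intro x hx y hy hxy
    rw [Function.onFun, Set.disjoint_left]
    intro z hzx hzy
    obtain ⟨j, hj, hd⟩ := hsep x hx y hy hxy
    have h1 := WW_lt hr hzx hj
    have h2 := WW_lt hr hzy hj
    have h3 : dist (f^[j] x) (f^[j] y) ≤ ‖f^[j] z - f^[j] x‖ + ‖f^[j] z - f^[j] y‖ := by
      rw [← dist_eq_norm, ← dist_eq_norm, dist_comm (f^[j] z) (f^[j] x)]
      exact dist_triangle _ _ _
    linarith
  rw [← lintegral_biUnion_finset hdisj (fun x hx => (hopen x hx).measurableSet)]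
  have hOm : IsOpen (⋃ x ∈ E, WW f K r0 r n x) := isOpen_biUnion hopen
  refine area_mult hOm ?_ ?_ ?_
  · refine (UU_diff V h0 n hk).mono ?_
    intro z hz
    obtain ⟨x, -, hz⟩ := mem_iUnion₂.1 hz
    exact hz.1
  · intro z hz
    obtain ⟨x, hx, hz⟩ := mem_iUnion₂.1 hz
    exact (WW_AA V hr (hE hx) hz hk).2 k le_rfl
  · intro p
    refine (encard_le_encard ?_).trans (hN p)
    rintro z ⟨hz, rfl⟩
    obtain ⟨x, hx, hz⟩ := mem_iUnion₂.1 hz
    exact WW_AA V hr (hE hx) hz hk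

end Pool.Agent.H.MP_e98f69_an
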