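import Pool.Agent.H.MP_e98f69_an.E.VSepB
import Pool.Agent.H.MP_e98f69_an.E.VSepC

/-! Bound for separated sets. -/

set_option autoImplicit false

open Set Filter Topology Metric MeasureTheory

namespace Pool.Agent.H.MP_e98f69_an

variable {f : ℂ → ℂ} {K O : Set ℂ} {D : ℕ}

/-- **Bound for separated sets.** -/
theorem sep_bound (V : VData f K O D) {r0 r : ℝ} (h0 : cthickening r0 K ⊆ O) (hr : 0 < r)
    (hrr : r < r0) {n : ℕ} (hn : 1 ≤ n) {E : Finset ℂ} (hE : (E : Set ℂ) ⊆ K)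
    (hsep : IsSep f n (2 * r) E) {N : ℕ} (hN : ∀ k < n, ∀ p, (AA f K r k p).encard ≤ N) :
    (E.card : ℝ) * (Real.pi * r ^ 2 / 72) ≤ n * N * (volume (cthickening r K)).toReal := by
  have hfin : volume (cthickening r K) ≠ ⊤ :=
    (V.cpt.isBounded.cthickening).measure_lt_top.ne
  have h1 : (E.card : ENNReal) * ENNReal.ofReal (Real.pi * r ^ 2 / 72) ≤
      n * (N * volume (cthickening r K)) := by
    calc (E.card : ENNReal) * ENNReal.ofReal (Real.pi * r ^ 2 / 72)
        = ∑ _x ∈ E, ENNReal.ofReal (Real.pi * r ^ 2 / 72) := by simp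
      _ ≤ ∑ x ∈ E, ∑ k ∈ Finset.range n,
            ∫⁻ z in WW f K r0 r n x, ENNReal.ofReal (‖deriv (f^[k]) z‖ ^ 2) :=
          Finset.sum_le_sum fun x hx => WW_volume V h0 hr hrr hn (hE hx)
      _ = ∑ k ∈ Finset.range n, ∑ x ∈ E,
            ∫⁻ z in WW f K r0 r n x, ENNReal.ofReal (‖deriv (f^[k]) z‖ ^ 2) := Finset.sum_comm
      _ ≤ ∑ _k ∈ Finset.range n, (N * volume (cthickening r K)) :=
          Finset.sum_le_sum fun k hk => sep_area V h0 hr hrr hn hE hsep (Finset.mem_range.1 hk)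
            (hN k (Finset.mem_range.1 hk))
      _ = _ := by simp
  have h2 := ENNReal.toReal_mono (by
    refine ENNReal.mul_ne_top (ENNReal.natCast_ne_top n) (ENNReal.mul_ne_top (ENNReal.natCast_ne_top N) hfin)) h1
  rw [ENNReal.toReal_mul, ENNReal.toReal_mul, ENNReal.toReal_mul, ENNReal.toReal_ofReal (by positivity),
    ENNReal.toReal_natCast, ENNReal.toReal_natCast, ENNReal.toReal_natCast] at h2
  linarith

end Pool.Agent.H.MP_e98f69_an
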