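import Pool.Agent.H.MP_e98f69_an.E.VAA
import Pool.Agent.H.MP_e98f69_an.E.VDef

/-! The sublevel sets of a finite orbit. -/

set_option autoImplicit false

open Set Filter Topology Metric MeasureTheory

namespace Pool.Agent.H.MP_e98f69_an

variable {f : ℂ → ℂ} {K O : Set ℂ} {D : ℕ}

/-- points whose orbit stays in the `r0`-neighbourhood of `K` up to time `n - 1` -/
def UU (f : ℂ → ℂ) (K : Set ℂ) (r0 : ℝ) (n : ℕ) : Set ℂ := {z | ∀ k < n, f^[k] z ∈ thickening r0 K}

/-- the functions `f^[k] z - f^[k] x` -/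
def gg (f : ℂ → ℂ) (x : ℂ) (k : ℕ) (z : ℂ) : ℂ := f^[k] z - f^[k] x

/-- the sublevel sets -/
noncomputable def WW (f : ℂ → ℂ) (K : Set ℂ) (r0 r : ℝ) (n : ℕ) (x : ℂ) : Set ℂ :=
  vW n (gg f x) (UU f K r0 n) r

/-- Proof: induction on `n`: `UU f K r0 (n+1) = thickening r0 K ∩ f ⁻¹' (UU f K r0 n)` for `n ≥ 0` (shift the iterates,
`Function.iterate_succ_apply`), `f` is continuous on `thickening r0 K ⊆ O` (`ContinuousOn.isOpen_inter_preimage`). -/
theorem UU_open (V : VData f K O D) {r0 : ℝ} (h0 : cthickening r0 K ⊆ O) (n : ℕ) :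
    IsOpen (UU f K r0 n) := by
  have hsub : thickening r0 K ⊆ O := (thickening_subset_cthickening r0 K).trans h0
  induction n with
  | zero =>
    have : UU f K r0 0 = univ := by
      ext z; simp [UU]
    rw [this]; exact isOpen_univ
  | succ n ih =>
    have h : UU f K r0 (n + 1) = thickening r0 K ∩ f ⁻¹' (UU f K r0 n) := by
      ext z
      simp only [UU, mem_setOf_eq, mem_inter_iff, mem_preimage]
      constructor
      · intro hz
        refine ⟨hz 0 (Nat.succ_pos n), fun k hk => ?_⟩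
        have := hz (k + 1) (by omega)
        rwa [Function.iterate_succ_apply] at this
      · rintro ⟨h1, h2⟩ k hk
        rcases k with _ | k
        · exact h1
        · rw [Function.iterate_succ_apply]
          exact h2 k (by omega)
    rw [h]
    exact (V.dif.continuousOn.mono hsub).isOpen_inter_preimage isOpen_thickening ih

/-- Proof: `f^[k]` with `k < n` is holomorphic on `UU`: induction on `k`, `f^[k+1] = f ∘ f^[k]`, chain rule,
`f^[k] z ∈ thickening r0 K ⊆ O`. -/
theorem UU_diff (V : VData f K O D) {r0 : ℝ} (h0 : cthickening r0 K ⊆ O) (n : ℕ) {k : ℕ} (hk : k < n) :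
    DifferentiableOn ℂ (f^[k]) (UU f K r0 n) := by
  have hsub : thickening r0 K ⊆ O := (thickening_subset_cthickening r0 K).trans h0
  induction k with
  | zero => exact differentiableOn_id
  | succ k ih =>
    rw [Function.iterate_succ']
    exact V.dif.comp (ih (by omega)) (fun z hz => hsub (hz k (by omega)))

/-- In `WW` every coordinate is small: `‖f^[k] z - f^[k] x‖ < r` for `k < n` (one term of the sum `< r²`). -/
theorem WW_lt {r0 r : ℝ} (hr : 0 < r) {n : ℕ} {x z : ℂ} (hz : z ∈ WW f K r0 r n x) {k : ℕ} (hk : k < n) :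
    ‖f^[k] z - f^[k] x‖ < r := by
  have h1 : vh n (gg f x) z < r ^ 2 := hz.2
  have h2 : ‖gg f x k z‖ ^ 2 ≤ vh n (gg f x) z :=
    Finset.single_le_sum (f := fun k => ‖gg f x k z‖ ^ 2) (fun _ _ => by positivity)
      (Finset.mem_range.2 hk)
  exact lt_of_pow_lt_pow_left₀ 2 hr.le (h2.trans_lt h1)

/-- Proof: let `z_i → z` with `z_i ∈ WW`. By induction on `k < n`: `f^[k] z_i → f^[k] z` and `‖f^[k] z - f^[k] x‖ ≤ r`, so
`f^[k] z ∈ thickening r0 K ⊆ O` (`f^[k] x ∈ K`, `r < r0`) and `f` is continuous there. (`mem_closure_iff_seq_limit`.) -/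
theorem WW_closure (V : VData f K O D) {r0 r : ℝ} (h0 : cthickening r0 K ⊆ O) (hr : 0 < r)
    (hrr : r < r0) {n : ℕ} {x : ℂ} (hx : x ∈ K) : closure (WW f K r0 r n x) ⊆ UU f K r0 n := by
  have hsub : thickening r0 K ⊆ O := (thickening_subset_cthickening r0 K).trans h0
  intro z hz
  obtain ⟨u, hu, hlim⟩ := mem_closure_iff_seq_limit.1 hz
  have hxk : ∀ k, f^[k] x ∈ K := fun k => (V.inv.iterate k) hx
  have hstep : ∀ k, k < n → ContinuousAt (f^[k]) z → f^[k] z ∈ thickening r0 K := by
    intro k hk hc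
    have h1 : Tendsto (fun i => ‖f^[k] (u i) - f^[k] x‖) atTop (𝓝 ‖f^[k] z - f^[k] x‖) :=
      ((hc.tendsto.comp hlim).sub_const _).norm
    have h2 : ‖f^[k] z - f^[k] x‖ ≤ r :=
      le_of_tendsto h1 (Eventually.of_forall fun i => (WW_lt hr (hu i) hk).le)
    rw [mem_thickening_iff]
    exact ⟨f^[k] x, hxk k, by rw [dist_eq_norm]; exact h2.trans_lt hrr⟩
  have hcont : ∀ k, k < n → ContinuousAt (f^[k]) z := by
    intro k
    induction k with
    | zero => intro _; exact continuousAt_id
    | succ k ih =>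
      intro hk
      have hc := ih (by omega)
      have hO : f^[k] z ∈ O := hsub (hstep k (by omega) hc)
      rw [Function.iterate_succ']
      exact ContinuousAt.comp ((V.dif _ hO).differentiableAt (V.op.mem_nhds hO)).continuousAt hc
  exact fun k hk => hstep k hk (hcont k hk)

/-- The sublevel set is open, bounded (if `1 ≤ n`) and contains `x`.
Proof: `vh` is continuous on the open set `UU`; `WW_lt` with `k = 0`. -/
theorem WW_open (V : VData f K O D) {r0 r : ℝ} (h0 : cthickening r0 K ⊆ O) (hr : 0 < r)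
    (hrr : r < r0) {n : ℕ} (hn : 1 ≤ n) {x : ℂ} (hx : x ∈ K) :
    IsOpen (WW f K r0 r n x) ∧ Bornology.IsBounded (WW f K r0 r n x) ∧ x ∈ WW f K r0 r n x := by
  have hr0 : 0 < r0 := hr.trans hrr
  have hxk : ∀ k, f^[k] x ∈ K := fun k => (V.inv.iterate k) hx
  refine ⟨?_, ?_, ?_⟩
  · have hc : ContinuousOn (vh n (gg f x)) (UU f K r0 n) := by
      unfold vh
      refine continuousOn_finset_sum _ (fun k hk => ?_)
      have hk' : k < n := Finset.mem_range.1 hk
      have h1 : ContinuousOn (gg f x k) (UU f K r0 n) :=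
        (UU_diff V h0 n hk').continuousOn.sub continuousOn_const
      exact h1.norm.pow 2
    have h2 := hc.isOpen_inter_preimage (UU_open V h0 n) (isOpen_Iio (a := r ^ 2))
    exact h2
  · refine (isBounded_ball (x := x) (r := r)).subset (fun z hz => ?_)
    have := WW_lt hr hz (k := 0) (by omega)
    rw [mem_ball, dist_eq_norm]
    exact this
  · refine ⟨fun k _ => self_subset_thickening hr0 K (hxk k), ?_⟩
    have : vh n (gg f x) x = 0 := by
      unfold vh gg
      simp
    rw [this]
    positivity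

/-- The points of `WW` with `f^[k] z = p`, `k < n`, are in `AA f K r k p`. -/
theorem WW_AA (V : VData f K O D) {r0 r : ℝ} (hr : 0 < r) {n : ℕ} {x : ℂ} (hx : x ∈ K) {z : ℂ}
    (hz : z ∈ WW f K r0 r n x) {k : ℕ} (hk : k < n) : z ∈ AA f K r k (f^[k] z) := by
  refine ⟨rfl, fun j hj => ?_⟩
  have h1 := WW_lt hr hz (k := j) (by omega)
  refine thickening_subset_cthickening r K ?_
  rw [mem_thickening_iff]
  exact ⟨f^[j] x, (V.inv.iterate j) hx, by rw [dist_eq_norm]; exact h1⟩

end Pool.Agent.H.MP_e98f69_an
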