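import Pool.Agent.H.MP_e98f69_an.E.VF

/-! The volume lemma. -/

set_option autoImplicit false

open Set Filter Topology Metric MeasureTheory

namespace Pool.Agent.H.MP_e98f69_an

/-- continuity of `h` on `U` -/
theorem vvol_h_cont {n : ℕ} {g : ℕ → ℂ → ℂ} {U : Set ℂ}
    (hg : ∀ k < n, DifferentiableOn ℂ (g k) U) : ContinuousOn (vh n g) U := by
  unfold vh
  refine continuousOn_finsetSum _ ?_
  intro k hk
  exact ((hg k (Finset.mem_range.1 hk)).continuousOn.norm).pow 2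

/-- continuity of `J` on `U` -/
theorem vvol_J_cont {n : ℕ} {g : ℕ → ℂ → ℂ} {U : Set ℂ} (hU : IsOpen U)
    (hg : ∀ k < n, DifferentiableOn ℂ (g k) U) : ContinuousOn (vJ n g) U := by
  unfold vJ
  refine continuousOn_finsetSum _ ?_
  intro k hk
  exact (((hg k (Finset.mem_range.1 hk)).deriv hU).continuousOn.norm).pow 2

theorem vvol_phi_cont (r : ℝ) : Continuous (vphi r) := by
  unfold vphi
  fun_prop

/-- quadratic upper bound of `h` near a zero -/
theorem vvol_h_le {n : ℕ} {g : ℕ → ℂ → ℂ} {U : Set ℂ} (hU : IsOpen U)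
    (hg : ∀ k < n, DifferentiableOn ℂ (g k) U) {x : ℂ} (hx : x ∈ U) (hgx : ∀ k < n, g k x = 0)
    (hd : 0 < vJ n g x) : ∀ᶠ z in 𝓝 x, vh n g z ≤ 2 * vJ n g x * ‖z - x‖ ^ 2 := by
  have h1 : ∀ᶠ e in 𝓝 (0 : ℝ), ∑ k ∈ Finset.range n, (‖deriv (g k) x‖ + e) ^ 2 <
      2 * vJ n g x := by
    have hc : Continuous fun e : ℝ => ∑ k ∈ Finset.range n, (‖deriv (g k) x‖ + e) ^ 2 := by
      fun_prop
    refine hc.continuousAt.eventually_lt continuousAt_const ?_
    simp only [add_zero]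
    change vJ n g x < 2 * vJ n g x
    linarith
  obtain ⟨e, he0, he⟩ : ∃ e : ℝ, 0 < e ∧ ∑ k ∈ Finset.range n, (‖deriv (g k) x‖ + e) ^ 2 <
      2 * vJ n g x := by
    obtain ⟨d, hd0, hd1⟩ := Metric.eventually_nhds_iff.1 h1
    refine ⟨d / 2, by positivity, hd1 ?_⟩
    rw [Real.dist_eq, sub_zero, abs_of_pos (by positivity)]
    linarith
  have h2 : ∀ k ∈ Finset.range n, ∀ᶠ z in 𝓝 x, ‖g k z‖ ≤ (‖deriv (g k) x‖ + e) * ‖z - x‖ := by
    intro k hk
    have hk' := Finset.mem_range.1 hk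
    have h3 : HasDerivAt (g k) (deriv (g k) x) x :=
      ((hg k hk').differentiableAt (hU.mem_nhds hx)).hasDerivAt
    have h4 := (hasDerivAt_iff_isLittleO.1 h3).def he0
    filter_upwards [h4] with z hz
    rw [hgx k hk', sub_zero] at hz
    calc ‖g k z‖ = ‖(g k z - (z - x) • deriv (g k) x) + (z - x) • deriv (g k) x‖ := by
          rw [sub_add_cancel]
      _ ≤ ‖g k z - (z - x) • deriv (g k) x‖ + ‖(z - x) • deriv (g k) x‖ := norm_add_le _ _
      _ ≤ e * ‖z - x‖ + ‖z - x‖ * ‖deriv (g k) x‖ := by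
          rw [norm_smul]
          linarith
      _ = (‖deriv (g k) x‖ + e) * ‖z - x‖ := by ring
  have h5 : ∀ᶠ z in 𝓝 x, ∀ k ∈ Finset.range n, ‖g k z‖ ≤ (‖deriv (g k) x‖ + e) * ‖z - x‖ :=
    (Finset.eventually_all _).2 h2
  filter_upwards [h5] with z hz
  calc vh n g z ≤ ∑ k ∈ Finset.range n, (‖deriv (g k) x‖ + e) ^ 2 * ‖z - x‖ ^ 2 := by
        unfold vh
        refine Finset.sum_le_sum ?_
        intro k hk
        rw [← mul_pow]
        exact pow_le_pow_left₀ (norm_nonneg _) (hz k hk) 2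
    _ = (∑ k ∈ Finset.range n, (‖deriv (g k) x‖ + e) ^ 2) * ‖z - x‖ ^ 2 := by
        rw [Finset.sum_mul]
    _ ≤ 2 * vJ n g x * ‖z - x‖ ^ 2 := mul_le_mul_of_nonneg_right he.le (by positivity)

/-- Local lower bound: for a suitable `s > 0` the left side of `v_ineq` is at least `π / 36`.
Proof: `κ = J(x) > 0` (`hd`). `g_k(z) = g_k'(x)(z-x) + o(z-x)`, so there is `δ > 0` such that for `|z - x| ≤ δ`: `z ∈ U`,
`h(z) ≤ 2 κ |z-x|²`, `J(z) ≥ κ/2`, `h z < r²` and `vphi r (h z) ≥ 1/2` (continuity). Let `s = κ δ²`. On the ball `B(x, δ)`, of area `π δ²`,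
`h ≤ 2 s`, so the integrand is at least `(1/2) s (κ/2) / (3 s)² = κ / (36 s)`, and the integral is at least
`π δ² κ / (36 s) = π / 36`. -/
theorem v_lower {n : ℕ} {g : ℕ → ℂ → ℂ} {U : Set ℂ} (hU : IsOpen U)
    (hg : ∀ k < n, DifferentiableOn ℂ (g k) U) {x : ℂ} (hx : x ∈ U) (hgx : ∀ k < n, g k x = 0)
    (hd : 0 < vJ n g x) {r : ℝ} (hr : 0 < r)
    (hW : closure (vW n g U r) ⊆ U) (hWb : Bornology.IsBounded (vW n g U r)) :
    ∃ s : ℝ, 0 < s ∧ Real.pi / 36 ≤
      ∫ z in vW n g U r, vphi r (vh n g z) * s * vJ n g z / (vh n g z + s) ^ 2 := by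
  have hhc := vvol_h_cont hg
  have hJc := vvol_J_cont hU hg
  have hh0 : vh n g x = 0 := by
    unfold vh
    refine Finset.sum_eq_zero ?_
    intro k hk
    rw [hgx k (Finset.mem_range.1 hk), norm_zero]
    norm_num
  have hhx : ContinuousAt (vh n g) x := hhc.continuousAt (hU.mem_nhds hx)
  have hJx : ContinuousAt (vJ n g) x := hJc.continuousAt (hU.mem_nhds hx)
  have e1 := vvol_h_le hU hg hx hgx hd
  have e2 : ∀ᶠ z in 𝓝 x, vJ n g x / 2 < vJ n g z :=
    hJx.eventually_const_lt (by linarith)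
  have e3 : ∀ᶠ z in 𝓝 x, vh n g z < r ^ 2 := by
    refine hhx.eventually_lt_const ?_
    rw [hh0]
    positivity
  have e4 : ∀ᶠ z in 𝓝 x, (1 / 2 : ℝ) < vphi r (vh n g z) := by
    have h1 : ContinuousAt (fun z => vphi r (vh n g z)) x :=
      (vvol_phi_cont r).continuousAt.comp hhx
    refine h1.eventually_const_lt ?_
    change 1 / 2 < vphi r (vh n g x)
    rw [hh0]
    unfold vphi
    norm_num
  have e5 : ∀ᶠ z in 𝓝 x, z ∈ U := hU.mem_nhds hx
  obtain ⟨δ, hδ0, hδ⟩ := Metric.eventually_nhds_iff_ball.1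
    (e1.and (e2.and (e3.and (e4.and e5))))
  have hs : 0 < vJ n g x * δ ^ 2 := by positivity
  refine ⟨vJ n g x * δ ^ 2, hs, ?_⟩
  have hball : Metric.ball x δ ⊆ vW n g U r := fun z hz => ⟨(hδ z hz).2.2.2.2, (hδ z hz).2.2.1⟩
  have hcpt : IsCompact (closure (vW n g U r)) :=
    Metric.isCompact_of_isClosed_isBounded isClosed_closure hWb.closure
  have hFc : ContinuousOn (fun z => vphi r (vh n g z) * (vJ n g x * δ ^ 2) * vJ n g z /
      (vh n g z + vJ n g x * δ ^ 2) ^ 2) (closure (vW n g U r)) := by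
    have h1 := hhc.mono hW
    have h2 := hJc.mono hW
    refine ContinuousOn.div ?_ ((h1.add continuousOn_const).pow 2) ?_
    · exact (((vvol_phi_cont r).comp_continuousOn h1).mul continuousOn_const).mul h2
    · intro z _
      have h3 := vh_nonneg n g z
      positivity
  have hFi : IntegrableOn (fun z => vphi r (vh n g z) * (vJ n g x * δ ^ 2) * vJ n g z /
      (vh n g z + vJ n g x * δ ^ 2) ^ 2) (vW n g U r) :=
    (hFc.integrableOn_compact hcpt).mono_set subset_closure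
  have hlow : ∀ z ∈ Metric.ball x δ, 1 / (36 * δ ^ 2) ≤ vphi r (vh n g z) * (vJ n g x * δ ^ 2) *
      vJ n g z / (vh n g z + vJ n g x * δ ^ 2) ^ 2 := by
    intro z hz
    obtain ⟨b1, b2, b3, b4, b5⟩ := hδ z hz
    have hzn : ‖z - x‖ ^ 2 ≤ δ ^ 2 :=
      pow_le_pow_left₀ (norm_nonneg _) (mem_ball_iff_norm.1 hz).le 2
    have h0 := vh_nonneg n g z
    have h1 : vh n g z ≤ 2 * (vJ n g x * δ ^ 2) := by
      calc vh n g z ≤ 2 * vJ n g x * ‖z - x‖ ^ 2 := b1
        _ ≤ 2 * vJ n g x * δ ^ 2 := mul_le_mul_of_nonneg_left hzn (by positivity)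
        _ = 2 * (vJ n g x * δ ^ 2) := by ring
    have h2 : (vh n g z + vJ n g x * δ ^ 2) ^ 2 ≤ (3 * (vJ n g x * δ ^ 2)) ^ 2 :=
      pow_le_pow_left₀ (by positivity) (by linarith) 2
    have h3 : 1 / 2 * (vJ n g x * δ ^ 2) * (vJ n g x / 2) ≤
        vphi r (vh n g z) * (vJ n g x * δ ^ 2) * vJ n g z := by
      have h4 : 1 / 2 * (vJ n g x * δ ^ 2) ≤ vphi r (vh n g z) * (vJ n g x * δ ^ 2) :=
        mul_le_mul_of_nonneg_right b4.le hs.le
      exact mul_le_mul h4 b2.le (by positivity) (le_trans (by positivity) h4)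
    have h5 : 0 < (vh n g z + vJ n g x * δ ^ 2) ^ 2 := by positivity
    rw [div_le_div_iff₀ (by positivity) h5, one_mul]
    calc (vh n g z + vJ n g x * δ ^ 2) ^ 2 ≤ (3 * (vJ n g x * δ ^ 2)) ^ 2 := h2
      _ = 1 / 2 * (vJ n g x * δ ^ 2) * (vJ n g x / 2) * (36 * δ ^ 2) := by ring
      _ ≤ vphi r (vh n g z) * (vJ n g x * δ ^ 2) * vJ n g z * (36 * δ ^ 2) :=
        mul_le_mul_of_nonneg_right h3 (by positivity)
  have hvol : (volume : Measure ℂ).real (Metric.ball x δ) = Real.pi * δ ^ 2 := by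
    rw [Measure.real, Complex.volume_ball, ENNReal.toReal_mul, ENNReal.toReal_pow,
      ENNReal.toReal_ofReal hδ0.le, mul_comm]
    rfl
  have hfin : (volume : Measure ℂ) (Metric.ball x δ) ≠ ⊤ := measure_ball_lt_top.ne
  calc Real.pi / 36 = 1 / (36 * δ ^ 2) * (volume : Measure ℂ).real (Metric.ball x δ) := by
        rw [hvol]
        field_simp
    _ ≤ ∫ z in Metric.ball x δ, vphi r (vh n g z) * (vJ n g x * δ ^ 2) * vJ n g z /
        (vh n g z + vJ n g x * δ ^ 2) ^ 2 :=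
        setIntegral_ge_of_const_le_real measurableSet_ball hfin hlow (hFi.mono_set hball)
    _ ≤ ∫ z in vW n g U r, vphi r (vh n g z) * (vJ n g x * δ ^ 2) * vJ n g z /
        (vh n g z + vJ n g x * δ ^ 2) ^ 2 := by
        refine setIntegral_mono_set hFi ?_ hball.eventuallyLE
        refine Filter.Eventually.of_forall ?_
        intro z
        have h1 := vh_nonneg n g z
        have h2 := vJ_nonneg n g z
        have h3 : 0 ≤ vphi r (vh n g z) := by
          unfold vphi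
          positivity
        change 0 ≤ vphi r (vh n g z) * (vJ n g x * δ ^ 2) * vJ n g z /
          (vh n g z + vJ n g x * δ ^ 2) ^ 2
        positivity

/-- **Volume lemma** (Lelong): the image of the sublevel set under `(g_0, ..., g_{n-1})` has area at least
`π r² / 72`. -/
theorem volume_lemma {n : ℕ} {g : ℕ → ℂ → ℂ} {U : Set ℂ} (hU : IsOpen U)
    (hg : ∀ k < n, DifferentiableOn ℂ (g k) U) {x : ℂ} (hx : x ∈ U) (hgx : ∀ k < n, g k x = 0)
    (hd : 0 < vJ n g x) {r : ℝ} (hr : 0 < r)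
    (hW : closure (vW n g U r) ⊆ U) (hWb : Bornology.IsBounded (vW n g U r)) :
    Real.pi * r ^ 2 / 72 ≤ ∫ z in vW n g U r, vJ n g z := by
  obtain ⟨s, hs, h1⟩ := v_lower hU hg hx hgx hd hr hW hWb
  have h2 := v_ineq hU hg hr hs hW hWb
  have h3 := h1.trans h2
  have hr2 : 0 < r ^ 2 := by positivity
  rw [div_mul_eq_mul_div, le_div_iff₀ hr2] at h3
  linarith

end Pool.Agent.H.MP_e98f69_an
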