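import Pool.Agent.H.MP_e98f69_an.E.VSepA
import Pool.Agent.H.MP_e98f69_an.E.VVol

/-! The volume lemma for orbits. -/

set_option autoImplicit false

open Set Filter Topology Metric MeasureTheory

namespace Pool.Agent.H.MP_e98f69_an

variable {f : ℂ → ℂ} {K O : Set ℂ} {D : ℕ}

lemma vsepb_deriv (f : ℂ → ℂ) (x : ℂ) (k : ℕ) (z : ℂ) : deriv (gg f x k) z = deriv (f^[k]) z := by
  unfold gg
  exact deriv_sub_const _

/-- The volume lemma for the orbit of `x`, in the form of a lower integral.
Proof: `volume_lemma` with `g = gg f x`, `U = UU f K r0 n` (`vJ n g x ≥ 1` because `deriv (gg f x 0) x = 1`); `deriv (gg f x k) z =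
deriv (f^[k]) z`. The integral of the continuous nonnegative function `vJ` over the set `WW`, whose closure is a compact subset of
the open set `UU` on which `vJ` is continuous: `ofReal_integral_eq_lintegral_ofReal`; the sum of lower integrals: `lintegral_finset_sum`
(the functions `deriv (f^[k])` are measurable: `measurable_deriv`), `ENNReal.ofReal_sum_of_nonneg`. -/
theorem WW_volume (V : VData f K O D) {r0 r : ℝ} (h0 : cthickening r0 K ⊆ O) (hr : 0 < r)
    (hrr : r < r0) {n : ℕ} (hn : 1 ≤ n) {x : ℂ} (hx : x ∈ K) :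
    ENNReal.ofReal (Real.pi * r ^ 2 / 72) ≤
      ∑ k ∈ Finset.range n, ∫⁻ z in WW f K r0 r n x, ENNReal.ofReal (‖deriv (f^[k]) z‖ ^ 2) := by
  have hUo := UU_open V h0 n
  have hg : ∀ k < n, DifferentiableOn ℂ (gg f x k) (UU f K r0 n) := fun k hk =>
    (UU_diff V h0 n hk).sub_const _
  obtain ⟨hWo, hWb, hxW⟩ := WW_open V h0 hr hrr hn hx
  have hcl : closure (WW f K r0 r n x) ⊆ UU f K r0 n := WW_closure V h0 hr hrr hx
  have hJ : 0 < vJ n (gg f x) x := by
    unfold vJ
    have h1 : ‖deriv (gg f x 0) x‖ ^ 2 ≤ ∑ k ∈ Finset.range n, ‖deriv (gg f x k) x‖ ^ 2 :=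
      Finset.single_le_sum (f := fun k => ‖deriv (gg f x k) x‖ ^ 2) (fun k _ => by positivity)
        (Finset.mem_range.2 hn)
    have h2 : deriv (gg f x 0) x = 1 := by
      rw [vsepb_deriv, Function.iterate_zero]
      exact deriv_id x
    rw [h2, norm_one, one_pow] at h1
    linarith
  have h1 := volume_lemma hUo hg hxW.1 (fun k _ => sub_self _) hJ hr hcl hWb
  -- integrability
  have hcont : ContinuousOn (vJ n (gg f x)) (UU f K r0 n) := by
    unfold vJ
    refine continuousOn_finset_sum _ fun k hk => ?_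
    have h2 : ContinuousOn (deriv (gg f x k)) (UU f K r0 n) :=
      ((hg k (Finset.mem_range.1 hk)).deriv hUo).continuousOn
    exact h2.norm.pow 2
  have hint : IntegrableOn (vJ n (gg f x)) (WW f K r0 r n x) := by
    have h2 : IsCompact (closure (WW f K r0 r n x)) := hWb.isCompact_closure
    exact ((hcont.mono hcl).integrableOn_compact h2).mono_set subset_closure
  have h2 : ENNReal.ofReal (Real.pi * r ^ 2 / 72) ≤
      ENNReal.ofReal (∫ z in WW f K r0 r n x, vJ n (gg f x) z) := ENNReal.ofReal_le_ofReal h1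
  rw [ofReal_integral_eq_lintegral_ofReal hint
    (Eventually.of_forall fun z => vJ_nonneg n (gg f x) z)] at h2
  refine h2.trans (le_of_eq ?_)
  rw [← lintegral_finsetSum _ (fun k _ => by
    exact ENNReal.measurable_ofReal.comp ((measurable_deriv (f^[k])).norm.pow_const 2))]
  refine lintegral_congr fun z => ?_
  unfold vJ
  rw [ENNReal.ofReal_sum_of_nonneg (fun k _ => by positivity)]
  refine Finset.sum_congr rfl fun k _ => ?_
  rw [vsepb_deriv]

end Pool.Agent.H.MP_e98f69_an
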